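import Mathlib

/-! Continuation and growth of Dirichlet L-functions near the line of real part one. -/

namespace Pool.Agent.Lib.RankZero

open Finset Complex DirichletCharacter Filter Topology

theorem g_step {p a : ℝ} (hp : p ≤ 1) (h0 : p ≠ 0) (ha : 0 ≤ a) (h : 0 < a ∨ 0 < p) :
    (a + 1) ^ (p - 1) ≤ ((a + 1) ^ p - a ^ p) / p := by
  obtain ⟨c, hc, e⟩ := exists_hasDerivAt_eq_slope (fun t : ℝ => t ^ p) (fun t => p * t ^ (p - 1))
    (lt_add_one a) (continuousOn_id.rpow_const fun x hx => h.imp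
      (fun h => (h.trans_le hx.1).ne') le_of_lt)
    fun x hx => Real.hasDerivAt_rpow_const (Or.inl (ha.trans_lt hx.1).ne')
  rw [add_sub_cancel_left, div_one] at e
  rw [← e, mul_div_cancel_left₀ _ h0]
  exact Real.rpow_le_rpow_of_nonpos (ha.trans_lt hc.1) hc.2.le (by linarith)

theorem g_head {ε : ℝ} (h0 : 0 < ε) (h1 : ε ≤ 1) (N : ℕ) :
    ∑ n ∈ range N, ((n : ℝ) + 1) ^ (ε - 1) ≤ (N : ℝ) ^ ε / ε := by
  induction N with
  | zero => simp [Real.zero_rpow h0.ne']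
  | succ N ih =>
    have := g_step h1 h0.ne' (Nat.cast_nonneg N) (Or.inr h0)
    rw [sum_range_succ, Nat.cast_succ]
    rw [sub_div] at this
    linarith

theorem g_tail {σ : ℝ} (h0 : 0 < σ) {N : ℕ} (hN : 0 < N) (K : ℕ) :
    ∑ n ∈ range K, (((n + N : ℕ) : ℝ) + 1) ^ (-σ - 1) ≤ (N : ℝ) ^ (-σ) / σ := by
  have : ∑ n ∈ range K, (((n + N : ℕ) : ℝ) + 1) ^ (-σ - 1) ≤
      ((N : ℝ) ^ (-σ) - ((K + N : ℕ) : ℝ) ^ (-σ)) / σ := by
    induction K with
    | zero => simp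
    | succ K ih =>
      have := g_step (p := -σ) (a := ((K + N : ℕ) : ℝ)) (by linarith) (by linarith)
        (Nat.cast_nonneg _) (Or.inl (by positivity))
      rw [sum_range_succ, show ((K + 1 + N : ℕ) : ℝ) = ((K + N : ℕ) : ℝ) + 1 by push_cast; ring]
      rw [div_neg, ← neg_div, neg_sub, sub_div] at this
      rw [sub_div] at ih ⊢
      linarith
  refine this.trans (div_le_div_of_nonneg_right (sub_le_self _ (by positivity)) h0.le)

theorem g_summable {σ : ℝ} (h0 : 0 < σ) : Summable fun n : ℕ => ((n : ℝ) + 1) ^ (-σ - 1) := by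
  have := (summable_nat_add_iff 1).2 (Real.summable_nat_rpow.2 (show -σ - 1 < -1 by linarith))
  simpa using this

theorem g_bound {ε Y : ℝ} (h0 : 0 < ε) (h1 : ε ≤ 1 / 2) (hY : 1 ≤ Y) {σ : ℝ} (hσ : 1 - ε ≤ σ)
    {T : ℕ → ℂ} (hT : ∀ n, ‖T n‖ ≤ Y * ((n : ℝ) + 1) ^ (-σ - 1))
    (hH : ∀ N, ‖∑ n ∈ range N, T n‖ ≤
      2 * ∑ n ∈ range N, ((n : ℝ) + 1) ^ (-σ) + Y * ((N : ℝ) + 1) ^ (-σ)) :
    ‖∑' n, T n‖ ≤ (4 / ε + 6) * Y ^ ε := by
  have hσ0 : 0 < σ := by linarith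
  have hs : Summable fun n => ‖T n‖ :=
    Summable.of_nonneg_of_le (fun _ => norm_nonneg _) hT ((g_summable hσ0).mul_left Y)
  obtain ⟨N, hN1, hN2⟩ : ∃ N : ℕ, Y ≤ N ∧ (N : ℝ) ≤ 2 * Y :=
    ⟨⌈Y⌉₊, Nat.le_ceil Y, by have := Nat.ceil_lt_add_one (zero_le_one.trans hY); linarith⟩
  have hN : (1 : ℝ) ≤ N := hY.trans hN1
  have hN0 : 0 < N := by exact_mod_cast zero_lt_one.trans_le hN
  have e1 : (N : ℝ) ^ ε ≤ 2 * Y ^ ε := by
    calc (N : ℝ) ^ ε ≤ (2 * Y) ^ ε := Real.rpow_le_rpow (by positivity) hN2 h0.le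
      _ = 2 ^ ε * Y ^ ε := Real.mul_rpow (by norm_num) (by positivity)
      _ ≤ 2 ^ (1 : ℝ) * Y ^ ε := by
        gcongr
        · norm_num
        · linarith
      _ = _ := by rw [Real.rpow_one]
  have e2 : Y * (N : ℝ) ^ (-σ) ≤ (N : ℝ) ^ ε := by
    calc Y * (N : ℝ) ^ (-σ) ≤ (N : ℝ) ^ (1 : ℝ) * (N : ℝ) ^ (-σ) := by
          rw [Real.rpow_one]; gcongr
      _ = (N : ℝ) ^ (1 - σ) := by rw [← Real.rpow_add (by positivity)]; ring_nf
      _ ≤ _ := Real.rpow_le_rpow_of_exponent_le hN (by linarith)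
  have e3 : ∑ n ∈ range N, ((n : ℝ) + 1) ^ (-σ) ≤ (N : ℝ) ^ ε / ε :=
    (sum_le_sum fun n _ => Real.rpow_le_rpow_of_exponent_le
      (by linarith [Nat.cast_nonneg (α := ℝ) n]) (by linarith)).trans (g_head h0 (by linarith) N)
  have e4 : Y * ((N : ℝ) + 1) ^ (-σ) ≤ (N : ℝ) ^ ε :=
    le_trans (mul_le_mul_of_nonneg_left (Real.rpow_le_rpow_of_nonpos (by positivity)
      (by linarith) (by linarith)) (by positivity)) e2
  have e5 : ‖∑' n, T (n + N)‖ ≤ 2 * (N : ℝ) ^ ε := by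
    have hs' := (summable_nat_add_iff N).2 hs
    refine (norm_tsum_le_tsum_norm hs').trans (hs'.tsum_le_of_sum_le fun F => ?_)
    obtain ⟨K, hK⟩ := F.exists_nat_subset_range
    calc ∑ n ∈ F, ‖T (n + N)‖ ≤ ∑ n ∈ range K, ‖T (n + N)‖ :=
          sum_le_sum_of_subset_of_nonneg hK fun _ _ _ => norm_nonneg _
      _ ≤ ∑ n ∈ range K, Y * (((n + N : ℕ) : ℝ) + 1) ^ (-σ - 1) := sum_le_sum fun n _ => hT _
      _ ≤ Y * ((N : ℝ) ^ (-σ) / σ) := by
          rw [← mul_sum]; exact mul_le_mul_of_nonneg_left (g_tail hσ0 hN0 K) (by positivity)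
      _ ≤ (N : ℝ) ^ ε / σ := by rw [← mul_div_assoc]; gcongr
      _ ≤ 2 * (N : ℝ) ^ ε := by
          rw [div_le_iff₀ hσ0]
          have : 0 ≤ (N : ℝ) ^ ε := by positivity
          nlinarith
  rw [← hs.of_norm.sum_add_tsum_nat_add N]
  refine (norm_add_le _ _).trans ?_
  have e6 : (N : ℝ) ^ ε / ε ≤ 2 * Y ^ ε / ε := by gcongr
  have := hH N
  have e7 : (4 / ε + 6) * Y ^ ε = 2 * (2 * Y ^ ε / ε) + 3 * (2 * Y ^ ε) := by ring
  linarith

theorem g_diff {T : ℕ → ℂ → ℂ} {M : ℝ} (hM : 0 ≤ M) (hd : ∀ n, Differentiable ℂ (T n))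
    (hT : ∀ n s, 0 < s.re → ‖T n s‖ ≤ M * (‖s‖ + 1) ^ 2 * ((n : ℝ) + 1) ^ (-s.re - 1)) :
    DifferentiableOn ℂ (fun s => ∑' n, T n s) {s | 0 < s.re} := by
  intro s hs
  have hs' : 0 < s.re := hs
  have hU : IsOpen {w : ℂ | s.re / 2 < w.re ∧ ‖w‖ < ‖s‖ + 1} :=
    (isOpen_lt continuous_const continuous_re).inter (isOpen_lt continuous_norm continuous_const)
  refine ((differentiableOn_tsum_of_summable_norm
    ((g_summable (half_pos hs')).mul_left (M * (‖s‖ + 2) ^ 2))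
    (fun n => (hd n).differentiableOn) hU fun n w hw => ?_).differentiableAt
      (hU.mem_nhds ⟨half_lt_self hs', lt_add_one _⟩)).differentiableWithinAt
  refine (hT n w ((half_pos hs').trans hw.1)).trans ?_
  have h1 := hw.1
  have h2 : ‖w‖ + 1 ≤ ‖s‖ + 2 := by linarith [hw.2]
  refine mul_le_mul (by gcongr) (Real.rpow_le_rpow_of_exponent_le
    (by linarith [Nat.cast_nonneg (α := ℝ) n]) (by linarith)) (by positivity) (by positivity)

theorem g_ident {F G : ℂ → ℂ} (hF : DifferentiableOn ℂ F {s | 0 < s.re}) (hG : Differentiable ℂ G)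
    (h : ∀ s : ℂ, 1 < s.re → F s = G s) {s : ℂ} (hs : 0 < s.re) : F s = G s := by
  have ho : IsOpen {s : ℂ | 0 < s.re} := isOpen_lt continuous_const continuous_re
  exact (hF.analyticOnNhd ho).eqOn_of_preconnected_of_eventuallyEq
    (hG.differentiableOn.analyticOnNhd ho) (convex_halfSpace_re_gt 0).isPreconnected
    (show (2 : ℂ) ∈ {s : ℂ | 0 < s.re} by simp)
    (eventuallyEq_of_mem ((isOpen_lt continuous_const continuous_re).mem_nhds
      (show (1 : ℝ) < (2 : ℂ).re by simp)) h) hs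

theorem g_deriv (w : ℂ) {t : ℝ} (ht : 0 < t) :
    HasDerivAt (fun y : ℝ => (y : ℂ) ^ w) (w * (t : ℂ) ^ (w - 1)) t := by
  rcases eq_or_ne w 0 with rfl | h
  · simpa using hasDerivAt_const t (1 : ℂ)
  · exact hasDerivAt_ofReal_cpow_const ht.ne' h

theorem g_mvt {s : ℂ} (hs : 0 < s.re) {a t : ℝ} (ha : 0 < a) (h1 : a ≤ t) (h2 : t ≤ a + 1) :
    ‖(t : ℂ) ^ (-s) - (a : ℂ) ^ (-s)‖ ≤ ‖s‖ * a ^ (-s.re - 1) := by
  have := norm_image_sub_le_of_norm_deriv_le_segment' (f := fun y : ℝ => (y : ℂ) ^ (-s))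
    (f' := fun y : ℝ => -s * (y : ℂ) ^ (-s - 1)) (a := a) (b := t) (C := ‖s‖ * a ^ (-s.re - 1))
    (fun x hx => (g_deriv (-s) (ha.trans_le hx.1)).hasDerivWithinAt) (fun x hx => by
      rw [norm_mul, norm_neg, norm_cpow_eq_rpow_re_of_pos (ha.trans_le hx.1)]
      simp only [sub_re, neg_re, one_re]
      exact mul_le_mul_of_nonneg_left (Real.rpow_le_rpow_of_nonpos ha hx.1 (by linarith))
        (norm_nonneg _)) t ⟨h1, le_rfl⟩
  exact this.trans (mul_le_of_le_one_right (by positivity) (by linarith))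

/-- The terms of the Dirichlet series. -/
noncomputable def gU (n : ℕ) (s : ℂ) : ℂ := (((n : ℝ) + 1 : ℝ) : ℂ) ^ (-s)

theorem g_norm_U (n : ℕ) (s : ℂ) : ‖gU n s‖ = ((n : ℝ) + 1) ^ (-s.re) := by
  rw [gU, norm_cpow_eq_rpow_re_of_pos (by positivity), neg_re]

theorem g_diff_U (n : ℕ) : Differentiable ℂ (gU n) :=
  differentiable_neg.const_cpow (Or.inl (ofReal_ne_zero.2 (by positivity)))

theorem g_U_sub {s : ℂ} (hs : 0 < s.re) (n : ℕ) :
    ‖gU n s - gU (n + 1) s‖ ≤ ‖s‖ * ((n : ℝ) + 1) ^ (-s.re - 1) := by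
  rw [norm_sub_rev]
  exact g_mvt hs (by positivity) (by push_cast; linarith) (by push_cast; linarith)

theorem g_U_tendsto {s : ℂ} (hs : 0 < s.re) : Tendsto (fun n => ‖gU n s‖) atTop (𝓝 0) := by
  simp only [g_norm_U]
  exact (tendsto_rpow_neg_atTop hs).comp
    (tendsto_atTop_add_const_right _ 1 tendsto_natCast_atTop_atTop)

theorem g_U_summable {s : ℂ} (hs : 1 < s.re) : Summable fun n => ‖gU n s‖ := by
  simp only [g_norm_U]
  simpa using g_summable (σ := s.re - 1) (by linarith)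

theorem g_LSeries {f : ℕ → ℂ} {s : ℂ} (h : LSeriesSummable f s) :
    LSeries f s = ∑' n, f (n + 1) * gU n s := by
  rw [LSeries, h.tsum_eq_zero_add, LSeries.term_zero, zero_add]
  refine tsum_congr fun n => ?_
  rw [LSeries.term_of_ne_zero n.succ_ne_zero, gU, cpow_neg, div_eq_mul_inv]
  push_cast
  rfl

theorem g_zeta {s : ℂ} (hs : 1 < s.re) : riemannZeta s = ∑' n, gU n s := by
  rw [zeta_eq_tsum_one_div_nat_add_one_cpow hs]
  refine tsum_congr fun n => ?_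
  rw [gU, cpow_neg, one_div]
  push_cast
  rfl

theorem g_abel (f : ℕ → ℂ) (s : ℂ) (N : ℕ) :
    ∑ n ∈ range N, (∑ m ∈ range (n + 1), f m) * (gU n s - gU (n + 1) s) =
      ∑ n ∈ range N, f n * gU n s - (∑ m ∈ range N, f m) * gU N s := by
  induction N with
  | zero => simp
  | succ N ih => rw [sum_range_succ, ih, sum_range_succ (fun n => f n * gU n s), sum_range_succ f]; ring

theorem g_main {f : ℕ → ℂ} {M : ℝ} (hM : 1 ≤ M) (hf : ∀ n, ‖f n‖ ≤ 2)
    (hA : ∀ N, ‖∑ m ∈ range N, f m‖ ≤ M) : ∃ F : ℂ → ℂ, DifferentiableOn ℂ F {s | 0 < s.re} ∧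
      (∀ s : ℂ, 1 < s.re → F s = ∑' n, f n * gU n s) ∧
      (∀ ε : ℝ, 0 < ε → ε ≤ 1 / 2 → ∀ s : ℂ, 1 - ε ≤ s.re →
        ‖F s‖ ≤ (4 / ε + 6) * (M * (‖s‖ + 1)) ^ ε) ∧
      ((∀ n, (f n).im = 0) → ∀ β : ℝ, (F β).im = 0) := by
  have hT : ∀ (n : ℕ) (s : ℂ), 0 < s.re → ‖(∑ m ∈ range (n + 1), f m) * (gU n s - gU (n + 1) s)‖ ≤
      M * (‖s‖ + 1) * ((n : ℝ) + 1) ^ (-s.re - 1) := fun n s hs => by
    rw [norm_mul, mul_assoc]
    refine mul_le_mul (hA _) ((g_U_sub hs n).trans ?_) (norm_nonneg _) (by linarith)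
    gcongr
    linarith
  refine ⟨fun s => ∑' n, (∑ m ∈ range (n + 1), f m) * (gU n s - gU (n + 1) s),
    g_diff (M := M) (by linarith) (fun n => ((g_diff_U n).sub (g_diff_U _)).const_mul _)
      fun n s hs => (hT n s hs).trans ?_, fun s hs => ?_, fun ε h0 h1 s hs => ?_, fun h β => ?_⟩
  · gcongr
    nlinarith [norm_nonneg s]
  · have hs0 : 0 < s.re := by linarith
    have h1 : Summable fun n => (∑ m ∈ range (n + 1), f m) * (gU n s - gU (n + 1) s) :=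
      .of_norm_bounded ((g_summable hs0).mul_left _) fun n => hT n s hs0
    have h2 : Summable fun n => f n * gU n s :=
      .of_norm_bounded ((g_U_summable hs).mul_left 2) fun n => by
        rw [norm_mul]; exact mul_le_mul_of_nonneg_right (hf n) (norm_nonneg _)
    have h3 : Tendsto (fun N => (∑ m ∈ range N, f m) * gU N s) atTop (𝓝 0) :=
      squeeze_zero_norm (a := fun N => M * ‖gU N s‖) (fun N => by
        rw [norm_mul]; exact mul_le_mul_of_nonneg_right (hA N) (norm_nonneg _))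
        (by simpa using (g_U_tendsto hs0).const_mul M)
    refine tendsto_nhds_unique h1.hasSum.tendsto_sum_nat ?_
    simpa only [g_abel, sub_zero] using h2.hasSum.tendsto_sum_nat.sub h3
  · refine g_bound h0 h1 (by nlinarith [norm_nonneg s]) hs (fun n => hT n s (by linarith))
      fun N => ?_
    rw [g_abel, mul_sum]
    refine (norm_sub_le _ _).trans (add_le_add (norm_sum_le_of_le _ fun n _ => ?_) ?_)
    · rw [norm_mul, g_norm_U]; exact mul_le_mul_of_nonneg_right (hf n) (by positivity)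
    · rw [norm_mul, g_norm_U]
      exact mul_le_mul_of_nonneg_right ((hA N).trans (by nlinarith [norm_nonneg s]))
        (by positivity)
  · have hU : ∀ n, (gU n β).im = 0 := fun n => by
      rw [gU, ← ofReal_neg, ← ofReal_cpow (by positivity), ofReal_im]
    rw [← conj_eq_iff_im, conj_tsum]
    refine tsum_congr fun n => conj_eq_iff_im.2 ?_
    simp [mul_im, im_sum, h, hU]

theorem g_period {r : ℕ} [NeZero r] {h : ZMod r → ℂ} (h0 : ∑ a, h a = 0) (h2 : ∀ a, ‖h a‖ ≤ 2)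
    (N : ℕ) : ‖∑ m ∈ range N, h ((m + 1 : ℕ) : ZMod r)‖ ≤ 2 * r := by
  have key : ∀ k : ℕ, ∑ m ∈ range r, h ((k + m + 1 : ℕ) : ZMod r) = 0 := fun k => by
    rw [← h0, ← Equiv.sum_comp (Equiv.addLeft ((k + 1 : ℕ) : ZMod r))]
    refine sum_nbij' (fun m => (m : ZMod r)) ZMod.val (fun _ _ => mem_univ _)
      (fun a _ => mem_range.2 a.val_lt) (fun m hm => ZMod.val_cast_of_lt (mem_range.1 hm))
      (fun a _ => ZMod.natCast_zmod_val a) fun m _ => ?_
    congr 1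
    simp only [Equiv.coe_addLeft]
    push_cast
    ring
  induction N using Nat.strong_induction_on with
  | _ N ih =>
    rcases lt_or_ge N r with hN | hN
    · refine (norm_sum_le_of_le _ fun m _ => h2 _).trans ?_
      have : (N : ℝ) ≤ r := by exact_mod_cast hN.le
      simp only [sum_const, card_range, nsmul_eq_mul]
      linarith
    · obtain ⟨K, rfl⟩ := Nat.exists_eq_add_of_le' hN
      rw [sum_range_add, key, add_zero]
      exact ih K (by have := NeZero.pos r; omega)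

theorem g_two_rpow {ε x : ℝ} (h1 : ε ≤ 1 / 2) (hx : 0 ≤ x) : (2 * x) ^ ε ≤ 2 * x ^ ε := by
  rw [Real.mul_rpow (by norm_num) hx]
  refine mul_le_mul_of_nonneg_right ?_ (by positivity)
  simpa using Real.rpow_le_rpow_of_exponent_le (x := 2) (by norm_num) (show ε ≤ 1 by linarith)

theorem g_chi {r : ℕ} [NeZero r] {χ : DirichletCharacter ℂ r} (h1 : χ ≠ 1) :
    (∀ ε : ℝ, 0 < ε → ε ≤ 1 / 2 → ∀ s : ℂ, 1 - ε ≤ s.re →
      ‖LFunction χ s‖ ≤ (4 / ε + 6) * (2 * r * (‖s‖ + 1)) ^ ε) ∧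
    ((∀ a, (χ a).im = 0) → ∀ β : ℝ, 0 < β → (LFunction χ β).im = 0) := by
  have hr : (1 : ℝ) ≤ r := by exact_mod_cast NeZero.one_le
  obtain ⟨F, hF, e, hb, hi⟩ := g_main (f := fun m => χ ((m + 1 : ℕ) : ZMod r)) (M := 2 * r)
    (by linarith) (fun n => (χ.norm_le_one _).trans one_le_two)
    (g_period (χ.sum_eq_zero_of_ne_one h1) fun a => (χ.norm_le_one _).trans one_le_two)
  have e' : ∀ s : ℂ, 0 < s.re → F s = LFunction χ s := fun s hs =>
    g_ident hF (differentiable_LFunction h1) (fun s hs => by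
      rw [e s hs, LFunction_eq_LSeries χ hs, g_LSeries (LSeriesSummable_of_one_lt_re χ hs)]) hs
  refine ⟨fun ε h0 h1 s hs => ?_, fun h β hβ => ?_⟩
  · rw [← e' s (by linarith)]; exact hb ε h0 h1 s hs
  · rw [← e' β (by simpa using hβ)]; exact hi (fun n => h _) β

theorem L_bound {ε : ℝ} (h0 : 0 < ε) (h1 : ε ≤ 1 / 2) : ∃ C : ℝ, 1 ≤ C ∧
    ∀ (r : ℕ) [NeZero r] (χ : DirichletCharacter ℂ r), χ ≠ 1 → ∀ s : ℂ, 1 - ε ≤ s.re →
      ‖LFunction χ s‖ ≤ C * (r * (‖s‖ + 1)) ^ ε := by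
  refine ⟨(4 / ε + 6) * 2, by have : 0 < 4 / ε := by positivity
                              linarith, fun r _ χ hχ s hs => ?_⟩
  refine ((g_chi hχ).1 ε h0 h1 s hs).trans ?_
  rw [mul_assoc, mul_assoc]
  exact mul_le_mul_of_nonneg_left (g_two_rpow h1 (by positivity)) (by positivity)

theorem L_real {r : ℕ} [NeZero r] {χ : DirichletCharacter ℂ r} (h2 : χ ^ 2 = 1) (h1 : χ ≠ 1)
    {β : ℝ} (hβ : 0 < β) : (LFunction χ β).im = 0 :=
  (g_chi h1).2 (fun a => by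
    rcases MulChar.isQuadratic_iff_sq_eq_one.2 h2 a with h | h | h <;> simp [h]) β hβ

theorem g_W {s : ℂ} {K : ℝ} (n : ℕ)
    (h : ∀ t : ℝ, (n : ℝ) + 1 ≤ t → t ≤ (n : ℝ) + 1 + 1 → ‖(t : ℂ) ^ (-s) - gU n s‖ ≤ K) :
    ‖(s - 1) * gU n s - gU n (s - 1) + gU (n + 1) (s - 1)‖ ≤ ‖s - 1‖ * K := by
  have hn : (0 : ℝ) < (n : ℝ) + 1 := by positivity
  have := norm_image_sub_le_of_norm_deriv_le_segment'
    (f := fun y : ℝ => (y : ℂ) ^ (-(s - 1)) + (s - 1) * gU n s * y)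
    (f' := fun y : ℝ => -(s - 1) * ((y : ℂ) ^ (-s) - gU n s)) (a := (n : ℝ) + 1)
    (b := (n : ℝ) + 1 + 1) (C := ‖s - 1‖ * K)
    (fun x hx => by
      have := (g_deriv (-(s - 1)) (hn.trans_le hx.1)).add
        ((ofRealCLM.hasDerivAt (x := x)).const_mul ((s - 1) * gU n s))
      refine (this.hasDerivWithinAt).congr_deriv ?_
      rw [show -(s - 1) - 1 = -s by ring]
      simp only [ofRealCLM_apply, ofReal_one]
      ring)
    (fun x hx => by
      rw [norm_mul, norm_neg]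
      exact mul_le_mul_of_nonneg_left (h x hx.1 hx.2.le) (norm_nonneg _))
    _ ⟨by linarith, le_rfl⟩
  rw [add_sub_cancel_left, mul_one] at this
  refine le_of_eq_of_le (congrArg norm ?_) this
  simp only [gU]
  push_cast
  ring

theorem g_zeta0 {ε : ℝ} (h0 : 0 < ε) (h1 : ε ≤ 1 / 2) {s : ℂ} (hs : 1 - ε ≤ s.re) (hs1 : s ≠ 1) :
    ‖riemannZeta₀ s‖ ≤ (4 / ε + 6) * (‖s‖ + 1) ^ ε := by
  have hW : ∀ (n : ℕ) (s : ℂ), 0 < s.re → ‖(s - 1) * gU n s - gU n (s - 1) + gU (n + 1) (s - 1)‖ ≤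
      ‖s - 1‖ * (‖s‖ * ((n : ℝ) + 1) ^ (-s.re - 1)) := fun n s hs =>
    g_W n fun t h1 h2 => g_mvt hs (by positivity) h1 h2
  have hd := g_diff (M := 1) (T := fun n s => (s - 1) * gU n s - gU n (s - 1) + gU (n + 1) (s - 1))
    zero_le_one (fun n => by
      have := g_diff_U n
      have := g_diff_U (n + 1)
      fun_prop) fun n s hs => (hW n s hs).trans (by
        rw [← mul_assoc, one_mul, sq]
        have : ‖s - 1‖ ≤ ‖s‖ + 1 := by simpa using norm_sub_le s 1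
        gcongr
        linarith)
  have hs0 : 0 < s.re := by linarith
  have e := g_ident hd (G := fun s => (s - 1) * riemannZeta₀ s) (by fun_prop) (fun s hs => by
    have hs0 : 0 < s.re := by linarith
    have hs1 : s ≠ 1 := by rintro rfl; simp at hs
    have h1 : Summable fun n => (s - 1) * gU n s - gU n (s - 1) + gU (n + 1) (s - 1) :=
      .of_norm_bounded (((g_summable hs0).mul_left _).mul_left _) fun n => hW n s hs0
    have h2 := ((g_U_summable hs).of_norm.mul_left (s - 1)).hasSum.tendsto_sum_nat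
    have h3 : Tendsto (fun n => gU n (s - 1)) atTop (𝓝 0) :=
      tendsto_zero_iff_norm_tendsto_zero.2 (g_U_tendsto (by simpa using hs))
    refine tendsto_nhds_unique h1.hasSum.tendsto_sum_nat ?_
    have h4 : ∀ N, ∑ n ∈ range N, ((s - 1) * gU n s - gU n (s - 1) + gU (n + 1) (s - 1)) =
        ∑ n ∈ range N, (s - 1) * gU n s + gU N (s - 1) - 1 := fun N => by
      induction N with
      | zero => simp [gU]
      | succ N ih => rw [sum_range_succ, ih, sum_range_succ]; ring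
    have h5 : (s - 1) * riemannZeta₀ s = ∑' n, (s - 1) * gU n s + 0 - 1 := by
      rw [tsum_mul_left, ← g_zeta hs, riemannZeta_eq_inv_sub_add hs1, mul_add,
        mul_inv_cancel₀ (sub_ne_zero.2 hs1)]
      ring
    simp only [h4, h5]
    exact (h2.add h3).sub_const 1) hs0
  have hne : s - 1 ≠ 0 := sub_ne_zero.2 hs1
  have e' : riemannZeta₀ s =
      ∑' n, (s - 1)⁻¹ * ((s - 1) * gU n s - gU n (s - 1) + gU (n + 1) (s - 1)) := by
    rw [tsum_mul_left, e, inv_mul_cancel_left₀ hne]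
  have hq : ∀ {z : ℂ} {K : ℝ}, ‖z‖ ≤ ‖s - 1‖ * K → ‖(s - 1)⁻¹ * z‖ ≤ K := fun h => by
    rwa [norm_mul, norm_inv, inv_mul_le_iff₀ (norm_pos_iff.2 hne)]
  rw [e']
  refine g_bound h0 h1 (by linarith [norm_nonneg s]) hs (fun n => (hq (hW n s hs0)).trans ?_)
    fun N => ?_
  · gcongr
    linarith
  · rw [mul_sum]
    refine le_add_of_le_of_nonneg (norm_sum_le_of_le _ fun n _ => hq (g_W n fun t h1 _ => ?_))
      (by positivity)
    refine (norm_sub_le _ _).trans ?_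
    have hn : (0 : ℝ) < (n : ℝ) + 1 := by positivity
    rw [g_norm_U, norm_cpow_eq_rpow_re_of_pos (hn.trans_le h1), neg_re]
    have := Real.rpow_le_rpow_of_nonpos hn h1 (show -s.re ≤ 0 by linarith)
    linarith

theorem g_zeta0' {ε : ℝ} (h0 : 0 < ε) (h1 : ε ≤ 1 / 2) : ∃ C : ℝ, 1 ≤ C ∧ ∀ s : ℂ, 1 - ε ≤ s.re →
    ‖riemannZeta₀ s‖ ≤ C * (‖s‖ + 1) ^ ε := by
  have h4 : 0 < 4 / ε := by positivity
  refine ⟨4 / ε + 6 + ‖riemannZeta₀ 1‖, by linarith [norm_nonneg (riemannZeta₀ 1)], fun s hs => ?_⟩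
  have h2 : 1 ≤ (‖s‖ + 1) ^ ε := Real.one_le_rpow (by linarith [norm_nonneg s]) h0.le
  rcases eq_or_ne s 1 with rfl | h
  · nlinarith [norm_nonneg (riemannZeta₀ 1)]
  · nlinarith [norm_nonneg (riemannZeta₀ 1), g_zeta0 h0 h1 hs h]

theorem exists_Z : ∃ Z : ℂ → ℂ, DifferentiableOn ℂ Z {s | 0 < s.re} ∧
    (∀ s : ℂ, 0 < s.re → s ≠ 1 → Z s = riemannZeta s - (s - 1)⁻¹) ∧
    (∀ β : ℝ, 0 < β → (Z β).im = 0) ∧
    ∀ ε : ℝ, 0 < ε → ε ≤ 1 / 2 → ∃ C : ℝ, 1 ≤ C ∧ ∀ s : ℂ, 1 - ε ≤ s.re →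
      ‖Z s‖ ≤ C * (‖s‖ + 1) ^ ε := by
  refine ⟨riemannZeta₀, differentiable_riemannZeta₀.differentiableOn,
    fun s _ h => by simp [riemannZeta₀, h], fun β _ => ?_, fun ε h0 h1 => g_zeta0' h0 h1⟩
  have : (riemannZeta β).im = 0 := by
    rw [← conj_eq_iff_im, ← riemannZeta_conj, conj_ofReal]
  unfold riemannZeta₀
  split_ifs
  · simp
  · rw [sub_im, this, ← ofReal_one, ← ofReal_sub, ← ofReal_inv, ofReal_im, sub_zero]

theorem L_triv_bound {ε : ℝ} (h0 : 0 < ε) (h1 : ε ≤ 1 / 2) : ∃ C : ℝ, 1 ≤ C ∧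
    ∀ (r : ℕ) [NeZero r] (s : ℂ), 1 < s.re →
      ‖LFunction (1 : DirichletCharacter ℂ r) s‖ ≤ ‖s - 1‖⁻¹ + C * (r * (‖s‖ + 1)) ^ ε := by
  obtain ⟨C, hC, hZ⟩ := g_zeta0' h0 h1
  have h4 : 0 < 4 / ε := by positivity
  refine ⟨C + (4 / ε + 6) * 2, by linarith, fun r _ s hs => ?_⟩
  have hr : (1 : ℝ) ≤ r := by exact_mod_cast NeZero.one_le
  have hr0 : (r : ℂ) ≠ 0 := by exact_mod_cast NeZero.ne r
  set χ : DirichletCharacter ℂ r := 1
  set c : ℂ := (∑ a, χ a) / r with hc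
  have hc1 : ‖c‖ ≤ 1 := by
    rw [hc, norm_div, Complex.norm_natCast, div_le_one (by linarith)]
    simpa using norm_sum_le_of_le univ fun a _ => χ.norm_le_one a
  have h2 : ∀ a, ‖χ a - c‖ ≤ 2 := fun a => (norm_sub_le _ _).trans (by linarith [χ.norm_le_one a])
  obtain ⟨F, -, e, hb, -⟩ := g_main (f := fun m => χ ((m + 1 : ℕ) : ZMod r) - c) (M := 2 * r)
    (by linarith) (fun n => h2 _)
    (g_period (h := fun a => χ a - c) (by simp [hc, mul_div_cancel₀ _ hr0]) h2)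
  have hs1 : s ≠ 1 := by rintro rfl; simp at hs
  have hU := g_U_summable hs
  have e' : LFunction χ s = c * riemannZeta s + F s := by
    rw [e s hs, LFunction_eq_LSeries χ hs, g_LSeries (LSeriesSummable_of_one_lt_re χ hs),
      g_zeta hs, ← tsum_mul_left, ← (hU.of_norm.mul_left c).tsum_add]
    · exact tsum_congr fun n => by ring
    · exact .of_norm_bounded (hU.mul_left 2) fun n => by
        rw [norm_mul]; exact mul_le_mul_of_nonneg_right (h2 _) (norm_nonneg _)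
  have a1 : ‖c * riemannZeta s‖ ≤ ‖s - 1‖⁻¹ + C * (r * (‖s‖ + 1)) ^ ε := by
    rw [norm_mul]
    refine (mul_le_of_le_one_left (norm_nonneg _) hc1).trans ?_
    rw [riemannZeta_eq_inv_sub_add hs1, ← norm_inv]
    refine (norm_add_le _ _).trans (add_le_add_right ((hZ s (by linarith)).trans ?_) _)
    gcongr
    nlinarith [norm_nonneg s]
  have a2 := hb ε h0 h1 s (by linarith)
  have a3 := mul_le_mul_of_nonneg_left (g_two_rpow (x := r * (‖s‖ + 1)) h1 (by positivity))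
    (show 0 ≤ 4 / ε + 6 by positivity)
  rw [mul_assoc] at a2
  rw [e']
  refine (norm_add_le _ _).trans ?_
  linarith

end Pool.Agent.Lib.RankZero
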