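import Pool.Agent.Lib.MP_6073f3_nt.Z.Growth

/-!
Siegel's lower bound for `L(1, χ)`, by Estermann's method.
-/

namespace Pool.Agent.Lib.RankZero

open Finset Complex DirichletCharacter ArithmeticFunction
open scoped ComplexOrder Nat

theorem si_real {c : ℕ → ℝ} {x l B T : ℝ} (hx1 : 1 < x) (hx2 : x ≤ 9 / 8) (hl : 0 ≤ l)
    (hB : 1 ≤ B) (h0 : 1 - l ≤ c 0) (h1 : ∀ m, -l ≤ c m) (h2 : ∀ m, |c m| ≤ B * (2 / 3) ^ m)
    (hs : HasSum (fun m => c m * x ^ m) T) (hT : T ≤ l / (x - 1)) :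
    x - 1 ≤ 6 * (8 * B) ^ (4 * (x - 1)) * l := by
  have hlog : 0 < Real.log (8 * B) := Real.log_pos (by linarith)
  obtain ⟨K, hK⟩ : ∃ K : ℕ, ⌈4 * Real.log (8 * B)⌉₊ = K + 1 :=
    Nat.exists_eq_succ_of_ne_zero (Nat.ceil_pos.2 (by linarith)).ne'
  have hK1 : 4 * Real.log (8 * B) ≤ (K + 1 : ℕ) := hK ▸ Nat.le_ceil _
  have hK2 : ((K + 1 : ℕ) : ℝ) ≤ 4 * Real.log (8 * B) + 1 :=
    hK ▸ (Nat.ceil_lt_add_one (by linarith)).le
  have hx0 : 0 ≤ x := by linarith
  have htail : -(B * (3 / 4) ^ (K + 1)) * 4 ≤ T - ∑ m ∈ range (K + 1), c m * x ^ m := by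
    have hg := (hasSum_geometric_of_lt_one (r := (3 / 4 : ℝ)) (by norm_num) (by norm_num)).mul_left
      (-(B * (3 / 4) ^ (K + 1)))
    rw [show (1 - 3 / 4 : ℝ)⁻¹ = 4 by norm_num] at hg
    refine hasSum_le (fun n => ?_) hg ((hasSum_nat_add_iff' (K + 1)).2 hs)
    have e1 : |c (n + (K + 1)) * x ^ (n + (K + 1))| ≤ B * (3 / 4) ^ (n + (K + 1)) := by
      rw [abs_mul, abs_of_nonneg (pow_nonneg hx0 _)]
      calc _ ≤ B * (2 / 3) ^ (n + (K + 1)) * (9 / 8) ^ (n + (K + 1)) := by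
            gcongr
            exact h2 _
        _ = _ := by rw [mul_assoc, ← mul_pow]; norm_num
    have := (abs_le.1 e1).1
    rw [pow_add] at this
    linarith
  have hsmall : B * (3 / 4) ^ (K + 1) ≤ 1 / 8 := by
    have e1 : (3 / 4 : ℝ) ≤ Real.exp (-(1 / 4)) := by
      have := Real.add_one_le_exp (-(1 / 4))
      linarith
    have e2 : (3 / 4 : ℝ) ^ (K + 1) ≤ (8 * B)⁻¹ := by
      calc _ ≤ Real.exp (-(1 / 4)) ^ (K + 1) := by gcongr
        _ = Real.exp ((K + 1 : ℕ) * -(1 / 4)) := (Real.exp_nat_mul _ _).symm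
        _ ≤ Real.exp (-Real.log (8 * B)) := Real.exp_le_exp.2 (by linarith)
        _ = _ := by rw [Real.exp_neg, Real.exp_log (by linarith)]
    calc _ ≤ B * (8 * B)⁻¹ := by gcongr
      _ = _ := by field_simp
  have hhead : 1 - l * ((x ^ (K + 1) - 1) / (x - 1)) ≤ ∑ m ∈ range (K + 1), c m * x ^ m := by
    rw [← geom_sum_eq hx1.ne', mul_sum, sum_range_succ', sum_range_succ']
    have : ∑ m ∈ range K, -(l * x ^ (m + 1)) ≤ ∑ m ∈ range K, c (m + 1) * x ^ (m + 1) :=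
      sum_le_sum fun m _ => by
        have := mul_le_mul_of_nonneg_right (h1 (m + 1)) (pow_nonneg hx0 (m + 1))
        linarith
    rw [sum_neg_distrib] at this
    simp only [pow_zero, mul_one]
    linarith
  have hpow : x ^ (K + 1) ≤ 3 * (8 * B) ^ (4 * (x - 1)) := by
    have e1 : x ≤ Real.exp (x - 1) := by
      have := Real.add_one_le_exp (x - 1)
      linarith
    calc _ ≤ Real.exp (x - 1) ^ (K + 1) := by gcongr
      _ = Real.exp ((K + 1 : ℕ) * (x - 1)) := (Real.exp_nat_mul _ _).symm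
      _ ≤ Real.exp (1 + Real.log (8 * B) * (4 * (x - 1))) := Real.exp_le_exp.2 (by nlinarith)
      _ = Real.exp 1 * (8 * B) ^ (4 * (x - 1)) := by
          rw [Real.exp_add, Real.rpow_def_of_pos (by linarith)]
      _ ≤ _ := by
          gcongr
          exact Real.exp_one_lt_three.le
  have hx3 : 0 < x - 1 := by linarith
  have e : 1 / 2 ≤ l * x ^ (K + 1) / (x - 1) := by
    have : l * ((x ^ (K + 1) - 1) / (x - 1)) = l * x ^ (K + 1) / (x - 1) - l / (x - 1) := by ring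
    linarith
  rw [le_div_iff₀ hx3] at e
  nlinarith [mul_le_mul_of_nonneg_left hpow hl]

theorem si_sphere {s : ℂ} (hs : s ∈ Metric.closedBall (2 : ℂ) (3 / 2)) :
    1 / 2 ≤ s.re ∧ ‖s‖ ≤ 7 / 2 := by
  rw [Metric.mem_closedBall, dist_eq_norm] at hs
  have h1 := (abs_le.1 ((abs_re_le_norm (s - 2)).trans hs)).1
  have h2 := norm_add_le (s - 2) 2
  simp only [sub_re, re_ofNat, sub_add_cancel, Complex.norm_ofNat] at h1 h2
  constructor <;> linarith

/-- Estermann's lemma -/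
theorem si_est : ∃ C : ℝ, 1 ≤ C ∧ ∀ (a : ℕ → ℂ) (f : ℂ → ℂ) (M β : ℝ), 0 ≤ a → a 1 = 1 →
    (∀ s : ℂ, 1 < s.re → LSeriesSummable a s) → Differentiable ℂ f →
    (∀ s : ℂ, 1 < s.re → LSeries a s = riemannZeta s * f s) → 1 ≤ M →
    (∀ s ∈ Metric.sphere (2 : ℂ) (3 / 2), ‖f s‖ ≤ M) → 7 / 8 ≤ β → β < 1 →
    (riemannZeta β * f β).re ≤ 0 → 1 - β ≤ C * M ^ (4 * (1 - β)) * ‖f 1‖ := by
  obtain ⟨Z, hZ, hZ1, -, -⟩ := exists_Z
  have hsub : Metric.closedBall (2 : ℂ) (3 / 2) ⊆ {s | 0 < s.re} := fun s hs =>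
    lt_of_lt_of_le (by norm_num) (si_sphere hs).1
  obtain ⟨C, hC⟩ := (isCompact_closedBall (2 : ℂ) (3 / 2)).exists_bound_of_continuousOn
    (hZ.continuousOn.mono hsub)
  have hC0 : 0 ≤ C := (norm_nonneg _).trans (hC 2 (Metric.mem_closedBall_self (by norm_num)))
  refine ⟨6 * (8 * (C + 4)), by linarith, fun a f M β ha ha1 hsum hf hL hM hfM hβ hβ1 hneg => ?_⟩
  have hMp : 1 ≤ M ^ (4 * (1 - β)) := Real.one_le_rpow hM (by linarith)
  rcases le_or_gt 1 ‖f 1‖ with hl | hl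
  · have : 1 ≤ 6 * (8 * (C + 4)) * M ^ (4 * (1 - β)) * ‖f 1‖ :=
      one_le_mul_of_one_le_of_one_le (one_le_mul_of_one_le_of_one_le (by linarith) hMp) hl
    linarith
  set G : ℂ → ℂ := fun s => Z s * f s + dslope f 1 s with hG
  have hGd : DifferentiableOn ℂ G {s | 0 < s.re} := (hZ.mul hf.differentiableOn).add
    (((differentiableOn_dslope Filter.univ_mem).2 hf.differentiableOn).mono (Set.subset_univ _))
  have hGe (s : ℂ) (h0 : 0 < s.re) (h1 : s ≠ 1) :
      G s = riemannZeta s * f s - f 1 * (1 * s - 1)⁻¹ := by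
    simp only [hG, hZ1 s h0 h1, dslope_of_ne f h1, slope_def_field, div_eq_mul_inv, one_mul]
    ring
  have hGb (s : ℂ) (hs : s ∈ Metric.sphere (2 : ℂ) (3 / 2)) : ‖G s‖ ≤ (C + 4) * M := by
    have h1 : 1 / 2 ≤ ‖s - 1‖ := by
      have := norm_sub_le (s - 1) 1
      rw [show s - 1 - 1 = s - 2 by ring, mem_sphere_iff_norm.1 hs, norm_one] at this
      linarith
    have h2 : s ≠ 1 := fun e => by rw [e] at h1; norm_num at h1
    have h3 : ‖dslope f 1 s‖ ≤ 4 * M := by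
      rw [dslope_of_ne f h2, slope_def_field, norm_div, div_le_iff₀ (by linarith)]
      have := norm_sub_le (f s) (f 1)
      nlinarith [hfM s hs]
    have h4 : ‖Z s * f s‖ ≤ C * M := by
      rw [norm_mul]
      exact mul_le_mul (hC s (Metric.sphere_subset_closedBall hs)) (hfM s hs) (norm_nonneg _) hC0
    linarith [norm_add_le (Z s * f s) (dslope f 1 s)]
  have habs : LSeries.abscissaOfAbsConv a < (2 : ℝ) :=
    (LSeries.abscissaOfAbsConv_le_of_forall_lt_LSeriesSummable (x := 1)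
      fun y hy => hsum y hy).trans_lt (by exact_mod_cast one_lt_two)
  have hopen : IsOpen {s : ℂ | 1 < s.re} := isOpen_lt continuous_const continuous_re
  have hev : G =ᶠ[nhds 2] LSeries a - fun s => f 1 * (1 * s - 1)⁻¹ := by
    filter_upwards [hopen.mem_nhds (show (2 : ℂ) ∈ _ by simp)] with s hs
    rw [hGe s (lt_trans one_pos hs) (fun e => by simp [e] at hs), Pi.sub_apply, hL s hs]
  have hder (m : ℕ) : (m ! : ℂ)⁻¹ * ((-1) ^ m * iteratedDeriv m G 2) =
      (m ! : ℂ)⁻¹ * ((-1) ^ m * iteratedDeriv m (LSeries a) (2 : ℝ)) - f 1 := by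
    have h1 : ContDiffAt ℂ m (LSeries a) 2 :=
      (LSeries_analyticOnNhd a 2 (by simpa using habs)).contDiffAt
    have h2 : ContDiffAt ℂ m (fun s : ℂ => f 1 * (1 * s - 1)⁻¹) 2 :=
      contDiffAt_const.mul (ContDiffAt.inv (by fun_prop) (by norm_num))
    have h3 : (m ! : ℂ) ≠ 0 := by exact_mod_cast m.factorial_ne_zero
    have h4 : ((-1 : ℂ)) ^ m * (-1) ^ m = 1 := by rw [← mul_pow]; simp
    rw [hev.iteratedDeriv_eq, iteratedDeriv_sub h1 h2, iteratedDeriv_const_mul_field,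
      iteratedDeriv_eq_iterate (f := fun s : ℂ => (1 * s - 1)⁻¹), iter_deriv_inv_linear_sub]
    norm_num
    field_simp
    linear_combination (-(m ! : ℂ) * f 1) * h4
  have hpos (m : ℕ) : 0 ≤ ((m ! : ℂ)⁻¹ * ((-1) ^ m * iteratedDeriv m (LSeries a) (2 : ℝ))).re :=
    (Complex.nonneg_iff.1 (mul_nonneg (by positivity)
      (LSeries.iteratedDeriv_alternating ha habs m))).1
  have hre := abs_le.1 (abs_re_le_norm (f 1))
  have hball : (β : ℂ) ∈ Metric.ball (2 : ℂ) (3 / 2) := by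
    rw [Metric.mem_ball, dist_eq_norm, show (β : ℂ) - 2 = ((β - 2 : ℝ) : ℂ) by push_cast; ring,
      norm_real, Real.norm_eq_abs, abs_lt]
    constructor <;> linarith
  have hT := hasSum_re (hasSum_taylorSeries_on_ball
    (hGd.mono (Metric.ball_subset_closedBall.trans hsub)) hball)
  have key := si_real (c := fun m => ((m ! : ℂ)⁻¹ * ((-1) ^ m * iteratedDeriv m G 2)).re)
    (x := 2 - β) (l := ‖f 1‖) (B := (C + 4) * M) (T := (G β).re) (by linarith) (by linarith)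
    (norm_nonneg _) (by nlinarith) ?_ (fun m => ?_) (fun m => ?_) ?_ ?_
  · rw [show 2 - β - 1 = 1 - β by ring, ← mul_assoc 8,
      Real.mul_rpow (by linarith) (by linarith)] at key
    refine key.trans ?_
    rw [← mul_assoc]
    gcongr
    exact Real.rpow_le_self_of_one_le (by linarith) (by linarith)
  · have h1 : 1 ≤ (LSeries a (2 : ℝ)).re := by
      have := (hsum (2 : ℝ) (by simp)).le_tsum 1 fun n _ => LSeries.term_nonneg (ha n) 2
      rw [LSeries.term_of_ne_zero one_ne_zero, ha1] at this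
      simpa [LSeries] using (Complex.le_def.1 this).1
    rw [hder, sub_re]
    simp only [Nat.factorial_zero, Nat.cast_one, inv_one, pow_zero, iteratedDeriv_zero, one_mul]
    linarith
  · rw [hder, sub_re]
    linarith [hpos m]
  · refine (abs_re_le_norm _).trans ?_
    have := norm_iteratedDeriv_le_of_forall_mem_sphere_norm_le m (by norm_num)
      ((hGd.mono (by rwa [closure_ball _ (by norm_num)])).diffContOnCl) hGb
    have h3 : (0 : ℝ) < m ! := by exact_mod_cast m.factorial_pos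
    rw [norm_mul, norm_mul, norm_inv, norm_pow, norm_neg, norm_one, one_pow, one_mul,
      Complex.norm_natCast, inv_mul_le_iff₀ h3]
    refine this.trans (le_of_eq ?_)
    rw [div_pow, div_pow]
    field_simp
  · convert hT using 2 with m
    rw [← re_mul_ofReal, smul_eq_mul, smul_eq_mul, show (β : ℂ) - 2 = -1 * (2 - β) by ring, mul_pow]
    push_cast
    ring_nf
  · have h1 : (β : ℂ) ≠ 1 := by exact_mod_cast hβ1.ne
    rw [hGe β (by simp; linarith) h1, show (1 * β - 1 : ℂ)⁻¹ = ((-(2 - β - 1)⁻¹ : ℝ) : ℂ) by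
      push_cast; rw [← inv_neg]; ring_nf, sub_re, re_mul_ofReal, div_eq_mul_inv]
    have : 0 ≤ (2 - β - 1)⁻¹ := inv_nonneg.2 (by linarith)
    nlinarith

/-- a character as an arithmetic function -/
noncomputable def siT {N : ℕ} (χ : DirichletCharacter ℂ N) : ArithmeticFunction ℂ :=
  toArithmeticFunction (χ ·)

theorem siT_apply {N : ℕ} (χ : DirichletCharacter ℂ N) {n : ℕ} (hn : n ≠ 0) : siT χ n = χ n :=
  (χ.apply_eq_toArithmeticFunction_apply hn).symm

theorem si_pmul {N : ℕ} (χ ψ : DirichletCharacter ℂ N) :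
    (siT ψ).pmul (zetaMul χ) = siT ψ * siT (χ * ψ) := by
  ext n
  rcases eq_or_ne n 0 with rfl | hn
  · simp
  rw [pmul_apply, zetaMul, mul_apply, mul_apply, mul_sum]
  refine sum_congr rfl fun d hd => ?_
  obtain ⟨h1, -⟩ := Nat.mem_divisorsAntidiagonal.1 hd
  have h2 : d.1 ≠ 0 := fun e => hn (by rw [← h1, e, zero_mul])
  have h3 : d.2 ≠ 0 := fun e => hn (by rw [← h1, e, mul_zero])
  rw [siT_apply _ hn, siT_apply _ h2, siT_apply _ h3, ← h1, natCoe_apply, zeta_apply_ne h2,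
    ← χ.apply_eq_toArithmeticFunction_apply h3]
  simp only [Nat.cast_mul, map_mul, MulChar.mul_apply, Nat.cast_one]
  ring

theorem si_odd {N : ℕ} {χ : DirichletCharacter ℂ N} {p : ℕ} (hp : p.Prime) (h : χ p = -1)
    {j : ℕ} (hj : Odd j) : zetaMul χ (p ^ j) = 0 := by
  rw [zetaMul, coe_zeta_mul_apply, Nat.sum_divisors_prime_pow hp]
  rw [sum_congr rfl fun i _ => show toArithmeticFunction (χ ·) (p ^ i) = (-1) ^ i by
    rw [← χ.apply_eq_toArithmeticFunction_apply (pow_ne_zero i hp.ne_zero), Nat.cast_pow, map_pow,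
      h], neg_one_geom_sum, if_pos hj.add_one]

theorem si_nonneg {N : ℕ} {χ ψ : DirichletCharacter ℂ N} (hχ : χ ^ 2 = 1) (hψ : ψ ^ 2 = 1)
    (n : ℕ) : 0 ≤ (zetaMul χ * (siT ψ * siT (χ * ψ))) n := by
  have hm : (zetaMul χ * (siT ψ * siT (χ * ψ))).IsMultiplicative :=
    χ.isMultiplicative_zetaMul.mul ((isMultiplicative_toArithmeticFunction ψ).mul
      (isMultiplicative_toArithmeticFunction _))
  have aux {χ ψ : DirichletCharacter ℂ N} (hχ : χ ^ 2 = 1) {p : ℕ} (hp : p.Prime)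
      (h : 0 ≤ ψ p ∨ χ p = -1 ∧ ψ p = -1) (k : ℕ) :
      0 ≤ (zetaMul χ * (siT ψ * siT (χ * ψ))) (p ^ k) := by
    rw [← si_pmul, mul_apply]
    refine sum_nonneg fun d hd => mul_nonneg (zetaMul_nonneg hχ _) ?_
    obtain ⟨j, -, hj⟩ := (Nat.dvd_prime_pow hp).1 (Nat.dvd_of_mem_divisors
      (Nat.snd_mem_divisors_of_mem_antidiagonal hd))
    rw [hj, pmul_apply, siT_apply _ (pow_ne_zero j hp.ne_zero), Nat.cast_pow, map_pow]
    rcases h with h | ⟨h1, h2⟩
    · exact mul_nonneg (pow_nonneg h _) (zetaMul_nonneg hχ _)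
    · rcases j.even_or_odd with e | e
      · rw [h2, e.neg_one_pow, one_mul]
        exact zetaMul_nonneg hχ _
      · rw [si_odd hp h1 e, mul_zero]
  rcases eq_or_ne n 0 with rfl | hn
  · simp
  rw [hm.multiplicative_factorization _ hn]
  refine prod_nonneg fun p hp => ?_
  have hp' := Nat.prime_of_mem_primeFactors hp
  have q {χ : DirichletCharacter ℂ N} (hχ : χ ^ 2 = 1) : 0 ≤ χ p ∨ χ p = -1 := by
    rcases MulChar.isQuadratic_iff_sq_eq_one.mpr hχ p with h | h | h <;> simp [h]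
  rcases q hψ with h | h
  · exact aux hχ hp' (Or.inl h) _
  rcases q hχ with h' | h'
  · rw [show zetaMul χ * (siT ψ * siT (χ * ψ)) = zetaMul ψ * (siT χ * siT (ψ * χ)) by
      rw [mul_comm ψ χ]; simp only [zetaMul, siT]; ring]
    exact aux hψ hp' (Or.inl h') _
  · exact aux hχ hp' (Or.inr ⟨h', h⟩) _

theorem siT_sum {N : ℕ} (χ : DirichletCharacter ℂ N) {s : ℂ} (hs : 1 < s.re) :
    LSeriesSummable (siT χ) s :=
  LSeriesSummable_of_bounded_of_one_lt_re (m := 1)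
    (fun n hn => by rw [siT_apply _ hn]; exact norm_le_one χ _) hs

theorem siT_L {N : ℕ} [NeZero N] (χ : DirichletCharacter ℂ N) {s : ℂ} (hs : 1 < s.re) :
    LSeries (siT χ) s = LFunction χ s := by
  rw [LFunction_eq_LSeries χ hs]
  exact LSeries_congr (fun hn => siT_apply χ hn) s

theorem si_zetaMul {N : ℕ} [NeZero N] (χ : DirichletCharacter ℂ N) {s : ℂ} (hs : 1 < s.re) :
    LSeries (zetaMul χ) s = riemannZeta s * LFunction χ s := by
  rw [← siT_L χ hs, ← LSeries_zeta_eq_riemannZeta hs]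
  exact LSeries_mul' (f := (ArithmeticFunction.zeta : ArithmeticFunction ℕ)) (g := siT χ)
    (LSeriesSummable_zeta_iff.2 hs) (siT_sum χ hs)

theorem si_om {δ : ℝ} (hδ : 0 < δ) : ∃ C : ℝ, 1 ≤ C ∧ ∀ N : ℕ, N ≠ 0 →
    (2 : ℝ) ^ N.primeFactors.card ≤ C * N ^ δ := by
  obtain ⟨P, hP⟩ := exists_nat_ge ((2 : ℝ) ^ δ⁻¹)
  refine ⟨2 ^ P, one_le_pow₀ one_le_two, fun N hN => ?_⟩
  have h1 : ∏ p ∈ N.primeFactors, (2 : ℝ) ≤
      ∏ p ∈ N.primeFactors, ((if p < P then 2 else 1) * (p : ℝ) ^ δ) := by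
    refine prod_le_prod (fun _ _ => zero_le_two) fun p hp => ?_
    have hp1 : (1 : ℝ) ≤ p := by exact_mod_cast (Nat.prime_of_mem_primeFactors hp).one_le
    split_ifs with h
    · linarith [Real.one_le_rpow hp1 hδ.le]
    · have : (2 : ℝ) ^ δ⁻¹ ≤ p := hP.trans (by exact_mod_cast not_lt.1 h)
      have := Real.rpow_le_rpow (by positivity) this hδ.le
      rwa [Real.rpow_inv_rpow zero_le_two hδ.ne', ← one_mul ((p : ℝ) ^ δ)] at this
  rw [prod_const, prod_mul_distrib, Real.finsetProd_rpow _ _ (fun _ _ => by positivity),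
    ← prod_filter, prod_const] at h1
  refine h1.trans ?_
  gcongr
  · exact one_le_two
  · exact (card_le_card fun p hp => mem_range.2 (mem_filter.1 hp).2).trans (card_range P).le
  · rw [← Nat.cast_prod]
    exact Nat.cast_le.2 (Nat.le_of_dvd (Nat.pos_of_ne_zero hN) (Nat.prod_primeFactors_dvd N))

theorem si_level {r N : ℕ} [NeZero r] [NeZero N] (h : r ∣ N) {χ : DirichletCharacter ℂ r}
    (h1 : χ ≠ 1) :
    ‖LFunction (changeLevel h χ) 1‖ ≤ 2 ^ N.primeFactors.card * ‖LFunction χ 1‖ ∧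
      ‖LFunction χ 1‖ ≤ 2 ^ N.primeFactors.card * ‖LFunction (changeLevel h χ) 1‖ := by
  have hb (p : ℕ) (hp : p ∈ N.primeFactors) : ‖χ p * (p : ℂ) ^ (-1 : ℂ)‖ ≤ 1 / 2 := by
    have h2 : (2 : ℝ) ≤ p := by exact_mod_cast (Nat.prime_of_mem_primeFactors hp).two_le
    rw [cpow_neg_one, norm_mul, norm_inv, Complex.norm_natCast, ← div_eq_mul_inv]
    gcongr
    exact norm_le_one χ _
  rw [LFunction_changeLevel h χ (Or.inl h1), norm_mul, norm_prod, ← prod_const]
  constructor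
  · rw [mul_comm]
    gcongr with p hp
    linarith [norm_sub_le 1 (χ p * (p : ℂ) ^ (-1 : ℂ)), hb p hp, norm_one (α := ℂ)]
  · rw [mul_left_comm, ← prod_mul_distrib]
    refine le_mul_of_one_le_right (norm_nonneg _) (one_le_prod fun p hp => ?_)
    linarith [norm_sub_norm_le 1 (χ p * (p : ℂ) ^ (-1 : ℂ)), hb p hp, norm_one (α := ℂ)]

theorem si_M : ∃ C : ℝ, 1 ≤ C ∧ ∀ (r : ℕ) [NeZero r] (χ : DirichletCharacter ℂ r), χ ≠ 1 →
    ∀ s ∈ Metric.sphere (2 : ℂ) (3 / 2), ‖LFunction χ s‖ ≤ C * r := by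
  obtain ⟨C, hC, h⟩ := L_bound (ε := 1 / 2) (by norm_num) le_rfl
  refine ⟨5 * C, by linarith, fun r _ χ h1 s hs => ?_⟩
  obtain ⟨h2, h3⟩ := si_sphere (Metric.sphere_subset_closedBall hs)
  have hr : (1 : ℝ) ≤ r := by exact_mod_cast NeZero.one_le
  have h4 : ((r : ℝ) * (‖s‖ + 1)) ^ (1 / 2 : ℝ) ≤ r * (‖s‖ + 1) :=
    Real.rpow_le_self_of_one_le (by nlinarith [norm_nonneg s]) (by norm_num)
  refine (h r χ h1 s (by linarith)).trans ?_
  calc _ ≤ C * (r * 5) := by
        gcongr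
        exact h4.trans (by gcongr; linarith)
    _ = _ := by ring

theorem si_zero {r : ℕ} [NeZero r] {χ : DirichletCharacter ℂ r} (h2 : χ ^ 2 = 1) (h1 : χ ≠ 1)
    {b : ℝ} (hb : 0 < b) (hb1 : b < 1) (h : 0 < (riemannZeta b * LFunction χ b).re) :
    ∃ β : ℝ, b ≤ β ∧ β < 1 ∧ riemannZeta β * LFunction χ β = 0 := by
  obtain ⟨Z, hZ, hZ1, hZ2, -⟩ := exists_Z
  set Φ : ℝ → ℂ := fun t => ((t - 1) * Z t + 1) * LFunction χ t with hΦ
  have hne (t : ℝ) (h0 : 0 < t) (ht : t ≠ 1) :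
      Φ t = ((t - 1 : ℝ) : ℂ) * (riemannZeta t * LFunction χ t) := by
    have : (t : ℂ) ≠ 1 := by exact_mod_cast ht
    have := sub_ne_zero.2 this
    simp only [hΦ]
    rw [hZ1 t (by simpa using h0) ‹_›]
    push_cast
    field_simp
    ring
  have hc : ContinuousOn (fun t => (Φ t).re) (Set.Icc b 2) := by
    have hz : ContinuousOn (fun t : ℝ => Z t) (Set.Icc b 2) :=
      hZ.continuousOn.comp continuous_ofReal.continuousOn fun t ht => by
        simpa using hb.trans_le ht.1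
    have := ((differentiable_LFunction h1).continuous.comp continuous_ofReal).continuousOn
      (s := Set.Icc b 2)
    exact continuous_re.comp_continuousOn ((((continuous_ofReal.continuousOn.sub
      continuousOn_const).mul hz).add continuousOn_const).mul this)
  have e1 : (Φ b).re ≤ 0 := by
    simp only [hne b hb hb1.ne, re_ofReal_mul]
    nlinarith
  have e2 : 0 ≤ (Φ 2).re := by
    simp only [hne 2 two_pos (by norm_num), re_ofReal_mul]
    rw [← si_zetaMul χ (by simp)]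
    refine mul_nonneg (by norm_num) (Complex.nonneg_iff.1 (tsum_nonneg fun n => ?_)).1
    exact LSeries.term_nonneg (zetaMul_nonneg h2 n) 2
  obtain ⟨β, ⟨hβ1, hβ2⟩, hβ⟩ := intermediate_value_Icc (by linarith) hc
    (show (0 : ℝ) ∈ _ from ⟨e1, e2⟩)
  · have hβ0 : 0 < β := hb.trans_le hβ1
    have h0 : Φ β = 0 := Complex.ext hβ (by simp [hΦ, hZ2 β hβ0, L_real h2 h1 hβ0])
    have hlt : β < 1 := by
      by_contra hge
      have hL := LFunction_ne_zero_of_one_le_re χ (s := β) (Or.inl h1) (by simpa using hge)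
      rcases eq_or_ne β 1 with e | e
      · simp [hΦ, e] at h0 hL
        exact hL h0
      · rw [hne β hβ0 e] at h0
        exact mul_ne_zero (by exact_mod_cast sub_ne_zero.2 e) (mul_ne_zero
          (riemannZeta_ne_zero_of_one_le_re (by simpa using hge)) hL) h0
    rw [hne β hβ0 hlt.ne] at h0
    exact ⟨β, hβ1, hlt, (mul_eq_zero.1 h0).resolve_left (by exact_mod_cast sub_ne_zero.2 hlt.ne)⟩

theorem si_main {δ : ℝ} (h0 : 0 < δ) (h8 : δ ≤ 1 / 8) : ∃ K : ℝ, 0 < K ∧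
    ∀ (r : ℕ) [NeZero r] (χ : DirichletCharacter ℂ r), χ ^ 2 = 1 → χ ≠ 1 →
      1 ≤ K * (r : ℝ) ^ (15 * δ) * ‖LFunction χ 1‖ := by
  obtain ⟨C, hC, est⟩ := si_est
  obtain ⟨C₁, hC₁, hM⟩ := si_M
  by_cases hA : ∀ (r : ℕ) [NeZero r] (χ : DirichletCharacter ℂ r), χ ^ 2 = 1 → χ ≠ 1 →
      (riemannZeta (1 - δ : ℝ) * LFunction χ (1 - δ : ℝ)).re ≤ 0
  · refine ⟨C * C₁ / δ, by positivity, fun r _ χ h2 h1 => ?_⟩
    have hr : (1 : ℝ) ≤ r := by exact_mod_cast NeZero.one_le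
    have := est (zetaMul χ) (LFunction χ) (C₁ * r) (1 - δ) (zetaMul_nonneg h2)
      χ.isMultiplicative_zetaMul.map_one (fun s hs => χ.LSeriesSummable_zetaMul hs)
      (differentiable_LFunction h1) (fun s hs => si_zetaMul χ hs) (by nlinarith) (hM r χ h1)
      (by linarith) (by linarith) (hA r χ h2 h1)
    rw [sub_sub_cancel, Real.mul_rpow (by linarith) (by linarith), ← mul_assoc] at this
    rw [div_mul_eq_mul_div, div_mul_eq_mul_div, le_div_iff₀ h0, one_mul]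
    refine this.trans ?_
    gcongr
    · exact Real.rpow_le_self_of_one_le hC₁ (by linarith)
    · norm_num
  push Not at hA
  obtain ⟨q, _, ψ, k2, k1, hA⟩ := hA
  obtain ⟨β, hβ, hβ1, hz⟩ := si_zero k2 k1 (by linarith) (by linarith) hA
  obtain ⟨C₂, hC₂, hb⟩ := L_bound h0 (by linarith)
  obtain ⟨C₃, hC₃, hom⟩ := si_om h0
  have hl : 0 < ‖LFunction ψ 1‖ := norm_pos_iff.2 (LFunction_apply_one_ne_zero k1)
  have hq : (0 : ℝ) < q := by exact_mod_cast NeZero.pos q
  have hβ2 : 0 < 1 - β := by linarith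
  set K : ℝ := C * C₁ ^ 3 * (2 * C₂) ^ 2 * C₃ / (1 - β) + C₃ ^ 2 / ‖LFunction ψ 1‖ with hK
  refine ⟨K * q ^ (15 * δ), by positivity, fun r _ χ h2 h1 => ?_⟩
  have hr : (0 : ℝ) < r := by exact_mod_cast NeZero.pos r
  rw [mul_assoc K, ← Real.mul_rpow hq.le hr.le, ← Nat.cast_mul]
  have hN : (1 : ℝ) ≤ (q * r : ℕ) := by exact_mod_cast NeZero.one_le
  set ψ' := changeLevel (dvd_mul_right q r) ψ with hψ'
  set χ' := changeLevel (dvd_mul_left r q) χ with hχ'
  have k2' : ψ' ^ 2 = 1 := by rw [hψ', ← map_pow, k2, map_one]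
  have h2' : χ' ^ 2 = 1 := by rw [hχ', ← map_pow, h2, map_one]
  have k1' : ψ' ≠ 1 := fun e => k1 ((changeLevel_eq_one_iff _).1 e)
  have h1' : χ' ≠ 1 := fun e => h1 ((changeLevel_eq_one_iff _).1 e)
  have hw := hom (q * r) (NeZero.ne _)
  set N : ℝ := ((q * r : ℕ) : ℝ) with hN'
  set y := N ^ δ with hy
  have hy1 : 1 ≤ y := Real.one_le_rpow hN h0.le
  have hy15 : N ^ (15 * δ) = y ^ 15 := by
    rw [hy, mul_comm, Real.rpow_mul (by linarith)]
    norm_num
  have hu : ‖LFunction χ' 1‖ ≤ C₃ * y * ‖LFunction χ 1‖ :=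
    (si_level _ h1).1.trans (by gcongr)
  rw [hy15, hK, add_mul, add_mul]
  by_cases he : ψ' * χ' = 1
  · have e : ψ' = χ' := by
      rw [← mul_one ψ', ← h2', sq, ← mul_assoc, he, one_mul]
    have h3 : ‖LFunction ψ 1‖ ≤ C₃ * y * ‖LFunction χ' 1‖ :=
      (si_level (dvd_mul_right q r) k1).2.trans (by rw [← e]; gcongr)
    refine le_add_of_nonneg_of_le (by positivity) ?_
    rw [div_mul_eq_mul_div, div_mul_eq_mul_div, le_div_iff₀ hl, one_mul]
    calc _ ≤ C₃ * y * (C₃ * y * ‖LFunction χ 1‖) := h3.trans (by gcongr)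
      _ = C₃ ^ 2 * y ^ 2 * ‖LFunction χ 1‖ := by ring
      _ ≤ _ := by gcongr; norm_num
  have h1N : 1 ≤ C₁ * N := by nlinarith
  have := est (zetaMul ψ' * (siT χ' * siT (ψ' * χ')) : ArithmeticFunction ℂ)
    (fun s => LFunction ψ' s * (LFunction χ' s * LFunction (ψ' * χ') s)) ((C₁ * N) ^ 3) β
    (si_nonneg k2' h2') (ψ'.isMultiplicative_zetaMul.mul
      ((isMultiplicative_toArithmeticFunction χ').mul
        (isMultiplicative_toArithmeticFunction _))).map_one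
    (fun s hs => LSeriesSummable_mul (ψ'.LSeriesSummable_zetaMul hs)
      (LSeriesSummable_mul (siT_sum _ hs) (siT_sum _ hs)))
    ((differentiable_LFunction k1').mul
      ((differentiable_LFunction h1').mul (differentiable_LFunction he)))
    (fun s hs => by
      rw [LSeries_mul' (ψ'.LSeriesSummable_zetaMul hs)
        (LSeriesSummable_mul (siT_sum _ hs) (siT_sum _ hs)),
        LSeries_mul' (siT_sum _ hs) (siT_sum _ hs), si_zetaMul _ hs, siT_L _ hs, siT_L _ hs,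
        mul_assoc])
    (one_le_pow₀ h1N) (fun s hs => by
      rw [norm_mul, norm_mul, pow_succ', sq]
      gcongr
      exacts [hM _ _ k1' s hs, hM _ _ h1' s hs, hM _ _ he s hs])
    (by linarith) hβ1 (by
      rw [hψ', LFunction_changeLevel _ ψ (Or.inl k1), ← mul_assoc, ← mul_assoc, ← mul_assoc, hz]
      simp)
  have hb' (ξ : DirichletCharacter ℂ (q * r)) (h : ξ ≠ 1) : ‖LFunction ξ 1‖ ≤ 2 * C₂ * y := by
    refine (hb _ ξ h 1 (by simp; linarith)).trans ?_
    rw [norm_one, one_add_one_eq_two, Real.mul_rpow (by linarith) zero_le_two]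
    have : (2 : ℝ) ^ δ ≤ 2 := Real.rpow_le_self_of_one_le one_le_two (by linarith)
    calc _ ≤ C₂ * (y * 2) := by gcongr
      _ = _ := by ring
  have hp : ((C₁ * N) ^ 3) ^ (4 * (1 - β)) ≤ C₁ ^ 3 * y ^ 12 := by
    calc _ ≤ ((C₁ * N) ^ 3) ^ (4 * δ) :=
          Real.rpow_le_rpow_of_exponent_le (one_le_pow₀ h1N) (by linarith)
      _ = (C₁ ^ 3) ^ (4 * δ) * y ^ 12 := by
          rw [mul_pow, Real.mul_rpow (by positivity) (by positivity), hy,
            ← Real.rpow_natCast N, ← Real.rpow_natCast (N ^ δ), ← Real.rpow_mul (by linarith),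
            ← Real.rpow_mul (by linarith)]
          congr 2
          push_cast
          ring
      _ ≤ _ := by
          gcongr
          exact Real.rpow_le_self_of_one_le (one_le_pow₀ hC₁) (by linarith)
  refine le_add_of_le_of_nonneg ?_ (by positivity)
  rw [div_mul_eq_mul_div, div_mul_eq_mul_div, le_div_iff₀ hβ2, one_mul]
  refine this.trans ?_
  rw [norm_mul, norm_mul]
  calc _ ≤ C * (C₁ ^ 3 * y ^ 12) *
        (2 * C₂ * y * (C₃ * y * ‖LFunction χ 1‖ * (2 * C₂ * y))) := by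
        gcongr
        exacts [hb' _ k1', hb' _ he]
    _ = _ := by ring

theorem siegel {ε : ℝ} (h0 : 0 < ε) : ∃ c : ℝ, 0 < c ∧
    ∀ (r : ℕ) [NeZero r] (χ : DirichletCharacter ℂ r), χ ^ 2 = 1 → χ ≠ 1 →
      c * (r : ℝ) ^ (-ε) ≤ ‖LFunction χ 1‖ := by
  obtain ⟨K, hK, h⟩ := si_main (δ := min (ε / 15) (1 / 8)) (by positivity) (min_le_right _ _)
  refine ⟨K⁻¹, inv_pos.2 hK, fun r _ χ h2 h1 => ?_⟩
  have hr : (1 : ℝ) ≤ r := by exact_mod_cast NeZero.one_le
  rw [Real.rpow_neg (by linarith), ← mul_inv, inv_le_iff_one_le_mul₀' (by positivity)]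
  refine (h r χ h2 h1).trans ?_
  gcongr
  linarith [min_le_left (ε / 15) (1 / 8)]

end Pool.Agent.Lib.RankZero
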