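import Pool.Agent.Lib.MP_6073f3_nt.Z.Growth
import Pool.Agent.Lib.MP_6073f3_nt.Z.Siegel

/-!
Bounds for the derivatives of the logarithmic derivative of Dirichlet L-functions to the right
of the line `re s = 1`.
-/

namespace Pool.Agent.Lib.RankZero

open Finset Complex DirichletCharacter
open scoped NumberTheorySymbols ArithmeticFunction.vonMangoldt

/-- A function holomorphic on the right half plane and bounded by `B` on a box. -/
structure LdBox (F : ℂ → ℂ) (δ B T : ℝ) : Prop where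
  pos : 0 < δ
  half : δ ≤ 1 / 2
  one : 1 ≤ B
  diff : DifferentiableOn ℂ F {w | 0 < w.re}
  bd : ∀ w : ℂ, 1 - δ ≤ w.re → w.re ≤ 3 → |w.im| ≤ T + 1 → ‖F w‖ ≤ B

theorem ld_open : IsOpen {w : ℂ | 0 < w.re} := isOpen_lt continuous_const continuous_re

theorem ld_near {w z : ℂ} {ρ : ℝ} (h : ‖z - w‖ ≤ ρ) :
    w.re - ρ ≤ z.re ∧ z.re ≤ w.re + ρ ∧ |z.im| ≤ |w.im| + ρ := by
  have h1 := (abs_re_le_norm (z - w)).trans h
  have h2 := (abs_im_le_norm (z - w)).trans h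
  rw [sub_re, abs_le] at h1
  rw [sub_im] at h2
  refine ⟨by linarith [h1.1], by linarith [h1.2], ?_⟩
  have := abs_add_le (z.im - w.im) w.im
  rw [sub_add_cancel] at this
  linarith

theorem ld_diffCl {G : ℂ → ℂ} {U : Set ℂ} (hG : DifferentiableOn ℂ G U) {w : ℂ} {ρ : ℝ}
    (hρ : 0 < ρ) (h : Metric.closedBall w ρ ⊆ U) : DiffContOnCl ℂ G (Metric.ball w ρ) := by
  apply DifferentiableOn.diffContOnCl
  rw [closure_ball w hρ.ne']
  exact hG.mono h

theorem LdBox.deriv_le {F : ℂ → ℂ} {δ B T : ℝ} (h : LdBox F δ B T) {w : ℂ}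
    (h1 : 1 - δ / 2 ≤ w.re) (h2 : w.re ≤ 5 / 2) (h3 : |w.im| ≤ T + 1 / 2) :
    ‖deriv F w‖ ≤ 2 * B / δ := by
  have hp := h.pos
  have hh := h.half
  have : ‖deriv F w‖ ≤ B / (δ / 2) := by
    refine Complex.norm_deriv_le_of_forall_mem_sphere_norm_le (by positivity)
      (ld_diffCl h.diff (by positivity) fun z hz => ?_) fun z hz => ?_
    · have := ld_near (mem_closedBall_iff_norm.1 hz)
      show 0 < z.re
      linarith [this.1]
    · have := ld_near (mem_sphere_iff_norm.1 hz).le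
      exact h.bd z (by linarith [this.1]) (by linarith [this.2.1]) (by linarith [this.2.2])
  rwa [show B / (δ / 2) = 2 * B / δ by field_simp] at this

theorem LdBox.lip {F : ℂ → ℂ} {δ B T : ℝ} (h : LdBox F δ B T) {w z : ℂ}
    (h1 : 1 - δ / 2 ≤ w.re) (h2 : w.re ≤ 5 / 2) (h3 : |w.im| ≤ T + 1 / 2)
    (k1 : 1 - δ / 2 ≤ z.re) (k2 : z.re ≤ 5 / 2) (k3 : |z.im| ≤ T + 1 / 2) :
    ‖F z - F w‖ ≤ 2 * B / δ * ‖z - w‖ := by
  have hp := h.pos
  have hh := h.half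
  let K : Set ℂ := ({u : ℂ | 1 - δ / 2 ≤ u.re} ∩ {u : ℂ | u.re ≤ 5 / 2}) ∩
    ({u : ℂ | -(T + 1 / 2) ≤ u.im} ∩ {u : ℂ | u.im ≤ T + 1 / 2})
  have hK : Convex ℝ K :=
    ((convex_halfSpace_re_ge _).inter (convex_halfSpace_re_le _)).inter
      ((convex_halfSpace_im_ge _).inter (convex_halfSpace_im_le _))
  refine hK.norm_image_sub_le_of_norm_deriv_le (𝕜 := ℂ) (f := F) (fun u hu => ?_) (fun u hu => ?_)
    ⟨⟨h1, h2⟩, abs_le.1 h3⟩ ⟨⟨k1, k2⟩, abs_le.1 k3⟩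
  · refine h.diff.differentiableAt (ld_open.mem_nhds ?_)
    have : 1 - δ / 2 ≤ u.re := hu.1.1
    show 0 < u.re
    linarith
  · exact h.deriv_le hu.1.1 hu.1.2 (abs_le.2 hu.2)

theorem LdBox.le_B1 {F : ℂ → ℂ} {δ B T : ℝ} (h : LdBox F δ B T) : 4 * B ≤ 2 * B / δ := by
  have hp := h.pos
  have hh := h.half
  have ho := h.one
  rw [le_div_iff₀ hp]
  nlinarith

/-- Cauchy estimate for the derivatives of a logarithmic derivative. -/
theorem LdBox.iter {F H : ℂ → ℂ} {δ B T m : ℝ} (h : LdBox F δ B T) (hH : LdBox H δ B T) {s : ℂ}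
    (h1 : 1 ≤ s.re) (h2 : s.re ≤ 2) (h3 : |s.im| ≤ T) (hm : 0 < m) (hm1 : m ≤ 1)
    (hs : m ≤ ‖F s‖) (k : ℕ) :
    ‖iteratedDeriv k (fun w => deriv F w / F w + H w) s‖ ≤
      k.factorial * (3 * (2 * B / δ) / m) ^ (k + 1) := by
  have hp := h.pos
  have hh := h.half
  have ho := h.one
  have h4 := h.le_B1
  set B1 := 2 * B / δ with hB1
  have hB : 0 < B1 := by linarith
  have hδ : B1 * δ = 2 * B := by rw [hB1]; field_simp
  set ρ := m / (2 * B1) with hρ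
  have hρ0 : 0 < ρ := by positivity
  have hρ1 : ρ ≤ δ / 4 := by
    rw [hρ, div_le_iff₀ (by positivity)]
    nlinarith
  have hρB : B1 * ρ = m / 2 := by rw [hρ]; field_simp
  have hF : ∀ z ∈ Metric.closedBall s ρ, m / 2 ≤ ‖F z‖ := by
    intro z hz
    have hz' := mem_closedBall_iff_norm.1 hz
    have hn := ld_near hz'
    have := h.lip (w := s) (z := z) (by linarith) (by linarith) (by linarith)
      (by linarith [hn.1]) (by linarith [hn.2.1]) (by linarith [hn.2.2])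
    have h5 : B1 * ‖z - s‖ ≤ B1 * ρ := mul_le_mul_of_nonneg_left hz' hB.le
    have h6 := norm_sub_norm_le (F s) (F z)
    rw [norm_sub_rev] at h6
    linarith
  have hsub : Metric.closedBall s ρ ⊆ {w : ℂ | 0 < w.re} := by
    intro z hz
    have hn := ld_near (mem_closedBall_iff_norm.1 hz)
    show 0 < z.re
    linarith [hn.1]
  have hG : DifferentiableOn ℂ (fun w => deriv F w / F w + H w) (Metric.closedBall s ρ) := by
    refine DifferentiableOn.add (DifferentiableOn.div ?_ (h.diff.mono hsub) fun z hz h0 => ?_)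
      (hH.diff.mono hsub)
    · exact (h.diff.deriv ld_open).mono hsub
    · have := hF z hz
      rw [h0, norm_zero] at this
      linarith
  have key := Complex.norm_iteratedDeriv_le_of_forall_mem_sphere_norm_le (C := 3 * B1 / m) k hρ0
    (ld_diffCl hG hρ0 le_rfl) (fun z hz => by
      have hz1 := Metric.sphere_subset_closedBall hz
      have hn := ld_near (mem_closedBall_iff_norm.1 hz1)
      have a1 := h.deriv_le (w := z) (by linarith [hn.1]) (by linarith [hn.2.1])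
        (by linarith [hn.2.2])
      have a2 := hH.bd z (by linarith [hn.1]) (by linarith [hn.2.1]) (by linarith [hn.2.2])
      have a3 := hF z hz1
      have a4 : ‖deriv F z / F z‖ ≤ B1 / (m / 2) := by
        rw [norm_div]
        exact div_le_div₀ hB.le a1 (by positivity) a3
      have a5 : B ≤ B1 / m := by
        rw [le_div_iff₀ hm]
        nlinarith
      calc _ ≤ ‖deriv F z / F z‖ + ‖H z‖ := norm_add_le _ _
        _ ≤ B1 / (m / 2) + B1 / m := by linarith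
        _ = 3 * B1 / m := by field_simp; ring)
  refine key.trans ?_
  rw [mul_div_assoc, pow_succ']
  refine mul_le_mul_of_nonneg_left ?_ (by positivity)
  rw [div_eq_mul_inv _ (ρ ^ k), ← inv_pow]
  refine mul_le_mul_of_nonneg_left (pow_le_pow_left₀ (by positivity) ?_ k) (by positivity)
  rw [hρ, inv_div]
  exact div_le_div_of_nonneg_right (by linarith) hm.le

/-- The lower bound coming from the three-four-one inequality. -/
theorem LdBox.low {F : ℂ → ℂ} {δ B T B2 : ℝ} (h : LdBox F δ B T) {s : ℂ}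
    (h1 : 1 ≤ s.re) (h2 : s.re ≤ 2) (h3 : |s.im| ≤ T) (hB2 : 1 ≤ B2)
    (h341 : ∀ x : ℝ, 0 < x → x * B ≤ 1 / 2 → 1 ≤ (2 / x) ^ 3 * ‖F (s + x)‖ ^ 4 * B2) :
    1 / (128 * B2 * (2 * B / δ) ^ 4) ≤ ‖F s‖ := by
  have hp := h.pos
  have hh := h.half
  have ho := h.one
  have h4 := h.le_B1
  set B1 := 2 * B / δ with hB1
  have hB : 1 ≤ B1 := by linarith
  set x := 1 / (128 * B2 * B1 ^ 4) with hx
  have hx0 : 0 < x := by positivity
  have hx1 : x * (128 * B2 * B1 ^ 4) = 1 := by rw [hx]; field_simp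
  have hb4 : B1 ≤ B1 ^ 4 := le_self_pow₀ hB (by norm_num)
  have hxB : x * B1 ≤ 1 / 128 := by
    have : x * B1 ≤ x * (B2 * B1 ^ 4) :=
      mul_le_mul_of_nonneg_left (by nlinarith) hx0.le
    linarith
  have hxB' : x * B ≤ 1 / 2 := by nlinarith
  have hx2 : x ≤ 1 / 2 := by nlinarith
  have h5 := h341 x hx0 hxB'
  have h6 : 2 * B1 * x ≤ ‖F (s + x)‖ := by
    by_contra hc
    have hc' : ‖F (s + x)‖ ^ 4 < (2 * B1 * x) ^ 4 :=
      pow_lt_pow_left₀ (not_le.1 hc) (norm_nonneg _) (by norm_num)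
    have : (2 / x) ^ 3 * ‖F (s + x)‖ ^ 4 * B2 < (2 / x) ^ 3 * (2 * B1 * x) ^ 4 * B2 := by
      gcongr
    have e : (2 / x) ^ 3 * (2 * B1 * x) ^ 4 * B2 = x * (128 * B2 * B1 ^ 4) := by
      field_simp; ring
    linarith
  have h7 := h.lip (w := s) (z := s + x) (by linarith) (by linarith) (by linarith)
    (by simp; linarith) (by simp; linarith) (by simp; linarith)
  rw [add_sub_cancel_left, norm_real, Real.norm_of_nonneg hx0.le] at h7
  have h8 := norm_sub_norm_le (F (s + x)) (F s)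
  nlinarith

/-- The lower bound close to the point one. -/
theorem LdBox.near_one {F : ℂ → ℂ} {δ B T l : ℝ} (h : LdBox F δ B T) {s : ℂ}
    (h1 : 1 ≤ s.re) (h2 : s.re ≤ 2) (h3 : |s.im| ≤ T) (hl : l ≤ ‖F 1‖)
    (hs : ‖s - 1‖ ≤ l / (2 * (2 * B / δ))) : l / 2 ≤ ‖F s‖ := by
  have hp := h.pos
  have hh := h.half
  have ho := h.one
  have h4 := h.le_B1
  have hT : 0 ≤ T := (abs_nonneg _).trans h3
  have h7 := h.lip (w := 1) (z := s) (by simp; linarith) (by simp; linarith) (by simp; linarith)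
    (by linarith) (by linarith) (by linarith)
  set B1 := 2 * B / δ with hB1
  have hB : 0 < B1 := by linarith
  have h5 : B1 * ‖s - 1‖ ≤ B1 * (l / (2 * B1)) := mul_le_mul_of_nonneg_left hs hB.le
  have h6 : B1 * (l / (2 * B1)) = l / 2 := by field_simp
  have h8 := norm_sub_norm_le (F 1) (F s)
  rw [norm_sub_rev] at h8
  linarith

theorem ld_logMul (f : ℕ → ℂ) (k n : ℕ) :
    (LSeries.logMul^[k] f) n = f n * (Real.log n : ℂ) ^ k := by
  induction k with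
  | zero => simp
  | succ k ih =>
    rw [Function.iterate_succ_apply', LSeries.logMul, ih, Complex.natCast_log]
    ring

theorem ld_ident {f : ℕ → ℂ} {G : ℂ → ℂ} (hf : ∀ s : ℂ, 1 < s.re → LSeriesSummable f s)
    (hG : ∀ s : ℂ, 1 < s.re → LSeries f s = -G s) (k : ℕ) {s : ℂ} (hs : 1 < s.re) :
    ‖LSeries (fun n : ℕ => f n * (Real.log n : ℂ) ^ k) s‖ = ‖iteratedDeriv k G s‖ := by
  have ha : LSeries.abscissaOfAbsConv f ≤ (1 : ℝ) :=
    LSeries.abscissaOfAbsConv_le_of_forall_lt_LSeriesSummable fun y hy => hf y (by simpa using hy)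
  have h1 := LSeries_iteratedDeriv (f := f) k (s := s) (ha.trans_lt (by exact_mod_cast hs))
  have h2 : LSeries f =ᶠ[nhds s] fun w => -G w := by
    filter_upwards [(isOpen_lt continuous_const continuous_re).mem_nhds hs] with w hw
    exact hG w hw
  have h3 : LSeries.logMul^[k] f = fun n : ℕ => f n * (Real.log n : ℂ) ^ k :=
    funext (ld_logMul f k)
  rw [h2.iteratedDeriv_eq k, iteratedDeriv_fun_neg, h3] at h1
  have := congrArg norm h1
  simpa using this.symm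

theorem ld_norm_mono {a b : ℂ} (h1 : |a.re| ≤ |b.re|) (h2 : |a.im| ≤ |b.im|) : ‖a‖ ≤ ‖b‖ := by
  refine (sq_le_sq₀ (norm_nonneg _) (norm_nonneg _)).1 ?_
  rw [Complex.sq_norm, Complex.sq_norm, normSq_apply, normSq_apply]
  have := sq_le_sq.2 h1
  have := sq_le_sq.2 h2
  nlinarith

theorem ld_size {w : ℂ} {t : ℝ} (h0 : 0 ≤ w.re) (h1 : w.re ≤ 3) (h2 : |w.im| ≤ 2 * |t| + 1) :
    ‖w‖ + 1 ≤ 2 * (|t| + 3) := by
  have := norm_le_abs_re_add_abs_im w
  rw [abs_of_nonneg h0] at this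
  linarith

theorem ld_341 {r : ℕ} [NeZero r] (χ : DirichletCharacter ℂ r) {s : ℂ} (hs : 1 < s.re) {x : ℝ}
    (hx : 0 < x) {a b : ℝ}
    (ha : ‖LFunction (1 : DirichletCharacter ℂ r) ((s.re + x : ℝ) : ℂ)‖ ≤ a)
    (hb : ‖LFunction (χ ^ 2) (s + x + I * s.im)‖ ≤ b) :
    1 ≤ a ^ 3 * ‖LFunction χ (s + x)‖ ^ 4 * b := by
  have h := χ.norm_LFunction_product_ge_one (x := s.re - 1 + x) (by linarith) s.im
  have e1 : (1 : ℂ) + (s.re - 1 + x : ℝ) = ((s.re + x : ℝ) : ℂ) := by push_cast; ring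
  have e2 : (1 : ℂ) + (s.re - 1 + x : ℝ) + I * s.im = s + x := by
    apply Complex.ext <;> simp
    ring
  have e3 : (1 : ℂ) + (s.re - 1 + x : ℝ) + 2 * I * s.im = s + x + I * s.im := by
    rw [← e2]; ring
  rw [e3, e2, e1, norm_mul, norm_mul, norm_pow, norm_pow] at h
  refine le_trans h ?_
  have h0 : 0 ≤ a := (norm_nonneg _).trans ha
  gcongr

theorem ld_T1 {L : ℂ → ℂ} {B t σ x : ℝ}
    (hL : ∀ w : ℂ, 1 < w.re → w.re ≤ 3 → |w.im| ≤ 2 * |t| + 1 → ‖L w‖ ≤ ‖w - 1‖⁻¹ + B)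
    (h1 : 1 < σ) (h2 : σ ≤ 2) (hB : 1 ≤ B) (hx : 0 < x) (hxB : x * B ≤ 1 / 2) :
    ‖L ((σ + x : ℝ) : ℂ)‖ ≤ 2 / x := by
  have hx2 : x ≤ 1 / 2 := by nlinarith
  have h := hL ((σ + x : ℝ) : ℂ) (by simp; linarith) (by simp; linarith)
    (by simp; positivity)
  have e : ((σ + x : ℝ) : ℂ) - 1 = ((σ + x - 1 : ℝ) : ℂ) := by push_cast; ring
  rw [e, norm_real, Real.norm_of_nonneg (by linarith)] at h
  have h3 : (σ + x - 1)⁻¹ ≤ x⁻¹ := inv_anti₀ hx (by linarith)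
  have h4 : B ≤ x⁻¹ := by
    rw [← one_div, le_div_iff₀ hx]
    linarith
  rw [div_eq_mul_inv]
  linarith

theorem ld_T2 {L : ℂ → ℂ} {B x l B1 : ℝ} {s : ℂ}
    (hL : ∀ w : ℂ, 1 < w.re → w.re ≤ 3 → |w.im| ≤ 2 * |s.im| + 1 → ‖L w‖ ≤ ‖w - 1‖⁻¹ + B)
    (h1 : 1 < s.re) (h2 : s.re ≤ 2) (hB : 1 ≤ B) (hx : 0 < x) (hxB : x * B ≤ 1 / 2)
    (hl : 0 < l) (hl1 : l ≤ 1) (hB1 : B ≤ B1) (hs : l / (2 * B1) ≤ ‖s - 1‖) :
    ‖L (s + x + I * s.im)‖ ≤ 3 * B1 / l := by
  have hx2 : x ≤ 1 / 2 := by nlinarith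
  have hi : (s + x + I * s.im).im = 2 * s.im := by simp; ring
  have hr : (s + x + I * s.im).re = s.re + x := by simp
  have h := hL (s + x + I * s.im) (by rw [hr]; linarith) (by rw [hr]; linarith)
    (by rw [hi, abs_mul, abs_two]; linarith)
  have h3 : ‖s - 1‖ ≤ ‖s + x + I * s.im - 1‖ := by
    apply ld_norm_mono
    · rw [sub_re, sub_re, hr, one_re, abs_of_nonneg (by linarith), abs_of_nonneg (by linarith)]
      linarith
    · rw [sub_im, sub_im, hi, one_im, sub_zero, sub_zero, abs_mul, abs_two]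
      linarith [abs_nonneg s.im]
  have hB0 : 0 < B1 := by linarith
  have h4 : ‖s + x + I * s.im - 1‖⁻¹ ≤ (l / (2 * B1))⁻¹ :=
    inv_anti₀ (by positivity) (hs.trans h3)
  have h5 : B ≤ B1 / l := by
    rw [le_div_iff₀ hl]
    nlinarith
  rw [inv_div] at h4
  calc _ ≤ 2 * B1 / l + B1 / l := by linarith
    _ = 3 * B1 / l := by ring

theorem ld_delta (k : ℕ) {ε : ℝ} (h0 : 0 < ε) :
    ∃ δ : ℝ, 0 < δ ∧ δ ≤ 1 / 2 ∧ δ * (10 * (k + 1) : ℕ) ≤ ε := by
  refine ⟨min (1 / 2) (ε / (10 * (k + 1) : ℕ)), by positivity, min_le_left _ _, ?_⟩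
  rw [← le_div_iff₀ (by positivity)]
  exact min_le_right _ _

theorem ld_final {k : ℕ} {ε δ K q X Y : ℝ} (hδ : δ * (10 * (k + 1) : ℕ) ≤ ε) (hq : 1 ≤ q)
    (hK : 0 ≤ K) (hY : 0 ≤ Y) (h1 : X ≤ k.factorial * Y ^ (k + 1)) (h2 : Y ≤ K * (q ^ δ) ^ 10) :
    X ≤ k.factorial * K ^ (k + 1) * q ^ ε := by
  refine h1.trans ?_
  rw [mul_assoc]
  refine mul_le_mul_of_nonneg_left ?_ (by positivity)
  refine (pow_le_pow_left₀ hY h2 _).trans ?_
  rw [mul_pow, ← pow_mul, ← Real.rpow_natCast (q ^ δ), ← Real.rpow_mul (by linarith)]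
  exact mul_le_mul_of_nonneg_left (Real.rpow_le_rpow_of_exponent_le hq hδ) (by positivity)

theorem logder_chi_of (siegel : ∀ {ε : ℝ}, 0 < ε → ∃ c : ℝ, 0 < c ∧
    ∀ (r : ℕ) [NeZero r] (χ : DirichletCharacter ℂ r), χ ^ 2 = 1 → χ ≠ 1 →
      c * (r : ℝ) ^ (-ε) ≤ ‖LFunction χ 1‖) (k : ℕ) {ε : ℝ} (h0 : 0 < ε) : ∃ C : ℝ,
    ∀ (r : ℕ) [NeZero r] (χ : DirichletCharacter ℂ r), χ ≠ 1 → ∀ s : ℂ, 1 < s.re → s.re ≤ 2 →
      ‖LSeries (fun n : ℕ => χ n * (Λ n : ℂ) * (Real.log n : ℂ) ^ k) s‖ ≤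
        C * (r * (|s.im| + 3)) ^ ε := by
  obtain ⟨δ, hδ0, hδ1, hδ2⟩ := ld_delta k h0
  obtain ⟨C1, hC1, hL1⟩ := L_bound hδ0 hδ1
  obtain ⟨C2, hC2, hL2⟩ := L_triv_bound hδ0 hδ1
  obtain ⟨c, hc, hS⟩ := siegel hδ0
  refine ⟨k.factorial * (1152 * (2 * (C1 * C2 * 2 ^ δ) / δ) ^ 6 * (1 + c⁻¹)) ^ (k + 1), ?_⟩
  intro r _ χ hχ s hs1 hs2
  have hr : (1 : ℝ) ≤ r := by exact_mod_cast Nat.one_le_iff_ne_zero.2 (NeZero.ne r)
  set q : ℝ := r * (|s.im| + 3) with hq
  have hrq : (r : ℝ) ≤ q := by rw [hq]; nlinarith [abs_nonneg s.im]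
  have hq1 : 1 ≤ q := hr.trans hrq
  have hqδ : 1 ≤ q ^ δ := Real.one_le_rpow hq1 hδ0.le
  have h2δ : (1 : ℝ) ≤ 2 ^ δ := Real.one_le_rpow (by norm_num) hδ0.le
  set B : ℝ := C1 * C2 * 2 ^ δ * q ^ δ with hB
  have hCC : 1 ≤ C1 * C2 := by nlinarith
  have hB1 : 1 ≤ B := one_le_mul_of_one_le_of_one_le (one_le_mul_of_one_le_of_one_le hCC h2δ) hqδ
  have hsz : ∀ w : ℂ, 0 ≤ w.re → w.re ≤ 3 → |w.im| ≤ 2 * |s.im| + 1 → ∀ C : ℝ, C ≤ C1 * C2 →
      C * (r * (‖w‖ + 1)) ^ δ ≤ B := by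
    intro w a1 a2 a3 C hC
    have := ld_size a1 a2 a3
    have e : (r * (‖w‖ + 1)) ^ δ ≤ 2 ^ δ * q ^ δ := by
      rw [← Real.mul_rpow (by norm_num) (by linarith)]
      refine Real.rpow_le_rpow (by positivity) ?_ hδ0.le
      rw [hq]
      nlinarith
    rw [hB, mul_assoc (C1 * C2)]
    exact mul_le_mul hC e (by positivity) (by linarith)
  have hnt : ∀ ψ : DirichletCharacter ℂ r, ψ ≠ 1 → ∀ w : ℂ, 1 - δ ≤ w.re → w.re ≤ 3 →
      |w.im| ≤ 2 * |s.im| + 1 → ‖LFunction ψ w‖ ≤ B := fun ψ hψ w a1 a2 a3 =>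
    (hL1 r ψ hψ w a1).trans (hsz w (by linarith) a2 a3 C1 (by nlinarith))
  have htr : ∀ w : ℂ, 1 < w.re → w.re ≤ 3 → |w.im| ≤ 2 * |s.im| + 1 →
      ‖LFunction (1 : DirichletCharacter ℂ r) w‖ ≤ ‖w - 1‖⁻¹ + B := fun w a1 a2 a3 =>
    (hL2 r w a1).trans (by linarith [hsz w (by linarith) a2 a3 C2 (by nlinarith)])
  have hF : LdBox (LFunction χ) δ B |s.im| :=
    ⟨hδ0, hδ1, hB1, (differentiable_LFunction hχ).differentiableOn, fun w a1 a2 a3 =>
      hnt χ hχ w a1 a2 (by linarith [abs_nonneg s.im])⟩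
  have hH : LdBox (fun _ => 0) δ B |s.im| :=
    ⟨hδ0, hδ1, hB1, differentiableOn_const _, fun w _ _ _ => by simp; linarith⟩
  have h4 := hF.le_B1
  set B1 := 2 * B / δ with hB1d
  have hB11 : 1 ≤ B1 := by linarith
  set l : ℝ := min 1 (c * (r : ℝ) ^ (-δ)) with hl
  have hl0 : 0 < l := lt_min one_pos (by positivity)
  have hl1 : l ≤ 1 := min_le_left _ _
  have hB2 : B1 ≤ 3 * B1 / l := by
    rw [le_div_iff₀ hl0]
    nlinarith
  have hm : 1 / (128 * (3 * B1 / l) * B1 ^ 4) = l / (384 * B1 ^ 5) := by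
    field_simp; ring
  have h5 : 1 ≤ B1 ^ 5 := one_le_pow₀ hB11
  have hml : l / (384 * B1 ^ 5) ≤ l / 2 :=
    div_le_div_of_nonneg_left hl0.le (by norm_num) (by linarith)
  have hlow : l / (384 * B1 ^ 5) ≤ ‖LFunction χ s‖ := by
    by_cases hcase : χ ^ 2 = 1 ∧ ‖s - 1‖ ≤ l / (2 * B1)
    · exact hml.trans (hF.near_one hs1.le hs2 le_rfl
        ((min_le_right _ _).trans (hS r χ hcase.1 hχ)) hcase.2)
    · rw [← hm]
      refine hF.low hs1.le hs2 le_rfl (by linarith) fun x hx hxB => ?_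
      refine ld_341 χ hs1 hx (ld_T1 htr hs1 hs2 hB1 hx hxB) ?_
      by_cases h2 : χ ^ 2 = 1
      · rw [h2]
        exact ld_T2 htr hs1 hs2 hB1 hx hxB hl0 hl1 (by linarith)
          (not_le.1 fun h => hcase ⟨h2, h⟩).le
      · have hx2 : x ≤ 1 / 2 := by nlinarith
        have hi : (s + x + I * s.im).im = 2 * s.im := by simp; ring
        have hre : (s + x + I * s.im).re = s.re + x := by simp
        refine (hnt _ h2 _ (by rw [hre]; linarith) (by rw [hre]; linarith)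
          (by rw [hi, abs_mul, abs_two]; linarith)).trans (by linarith)
  have hit := hF.iter hH hs1.le hs2 le_rfl (by positivity) (by linarith) hlow k
  rw [ld_ident (f := fun n : ℕ => χ n * (Λ n : ℂ))
    (G := fun w => deriv (LFunction χ) w / LFunction χ w + 0)
    (fun w hw => LSeriesSummable_twist_vonMangoldt χ hw) (fun w hw => by
      have := LSeries_twist_vonMangoldt_eq χ hw
      rw [add_zero, deriv_LFunction_eq_deriv_LSeries χ hw, LFunction_eq_LSeries χ hw, ← neg_div]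
      exact this) k hs1]
  refine ld_final hδ2 hq1 (by positivity) (by positivity) hit ?_
  have hinv : l⁻¹ ≤ (1 + c⁻¹) * q ^ δ := by
    have hc' : 0 < c⁻¹ := by positivity
    rcases min_choice 1 (c * (r : ℝ) ^ (-δ)) with h | h
    · rw [hl, h, inv_one]
      nlinarith
    · rw [hl, h, mul_inv, Real.rpow_neg (by linarith), inv_inv]
      have : (r : ℝ) ^ δ ≤ q ^ δ := Real.rpow_le_rpow (by linarith) hrq hδ0.le
      nlinarith
  have e1 : 3 * (2 * B / δ) / (l / (384 * B1 ^ 5)) = 1152 * B1 ^ 6 * l⁻¹ := by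
    rw [← hB1d]; field_simp; ring
  have e2 : B1 = 2 * (C1 * C2 * 2 ^ δ) / δ * q ^ δ := by rw [hB1d, hB]; ring
  rw [e1, e2, mul_pow]
  have h7 : (q ^ δ) ^ 7 ≤ (q ^ δ) ^ 10 := pow_le_pow_right₀ hqδ (by norm_num)
  calc _ ≤ 1152 * ((2 * (C1 * C2 * 2 ^ δ) / δ) ^ 6 * (q ^ δ) ^ 6) * ((1 + c⁻¹) * q ^ δ) := by
        gcongr
    _ = 1152 * (2 * (C1 * C2 * 2 ^ δ) / δ) ^ 6 * (1 + c⁻¹) * (q ^ δ) ^ 7 := by ring
    _ ≤ _ := by gcongr

theorem logder_chi (k : ℕ) {ε : ℝ} (h0 : 0 < ε) : ∃ C : ℝ,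
    ∀ (r : ℕ) [NeZero r] (χ : DirichletCharacter ℂ r), χ ≠ 1 → ∀ s : ℂ, 1 < s.re → s.re ≤ 2 →
      ‖LSeries (fun n : ℕ => χ n * (Λ n : ℂ) * (Real.log n : ℂ) ^ k) s‖ ≤
        C * (r * (|s.im| + 3)) ^ ε :=
  logder_chi_of (fun h => siegel h) k h0

theorem logder_one (k : ℕ) {ε : ℝ} (h0 : 0 < ε) : ∃ C : ℝ, ∀ s : ℂ, 1 < s.re → s.re ≤ 2 →
    ‖LSeries (fun n : ℕ => ((Λ n : ℂ) - 1) * (Real.log n : ℂ) ^ k) s‖ ≤
      C * (|s.im| + 3) ^ ε := by
  obtain ⟨δ, hδ0, hδ1, hδ2⟩ := ld_delta k h0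
  obtain ⟨Z, hZd, hZe, -, hZb⟩ := exists_Z
  obtain ⟨C, hC, hZ⟩ := hZb δ hδ0 hδ1
  refine ⟨k.factorial * (93312 * (2 * (3 * C * 2 ^ δ) / δ) ^ 10) ^ (k + 1), ?_⟩
  intro s hs1 hs2
  set q : ℝ := |s.im| + 3 with hq
  have hq1 : 1 ≤ q := by rw [hq]; linarith [abs_nonneg s.im]
  have hqδ : 1 ≤ q ^ δ := Real.one_le_rpow hq1 hδ0.le
  have h2δ : (1 : ℝ) ≤ 2 ^ δ := Real.one_le_rpow (by norm_num) hδ0.le
  set A : ℝ := C * 2 ^ δ * q ^ δ with hA
  have hA1 : 1 ≤ A := one_le_mul_of_one_le_of_one_le (one_le_mul_of_one_le_of_one_le hC h2δ) hqδ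
  have hZA : ∀ w : ℂ, 1 - δ ≤ w.re → w.re ≤ 3 → |w.im| ≤ 2 * |s.im| + 1 → ‖Z w‖ ≤ A := by
    intro w a1 a2 a3
    refine (hZ w a1).trans ?_
    have := ld_size (by linarith) a2 a3
    rw [hA, mul_assoc, ← Real.mul_rpow (by norm_num) (by linarith)]
    exact mul_le_mul_of_nonneg_left (Real.rpow_le_rpow (by positivity) this hδ0.le) (by linarith)
  have hne : ∀ w : ℂ, 0 < w.re → w ≠ 0 := fun w hw h => by simp [h] at hw
  have hinv : ∀ w : ℂ, 1 - δ ≤ w.re → ‖w⁻¹‖ ≤ 2 := by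
    intro w hw
    have := re_le_norm w
    rw [norm_inv]
    exact (inv_anti₀ (by norm_num) (show 2⁻¹ ≤ ‖w‖ by linarith)).trans (by norm_num)
  set F : ℂ → ℂ := fun w => ((w - 1) * Z w + 1) / w with hFd
  have hF : LdBox F δ (3 * A) |s.im| := by
    refine ⟨hδ0, hδ1, by linarith, ?_, fun w a1 a2 a3 => ?_⟩
    · exact DifferentiableOn.div (((differentiableOn_id.sub_const 1).mul hZd).add_const 1)
        differentiableOn_id fun w hw => hne w hw
    · have b1 := hZA w a1 a2 (by linarith [abs_nonneg s.im])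
      have b2 := hinv w a1
      have w0 := hne w (by linarith)
      have b3 : ‖w - 1‖ ≤ ‖w‖ := by
        apply ld_norm_mono
        · rw [sub_re, one_re, abs_of_nonneg (show 0 ≤ w.re by linarith), abs_le]
          constructor <;> linarith
        · simp
      have b4 : ‖(w - 1) / w‖ ≤ 1 := by
        rw [norm_div]
        exact div_le_one_of_le₀ b3 (norm_nonneg _)
      have e : F w = (w - 1) / w * Z w + w⁻¹ := by rw [hFd]; field_simp
      have b5 : ‖(w - 1) / w * Z w‖ ≤ 1 * A := by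
        rw [norm_mul]
        exact mul_le_mul b4 b1 (norm_nonneg _) (by norm_num)
      rw [e]
      linarith [norm_add_le ((w - 1) / w * Z w) w⁻¹]
  have hH : LdBox (fun w => w⁻¹ + Z w) δ (3 * A) |s.im| := by
    refine ⟨hδ0, hδ1, by linarith, (differentiableOn_id.inv fun w hw => hne w hw).add hZd,
      fun w a1 a2 a3 => ?_⟩
    have b1 := hZA w a1 a2 (by linarith [abs_nonneg s.im])
    have b2 := hinv w a1
    linarith [norm_add_le w⁻¹ (Z w)]
  have hz : ∀ w : ℂ, 1 < w.re → riemannZeta w = w / (w - 1) * F w := by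
    intro w hw
    have w1 : w ≠ 1 := fun h => by simp [h] at hw
    have w0 := hne w (by linarith)
    have w2 : w - 1 ≠ 0 := sub_ne_zero.2 w1
    simp only [hFd]
    rw [hZe w (by linarith) w1]
    field_simp
    ring
  have htr : ∀ w : ℂ, 1 < w.re → w.re ≤ 3 → |w.im| ≤ 2 * |s.im| + 1 →
      ‖riemannZeta w‖ ≤ ‖w - 1‖⁻¹ + 3 * A := by
    intro w a1 a2 a3
    have w1 : w ≠ 1 := fun h => by simp [h] at a1
    have e : riemannZeta w = (w - 1)⁻¹ + Z w := by rw [hZe w (by linarith) w1]; ring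
    have := norm_add_le (w - 1)⁻¹ (Z w)
    rw [norm_inv, ← e] at this
    linarith [hZA w (by linarith) a2 a3]
  have h4 := hF.le_B1
  set B1 := 2 * (3 * A) / δ with hB1d
  have hB11 : 1 ≤ B1 := by linarith
  have h5 : 1 ≤ B1 ^ 5 := one_le_pow₀ hB11
  have h9 : 1 ≤ B1 ^ 9 := one_le_pow₀ hB11
  have hm : 1 / (128 * (243 * B1 ^ 5) * B1 ^ 4) = 1 / (31104 * B1 ^ 9) := by
    field_simp; ring
  have hml : 1 / (31104 * B1 ^ 9) ≤ 1 / 2 :=
    div_le_div_of_nonneg_left zero_le_one (by norm_num) (by linarith)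
  have hlow : 1 / (31104 * B1 ^ 9) ≤ ‖F s‖ := by
    by_cases hcase : ‖s - 1‖ ≤ 1 / (2 * B1)
    · exact hml.trans (hF.near_one hs1.le hs2 le_rfl (by simp [hFd]) hcase)
    · rw [← hm]
      refine hF.low hs1.le hs2 le_rfl (by linarith) fun x hx hxB => ?_
      have hc := (not_le.1 hcase).le
      have a1 := ld_T1 htr hs1 hs2 (by linarith) hx hxB
      have a2 := ld_T2 htr hs1 hs2 (by linarith) hx hxB one_pos le_rfl
        (show 3 * A ≤ B1 by linarith) hc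
      have a3 := ld_341 (1 : DirichletCharacter ℂ 1) hs1 hx (a := 2 / x) (b := 3 * B1 / 1)
        (by rwa [LFunction_modOne_eq]) (by rwa [LFunction_modOne_eq])
      have hre : 1 < (s + x).re := by simp; linarith
      rw [LFunction_modOne_eq, hz _ hre, norm_mul, div_one] at a3
      have a4 : ‖s - 1‖ ≤ ‖s + x - 1‖ := by
        apply ld_norm_mono
        · simp only [sub_re, add_re, one_re, ofReal_re]
          rw [abs_of_nonneg (by linarith), abs_of_nonneg (by linarith)]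
          linarith
        · simp
      have a5 : ‖(s + x) / (s + x - 1)‖ ≤ 3 * B1 := by
        have w2 : s + x - 1 ≠ 0 := sub_ne_zero.2 fun h => by simp [h] at hre
        have e : (s + x) / (s + x - 1) = 1 + (s + x - 1)⁻¹ := by field_simp; ring
        have b1 : ‖s + x - 1‖⁻¹ ≤ (1 / (2 * B1))⁻¹ := inv_anti₀ (by positivity) (hc.trans a4)
        have b2 := norm_add_le (1 : ℂ) (s + x - 1)⁻¹
        rw [norm_one, norm_inv] at b2
        rw [one_div, inv_inv] at b1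
        rw [e]
        linarith
      refine a3.trans ?_
      calc _ ≤ (2 / x) ^ 3 * (3 * B1 * ‖F (s + x)‖) ^ 4 * (3 * B1) := by gcongr
        _ = _ := by ring
  have hit := hF.iter hH hs1.le hs2 le_rfl (by positivity) (by linarith) hlow k
  rw [ld_ident (f := fun n : ℕ => (Λ n : ℂ) - 1)
    (G := fun w => deriv F w / F w + (w⁻¹ + Z w))
    (fun w hw => (ArithmeticFunction.LSeriesSummable_vonMangoldt hw).sub
      (LSeriesSummable_one_iff.2 hw)) (fun w hw => ?_) k hs1]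
  · refine ld_final hδ2 hq1 (by positivity) (by positivity) hit (le_of_eq ?_)
    have e2 : B1 = 2 * (3 * C * 2 ^ δ) / δ * q ^ δ := by rw [hB1d, hA]; ring
    rw [← hB1d, mul_assoc 93312, ← mul_pow, ← e2]
    field_simp
    ring
  · have w1 : w ≠ 1 := fun h => by simp [h] at hw
    have w0 := hne w (by linarith)
    have w2 : w - 1 ≠ 0 := sub_ne_zero.2 w1
    have b1 := LSeries_sub (ArithmeticFunction.LSeriesSummable_vonMangoldt hw)
      (LSeriesSummable_one_iff.2 hw)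
    rw [ArithmeticFunction.LSeries_vonMangoldt_eq_deriv_riemannZeta_div hw,
      LSeries_one_eq_riemannZeta hw] at b1
    have b2 : riemannZeta =ᶠ[nhds w] fun u => u / (u - 1) * F u := by
      filter_upwards [(isOpen_lt continuous_const continuous_re).mem_nhds hw] with u hu
      exact hz u hu
    have b3 : HasDerivAt F (deriv F w) w :=
      (hF.diff.differentiableAt (ld_open.mem_nhds (show 0 < w.re by linarith))).hasDerivAt
    have b4 := (((hasDerivAt_id w).div ((hasDerivAt_id w).sub_const 1) w2).mul b3).deriv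
    have b5 : deriv riemannZeta w = (1 * (w - 1) - w * 1) / (w - 1) ^ 2 * F w +
        w / (w - 1) * deriv F w := b2.deriv_eq.trans b4
    have b6 := riemannZeta_ne_zero_of_one_lt_re hw
    have b7 : F w ≠ 0 := fun h => b6 (by rw [hz w hw, h, mul_zero])
    refine b1.trans ?_
    rw [b5, hZe w (by linarith) w1]
    nth_rewrite 1 [hz w hw]
    field_simp
    ring

end Pool.Agent.Lib.RankZero
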