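import Pool.Agent.Lib.MP_6073f3_nt.Z.SW2
import Pool.Agent.Lib.MP_6073f3_nt.Z.LogDer

namespace Pool.Agent.Lib.RankZero

theorem siegel_walfisz (A B : ℕ) : ∃ C : ℝ, ∀ N r k M : ℕ, 2 ≤ N → 1 ≤ r →
    (r : ℝ) ≤ Real.log N ^ B → M ≤ N → k < r →
      |Eth r k 0 M| ≤ C * N / Real.log N ^ A :=
  sw_of (fun k _ h => logder_chi k h) (fun k _ h => logder_one k h) A B

end Pool.Agent.Lib.RankZero
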