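import Pool.Agent.Lib.MP_6073f3_nt.Z.Defs

/-!
Dispersion, first part: counting tools and trivial bounds.
-/

namespace Pool.Agent.Lib.RankZero

open Finset

theorem dp_inj {α β : Type} [DecidableEq β] {s : Finset α} {t : Finset β} (φ : α → β) {f : α → ℝ}
    {g : β → ℝ} (hi : Set.InjOn φ s) (hm : ∀ a ∈ s, φ a ∈ t) (hf : ∀ a ∈ s, f a ≤ g (φ a))
    (hg : ∀ b ∈ t, 0 ≤ g b) : ∑ a ∈ s, f a ≤ ∑ b ∈ t, g b :=
  (sum_le_sum hf).trans ((sum_image hi).symm.le.trans
    (sum_le_sum_of_subset_of_nonneg (image_subset_iff.2 hm) fun b hb _ => hg b hb))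

theorem dp_card {s : Finset ℕ} {u w m : ℕ} (hs : s ⊆ Icc u (u + w))
    (h : ∀ y ∈ s, ∀ y' ∈ s, (m : ℤ) ∣ (y : ℤ) - y') : (s.card : ℝ) ≤ w / m + 1 := by
  have h1 : s.card ≤ (range (w / m + 1)).card := by
    refine card_le_card_of_injOn (fun y => (y - u) / m) (fun y hy => ?_)
      fun y hy y' hy' e => ?_
    · have := mem_Icc.1 (hs hy)
      exact mem_coe.2 (mem_range.2 (Nat.lt_succ_of_le (Nat.div_le_div_right (by omega))))
    · have h2 := mem_Icc.1 (hs hy)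
      have h3 := mem_Icc.1 (hs hy')
      have h4 : y - u ≡ y' - u [MOD m] := by
        rw [Nat.modEq_iff_dvd, Nat.cast_sub h2.1, Nat.cast_sub h3.1, sub_sub_sub_cancel_right]
        exact h _ hy' _ hy
      have := Nat.ext_div_modEq e h4
      omega
  rw [card_range] at h1
  have h2 : ((w / m : ℕ) : ℝ) ≤ w / m := Nat.cast_div_le
  have h3 : (s.card : ℝ) ≤ (w / m : ℕ) + 1 := by exact_mod_cast h1
  linarith

theorem dp_harm1 (D : ℕ) : ∑ t ∈ Icc 1 D, (t : ℝ)⁻¹ ≤ 1 + Real.log D := by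
  have := harmonic_le_one_add_log D
  rw [harmonic_eq_sum_Icc] at this
  push_cast at this
  exact this

theorem dp_harm (D g : ℕ) (hg : 1 ≤ g) :
    ∑ t ∈ Icc 1 D, (if g ∣ t then (t : ℝ)⁻¹ else 0) ≤ (1 + Real.log D) / g := by
  rw [← sum_filter]
  refine (dp_inj (t := Icc 1 D) (g := fun t : ℕ => (t : ℝ)⁻¹ / g) (· / g) (fun a ha b hb e => ?_)
    (fun a ha => ?_) (fun a ha => ?_) fun _ _ => by positivity).trans ?_
  · rw [← Nat.div_mul_cancel (mem_filter.1 ha).2, ← Nat.div_mul_cancel (mem_filter.1 hb).2]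
    exact congrArg (· * g) e
  · obtain ⟨h1, h2⟩ := mem_filter.1 ha
    have h3 := mem_Icc.1 h1
    exact mem_Icc.2 ⟨Nat.div_pos (Nat.le_of_dvd h3.1 h2) hg, (Nat.div_le_self _ _).trans h3.2⟩
  · obtain ⟨c, rfl⟩ := (mem_filter.1 ha).2
    rw [Nat.mul_div_cancel_left _ hg, Nat.cast_mul, mul_inv, mul_comm, div_eq_mul_inv]
  · rw [← sum_div]
    exact div_le_div_of_nonneg_right (dp_harm1 D) (by positivity)

theorem dp_S (k M : ℕ) :
    ∑ n ∈ Icc 1 M, (n.divisors.card : ℝ) ^ k / n ≤ (1 + Real.log M) ^ 2 ^ k := by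
  induction k with
  | zero => simpa using dp_harm1 M
  | succ k ih =>
    have h1 : ∑ n ∈ Icc 1 M, (n.divisors.card : ℝ) ^ (k + 1) / n =
        ∑ q ∈ (Icc 1 M).sigma fun n => n.divisors, (q.1.divisors.card : ℝ) ^ k / q.1 := by
      rw [sum_sigma]
      refine sum_congr rfl fun n _ => ?_
      simp only [sum_const, nsmul_eq_mul]
      ring
    rw [h1, pow_succ 2, pow_mul]
    refine (dp_inj (t := Icc 1 M ×ˢ Icc 1 M) (g := fun q : ℕ × ℕ =>
      (q.1.divisors.card : ℝ) ^ k / q.1 * ((q.2.divisors.card : ℝ) ^ k / q.2))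
      (fun q => (q.2, q.1 / q.2)) (fun a ha b hb e => ?_)
      (fun a ha => ?_) (fun a ha => ?_) fun _ _ => by positivity).trans ?_
    · obtain ⟨n, a⟩ := a
      obtain ⟨m, b⟩ := b
      obtain ⟨rfl, e⟩ : a = b ∧ n / a = m / b := Prod.mk.inj e
      have h2 : n / a * a = n := Nat.div_mul_cancel (Nat.dvd_of_mem_divisors (mem_sigma.1 ha).2)
      have h3 : m / a * a = m := Nat.div_mul_cancel (Nat.dvd_of_mem_divisors (mem_sigma.1 hb).2)
      obtain rfl : n = m := by rw [← h2, ← h3, e]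
      rfl
    · obtain ⟨h2, h3⟩ := mem_sigma.1 ha
      have h4 := mem_Icc.1 h2
      have h5 := Nat.divisor_le h3
      have h6 := Nat.pos_of_mem_divisors h3
      exact mem_product.2 ⟨mem_Icc.2 ⟨h6, h5.trans h4.2⟩,
        mem_Icc.2 ⟨Nat.div_pos h5 h6, (Nat.div_le_self _ _).trans h4.2⟩⟩
    · obtain ⟨n, a⟩ := a
      have h3 := (mem_sigma.1 ha).2
      obtain ⟨c, rfl⟩ : a ∣ n := Nat.dvd_of_mem_divisors h3
      simp only [Nat.mul_div_cancel_left _ (Nat.pos_of_mem_divisors h3)]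
      rw [div_mul_div_comm, ← mul_pow, Nat.cast_mul]
      gcongr
      rw [Nat.divisors_mul]
      exact_mod_cast card_mul_le
    · rw [sum_product' (f := fun a b : ℕ => (a.divisors.card : ℝ) ^ k / a *
        ((b.divisors.card : ℝ) ^ k / b)), ← sum_mul_sum, ← sq]
      exact pow_le_pow_left₀ (sum_nonneg fun _ _ => by positivity) ih 2

/-- The number of small divisors. -/
def dpT (D : ℕ) (U : ℤ) : ℕ := ((Icc 1 D).filter fun m : ℕ => (m : ℤ) ∣ U).card

theorem dp_t4 (D : ℕ) (U : ℤ) : (dpT D U : ℝ) ^ 4 ≤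
    ∑ n ∈ Icc 1 (D ^ 4), (n.divisors.card : ℝ) ^ 4 * if (n : ℤ) ∣ U then 1 else 0 := by
  have h : Fintype.piFinset (fun _ : Fin 4 => (Icc 1 D).filter fun m : ℕ => (m : ℤ) ∣ U) ⊆
      ((Icc 1 (D ^ 4)).filter fun n : ℕ => (n : ℤ) ∣ U).biUnion
        fun n => Fintype.piFinset fun _ : Fin 4 => n.divisors := fun v hv => by
    have h1 := fun i => mem_filter.1 (Fintype.mem_piFinset.1 hv i)
    have h2 := fun i => mem_Icc.1 (h1 i).1
    have h3 : univ.lcm v ∣ ∏ i, v i := Finset.lcm_dvd fun i _ => dvd_prod_of_mem _ (mem_univ i)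
    have h4 : 0 < ∏ i, v i := prod_pos fun i _ => (h2 i).1
    have h5 := Nat.pos_of_dvd_of_pos h3 h4
    refine mem_biUnion.2 ⟨univ.lcm v, mem_filter.2 ⟨mem_Icc.2 ⟨h5, (Nat.le_of_dvd h4 h3).trans ?_⟩,
      Int.natCast_dvd.2 (Finset.lcm_dvd fun i _ => Int.natCast_dvd.1 (h1 i).2)⟩,
      Fintype.mem_piFinset.2 fun i => Nat.mem_divisors.2 ⟨dvd_lcm (mem_univ i), h5.ne'⟩⟩
    simpa using prod_le_pow_card univ v D fun i _ => (h2 i).2
  have h1 := (card_le_card h).trans card_biUnion_le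
  simp only [Fintype.card_piFinset, prod_const, card_univ, Fintype.card_fin] at h1
  simp only [mul_ite, mul_one, mul_zero, ← sum_filter]
  exact_mod_cast h1

theorem dp_count {α β : ℕ} (h : α.Coprime β) {n E : ℕ} (h1 : 1 ≤ n) (h2 : n ≤ E)
    (u w₁ v w₂ : ℕ) : ∑ x ∈ Ioc u (u + w₁), ∑ y ∈ Ioc v (v + w₂),
      (if (n : ℤ) ∣ α * x - β * y then (1 : ℝ) else 0) ≤ (w₁ + E) * (w₂ + E) / n := by
  obtain ⟨g, n', b, hg, hc, rfl, rfl⟩ := Nat.exists_coprime' (m := n) (n := β)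
    (Nat.gcd_pos_of_pos_left _ h1)
  have hn : 0 < n' := Nat.pos_of_mul_pos_right h1
  have a1 : ∀ x ∈ Ioc u (u + w₁), ∑ y ∈ Ioc v (v + w₂),
      (if ((n' * g : ℕ) : ℤ) ∣ α * x - (b * g : ℕ) * y then (1 : ℝ) else 0) ≤
      if g ∣ x then (w₂ : ℝ) / n' + 1 else 0 := fun x _ => by
    rw [sum_boole]
    split_ifs with h3
    · refine dp_card ((filter_subset _ _).trans Ioc_subset_Icc_self) fun y hy y' hy' => ?_
      have h4 := dvd_sub (mem_filter.1 hy').2 (mem_filter.1 hy).2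
      rw [show (α * x - (b * g : ℕ) * y' - (α * x - (b * g : ℕ) * y) : ℤ) = b * (y - y') * g by
        push_cast; ring, Nat.cast_mul] at h4
      exact (Nat.isCoprime_iff_coprime.2 hc).dvd_of_dvd_mul_left
        (Int.dvd_of_mul_dvd_mul_right (by exact_mod_cast hg.ne') h4)
    · rw [filter_false_of_mem, card_empty, Nat.cast_zero]
      intro y _ h4
      have h5 : (g : ℤ) ∣ α * x := by
        have := dvd_add ((Int.natCast_dvd_natCast.2 (dvd_mul_left g n')).trans h4)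
          (dvd_mul_of_dvd_left (Int.natCast_dvd_natCast.2 (dvd_mul_left g b)) y)
        simpa using this
      exact h3 ((Nat.Coprime.coprime_mul_left_right h).symm.dvd_of_dvd_mul_left
        (by exact_mod_cast h5))
  refine (sum_le_sum a1).trans ?_
  rw [← sum_filter, sum_const, nsmul_eq_mul]
  have a2 := dp_card (s := (Ioc u (u + w₁)).filter (g ∣ ·))
    ((filter_subset _ _).trans Ioc_subset_Icc_self)
    fun y hy y' hy' => dvd_sub (Int.natCast_dvd_natCast.2 (mem_filter.1 hy).2)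
      (Int.natCast_dvd_natCast.2 (mem_filter.1 hy').2)
  have b1 : (g : ℝ) ≤ E := by exact_mod_cast (Nat.le_mul_of_pos_left g hn).trans h2
  have b2 : (n' : ℝ) ≤ E := by exact_mod_cast (Nat.le_mul_of_pos_right n' hg).trans h2
  calc _ ≤ ((w₁ : ℝ) / g + 1) * (w₂ / n' + 1) := by gcongr
    _ = (w₁ + g) * (w₂ + n') / (n' * g : ℕ) := by
      push_cast
      field_simp
    _ ≤ _ := by gcongr

theorem dp_rect {α β : ℕ} (h : α.Coprime β) (D u w₁ v w₂ : ℕ) :
    ∑ q ∈ Ioc u (u + w₁) ×ˢ Ioc v (v + w₂), (dpT D (α * q.1 - β * q.2) : ℝ) ^ 4 ≤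
      (w₁ + D ^ 4) * (w₂ + D ^ 4) * (1 + Real.log (D ^ 4 : ℕ)) ^ 16 := by
  refine (sum_le_sum fun q _ => dp_t4 D _).trans ?_
  rw [sum_comm]
  refine (sum_le_sum (g := fun n : ℕ => ((w₁ : ℝ) + D ^ 4) * (w₂ + D ^ 4) *
    ((n.divisors.card : ℝ) ^ 4 / n)) fun n hn => ?_).trans ?_
  · have := dp_count h (mem_Icc.1 hn).1 (mem_Icc.1 hn).2 u w₁ v w₂
    rw [← mul_sum, sum_product]
    refine (mul_le_mul_of_nonneg_left this (by positivity)).trans_eq ?_
    push_cast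
    ring
  · rw [← mul_sum]
    exact mul_le_mul_of_nonneg_left (dp_S 4 _) (by positivity)

theorem dp_lam {r : ℕ} (hr : Squarefree r) (z : ℕ) :
    |lam r z| ≤ ((r / r.gcd z).divisors.card : ℝ) ^ 1 / (r / r.gcd z : ℕ) := by
  obtain ⟨m, hm⟩ := Nat.gcd_dvd_left r z
  have h0 := Nat.gcd_pos_of_pos_left z hr.ne_zero.bot_lt
  have h1 : r / r.gcd z = m := Nat.div_eq_of_eq_mul_right h0 hm
  have h2 : m ∣ r := Dvd.intro_left _ hm.symm
  have h3 := hr.squarefree_of_dvd h2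
  have h4 := h3.ne_zero.bot_lt
  have h5 : m ≤ m.divisors.card * m.totient := by
    conv_lhs => rw [← Nat.sum_totient m]
    exact sum_le_card_nsmul _ _ _ fun d hd => Nat.le_of_dvd (Nat.totient_pos.2 h4)
      (Nat.totient_dvd_of_dvd (Nat.dvd_of_mem_divisors hd))
  have h6 := Nat.totient_mul_prod_primeFactors m
  rw [Nat.prod_primeFactors_of_squarefree h3, mul_comm, Nat.mul_left_cancel_iff h4] at h6
  have h7 : ∀ q : ℕ, q.Prime → (1 : ℝ) ≤ q - 1 := fun q hq => by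
    have : (2 : ℝ) ≤ q := by exact_mod_cast hq.two_le
    linarith
  rw [h1, lam, abs_prod, ← prod_sdiff (Nat.primeFactors_mono h2 hr.ne_zero)]
  have h8 : ∏ q ∈ m.primeFactors, |gq q z| = (m.totient : ℝ)⁻¹ := by
    rw [h6, Nat.cast_prod, ← prod_inv_distrib]
    refine prod_congr rfl fun q hq => ?_
    have hq' := Nat.prime_of_mem_primeFactors hq
    have hq2 := Nat.dvd_of_mem_primeFactors hq
    rw [gq, if_neg fun h => hq'.one_lt.ne' (Nat.isUnit_iff.1 (hr q (hm ▸ mul_dvd_mul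
      (Nat.dvd_gcd (hq2.trans h2) h) hq2))), Nat.cast_sub hq'.one_le, one_div, Nat.cast_one,
      abs_of_nonneg (inv_nonneg.2 (by linarith [h7 q hq']))]
  have h9 : (0 : ℝ) < m.totient := by exact_mod_cast Nat.totient_pos.2 h4
  refine (mul_le_of_le_one_left (by positivity) (prod_le_one (fun _ _ => abs_nonneg _)
    fun q hq => ?_)).trans ?_
  · have := h7 q (Nat.prime_of_mem_primeFactors (mem_sdiff.1 hq).1)
    rw [gq]
    split_ifs
    · simp
    · rw [abs_of_nonneg (by positivity)]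
      exact div_le_one_of_le₀ this (by linarith)
  · rw [h8, pow_one, inv_eq_one_div, div_le_div_iff₀ h9 (by exact_mod_cast h4), one_mul]
    exact_mod_cast h5

theorem dp_Ls {R D : ℕ} (h : R ≤ D) (z : ℕ) :
    |Ls R z| ≤ dpT D z * (1 + Real.log D) ^ 2 := by
  refine (abs_sum_le_sum_abs _ _).trans ((dp_inj
    (t := ((Icc 1 D).filter fun m : ℕ => (m : ℤ) ∣ z) ×ˢ Icc 1 D)
    (g := fun q : ℕ × ℕ => (q.2.divisors.card : ℝ) ^ 1 / q.2) (fun r => (r.gcd z, r / r.gcd z))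
    (fun a _ b _ e => ?_) (fun a ha => ?_) (fun a ha => dp_lam (mem_filter.1 ha).2 z)
    fun _ _ => by positivity).trans ?_)
  · obtain ⟨e1, e2⟩ := Prod.mk.inj e
    rw [← Nat.div_mul_cancel (Nat.gcd_dvd_left a z), e2, e1,
      Nat.div_mul_cancel (Nat.gcd_dvd_left b z)]
  · have h1 := mem_Icc.1 (mem_filter.1 ha).1
    have h2 := Nat.gcd_pos_of_pos_left z h1.1
    have h3 := Nat.gcd_le_left z h1.1
    exact mem_product.2 ⟨mem_filter.2 ⟨mem_Icc.2 ⟨h2, by omega⟩,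
      Int.natCast_dvd_natCast.2 (Nat.gcd_dvd_right a z)⟩,
      mem_Icc.2 ⟨Nat.div_pos h3 h2, (Nat.div_le_self _ _).trans (by omega)⟩⟩
  · rw [sum_product' (f := fun _ b : ℕ => (b.divisors.card : ℝ) ^ 1 / b), sum_const, nsmul_eq_mul]
    exact mul_le_mul_of_nonneg_left (dp_S 1 D) (by positivity)

/-- The weight of the third variable. -/
noncomputable def dpG (R C U : ℕ) : ℝ := if C ∣ U then th (U / C) - Ls R (U / C) else 0

theorem dp_th {n N : ℕ} (hN : 3 ≤ N) (h : n ≤ 3 * N) : |th n| ≤ 2 * Real.log N := by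
  have h1 : (3 : ℝ) ≤ N := by exact_mod_cast hN
  rw [th]
  split_ifs with h2
  · have h3 : (0 : ℝ) < n := by exact_mod_cast h2.pos
    have h4 : (n : ℝ) ≤ 3 * N := by exact_mod_cast h
    rw [abs_of_nonneg (Real.log_natCast_nonneg n), two_mul, ← Real.log_mul (by linarith)
      (by linarith)]
    exact Real.log_le_log h3 (by nlinarith)
  · simpa using Real.log_natCast_nonneg N

theorem dp_G {R D N U : ℕ} (h : R ≤ D) (hN : 3 ≤ N) (hL : 1 + Real.log D ≤ Real.log N)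
    (h2 : 2 ≤ Real.log N) (hU : U ≤ 3 * N) :
    ∑ C ∈ Icc 1 D, |dpG R C U| ≤ 2 * Real.log N ^ 2 * (dpT D U : ℝ) ^ 2 := by
  refine (sum_le_sum (g := fun C : ℕ => if (C : ℤ) ∣ U then 2 * Real.log N ^ 2 * (dpT D U : ℝ)
    else 0) fun C hC => ?_).trans ?_
  · simp only [dpG, Int.natCast_dvd_natCast]
    split_ifs with h1
    · have a1 := dp_th hN ((Nat.div_le_self U C).trans hU)
      have a2 := dp_Ls h (U / C)
      have a3 : (dpT D (U / C : ℕ) : ℝ) ≤ dpT D U := by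
        exact Nat.cast_le.2 (card_le_card (monotone_filter_right _ fun m _ hm =>
          dvd_trans hm (Int.natCast_dvd_natCast.2 (Nat.div_dvd_of_dvd h1))))
      have a4 : (1 : ℝ) ≤ dpT D U := by
        exact_mod_cast card_pos.2 ⟨C, mem_filter.2 ⟨hC, Int.natCast_dvd_natCast.2 h1⟩⟩
      have a5 : (1 + Real.log D) ^ 2 ≤ Real.log N ^ 2 :=
        pow_le_pow_left₀ (by positivity) hL 2
      have a6 : (dpT D (U / C : ℕ) : ℝ) * (1 + Real.log D) ^ 2 ≤ dpT D U * Real.log N ^ 2 := by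
        gcongr
      refine (abs_sub _ _).trans ?_
      nlinarith
    · simp
  · rw [← sum_filter, sum_const, nsmul_eq_mul]
    exact le_of_eq (by rw [dpT]; ring)

end Pool.Agent.Lib.RankZero
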