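import Pool.Agent.Lib.MP_6073f3_nt.Z.Asm2
import Pool.Agent.Lib.MP_6073f3_nt.Fam2

/-!
Transfer to the minimal models with full 2-torsion ordered by naive height.
-/

namespace Pool.Agent.Lib.RankZero

open Finset Polynomial Pool.Agent.Lib.TorsRank

theorem good_le : ∃ n : ℕ, ∀ X N : ℕ, (54 * N) ^ 6 ≤ X →
    #(Good N) ≤ n * {c ∈ famS 2 2 X | Finite (Pt 0 c.1 c.2)}.ncard := by
  classical
  set pa : ℚ[X] := -(1 + C 16 * X) with hpa
  set pb : ℚ[X] := C 16 * X with hpb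
  set pA := C 81 * pb - C 27 * pa ^ 2 with hpA
  set pB := C 54 * pa ^ 3 - C 243 * pa * pb with hpB
  refine ⟨3 * pA.natDegree + 2 * pB.natDegree, fun X N hX => ?_⟩
  have hS : ∀ x ∈ Good N, 0 < x.1 ∧ x.1.Coprime x.2 := fun x hx => by
    simp only [Good, mem_filter] at hx
    exact ⟨by omega, hx.2.2.1.coprime_mul_left_right⟩
  have hφ : ∀ x : ℕ × ℕ, ∃ c : ℤ × ℤ, x ∈ Good N →
      c ∈ {c ∈ famS 2 2 X | Finite (Pt 0 c.1 c.2)} ∧
      (pA ^ 3 * C ((c.2 : ℚ) ^ 2) - C ((c.1 : ℚ) ^ 3) * pB ^ 2).eval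
        ((x.2 : ℚ) / x.1 ^ 1) = 0 := by
    rintro ⟨s, T⟩
    by_cases hx : (s, T) ∈ Good N
    swap
    · exact ⟨0, fun h => absurd h hx⟩
    simp only [Good, mem_filter, mem_product, mem_Icc] at hx
    obtain ⟨⟨⟨-, h1⟩, h2, -⟩, h3, -, h4, h5⟩ := hx
    obtain ⟨a, ha⟩ : ∃ a : ℤ, a = -(s + 16 * T) := ⟨_, rfl⟩
    obtain ⟨b, hb⟩ : ∃ b : ℤ, b = s * (16 * T) := ⟨_, rfl⟩
    have ea' : (a : ℚ) = -(s + 16 * T) := by simp [ha]
    have eb' : (b : ℚ) = s * (16 * T) := by simp [hb]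
    have hT : (0 : ℚ) < T := by exact_mod_cast h2
    have hs : (16 * T : ℚ) < s := by exact_mod_cast h3
    have hnd : ND a b := ⟨by rw [eb']; nlinarith, by rw [ea', eb']; nlinarith⟩
    have c0 : Chg a b 0 0 (81 * b - 27 * a ^ 2 : ℤ) (54 * a ^ 3 - 243 * a * b : ℤ) 3 (3 * a) :=
      ⟨three_ne_zero, by ring, by push_cast; ring, by push_cast; ring⟩
    obtain ⟨g, A, B, hg, e1, e2, hm⟩ := min_exists (81 * b - 27 * a ^ 2) (54 * a ^ 3 - 243 * a * b)
      fun h => c0.nd.1 hnd (by simp [h])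
    have hg' : (g : ℚ) ≠ 0 := by exact_mod_cast hg
    have e1' : (A : ℚ) = (81 * b - 27 * a ^ 2) / g ^ 4 := by
      rw [eq_div_iff (by positivity), mul_comm]; exact_mod_cast e1.symm
    have e2' : (B : ℚ) = (54 * a ^ 3 - 243 * a * b) / g ^ 6 := by
      rw [eq_div_iff (by positivity), mul_comm]; exact_mod_cast e2.symm
    have c1 : Chg a b 0 0 A B (3 / g) (3 * a / g ^ 2) := by
      rw [e1', e2']
      refine ⟨by positivity, ?_, ?_, ?_⟩ <;> field_simp <;> ring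
    have c2 : Chg a b 0 (ea (rts s T)) (eb (rts s T)) (ec (rts s T)) 1 0 :=
      ⟨one_ne_zero, by simp [ea, rts, ea'], by simp [eb, rts, eb'], by simp [ec, rts]⟩
    obtain ⟨f, hf, -⟩ := c1.exists_hom
    obtain ⟨f1, hf1, -⟩ := c1.symm.exists_hom
    obtain ⟨f2, hf2, -⟩ := c2.exists_hom
    have : Finite (PE (rts s T)) :=
      Module.finite_of_fg_torsion _ (Module.finrank_eq_zero_iff_isTorsion.1 h5)
    refine ⟨(A, B), fun _ => ⟨⟨⟨c1.nd.1 hnd, hm, ?_, Emb.map ?_ hf⟩,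
      Finite.of_injective _ (hf2.comp hf1)⟩, ?_⟩⟩
    · have hg1 : (1 : ℤ) ≤ g := by omega
      set V : ℤ := 3 * N with hV
      have hV0 : 0 ≤ V := by positivity
      have ba : |a| ≤ 2 * V := by rw [abs_le]; omega
      have bb : |b| ≤ V ^ 2 := by
        rw [hb, abs_of_nonneg (by positivity), sq]
        exact mul_le_mul (by omega) (by omega) (by positivity) hV0
      have b3 : |A| ≤ 189 * V ^ 2 := by
        refine (le_mul_of_one_le_left (abs_nonneg A) (one_le_pow₀ (n := 4) hg1)).trans ?_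
        rw [← abs_of_nonneg (show (0 : ℤ) ≤ g ^ 4 by positivity), ← abs_mul, ← e1]
        refine (abs_sub _ _).trans ?_
        simp only [abs_mul, abs_pow, Nat.abs_ofNat]
        nlinarith [pow_le_pow_left₀ (abs_nonneg a) ba 2]
      have b4 : |B| ≤ 918 * V ^ 3 := by
        refine (le_mul_of_one_le_left (abs_nonneg B) (one_le_pow₀ (n := 6) hg1)).trans ?_
        rw [← abs_of_nonneg (show (0 : ℤ) ≤ g ^ 6 by positivity), ← abs_mul, ← e2]
        refine (abs_sub _ _).trans ?_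
        simp only [abs_mul, abs_pow, Nat.abs_ofNat]
        nlinarith [pow_le_pow_left₀ (abs_nonneg a) ba 3,
          mul_le_mul ba bb (abs_nonneg b) (by positivity)]
      have b5 := pow_le_pow_left₀ (abs_nonneg A) b3 3
      have b6 := pow_le_pow_left₀ (abs_nonneg B) b4 2
      have hX' := (Nat.cast_le (α := ℤ)).2 hX
      push_cast at hX'
      rw [sq_abs] at b6
      have p3 : (0 : ℤ) ≤ (N : ℤ) ^ 6 := by positivity
      rw [hV] at b5 b6
      exact max_le (by linarith) (by linarith)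
    · rw [ea', eb'] at hnd ⊢
      exact P22.tors _ _ hnd
    · have h0 : (s : ℚ) ≠ 0 := by linarith
      simp only [hpA, hpB, hpa, hpb, eval_mul, eval_sub, eval_pow, eval_C, eval_neg, eval_add,
        eval_one, eval_X]
      rw [e1', e2', ea', eb']
      field_simp
      ring
  choose φ hφ using hφ
  have hF : {c ∈ famS 2 2 X | Finite (Pt 0 c.1 c.2)}.Finite :=
    (famS_finite 2 2 X).subset (Set.sep_subset _ _)
  rw [Set.ncard_eq_toFinset_card _ hF]
  refine card_le_mul_card_image_of_maps_to (f := φ)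
    (fun x hx => hF.mem_toFinset.2 (hφ x hx).1) _ fun c hc => ?_
  refine (card_le_roots one_ne_zero (fun x hx => hS x (mem_filter.1 hx).1)
    (P := pA ^ 3 * C ((c.2 : ℚ) ^ 2) - C ((c.1 : ℚ) ^ 3) * pB ^ 2) (fun e => ?_)
    fun x hx => (mem_filter.1 hx).2 ▸ (hφ x (mem_filter.1 hx).1).2).trans ?_
  · have := congrArg (eval 0) e
    simp only [hpA, hpB, hpa, hpb, eval_mul, eval_sub, eval_pow, eval_C, eval_neg, eval_add,
      eval_one, eval_X, eval_zero] at this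
    have h5 : (4 * c.1 ^ 3 + 27 * c.2 ^ 2 : ℚ) ≠ 0 := by
      exact_mod_cast (hF.mem_toFinset.1 hc).1.1
    exact h5 (by linear_combination -this / 729)
  · refine (natDegree_sub_le _ _).trans (max_le ((natDegree_mul_C_le _ _).trans
      (natDegree_pow_le.trans (by omega))) ((natDegree_C_mul_le _ _).trans
      (natDegree_pow_le.trans (by omega))))

theorem fam_le : ∃ κ : ℕ, ∀ X N : ℕ, 1 ≤ N → X ≤ (54 * (N + 1)) ^ 6 →
    (famS 2 2 X).ncard ≤ κ * N ^ 2 := by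
  obtain ⟨κ, hκ, hup⟩ := P22.up 54
  refine ⟨(5 * κ) ^ 2, fun X N hN hX => ?_⟩
  choose! x hx u r hc using hup X (N + 1) N.succ_pos (by simpa [P22] using hX)
  refine (Set.ncard_le_ncard_of_injOn x (fun c h => mem_coe.2 (hx c h)) fun c h c' h' e => ?_).trans ?_
  · obtain ⟨e1, e2⟩ := min_unique (hc c h) (e ▸ hc c' h') h.2.1 h'.2.1
    exact Prod.ext e1 e2
  · rw [Set.ncard_coe_finset, card_Box, show P22.w = 1 from rfl, pow_one, ← sq, ← mul_pow]
    gcongr
    nlinarith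

theorem rank_zero_pos : ∃ c : ℝ, 0 < c ∧ ∃ X₀ : ℕ, ∀ X ≥ X₀,
    c * (famS 2 2 X).ncard ≤ {c ∈ famS 2 2 X | Finite (Pt 0 c.1 c.2)}.ncard := by
  obtain ⟨c, hc, N₀, h⟩ := many_good
  obtain ⟨n, hn⟩ := good_le
  obtain ⟨κ, hκ⟩ := fam_le
  refine ⟨c / ((n + 1) * (κ + 1)), by positivity, (54 * (N₀ + 1)) ^ 6, fun X hX => ?_⟩
  have h1 := Nat.pow_nthRoot_le (n := 6) (a := X) (Or.inl (by norm_num))
  have h2 := Nat.lt_pow_nthRoot_add_one (n := 6) (by norm_num) X
  set z := Nat.nthRoot 6 X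
  have h3 := lt_of_pow_lt_pow_left₀ 6 (Nat.zero_le _) (hX.trans_lt h2)
  have h4 := (h (z / 54) (by omega)).trans (Nat.cast_le.2 (hn X (z / 54)
    ((Nat.pow_le_pow_left (by omega) 6).trans h1)))
  have h5 := (Nat.cast_le (α := ℝ)).2 (hκ X (z / 54) (by omega)
    (h2.le.trans (Nat.pow_le_pow_left (by omega) 6)))
  generalize z / 54 = N at h4 h5
  push_cast at h4 h5
  rw [div_mul_eq_mul_div, div_le_iff₀ (by positivity)]
  generalize ({c ∈ famS 2 2 X | Finite (Pt 0 c.1 c.2)}.ncard) = m at h4 ⊢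
  calc _ ≤ κ * (c * N ^ 2) := by nlinarith
    _ ≤ κ * (n * m) := by gcongr
    _ ≤ (κ + 1) * ((n + 1) * m) := by gcongr <;> linarith
    _ = _ := by ring

end Pool.Agent.Lib.RankZero
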