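import Pool.Agent.Lib.MP_6073f3_nt.Z.Defs

/-!
Local densities of the approximant along the ternary equation.
-/

namespace Pool.Agent.Lib.RankZero

open Finset

/-- The local factor on the integers. -/
noncomputable def s3_g (q : ℕ) (z : ℤ) : ℝ := if (q : ℤ) ∣ z then -1 else 1 / ((q : ℝ) - 1)

/-- The local factor on residues. -/
noncomputable def s3_h (q : ℕ) (t : ZMod q) : ℝ := if t = 0 then -1 else 1 / ((q : ℝ) - 1)

/-- The local density. -/
noncomputable def s3_gam (A B C q : ℕ) : ℝ :=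
  if q ∣ 2 * A * B then 1 / ((q : ℝ) - 1) else if q ∣ C then 0 else -1 / ((q : ℝ) - 1) ^ 2

theorem s3_g_eq (q : ℕ) (z : ℤ) : s3_g q z = s3_h q (z : ZMod q) := by
  simp only [s3_g, s3_h, ZMod.intCast_zmod_eq_zero_iff_dvd]

theorem s3_abs_g {q : ℕ} (hq : q.Prime) (z : ℤ) : |s3_g q z| ≤ 1 := by
  have h2 : (2 : ℝ) ≤ q := by exact_mod_cast hq.two_le
  unfold s3_g
  split_ifs
  · simp
  · rw [abs_of_nonneg (div_nonneg zero_le_one (by linarith)), div_le_one (by linarith)]
    linarith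

theorem s3_sum_h (q : ℕ) [hq : Fact q.Prime] : ∑ t : ZMod q, s3_h q t = 0 := by
  have h2 : (2 : ℝ) ≤ q := by exact_mod_cast hq.out.two_le
  rw [← add_sum_erase _ _ (mem_univ (0 : ZMod q))]
  have : ∑ t ∈ univ.erase (0 : ZMod q), s3_h q t
      = ∑ t ∈ univ.erase (0 : ZMod q), 1 / ((q : ℝ) - 1) :=
    sum_congr rfl fun t ht => if_neg (ne_of_mem_erase ht)
  rw [this, sum_const, card_erase_of_mem (mem_univ _), card_univ, ZMod.card, nsmul_eq_mul,
    Nat.cast_sub hq.out.one_le, Nat.cast_one, s3_h, if_pos rfl, mul_one_div_cancel (by linarith)]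
  ring

theorem s3_sum_affine (q : ℕ) [hq : Fact q.Prime] (F : ZMod q → ℝ) (a c : ZMod q) (hc : c ≠ 0) :
    ∑ i ∈ range q, F (c * i + a) = ∑ t, F t := by
  have h1 : ∑ i ∈ range q, F (c * i + a) = ∑ t : ZMod q, F (c * t + a) := by
    refine sum_nbij' (fun i => (i : ZMod q)) ZMod.val (by simp) (fun t _ => ?_) (fun i hi => ?_)
      (fun t _ => ?_) (fun _ _ => rfl)
    · exact mem_range.2 (ZMod.val_lt t)
    · exact ZMod.val_cast_of_lt (mem_range.1 hi)
    · exact ZMod.natCast_zmod_val t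
  rw [h1]
  exact Equiv.sum_comp ((Equiv.mulLeft₀ c hc).trans (Equiv.addRight a)) F

theorem s3_sum_range_mul (M q : ℕ) (f : ℕ → ℝ) :
    ∑ x ∈ range (M * q), f x = ∑ x ∈ range M, ∑ i ∈ range q, f (M * i + x) := by
  rw [sum_comm]
  induction q with
  | zero => simp
  | succ q ih => rw [Nat.mul_succ, sum_range_add, ih, sum_range_succ]

/-- The local sum. -/
theorem s3_local {A B C M q : ℕ} (hq : q.Prime) (hC : 1 ≤ C) (cA : A.Coprime (2 * B))
    (cC : C.Coprime (2 * A * B)) {r : ℕ} (hM : M = 4 * A * B * C * r) (hr : ¬ q ∣ r)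
    {x y : ℕ} (hx : x.Coprime M) (hy : y.Coprime M)
    (hU : (C : ℤ) ∣ A * (x : ℤ) - 16 * B * (y : ℤ)) :
    (∑ i ∈ range q, ∑ j ∈ range q, if ¬ q ∣ M * i + x ∧ ¬ q ∣ M * j + y then
      s3_g q ((A * ((M * i + x : ℕ) : ℤ) - 16 * B * ((M * j + y : ℕ) : ℤ)) / C) else 0) *
        (M.totient : ℝ) ^ 2 = s3_gam A B C q * ((M * q).totient : ℝ) ^ 2 := by
  have := Fact.mk hq
  have h2 : (2 : ℝ) ≤ q := by exact_mod_cast hq.two_le
  have hC0 : (C : ℤ) ≠ 0 := by exact_mod_cast (by omega : C ≠ 0)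
  obtain ⟨z, hz⟩ := hU
  have hzz : ∀ i j : ℕ, (A * ((M * i + x : ℕ) : ℤ) - 16 * B * ((M * j + y : ℕ) : ℤ)) / C
      = (4 * A * A * B * r : ℕ) * (i : ℤ) + (z - 64 * A * B * B * r * j) := by
    intro i j
    apply Int.ediv_eq_of_eq_mul_right hC0
    rw [hM]
    push_cast
    linear_combination hz
  have hcop : q ∣ M → ∀ {x : ℕ}, x.Coprime M → ∀ i, ¬ q ∣ M * i + x := by
    intro h x hx i h'
    exact hq.one_lt.ne' (Nat.eq_one_of_dvd_coprimes hx
      ((Nat.dvd_add_right (h.mul_right i)).1 h') h)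
  by_cases h1 : q ∣ 2 * A * B
  · have hqM : q ∣ M := by
      rw [hM]; exact h1.trans ⟨2 * C * r, by ring⟩
    have key : ∀ i j : ℕ, ¬ (q : ℤ) ∣
        (A * ((M * i + x : ℕ) : ℤ) - 16 * B * ((M * j + y : ℕ) : ℤ)) / C := by
      intro i j h
      have h3 : (q : ℤ) ∣ A * ((M * i + x : ℕ) : ℤ) - 16 * B * ((M * j + y : ℕ) : ℤ) := by
        refine h.trans (Int.ediv_dvd_of_dvd ?_)
        refine ⟨(4 * A * A * B * r : ℕ) * (i : ℤ) + (z - 64 * A * B * B * r * j), ?_⟩
        rw [hM]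
        push_cast
        linear_combination hz
      have hx' := hcop hqM hx i
      have hy' := hcop hqM hy j
      generalize M * i + x = X at h3 hx'
      generalize M * j + y = Y at h3 hy'
      have h4 : q ∣ A * X ↔ q ∣ 16 * B * Y := by
        rw [← Int.natCast_dvd_natCast, ← Int.natCast_dvd_natCast]
        push_cast
        exact (dvd_iff_dvd_of_dvd_sub h3)
      have h5 : q ∣ A ↔ q ∣ 2 * B := by
        have e : 16 * B * Y = 2 * (2 * (2 * (2 * B * Y))) := by ring
        rw [e] at h4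
        simp only [hq.dvd_mul] at h4 ⊢
        tauto
      have h6 : q ∣ A ∨ q ∣ 2 * B := by
        simp only [hq.dvd_mul] at h1 ⊢
        tauto
      have h7 : q ∣ A := by tauto
      exact hq.one_lt.ne' (Nat.eq_one_of_dvd_coprimes cA h7 (h5.1 h7))
    simp only [hcop hqM hx, hcop hqM hy, s3_g, key, not_false_eq_true, and_self, if_true, if_false]
    rw [s3_gam, if_pos h1, mul_comm M q, Nat.totient_mul_of_prime_of_dvd hq hqM]
    simp only [sum_const, card_range, nsmul_eq_mul]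
    push_cast
    ring
  by_cases h3 : q ∣ C
  · have hqM : q ∣ M := by
      rw [hM]; exact h3.trans ⟨4 * A * B * r, by ring⟩
    have hc : ((4 * A * A * B * r : ℕ) : ZMod q) ≠ 0 := by
      rw [Ne, ZMod.natCast_eq_zero_iff]
      have e : 4 * A * A * B * r = 2 * (A * (2 * A * B * r)) := by ring
      rw [e]
      simp only [hq.dvd_mul] at h1 ⊢
      tauto
    simp only [hcop hqM hx, hcop hqM hy, not_false_eq_true, and_self, if_true]
    rw [sum_comm, s3_gam, if_neg h1, if_pos h3,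
      sum_eq_zero, zero_mul, zero_mul]
    intro j _
    rw [← s3_sum_h q, ← s3_sum_affine q (s3_h q) ((z - 64 * A * B * B * r * j : ℤ) : ZMod q) _ hc]
    refine sum_congr rfl fun i _ => ?_
    rw [hzz, s3_g_eq]
    push_cast
    rfl
  · have hqM : ¬ q ∣ M := by
      have e : M = 2 * (2 * A * B * C * r) := by rw [hM]; ring
      rw [e]
      simp only [hq.dvd_mul] at h1 ⊢
      tauto
    have hM0 : (M : ZMod q) ≠ 0 := by rwa [Ne, ZMod.natCast_eq_zero_iff]
    have hC1 : (C : ZMod q) ≠ 0 := by rwa [Ne, ZMod.natCast_eq_zero_iff]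
    have hA1 : (A : ZMod q) ≠ 0 := by
      rw [Ne, ZMod.natCast_eq_zero_iff]
      simp only [hq.dvd_mul] at h1
      tauto
    have hB1 : ((16 * B : ℕ) : ZMod q) ≠ 0 := by
      rw [Ne, ZMod.natCast_eq_zero_iff]
      have e : 16 * B = 2 * (2 * (2 * (2 * B))) := by ring
      rw [e]
      simp only [hq.dvd_mul] at h1 ⊢
      tauto
    let F : ZMod q → ZMod q → ℝ := fun s t =>
      if s ≠ 0 ∧ t ≠ 0 then s3_h q (A * s - (16 * B : ℕ) * t) else 0
    have e1 : ∀ i j : ℕ, (if ¬ q ∣ M * i + x ∧ ¬ q ∣ M * j + y then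
        s3_g q ((A * ((M * i + x : ℕ) : ℤ) - 16 * B * ((M * j + y : ℕ) : ℤ)) / C) else 0)
        = F (M * i + x) (M * j + y) := by
      intro i j
      have a1 : ∀ i x : ℕ, q ∣ M * i + x ↔ (M : ZMod q) * i + x = 0 := by
        intro i x
        rw [← ZMod.natCast_eq_zero_iff]
        push_cast
        rfl
      simp only [F, a1, Ne]
      refine if_congr Iff.rfl ?_ rfl
      rw [s3_g_eq, hzz, s3_h, s3_h]
      refine if_congr ?_ rfl rfl
      rw [← mul_right_inj' hC1, mul_zero]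
      have hz' := congrArg (Int.cast : ℤ → ZMod q) hz
      have hM' := congrArg (Nat.cast : ℕ → ZMod q) hM
      push_cast at hz' hM' ⊢
      refine Eq.congr_left ?_
      rw [hM']
      linear_combination -hz'
    have e2 : ∀ s : ZMod q, ∑ t, F s t = if s ≠ 0 then -(1 / ((q : ℝ) - 1)) else 0 := by
      intro s
      split_ifs with hs
      · have b1 : ∑ t : ZMod q, s3_h q (A * s - (16 * B : ℕ) * t) = 0 := by
          rw [← s3_sum_h q]
          refine Equiv.sum_comp ((Equiv.mulLeft₀ _ hB1).trans (Equiv.subLeft (A * s))) (s3_h q)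
        rw [← add_sum_erase _ _ (mem_univ (0 : ZMod q))] at b1 ⊢
        have b2 : ∑ t ∈ univ.erase (0 : ZMod q), F s t
            = ∑ t ∈ univ.erase (0 : ZMod q), s3_h q (A * s - (16 * B : ℕ) * t) :=
          sum_congr rfl fun t ht => if_pos ⟨hs, ne_of_mem_erase ht⟩
        have b3 : F s 0 = 0 := if_neg (by simp)
        rw [mul_zero, sub_zero, s3_h, if_neg (mul_ne_zero hA1 hs)] at b1
        rw [b2, b3]
        linarith
      · exact sum_eq_zero fun t _ => if_neg (by tauto)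
    simp only [e1, fun s => s3_sum_affine q (F s) y M hM0]
    rw [s3_sum_affine q (fun s => ∑ t, F s t) x M hM0]
    simp only [e2]
    rw [← sum_filter, filter_ne', sum_const, card_erase_of_mem (mem_univ _), card_univ, ZMod.card,
      nsmul_eq_mul, s3_gam, if_neg h1, if_neg h3, mul_comm M q,
      Nat.totient_mul_of_prime_of_not_dvd hq hqM]
    push_cast [Nat.cast_sub hq.one_le]
    have : (q : ℝ) - 1 ≠ 0 := by linarith
    field_simp

end Pool.Agent.Lib.RankZero
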