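import Pool.Agent.Lib.MP_6073f3_nt.Z.Parity
import Pool.Agent.Lib.MP_6073f3_nt.Engine

/-!
Exact 2-descent on `y ^ 2 = x (x - S) (x - 16 T)` with `S, T, S - 16 T` squarefree and
`S ≡ 3 mod 4`.
-/

set_option linter.unusedSectionVars false

namespace Pool.Agent.Lib.RankZero

open Finset Matrix Pool.Agent.Lib.TorsRank WeierstrassCurve WeierstrassCurve.Affine
open scoped NumberTheorySymbols

theorem odd_sq {w : ℤ} (h : ¬ (2 : ℤ) ∣ w) : ∃ j, w * w = 8 * j + 1 := by
  obtain ⟨m, rfl⟩ : ∃ m, w = 2 * m + 1 := ⟨w / 2, by omega⟩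
  obtain ⟨j, hj⟩ := Int.even_mul_succ_self m
  exact ⟨j, by linear_combination 4 * hj⟩

theorem sq_two {u g : ℤ} {k : ℕ} (e : g ^ 2 = 2 ^ k * u) (hu : ¬ (2 : ℤ) ∣ u) :
    Even k ∧ u % 8 = 1 := by
  have hu0 : u ≠ 0 := by rintro rfl; exact hu (dvd_zero _)
  have hg : g ≠ 0 := by
    rintro rfl
    exact mul_ne_zero (pow_ne_zero k two_ne_zero) hu0 (by simpa using e.symm)
  obtain ⟨w, hw, hw'⟩ := decomp Nat.prime_two hg
  set m := padicValInt 2 g
  have h1 : g ^ 2 = (2 : ℕ) ^ (2 * m) * (w * w) := by rw [hw]; ring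
  obtain ⟨j, hj⟩ := odd_sq hw'
  have hk : k = 2 * m := (val_eq Nat.prime_two e hu).symm.trans
    (val_eq Nat.prime_two h1 (by rw [hj]; omega))
  refine ⟨⟨m, by omega⟩, ?_⟩
  rw [e, hk] at h1
  have := mul_left_cancel₀ (pow_ne_zero _ two_ne_zero) h1
  omega

theorem two_adic {S T α c β : ℤ} (hS : S % 4 = 3) (hT : ¬ (2 : ℤ) ∣ T)
    (hc : (2 : ℤ) ∣ α → ¬ (2 : ℤ) ∣ c) (hβ : β ≠ 0)
    (h : β ^ 2 = (α - S * c ^ 2) * (α - 16 * T * c ^ 2) * α) :
    (Even (padicValInt 2 (α - S * c ^ 2)) ∧ Even (padicValInt 2 (α - 16 * T * c ^ 2)) ∧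
      Even (padicValInt 2 α)) ∧ ∃ (k : ℕ) (u : ℤ), α - S * c ^ 2 = 2 ^ k * u ∧ u % 4 = 1 := by
  have hne := h ▸ pow_ne_zero 2 hβ
  have h2 := Nat.prime_two
  have v0 : ∀ {w : ℤ}, ¬ (2 : ℤ) ∣ w → Even (padicValInt 2 w) := fun h => by
    rw [padicValInt.eq_zero_of_not_dvd (p := 2) h]; simp
  by_cases ha : (2 : ℤ) ∣ α
  · obtain ⟨j, hj⟩ := odd_sq (hc ha)
    obtain ⟨t, ht, ht'⟩ : ∃ t, T * c ^ 2 = t ∧ ¬ (2 : ℤ) ∣ t :=
      ⟨_, rfl, by rw [sq, hj, mul_add, mul_left_comm]; omega⟩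
    obtain ⟨s, hs, hs'⟩ : ∃ s, S * c ^ 2 = s ∧ s % 4 = 3 :=
      ⟨_, rfl, by rw [sq, hj, mul_add, mul_left_comm]; omega⟩
    rw [mul_assoc 16, ht, hs] at h hne ⊢
    obtain ⟨u, hu, hu'⟩ := decomp h2 (right_ne_zero_of_mul hne)
    obtain ⟨w, hw, hw'⟩ := decomp h2 (right_ne_zero_of_mul (left_ne_zero_of_mul hne))
    obtain ⟨i, hi⟩ := odd_sq hu'
    have h0 : ¬ (2 : ℤ) ∣ α - s := by omega
    have hP := Int.prime_two
    set k := padicValInt 2 α
    set k' := padicValInt 2 (α - 16 * t) with hk'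
    push_cast at hu hw hu' hw'
    have h3 := (sq_two (k := k' + k) (u := (α - s) * w * u) (by
      rw [h]; conv_lhs => rw [hw]; enter [2]; rw [hu]
      ring) fun h => (hP.dvd_or_dvd h).elim (fun h => (hP.dvd_or_dvd h).elim h0 hw') hu').1
    have h4 : k ≠ 1 := fun e => by
      rw [e] at hu
      have := (sq_two (k := 2) (u := (α - s) * (u - 8 * t) * u) (by rw [h, hu]; ring)
        fun h => (hP.dvd_or_dvd h).elim (fun h => (hP.dvd_or_dvd h).elim h0 (by omega)) hu').2
      rw [show (α - s) * (u - 8 * t) * u = α - s + 8 * ((α - s) * (i - t * u)) by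
        linear_combination (α - s) * hi] at this
      omega
    have h5 : k ≠ 0 := fun e => by rw [e] at hu; omega
    have h6 : (4 : ℤ) ∣ α := by
      obtain ⟨m, hm⟩ : ∃ m, k = m + 2 := ⟨k - 2, by omega⟩
      exact ⟨2 ^ m * u, by rw [hu, hm]; ring⟩
    have h7 : k ≠ 3 := fun e => by
      rw [e] at hu
      have := (sq_two (k := 6) (u := (α - s) * (u - 2 * t) * u) (by rw [h, hu]; ring)
        fun h => (hP.dvd_or_dvd h).elim (fun h => (hP.dvd_or_dvd h).elim h0 (by omega)) hu').2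
      obtain ⟨m, hm⟩ : ∃ m, α - s = 4 * m + 1 := ⟨(α - s) / 4, by omega⟩
      obtain ⟨t, rfl⟩ : ∃ m, t = 2 * m + 1 := ⟨t / 2, by omega⟩
      obtain ⟨u, rfl⟩ : ∃ m, u = 2 * m + 1 := ⟨u / 2, by omega⟩
      rw [hm, show (4 * m + 1) * (2 * u + 1 - 2 * (2 * t + 1)) * (2 * u + 1) = 4 * (m * (2 * u + 1 -
        2 * (2 * t + 1)) * (2 * u + 1) + u * u - 2 * t * u - t) - 1 by ring] at this
      omega
    refine ⟨⟨v0 h0, ?_⟩, 0, α - s, by simp, by omega⟩
    rcases le_or_gt k 4 with h8 | h8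
    · simp only [Nat.even_iff] at h3 ⊢; omega
    · obtain ⟨m, hm⟩ : ∃ m, k = m + 5 := ⟨k - 5, by omega⟩
      have : k' = 4 := val_eq h2 (u := 2 * (2 ^ m * u) - t) (by rw [hu, hm]; ring) (by omega)
      simp only [Nat.even_iff] at h3 ⊢; omega
  · obtain ⟨u, hu, hu'⟩ := decomp h2 (left_ne_zero_of_mul (left_ne_zero_of_mul hne))
    obtain ⟨i, hi⟩ := odd_sq ha
    have h1 : ¬ (2 : ℤ) ∣ α - 16 * T * c ^ 2 := by rw [mul_assoc]; omega
    have hP := Int.prime_two
    obtain ⟨h3, h4⟩ := sq_two (k := padicValInt 2 (α - S * c ^ 2))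
      (u := u * (α - 16 * T * c ^ 2) * α) (by
        rw [h]; conv_lhs => rw [hu]
        push_cast; ring)
      fun h => (hP.dvd_or_dvd h).elim (fun h => (hP.dvd_or_dvd h).elim hu' h1) ha
    rw [show u * (α - 16 * T * c ^ 2) * α = u + 8 * (u * (i - 2 * T * c ^ 2 * α)) by
      linear_combination u * hi] at h4
    exact ⟨⟨h3, v0 h1, v0 ha⟩, _, u, hu, by omega⟩

theorem finrank_zero {G : Type} [AddCommGroup G] [Module.Finite ℤ G]
    (h : ∀ P : G, ∃ T Q : G, T + T = 0 ∧ P = T + (Q + Q)) : Module.finrank ℤ G = 0 := by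
  rw [← finrank_quotient_torsion_eq]
  set T := (AddCommGroup.torsion G).toIntSubmodule with hT
  have : Module.IsTorsionFree ℤ (G ⧸ T) := by
    have : IsAddTorsionFree (G ⧸ T) :=
      inferInstanceAs (IsAddTorsionFree (G ⧸ AddCommGroup.torsion G))
    infer_instance
  have : Module.Free ℤ (G ⧸ T) := Module.free_of_finite_type_torsion_free'
  by_contra hn
  let bs := Module.finBasis ℤ (G ⧸ T)
  let i : Fin (Module.finrank ℤ (G ⧸ T)) := ⟨0, Nat.pos_of_ne_zero hn⟩
  obtain ⟨g, hg⟩ := T.mkQ_surjective (bs i)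
  obtain ⟨R, Q, h1, rfl⟩ := h g
  have h2 := congrArg (fun x => bs.repr (T.mkQ x) i) h1
  have h3 := congrArg (fun x => bs.repr x i) hg
  simp only [map_add, Finsupp.add_apply, map_zero, Finsupp.zero_apply, Module.Basis.repr_self,
    Finsupp.single_eq_same] at h2 h3
  omega

theorem vch_prod {κ : Type} {p : ℕ} (hp : p.Prime) (s : Finset κ) (f : κ → ℤ) (hf : ∀ j, f j ≠ 0) :
    vch p (∏ j ∈ s, f j : ℤ) = ∑ j ∈ s, vch p (f j) := by
  classical
  induction s using Finset.induction_on with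
  | empty => simp [vch]
  | insert a s ha ih =>
    rw [prod_insert ha, sum_insert ha, ← ih, Int.cast_mul, vch_qch hp]
    · exact_mod_cast hf a
    · exact_mod_cast prod_ne_zero_iff.2 fun j _ => hf j

theorem vch_prime {p r : ℕ} (hp : p.Prime) (hr : r.Prime) : vch p r = if r = p then 1 else 0 := by
  have : Fact p.Prime := ⟨hp⟩
  rw [vch, padicValRat.of_nat, ← Nat.factorization_def _ hp, hr.factorization,
    Finsupp.single_apply]
  split_ifs <;> simp

theorem vch_neg (p : ℕ) (x : ℚ) : vch p (-x) = vch p x := by simp [vch]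

/-- The symmetric symbol between two labelled primes. -/
def sy (x y : Option (Fin 3)) (p r : ℕ) : ℤ :=
  match x, y with
  | some u, some v => if u < v then J(p | r) else if v < u then J(r | p) else
      if u = 1 ∧ p % 4 = 3 ∧ r % 4 = 3 then -1 else 1
  | _, _ => 1

/-- The integer representing the symbol. -/
def mu (l : Fin 3) (y : Option (Fin 3)) (r : ℕ) : ℤ :=
  match y with
  | some v => if l < v then TorsRank.star r else if v < l then r else if l = 1 ∧ r % 4 = 3 then -1 else 1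
  | none => 1

/-- The splitting signs. -/
def dd (S T : ℤ) (x : Option (Fin 3)) (p : ℕ) : ℤ :=
  match x with
  | some u => J(![-S, -T, S] u | p)
  | none => 1

/-- The local factors of the parity. -/
def ww (x : Option (Fin 3)) (d : ℤ) : ℤ := if x = none then 1 else if x = some 0 then -d else -1

theorem sy_comm (x y : Option (Fin 3)) (p r : ℕ) : sy x y p r = sy y x r p := by
  rcases x with _ | u <;> rcases y with _ | v <;> simp only [sy]
  rcases lt_trichotomy u v with h | rfl | h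
  · simp [h, h.not_gt]
  · simp [and_comm]
  · simp [h, h.not_gt]

theorem jac_neg_one {p : ℕ} (hp : Odd p) : J(-1 | p) = if p % 4 = 3 then -1 else 1 := by
  rw [jacobiSym.at_neg_one hp]
  rcases Nat.odd_mod_four_iff.1 (Nat.odd_iff.1 hp) with h | h
  · rw [ZMod.χ₄_nat_one_mod_four h, if_neg (by omega)]
  · rw [ZMod.χ₄_nat_three_mod_four h, if_pos h]

theorem jac_mu {p r : ℕ} (hp : Odd p) (hr : Odd r) (l : Fin 3) (y : Option (Fin 3)) :
    J(mu l y r | p) = sy (some l) y p r := by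
  rcases y with _ | v <;> simp only [mu, sy, jacobiSym.one_left]
  split_ifs with h1 h2 h3 h4 h4
  · exact (jac_star hp hr).symm
  · rfl
  · rw [jac_neg_one hp, if_pos h4.2.1]
  · rw [jac_neg_one hp, if_neg fun h => h4 ⟨h3.1, h, h3.2⟩]
  · exact absurd ⟨h4.1, h4.2.2⟩ h3
  · simp

theorem mu_abs (l : Fin 3) (y : Option (Fin 3)) (r : ℕ) :
    |mu l y r| = if y = none ∨ y = some l then 1 else r := by
  rcases y with _ | v
  · simp [mu]
  · rcases lt_trichotomy l v with h | rfl | h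
    · simp only [mu, TorsRank.star, h, if_true, Option.some.injEq, h.ne', reduceCtorEq, or_self, if_false]
      split_ifs <;> simp
    · simp only [mu, lt_irrefl, if_false, or_true, if_true]; split_ifs <;> simp
    · simp [mu, h, h.not_gt, h.ne]

variable {κ : Type} [Fintype κ] [DecidableEq κ] {q : κ → ℕ} {z₀ : ℕ} {τ : κ → Option (Fin 3)}

/-- The product of the symbols over the support of `a`. -/
def PP (q : κ → ℕ) (τ : κ → Option (Fin 3)) (a : κ → Bool) (i : κ) : ℤ :=
  ∏ j, if a j then sy (τ i) (τ j) (q i) (q j) else 1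

/-- The Selmer conditions. -/
def c0 (q : κ → ℕ) (τ : κ → Option (Fin 3)) (δ : κ → ℤ) (a : κ → Bool) : Prop :=
  ∀ i, (τ i = none → a i = false) ∧ PP q τ a i = if a i then δ i else 1

theorem sy_sign (hq : PrimeSys q z₀) (i j : κ) :
    sy (τ i) (τ j) (q i) (q j) = 1 ∨ sy (τ i) (τ j) (q i) (q j) = -1 := by
  rcases h : τ i with _ | u <;> rcases h' : τ j with _ | v <;> simp only [sy, true_or]
  have : u ≠ v → i ≠ j := by rintro h1 rfl; rw [h] at h'; cases h'; exact h1 rfl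
  split_ifs with h1 h2
  exacts [jac_primes (hq.hp i) (hq.hp j) (hq.inj.ne (this h1.ne)),
    jac_primes (hq.hp j) (hq.hp i) (hq.inj.ne (this h2.ne').symm), Or.inr rfl, Or.inl rfl]

theorem dvd_fib (hq : PrimeSys q z₀) (i : κ) (u : Fin 3) :
    (q i : ℤ) ∣ (pr q (fib τ u) : ℕ) ↔ τ i = some u := by
  rw [Int.natCast_dvd_natCast, hq.dvd_pr]; simp [fib]

theorem vch_fib (hq : PrimeSys q z₀) (i : κ) (u : Fin 3) :
    vch (q i) (pr q (fib τ u) : ℕ) = if τ i = some u then 1 else 0 := by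
  have := vch_prod (hq.hp i) (fib τ u) (fun j => q j) fun j => by exact_mod_cast (hq.hp j).ne_zero
  simp only [Int.cast_natCast, vch_prime (hq.hp i) (hq.hp _), hq.inj.eq_iff, sum_ite_eq'] at this
  simpa [pr, fib] using this

/-- The roots of the cubic. -/
def rts (S T : ℕ) : Fin 3 → ℤ := ![S, 16 * T, 0]

/-- The hypotheses on the curve. -/
structure Crv (q : κ → ℕ) (τ : κ → Option (Fin 3)) (S T : ℕ) : Prop where
  hT : T = pr q (fib τ 0)
  hS : S = pr q (fib τ 1)
  hE : S = 16 * T + pr q (fib τ 2)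
  h3 : S % 4 = 3

variable {S T : ℕ}

theorem Crv.diff (h : Crv q τ S T) (u : Fin 3) :
    rts S T (u + 1) - rts S T (u + 2) = ![16, -1, 1] u * (pr q (fib τ u) : ℕ) := by
  have h1 := h.hE
  fin_cases u
  · simp [rts, h.hT]
  · simp [rts, ← h.hS]
  · simp [rts]; omega

theorem Crv.inj (hq : PrimeSys q z₀) (h : Crv q τ S T) : Function.Injective (rts S T) := by
  have h1 := (hq.odd (fib τ 0)).pos
  have h2 := (hq.odd (fib τ 2)).pos
  have h3 := h.hE
  rw [← h.hT] at h1
  intro i j hij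
  fin_cases i <;> fin_cases j <;> simp [rts] at hij ⊢ <;> omega

theorem dvd_c {p : ℕ} (hp : p.Prime) (h2 : p ≠ 2) (u : Fin 3) (n : ℤ) :
    (p : ℤ) ∣ ![16, -1, 1] u * n ↔ (p : ℤ) ∣ n := by
  have h : ¬ (p : ℤ) ∣ 16 := fun h => h2 ((Nat.prime_dvd_prime_iff_eq hp Nat.prime_two).1
    (hp.dvd_of_dvd_pow (n := 4) (by exact_mod_cast h)))
  fin_cases u <;> simp [(Nat.prime_iff_prime_int.1 hp).dvd_mul, h]

theorem jac16 {p : ℕ} (hp : Odd p) (n : ℤ) : J(16 * n | p) = J(n | p) := by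
  rw [jacobiSym.mul_left, show (16 : ℤ) = 4 ^ 2 by norm_num, jacobiSym.sq_one', one_mul]
  exact (Nat.Coprime.pow_left 2 (Nat.coprime_two_left.2 hp) :)

theorem Crv.coll (hq : PrimeSys q z₀) (h : Crv q τ S T) {i : κ} {u : Fin 3} (hu : τ i = some u) :
    Coll (rts S T) (q i) u ∧ J(rts S T (u + 1) - rts S T u | q i) = dd S T (some u) (q i) ∧
      (padicValInt (q i) (rts S T (u + 1) - rts S T (u + 2)) : ZMod 2) = 1 := by
  have hd := fun v => (dvd_c (hq.hp i) (hq.h2 i) v _).trans (dvd_fib (τ := τ) hq i v)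
  have hodd := (hq.hp i).odd_of_ne_two (hq.h2 i)
  refine ⟨⟨by rw [h.diff]; exact (hd u).2 hu, fun h1 => ?_⟩, ?_, ?_⟩
  · have := h.diff (u + 2)
    rw [show u + 2 + 1 = u by fin_cases u <;> rfl, show u + 2 + 2 = u + 1 by
      fin_cases u <;> rfl] at this
    rw [dvd_sub_comm, this, hd, hu] at h1
    revert h1; fin_cases u <;> simp
  · fin_cases u
    · refine jac_congr ?_
      simpa [rts, h.hT] using ((dvd_fib hq i 0).2 hu).mul_left 16
    · simpa [rts, dd] using jac16 hodd (-T)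
    · simp [rts, dd]
  · have e : ∀ m : ℤ, (padicValInt (q i) m : ZMod 2) = vch (q i) m := fun m => by simp [vch]
    have h0 : ((pr q (fib τ u) : ℕ) : ℚ) ≠ 0 := by exact_mod_cast (hq.odd _).pos.ne'
    rw [e, h.diff, Int.cast_mul, vch_qch (hq.hp i) _ _ (by fin_cases u <;> simp) (by simpa using h0),
      Int.cast_natCast, vch_fib hq, if_pos hu, add_eq_right]
    rw [← e, padicValInt.eq_zero_of_not_dvd, Nat.cast_zero]
    rw [← mul_one (![16, -1, 1] u : ℤ), dvd_c (hq.hp i) (hq.h2 i)]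
    exact_mod_cast (hq.hp i).one_lt.ne' ∘ Nat.dvd_one.1

/-- The valuation vector of a point. -/
def Crv.ep (hq : PrimeSys q z₀) (h : Crv q τ S T) (j : κ) : PE (rts S T) →+ ZMod 2 :=
  match τ j with
  | some u => vh (h.inj hq) (u + 1) (q j)
  | none => 0

theorem Crv.ep_some (hq : PrimeSys q z₀) (h : Crv q τ S T) {j : κ} {u : Fin 3} (hu : τ j = some u) :
    h.ep hq j = vh (h.inj hq) (u + 1) (q j) := by simp only [Crv.ep, hu]

theorem Crv.two (hq : PrimeSys q z₀) (h : Crv q τ S T) {P : PE (rts S T)} (hP : P + P ≠ 0) :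
    (∀ l, vh (h.inj hq) l 2 P = 0) ∧ 0 < dl (rts S T 2) P ∧
      0 < dl (rts S T 0) P * dl (rts S T 1) P ∧
      ∀ n : ℤ, ¬ 2 ∣ n → IsSquare (dl (rts S T 0) P * n) → n % 4 = 1 := by
  obtain ⟨α, c, β, hc, hβ, hd, hα, hsq, hco⟩ := pt_local hP
  have h0 : α 0 = α 2 - S * c ^ 2 := by rw [hα 2 0]; simp [rts]; ring
  have h1 : α 1 = α 2 - 16 * T * c ^ 2 := by rw [hα 2 1]; simp [rts]; ring
  have h2 : β ^ 2 = α 0 * α 1 * α 2 := hsq 2
  have hT : Odd T := h.hT ▸ hq.odd _
  obtain ⟨⟨v0, v1, v2⟩, k, u, hu, hu'⟩ := two_adic (S := S) (T := T) (by have := h.h3; omega)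
    (by rw [Nat.odd_iff] at hT; omega) (hco 2 Nat.prime_two 2) hβ (by rw [h2, h0, h1])
  rw [← h0] at v0 hu
  rw [← h1] at v1
  have hne : ∀ i, α i ≠ 0 := fun i h0 => by
    have := hsq i
    rw [h0, mul_zero] at this
    exact pow_ne_zero 2 hβ this
  have hb : 0 < β ^ 2 := by positivity
  have hc2 : 0 < c ^ 2 := by positivity
  have h3 : 0 < α 2 := by
    by_contra h3
    have h4 : α 2 < 0 := lt_of_le_of_ne (not_lt.1 h3) (hne 2)
    have h5 : α 0 < 0 := by rw [h0]; nlinarith [mul_nonneg (Nat.cast_nonneg (α := ℤ) S) hc2.le]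
    have h6 : α 1 < 0 := by rw [h1]; nlinarith [mul_nonneg (Nat.cast_nonneg (α := ℤ) T) hc2.le]
    nlinarith [mul_pos_of_neg_of_neg h5 h6]
  have hcq : (c : ℚ) ≠ 0 := by exact_mod_cast hc
  refine ⟨fun l => ?_, by rw [hd]; positivity, ?_, fun n hn ⟨z, hz⟩ => ?_⟩
  · rw [vh_apply _ l Nat.prime_two, hd, vch_div Nat.prime_two (hne l) hc]
    fin_cases l
    exacts [cast_even v0, cast_even v1, cast_even v2]
  · have : (0 : ℚ) < α 0 * α 1 := by exact_mod_cast pos_of_mul_pos_left (h2 ▸ hb) h3.le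
    rw [hd, hd, div_mul_div_comm]; positivity
  · obtain ⟨g, hg⟩ : IsSquare (α 0 * n) := by
      rw [← Rat.isSquare_intCast_iff]
      rw [hd] at hz
      exact ⟨z * c, by push_cast; field_simp at hz; linear_combination hz⟩
    obtain ⟨m, rfl⟩ : ∃ m, u = 4 * m + 1 := ⟨u / 4, by omega⟩
    have := (sq_two (g := g) (k := k) (u := (4 * m + 1) * n) (by rw [sq, ← hg, hu]; ring)
      fun h => (Int.prime_two.dvd_or_dvd h).elim (by omega) hn).2
    rw [add_mul, mul_assoc] at this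
    omega

theorem Crv.val (hq : PrimeSys q z₀) (h : Crv q τ S T) {P : PE (rts S T)} (hP : P + P ≠ 0)
    (l : Fin 3) {p : ℕ} (hp : p.Prime) : vh (h.inj hq) l p P =
      ∑ j, if q j = p ∧ ¬ (τ j = none ∨ τ j = some l) then h.ep hq j P else 0 := by
  by_cases hn : ∀ i, q i = p → τ i = none
  · rw [sum_eq_zero fun j _ => if_neg fun h => h.2 (Or.inl (hn j h.1))]
    rcases eq_or_ne p 2 with rfl | h2
    · exact (h.two hq hP).1 l
    refine neu_pt _ hp (Or.inl fun u hu => ?_) hP l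
    rw [h.diff, dvd_c hp h2, Int.natCast_dvd_natCast, pr, hp.prime.dvd_finsetProd_iff] at hu
    obtain ⟨j, hj, hu⟩ := hu
    have := hn j ((Nat.prime_dvd_prime_iff_eq hp (hq.hp j)).1 hu).symm
    simp [fib, this] at hj
  · push Not at hn
    obtain ⟨i, rfl, hi⟩ := hn
    obtain ⟨u, hu⟩ := Option.ne_none_iff_exists'.1 hi
    obtain ⟨h1, h2, -⟩ := coll_pt (h.inj hq) hp (h.coll hq hu).1 hP
    rw [sum_eq_single i (fun j _ hj => if_neg fun h => hj (hq.inj h.1)) (by simp), h.ep_some hq hu,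
      hu]
    rcases fin3_cases u l with rfl | rfl | rfl
    · simp [h1]
    · rw [if_pos ⟨rfl, by clear * -; revert u; decide⟩]
    · rw [if_pos ⟨rfl, by clear * -; revert u; decide⟩, h2]

theorem Crv.sq (hq : PrimeSys q z₀) (h : Crv q τ S T) {P : PE (rts S T)} (hP : P + P ≠ 0)
    (l : Fin 3) :
    IsSquare (dl (rts S T l) P * (∏ j, if h.ep hq j P = 1 then mu l (τ j) (q j) else 1 : ℤ)) := by
  set N : Fin 3 → ℤ := fun l => ∏ j, if h.ep hq j P = 1 then mu l (τ j) (q j) else 1 with hN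
  have hq0 : ∀ j, (0 : ℤ) < q j := fun j => by exact_mod_cast (hq.hp j).pos
  have hm : ∀ l j, mu l (τ j) (q j) ≠ 0 := fun l j => by
    rw [← abs_pos, mu_abs]; split_ifs; exacts [one_pos, hq0 j]
  have hN0 : ∀ l, (N l : ℚ) ≠ 0 := fun l => by
    exact_mod_cast prod_ne_zero_iff.2 fun j _ => by split_ifs; exacts [hm l j, one_ne_zero]
  have hd := fun l => dl_ne (rt (h.inj hq) l) P
  have hv : ∀ l p, p.Prime → vch p (dl (rts S T l) P * N l) = 0 := fun l p hp => by
    rw [vch_qch hp _ _ (hd l) (hN0 l), ← vh_apply (h.inj hq) _ hp, h.val hq hP l hp, hN,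
      vch_prod hp _ _ fun j => by split_ifs; exacts [hm l j, one_ne_zero], ← sum_add_distrib]
    refine sum_eq_zero fun j _ => ?_
    have e : vch p (mu l (τ j) (q j)) = if q j = p ∧ ¬ (τ j = none ∨ τ j = some l) then 1 else 0 := by
      have : vch p (mu l (τ j) (q j)) = vch p (|mu l (τ j) (q j)| : ℤ) := by
        rcases abs_choice (mu l (τ j) (q j)) with e | e <;> simp [e, vch_neg]
      rw [this, mu_abs]
      by_cases h1 : τ j = none ∨ τ j = some l
      · simp [h1, vch]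
      · simp only [h1, if_false, Int.cast_natCast, vch_prime hp (hq.hp j), not_false_iff, and_true]
    rcases z2 (h.ep hq j P) with h1 | h1 <;> rw [h1]
    · simp [vch]
    · rw [if_pos rfl, e, CharTwo.add_self_eq_zero]
  obtain ⟨-, h2, h01, h4⟩ := h.two hq hP
  have hodd : ∀ j, q j % 2 = 1 := fun j => Nat.odd_iff.1 ((hq.hp j).odd_of_ne_two (hq.h2 j))
  have e0 : N 0 % 4 = 1 := prod_induction _ (fun x : ℤ => x % 4 = 1)
    (fun a b ha hb => by rw [Int.mul_emod, ha, hb]; rfl) rfl fun j _ => by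
      have := hodd j
      rcases τ j with _ | v
      · simp [mu]
      · fin_cases v <;> simp [mu, TorsRank.star] <;> split_ifs <;> omega
  have p0 : 0 < dl (rts S T 0) P * N 0 := by
    by_contra h5
    have := h4 (-N 0) (by omega) (rat_sq_of_vch (by
      have := lt_of_le_of_ne (not_lt.1 h5) (mul_ne_zero (hd 0) (hN0 0))
      push_cast; linarith) fun p hp => by rw [Int.cast_neg, mul_neg, vch_neg, hv 0 p hp])
    omega
  have p1 : (0 : ℚ) < N 0 * N 1 := by
    rw [← Int.cast_mul, Int.cast_pos, hN, ← prod_mul_distrib]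
    refine prod_pos fun j _ => ?_
    have := hq0 j
    have := hodd j
    rcases τ j with _ | v
    · simp [mu]
    · fin_cases v <;> simp [mu, TorsRank.star] <;> split_ifs <;> first | omega | nlinarith
  have p2 : (0 : ℚ) < N 2 := by
    rw [Int.cast_pos, hN]
    refine prod_pos fun j _ => ?_
    have := hq0 j
    rcases τ j with _ | v
    · simp [mu]
    · fin_cases v <;> simp [mu] <;> split_ifs <;> omega
  refine rat_sq_of_vch ?_ (hv l)
  fin_cases l
  · exact p0
  · exact pos_of_mul_pos_right (b := dl (rts S T 1) P * N 1)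
      (by convert mul_pos h01 p1 using 1; ring) p0.le
  · exact mul_pos h2 p2

theorem Crv.sel (hq : PrimeSys q z₀) (h : Crv q τ S T) {P : PE (rts S T)} (hP : P + P ≠ 0) :
    c0 q τ (fun i => dd S T (τ i) (q i)) fun j => decide (h.ep hq j P = 1) := by
  intro i
  rcases hu : τ i with _ | u
  · simp [PP, hu, sy, Crv.ep]
  obtain ⟨h1, h2, h3⟩ := h.coll hq hu
  obtain ⟨-, -, s, h4, h5⟩ := coll_pt (h.inj hq) (hq.hp i) h1 hP
  have hodd : ∀ j, Odd (q j) := fun j => (hq.hp j).odd_of_ne_two (hq.h2 j)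
  have h6 := h4 _ (fun hd => by
    obtain ⟨j, -, hj⟩ := (Nat.prime_iff_prime_int.1 (hq.hp i)).dvd_finsetProd_iff _ |>.1 hd
    have h7 : (q i : ℤ) ∣ mu u (τ j) (q j) := by
      split_ifs at hj
      exacts [hj, hj.trans (one_dvd _)]
    rw [← dvd_abs, mu_abs] at h7
    split_ifs at h7 with h8
    · exact (hq.hp i).one_lt.ne' (Nat.dvd_one.1 (by exact_mod_cast h7))
    · obtain rfl := hq.inj ((Nat.prime_dvd_prime_iff_eq (hq.hp i) (hq.hp j)).1
        (by exact_mod_cast h7))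
      exact h8 (Or.inr hu)) (h.sq hq hP u)
  have h7 : PP q τ (fun j => decide (h.ep hq j P = 1)) i = s := by
    rw [← h6, jac_prod_left, PP, hu]
    refine prod_congr rfl fun j _ => ?_
    by_cases h8 : h.ep hq j P = 1 <;> simp [h8, jac_mu (hodd i) (hodd j)]
  have h8 : s = 1 ∨ s = -1 := h7 ▸ prod_induction _ (fun x : ℤ => x = 1 ∨ x = -1)
    (by rintro x y (rfl | rfl) (rfl | rfl) <;> simp) (Or.inl rfl) fun j _ => by
      split_ifs; exacts [sy_sign hq i j, Or.inl rfl]
  rw [← h.ep_some hq hu, h2, h3] at h5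
  refine ⟨by simp, ?_⟩
  rw [h7]
  rcases h5 with ⟨h5, h9⟩ | ⟨h5, h9⟩
  · simp [h5, h9]
  · by_cases h10 : h.ep hq i P = 1
    · simp [h10, h5, hu]
    · simpa [h10] using h8.resolve_right (mt h9 h10)

/-- The additive form of a sign. -/
def lg (s : ℤ) : ZMod 2 := if s = 1 then 0 else 1

theorem sg_lg {s : ℤ} (h : s = 1 ∨ s = -1) (x : ZMod 2) :
    sg2 (lg s * x) = if x = 1 then s else 1 := by
  rcases h with rfl | rfl <;> rcases z2 x with rfl | rfl <;> rfl

theorem sg_inj {x y : ZMod 2} (h : sg2 x = sg2 y) : x = y := by revert x y; decide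

open Classical in
theorem Crv.rank_zero (hq : PrimeSys q z₀) (h : Crv q τ S T) {y z : κ} (hy : τ y = some 0)
    (hz : τ z = some 2) (hW : ∏ i, ww (τ i) (dd S T (τ i) (q i)) = 1)
    (hK : #{a : κ → Bool | a y = false ∧ a z = false ∧
      c0 q τ (fun i => dd S T (τ i) (q i)) a} ≤ 3) :
    Module.Finite ℤ (PE (rts S T)) ∧ Module.finrank ℤ (PE (rts S T)) = 0 := by
  have he := h.inj hq
  suffices H : ∀ P : PE (rts S T), ∃ R Q, R + R = 0 ∧ P = R + (Q + Q) by
    have : Finite {R : PE (rts S T) // R + R = 0} := Finite.of_surjective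
      (fun o : Option (Fin 3) => (o.elim ⟨0, add_zero _⟩ fun l =>
        ⟨.some _ _ (tors_ns he l), add_neg_eq rfl (by simp)⟩ : {R : PE (rts S T) // R + R = 0}))
      fun ⟨R, hR⟩ => by
        rcases two_tors he hR with rfl | ⟨l, rfl⟩
        exacts [⟨none, rfl⟩, ⟨some l, rfl⟩]
    have hf : (nsmulAddMonoidHom (α := PE (rts S T)) 2).range.FiniteIndex := by
      have : Finite (PE (rts S T) ⧸ (nsmulAddMonoidHom (α := PE (rts S T)) 2).range) :=
        Finite.of_surjective (fun R : {R : PE (rts S T) // R + R = 0} => QuotientAddGroup.mk R.1)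
          fun x => by
            obtain ⟨P, rfl⟩ := QuotientAddGroup.mk_surjective x
            obtain ⟨R, Q, h1, rfl⟩ := H P
            exact ⟨⟨R, h1⟩, QuotientAddGroup.eq.2 ⟨Q, by simp [two_nsmul]⟩⟩
      exact AddSubgroup.finiteIndex_of_finite_quotient
    have := Module.Finite.iff_addGroup_fg.2 (fg_of_finiteIndex (disc_ne he) hf)
    exact ⟨this, finrank_zero H⟩
  by_cases hQ : ∀ Q : PE (rts S T), Q + Q = 0
  · exact fun P => ⟨P, 0, hQ P, by simp⟩
  push Not at hQ
  obtain ⟨Q, hQ⟩ := hQ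
  have hodd : ∀ j, Odd (q j) := fun j => (hq.hp j).odd_of_ne_two (hq.h2 j)
  set δ : κ → ℤ := fun i => if τ i = none then -1 else dd S T (τ i) (q i) with hδ
  have hδs : ∀ i, δ i = 1 ∨ δ i = -1 := fun i => by
    rcases hu : τ i with _ | u
    · simp [hδ, hu]
    · obtain ⟨h1, h2, -⟩ := h.coll hq hu
      simp only [hδ, hu, ← h2, reduceCtorEq, if_false]
      exact jacobiSym.eq_one_or_neg_one (gcd_of_not_dvd (hq.hp i) h1.2)
  let M : Matrix κ κ (ZMod 2) := Matrix.of fun i j =>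
    lg (sy (τ i) (τ j) (q i) (q j)) + if i = j then lg (δ i) else 0
  have hM : ∀ v i, sg2 ((M *ᵥ v) i) =
      PP q τ (fun j => decide (v j = 1)) i * if v i = 1 then δ i else 1 := fun v i => by
    simp only [mulVec, dotProduct, M, of_apply, add_mul, sum_add_distrib, ite_mul, zero_mul,
      sum_ite_eq, mem_univ, if_true, sg2_add, sg2_sum, sg_lg (sy_sign hq _ _), sg_lg (hδs _), PP,
      decide_eq_true_eq]
  have hM' : ∀ v, M *ᵥ v = 0 ↔ c0 q τ (fun i => dd S T (τ i) (q i)) fun j => decide (v j = 1) := by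
    refine fun v => funext_iff.trans (forall_congr' fun i => ?_)
    have h1 : (M *ᵥ v) i = 0 ↔ sg2 ((M *ᵥ v) i) = 1 := ⟨fun e => e ▸ rfl, fun e => sg_inj e⟩
    rw [Pi.zero_apply, h1, hM]
    have h2 := hδs i
    rcases hu : τ i with _ | u
    · by_cases h3 : v i = 1 <;> simp [PP, hu, sy, hδ, h3, dd]
    · simp only [hδ, hu, reduceCtorEq, if_false] at h2 ⊢
      by_cases h3 : v i = 1 <;> rcases h2 with h2 | h2 <;> simp [h3, h2, neg_eq_iff_eq_neg]
  let c : κ → ZMod 2 := fun j => if τ j = none ∨ τ j = some 0 then 1 else 0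
  have hMd : ∀ i, sg2 (M i i) = sy (τ i) (τ i) (q i) (q i) * δ i := fun i => by
    simpa [M, sg2_add] using congrArg₂ (· * ·) (sg_lg (sy_sign (τ := τ) hq i i) 1) (sg_lg (hδs i) 1)
  have hc : ∀ i, M i i = (M *ᵥ c) i := fun i => sg_inj (by
    rw [hMd, hM]
    have e : ∀ u, τ i = some u → u ≠ 0 → PP q τ (fun j => decide (c j = 1)) i = J(T | q i) :=
      fun u hu h0 => by
        rw [h.hT, pr, Nat.cast_prod, jac_prod_left, fib, prod_filter, PP, hu]
        refine prod_congr rfl fun j _ => ?_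
        rcases hv : τ j with _ | v
        · simp [sy]
        · by_cases h1 : v = 0 <;> simp [c, hv, h1, sy, pos_iff_ne_zero, h0]
    rcases hu : τ i with _ | u
    · simp [PP, c, hu, sy]
    · fin_cases u
      · rw [PP, prod_eq_one fun j _ => by
          rcases hv : τ j with _ | v
          · simp [sy, hu]
          · by_cases h1 : v = 0 <;> simp [h1, c, hv, hu, sy]]
        simp [c, hu, sy]
      · have := jac_neg_one (hodd i)
        rw [e _ hu (by decide), ← neg_neg (T : ℤ), ← neg_one_mul, jacobiSym.mul_left, this]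
        simp [c, hu, sy, hδ, dd]
      · rw [e _ hu (by decide), ← jac16 (hodd i)]
        simpa [c, hu, sy, hδ, dd] using jac_congr (p := q i) (u := S) (w := 16 * T)
          (by rw [h.hE]; simpa using (dvd_fib hq i 2).2 hu))
  have hs : ∀ i j, M i j = M j i := fun i j => by
    rcases eq_or_ne i j with rfl | hij
    · rfl
    · simp [M, hij, hij.symm, sy_comm (τ i)]
  have hsq := sym_sq M hs c hc (by
    have e : ∀ i, ww (τ i) (dd S T (τ i) (q i)) = sg2 (1 + c i * M i i) := fun i => by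
      rcases hu : τ i with _ | u
      · simp [ww, c, hu, sg2_add, hMd, sy, hδ, show sg2 1 = -1 from rfl]
      · by_cases h1 : u = 0 <;>
          simp [ww, c, hu, sg2_add, hMd, sy, hδ, h1, show sg2 1 = -1 from rfl]
    simp only [e, ← sg2_sum, sum_add_distrib, hc] at hW
    simpa [dotProduct] using eq_neg_of_add_eq_zero_left (sg_inj (y := 0) hW))
  let Ep := AddMonoidHom.pi (h.ep hq)
  have hker : ∀ P, M *ᵥ Ep P = 0 := fun P => funext fun i => hom_zero hQ
    (AddMonoidHom.mk' (fun P => (M *ᵥ Ep P) i) fun P Q => by simp [mulVec_add])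
    (fun P hP => congrFun ((hM' _).2 (h.sel hq hP)) i) P
  set T0 : PE (rts S T) := .some _ _ (tors_ns he 0) with hT0
  set T2 : PE (rts S T) := .some _ _ (tors_ns he 2) with hT2
  have hR : ∀ u, ((pr q (fib τ u) : ℕ) : ℚ) ≠ 0 := fun u => by exact_mod_cast (hq.odd _).pos.ne'
  have hE : (S : ℚ) = 16 * T + (pr q (fib τ 2) : ℕ) := by exact_mod_cast h.hE
  have hne := fun i j hij => sub_ne_zero.1 (sub_ne he (i := i) (j := j) hij)
  have e1 : Ep T2 y = 1 := by
    have := (h.coll hq hy).2.2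
    rw [AddMonoidHom.pi_apply, h.ep_some hq hy, vh_apply _ _ (hq.hp y), dl_some,
      if_neg (hne _ _ (by decide)), ← neg_sub, vch_neg, ← Int.cast_sub, vch, padicValRat.of_int]
    exact_mod_cast this
  have e2 : Ep T2 z = 0 := by
    rw [AddMonoidHom.pi_apply, h.ep_some hq hz, vh_apply _ _ (hq.hp z), dl_some,
      if_neg (hne _ _ (by decide))]
    simpa [rts, vch_neg, ← h.hS, hz] using vch_fib (τ := τ) hq z 1
  have e3 : Ep T0 y = 0 := by
    rw [AddMonoidHom.pi_apply, h.ep_some hq hy, vh_apply _ _ (hq.hp y), dl_some,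
      if_neg (hne _ _ (by decide))]
    simpa [rts, hE, hy] using vch_fib (τ := τ) hq y 2
  have e4 : Ep T0 z = 1 := by
    rw [AddMonoidHom.pi_apply, h.ep_some hq hz, vh_apply _ _ (hq.hp z), dl_some, if_pos (by rfl),
      show _ + _ + _ = ((pr q (fib τ 2) : ℕ) : ℚ) * (pr q (fib τ 1) : ℕ) by
        simp [rts, ea, eb, ← h.hS]; linear_combination S * hE,
      vch_qch (hq.hp z) _ _ (hR _) (hR _), vch_fib hq, vch_fib hq]
    simp [hz]
  set K := univ.filter fun v : κ → ZMod 2 => M *ᵥ v = 0 ∧ v y = 0 ∧ v z = 0 with hK0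
  have hin : ∀ v, M *ᵥ v = 0 → v + (v y • Ep T2 + v z • Ep T0) ∈ K := fun v hv => by
    simp [hK0, mulVec_add, mulVec_smul, hker, hv, e1, e2, e3, e4, CharTwo.add_self_eq_zero]
  have h4 : #{v : κ → ZMod 2 | M *ᵥ v = 0} = #K * 4 := by
    rw [show 4 = #(univ : Finset (ZMod 2 × ZMod 2)) by simp, ← card_product]
    refine card_nbij' (fun v => (v + (v y • Ep T2 + v z • Ep T0), v y, v z))
      (fun w => w.1 + (w.2.1 • Ep T2 + w.2.2 • Ep T0)) (fun v hv => ?_) (fun w hw => ?_)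
      (fun v _ => vww _ _) fun w hw => ?_
    · simpa using hin v (by simpa using hv)
    · have : M *ᵥ w.1 = 0 ∧ w.1 y = 0 ∧ w.1 z = 0 := by simpa [hK0] using hw
      simp [mulVec_add, mulVec_smul, hker, this]
    · have : M *ᵥ w.1 = 0 ∧ w.1 y = 0 ∧ w.1 z = 0 := by simpa [hK0] using hw
      simp [this, e1, e2, e3, e4, vww]
  have h5 : #K ≤ 3 := le_trans (card_le_card_of_injOn (fun v j => decide (v j = 1)) (fun v hv => by
    have : M *ᵥ v = 0 ∧ v y = 0 ∧ v z = 0 := by simpa [hK0] using hv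
    simpa [this] using (hM' v).1 this.1) fun v _ w _ e => funext fun j => by
      have := congrFun e j
      rcases z2 (v j) with h1 | h1 <;> rcases z2 (w j) with h2 | h2 <;> simp_all) hK
  have h6 : #K ≤ 1 := by
    rw [h4] at hsq
    by_contra h6
    obtain ⟨r, hr⟩ := hsq
    have : r ≤ 3 := by nlinarith
    interval_cases r <;> omega
  intro P
  set R := (Ep P y).val • T2 + (Ep P z).val • T0 with hR
  have h7 : ∀ l, (.some _ _ (tors_ns he l) : PE (rts S T)) + .some _ _ (tors_ns he l) = 0 :=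
    fun l => add_neg_eq rfl (by simp)
  have h8 : R + R = 0 := by
    rw [hR, add_add_add_comm, ← nsmul_add, ← nsmul_add, h7, h7]; simp
  have h9 : Ep (P + R) = 0 := card_le_one.1 h6 _ (by
    convert hin _ (hker P) using 1
    simp [hR, ← Nat.cast_smul_eq_nsmul (ZMod 2)]) _ (by simp [hK0])
  by_cases h10 : P + R + (P + R) = 0
  · exact ⟨P, 0, by rwa [add_add_add_comm, h8, add_zero] at h10, by simp⟩
  have hs : ∀ l, IsSquare (dl (rts S T l) (P + R)) := fun l => by
    have : ∀ j, h.ep hq j (P + R) = 0 := congrFun h9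
    simpa [this] using h.sq hq h10 l
  obtain ⟨Q, hQ⟩ : ∃ Q, Q + Q = P + R := by
    generalize P + R = P' at hs
    rcases P' with _ | ⟨x, y, h⟩
    · exact ⟨0, add_zero _⟩
    · have hs' : ∀ l, IsSquare (x - rts S T l) := fun l => by
        have := hs l
        rw [dl_some] at this
        split_ifs at this with hx
        · rw [hx, sub_self]; exact IsSquare.zero
        · exact this
      exact halve rfl rfl rfl (disc_ne he) h (hs' 0) (hs' 1) (hs' 2)
  exact ⟨R, Q, h8, by rw [hQ, add_left_comm, h8, add_zero]⟩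

end Pool.Agent.Lib.RankZero
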