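import Pool.Agent.Lib.MP_6073f3_nt.Z.Avg2

/-!
The lower bound for the main term.
-/

set_option linter.unusedSectionVars false

namespace Pool.Agent.Lib.RankZero

open Finset Pool.Agent.Lib.TorsRank
open scoped NumberTheorySymbols

section

variable {κ : Type} [Fintype κ] [DecidableEq κ] {q : κ → ℕ} {z₀ : ℕ} {τ : κ → Option (Fin 3)}

/-- The mean of the minorant for given labels. -/
noncomputable def gm (q : κ → ℕ) (τ : κ → Option (Fin 3)) : ℝ :=
  ∑ d : κ → Bool, (∏ i, law (τ i) (d i)) *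
    ((GG q τ (fun i => sb (d i)) 1 + GG q τ (fun i => sb (d i)) (-1)) / 2)

theorem gm_mem : 0 ≤ gm q τ ∧ gm q τ ≤ 1 := by
  have h0 : ∑ d : κ → Bool, ∏ i, law (τ i) (d i) = 1 := by
    rw [← Fintype.piFinset_univ, ← prod_univ_sum (fun _ => univ) fun i t => law (τ i) t]
    exact prod_eq_one fun i _ => by by_cases h : τ i = none <;> simp [law, h]
  have h1 : ∀ d : κ → Bool, 0 ≤ ∏ i, law (τ i) (d i) := fun d => prod_nonneg fun i _ => by
    simp only [law]; split_ifs <;> norm_num
  have h2 := fun d : κ → Bool => GG_mem (q := q) (τ := τ) fun i => sb (d i)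
  exact ⟨sum_nonneg fun d _ => mul_nonneg (h1 d) (by linarith [h2 d 1, h2 d (-1)]),
    h0 ▸ sum_le_sum fun d _ => mul_le_of_le_one_right (h1 d) (by linarith [h2 d 1, h2 d (-1)])⟩

/-- The product of the labelled primes. -/
def tot (q : κ → ℕ) (τ : κ → Option (Fin 3)) : ℕ := ∏ i, if τ i = none then 1 else q i

theorem tot_eq : tot q τ = pr q (fib τ 1) * pr q (fib τ 0) * pr q (fib τ 2) := by
  simp only [tot, pr, fib, prod_filter, ← prod_mul_distrib]
  refine prod_congr rfl fun i _ => ?_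
  rcases τ i with _ | u
  · simp
  · fin_cases u <;> simp

theorem pw_tot (hq : PrimeSys q z₀) :
    (∏ i, (1 + 3 / (q i : ℝ))) * ∏ i, pw (q i) (τ i) = 1 / tot q τ := by
  rw [tot, Nat.cast_prod, ← prod_mul_distrib, one_div, ← prod_inv_distrib]
  refine prod_congr rfl fun i _ => ?_
  have : (0 : ℝ) < q i := by exact_mod_cast (hq.hp i).pos
  simp only [pw]
  split_ifs <;> push_cast <;> field_simp

theorem ex_lab (f : κ → Option (Fin 3) → ℝ) :
    ∑ τ : κ → Option (Fin 3), (∏ i, pw (q i) (τ i)) * ∏ i, f i (τ i) = ∏ i, (f i none +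
      1 / ((q i : ℝ) + 3) * (f i (some 0) + f i (some 1) + f i (some 2) - 3 * f i none)) := by
  rw [ex_prod (fun i => pw (q i)) f]
  refine prod_congr rfl fun i _ => ?_
  simp only [Fintype.sum_option, Fin.sum_univ_three, pw, if_true, reduceCtorEq, if_false]
  field_simp; ring

end

theorem prod_le_exp {ι : Type} (s : Finset ι) (x : ι → ℝ) (h : ∀ i, x i ≤ 1) :
    ∏ i ∈ s, (1 - x i) ≤ Real.exp (-∑ i ∈ s, x i) := by
  rw [← sum_neg_distrib, Real.exp_sum]
  exact prod_le_prod (fun i _ => by linarith [h i]) fun i _ => by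
    linarith [Real.add_one_le_exp (-x i)]

/-- The admissible labels. -/
def Gd (z Y : ℕ) : Finset (PS 12 z → Option (Fin 3)) :=
  univ.filter fun τ => tot (fun i : PS 12 z => i.1) τ ≤ z ^ 450 ∧ ∃ i, τ i = some 1 ∧ Y ≤ i.1

theorem main_lb : ∃ M : ℝ, ∀ z Y : ℕ, 2 ≤ z → 2 ≤ Y → M ≤ Real.log z →
    28 * Real.exp 25 * Real.log Y ≤ Real.log z → Real.log z ^ 3 / (16 * Real.exp 51) ≤
      ∑ τ ∈ Gd z Y, gm (fun i : PS 12 z => i.1) τ / tot (fun i : PS 12 z => i.1) τ := by
  obtain ⟨C, hC⟩ := model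
  refine ⟨Real.exp (14 + 8 * (100 * (|C| + 1))), fun z Y hz hY hM hYz => ?_⟩
  have hq := primeSys_PS (c := 12) (by norm_num) hz
  have hC := hC z hz
  have hl := log_le_exp 12 z
  rw [← HH_PS] at hC hl
  set q := fun i : PS 12 z => i.1 with hq'
  have hi : ∀ i, (12 : ℝ) ≤ q i := fun i => by exact_mod_cast (mem_PS.1 i.2).1.1.le
  have hk : ∀ i, 3 / 4 * (q i : ℝ)⁻¹ ≤ 1 / (q i + 3) ∧ (1 : ℝ) / (q i + 3) ≤ 1 / q i ∧
      (1 : ℝ) / (q i + 3) ≤ 1 / 12 := fun i => by
    have := hi i
    refine ⟨?_, by gcongr; linarith, by gcongr; linarith⟩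
    rw [← div_eq_mul_inv, div_le_div_iff₀ (by positivity) (by positivity)]; linarith
  have hH := HH_nonneg (q := q)
  have hlz := half_le_log hz
  have hlY := half_le_log hY
  have e0 : (|C| + 1) * Real.exp (-(1 / 8) * HH q) ≤ 1 / 100 := by
    have h1 := Real.exp_le_exp.1 (hM.trans hl)
    have h2 := Real.add_one_le_exp (1 / 8 * HH q)
    rw [neg_mul, Real.exp_neg, ← div_eq_mul_inv, div_le_iff₀ (Real.exp_pos _)]
    push_cast at h1
    linarith
  have hp : ∀ τ : PS 12 z → Option (Fin 3), 0 ≤ ∏ i, pw (q i) (τ i) := fun τ =>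
    prod_nonneg fun i _ => by simp only [pw]; split_ifs <;> positivity
  have e1 : ∑ τ : PS 12 z → Option (Fin 3), ∏ i, pw (q i) (τ i) = 1 := by
    have := ex_lab (q := q) fun _ _ => 1
    norm_num at this ⊢
    exact this
  have e2 : ∑ τ : PS 12 z → Option (Fin 3), (∏ i, pw (q i) (τ i)) *
      ∏ i, (if τ i = none then 1 else 1 / 2) ≤ Real.exp (-(1 / 8) * HH q) := by
    rw [ex_lab fun _ x => if x = none then 1 else 1 / 2]
    refine le_trans (le_of_eq (prod_congr rfl fun i _ => by simp; ring)) ((prod_le_exp univ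
      (fun i => 3 / 2 * (1 / (q i + 3))) fun i => by linarith [hk i]).trans (Real.exp_le_exp.2 ?_))
    rw [neg_mul, neg_le_neg_iff, HH, mul_sum]
    exact sum_le_sum fun i _ => by linarith [hk i, inv_nonneg.2 ((q i).cast_nonneg (α := ℝ))]
  have e3 : ∑ τ : PS 12 z → Option (Fin 3), (∏ i, pw (q i) (τ i)) *
      ∏ i, (if τ i = some 1 ∧ Y ≤ q i then 0 else 1) ≤ 1 / 100 := by
    rw [ex_lab fun i x => if x = some 1 ∧ Y ≤ q i then 0 else 1]
    refine le_trans (le_of_eq (prod_congr rfl fun i _ => by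
      by_cases h : Y ≤ q i <;> simp [h] <;> ring_nf <;> simp)) ((prod_le_exp univ
      (fun i => if Y ≤ q i then 1 / (q i + 3) else 0) fun i => by
        split_ifs <;> linarith [hk i]).trans ?_)
    have h1 := recip_upper hY (S := (univ.filter fun i => ¬ Y ≤ q i).image q) fun l hl => by
      obtain ⟨i, hi, rfl⟩ := mem_image.1 hl
      exact ⟨hq.hp i, (not_le.1 (mem_filter.1 hi).2).le⟩
    rw [sum_image fun _ _ _ _ h => hq.inj h] at h1
    have h2 := sum_filter_add_sum_filter_not univ (fun i => Y ≤ q i) fun i => (q i : ℝ)⁻¹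
    have h3 : 3 / 4 * ∑ i with Y ≤ q i, (q i : ℝ)⁻¹ ≤
        ∑ i, if Y ≤ q i then (1 : ℝ) / (q i + 3) else 0 := by
      rw [← sum_filter, mul_sum]; exact sum_le_sum fun i _ => (hk i).1
    have h4 : Real.log (28 * Real.log Y) + 25 ≤ HH q + 14 := by
      rw [← Real.exp_le_exp, Real.exp_add, Real.exp_log (by positivity)]
      push_cast at hl
      rw [show HH q + 14 = HH q + 12 + 2 by ring]
      linarith
    refine (Real.exp_le_exp.2 (show _ ≤ -(5 * 1) by unfold HH at h4; linarith)).trans ?_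
    rw [Real.exp_neg, show (5 : ℝ) * 1 = (5 : ℕ) * 1 by simp, Real.exp_nat_mul, one_div]
    refine inv_anti₀ (by norm_num) (le_trans (by norm_num)
      (pow_le_pow_left₀ (by norm_num) Real.exp_one_gt_d9.le 5))
  have e4 : ∑ τ : PS 12 z → Option (Fin 3), (∏ i, pw (q i) (τ i)) *
      ∑ i, (if τ i = none then 0 else Real.log (q i)) ≤ 9 * Real.log z := by
    simp only [mul_sum]
    rw [sum_comm]
    have h1 := mertens3 hz (S := PS 12 z) fun l hl => ⟨(mem_PS.1 hl).2, (mem_PS.1 hl).1.2⟩
    rw [← sum_coe_sort] at h1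
    refine (sum_le_sum (g := fun i => 3 * (Real.log (q i) / q i)) fun i _ => ?_).trans (by
      rw [← mul_sum]; linarith)
    have := ex_lab (q := q) fun j x => if j = i then (if x = none then 0 else Real.log (q i)) else 1
    simp only [prod_ite_eq', mem_univ, if_true] at this
    rw [this, prod_eq_single i (fun j _ hj => by simp [hj]; norm_num) (by simp)]
    simp only [if_true, reduceCtorEq, if_false]
    have h2 := mul_le_mul_of_nonneg_right (hk i).2.1 (Real.log_natCast_nonneg (q i))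
    rw [div_eq_inv_mul (Real.log _), ← one_div]
    linarith
  have e5 : 1 / 16 ≤ ∑ τ ∈ Gd z Y, (∏ i, pw (q i) (τ i)) * gm q τ := by
    rw [Gd, sum_filter]
    refine le_trans ?_ (sum_le_sum (f := fun τ => (∏ i, pw (q i) (τ i)) * ((4 - 3 / 2 * FE q τ -
      1 / 2 * ∏ i, if τ i = none then 1 else 1 / 2) / 8 -
      ∏ i, (if τ i = some 1 ∧ Y ≤ q i then 0 else 1) -
      (∑ i, (if τ i = none then 0 else Real.log (q i))) / (450 * Real.log z))) fun τ _ => ?_)
    · simp only [← mul_div_assoc, mul_sub, mul_left_comm _ (1 / 2 : ℝ), mul_left_comm _ (3 / 2 : ℝ),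
        ← sum_div, sum_sub_distrib, ← mul_sum, ← sum_mul, e1]
      have h1 := (div_le_iff₀ (show 0 < 450 * Real.log z by positivity)).2
        (e4.trans (show _ ≤ 1 / 50 * (450 * Real.log z) by linarith))
      nlinarith [le_abs_self C, abs_nonneg C, Real.exp_pos (-(1 / 8) * HH q)]
    · rw [← mul_ite_zero]
      refine mul_le_mul_of_nonneg_left ?_ (hp τ)
      have h1 : _ ≤ gm q τ := ex_GG hq
      have h2 := gm_mem (q := q) (τ := τ)
      have h3 : (0 : ℝ) ≤ ∏ i, (if τ i = some 1 ∧ Y ≤ q i then 0 else 1) :=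
        prod_nonneg fun i _ => by split_ifs <;> norm_num
      have h4 : Real.log (tot q τ) = ∑ i, (if τ i = none then 0 else Real.log (q i)) := by
        rw [tot, Nat.cast_prod, Real.log_prod fun i _ => by
          have := hi i
          split_ifs <;> positivity]
        exact sum_congr rfl fun i _ => by split_ifs <;> simp
      rw [← h4]
      have h5 : 0 ≤ Real.log (tot q τ) / (450 * Real.log z) :=
        div_nonneg (Real.log_natCast_nonneg _) (by positivity)
      split_ifs with h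
      · linarith
      · rcases not_and_or.1 h with h | h
        · have : 1 ≤ Real.log (tot q τ) / (450 * Real.log z) := by
            rw [one_le_div (by positivity), show (450 : ℝ) = (450 : ℕ) by simp, ← Real.log_pow]
            exact Real.log_le_log (by positivity) (by exact_mod_cast (not_le.1 h).le)
          linarith
        · rw [prod_eq_one fun i _ => if_neg fun h' => h ⟨i, h'⟩]
          linarith
  have e6 : Real.log z ^ 3 / Real.exp 51 ≤ ∏ i, (1 + 3 / (q i : ℝ)) := by
    refine le_trans ?_ (prod_le_prod (fun i _ => (Real.exp_pos _).le) fun i _ =>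
      exp_le_one_add (by positivity))
    have h1 := sum_inv_sq_le (S := PS 12 z) fun l hl => (mem_PS.1 hl).2.two_le
    rw [← sum_coe_sort] at h1
    rw [← Real.exp_sum, div_le_iff₀ (Real.exp_pos _), ← Real.exp_add]
    refine (pow_le_pow_left₀ (by linarith) hl 3).trans ?_
    rw [← Real.exp_nat_mul, Real.exp_le_exp, sum_sub_distrib]
    simp only [div_eq_mul_inv, mul_pow, ← mul_sum, inv_pow]
    unfold HH
    push_cast
    linarith
  calc _ = Real.log z ^ 3 / Real.exp 51 * (1 / 16) := by ring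
    _ ≤ (∏ i, (1 + 3 / (q i : ℝ))) * ∑ τ ∈ Gd z Y, (∏ i, pw (q i) (τ i)) * gm q τ :=
        mul_le_mul e6 e5 (by norm_num) (by positivity)
    _ = _ := by
        rw [mul_sum]
        exact sum_congr rfl fun τ _ => by rw [← mul_assoc, pw_tot hq]; ring

end Pool.Agent.Lib.RankZero
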