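import Pool.Agent.Lib.MP_6073f3_nt.Z.SW1

/-!
The Siegel-Walfisz theorem from bounds for logarithmic derivatives.
-/

namespace Pool.Agent.Lib.RankZero

open Finset Complex
open scoped Real ArithmeticFunction.vonMangoldt

theorem sw_th_nonneg (n : ℕ) : 0 ≤ th n := by
  unfold th
  split_ifs
  · exact Real.log_natCast_nonneg n
  · exact le_rfl

theorem sw_th_le (n : ℕ) : th n ≤ Λ n := by
  unfold th
  split_ifs with h
  · exact (ArithmeticFunction.vonMangoldt_apply_prime h).ge
  · exact ArithmeticFunction.vonMangoldt_nonneg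

theorem sw_psi_theta (M : ℕ) : ∑ n ∈ Ioc 0 M, (Λ n - th n) ≤ 2 * √(M : ℝ) * Real.log M := by
  rcases Nat.eq_zero_or_pos M with rfl | hM
  · simp
  have h := Chebyshev.psi_sub_theta_le (x := M) (by exact_mod_cast hM)
  rw [Chebyshev.psi, Chebyshev.theta, Nat.floor_natCast, sum_filter, ← sum_sub_distrib] at h
  exact h

theorem sw_twist (c : ℕ → ℂ) (hc : ∀ n, ‖c n‖ ≤ 1) (M : ℕ) :
    ‖∑ n ∈ Ioc 0 M, c n * (th n : ℂ) - ∑ n ∈ Ioc 0 M, c n * (Λ n : ℂ)‖ ≤
      2 * √(M : ℝ) * Real.log M := by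
  rw [← sum_sub_distrib]
  refine (norm_sum_le _ _).trans (le_trans (sum_le_sum fun n _ => ?_) (sw_psi_theta M))
  rw [← mul_sub, norm_mul, ← Complex.ofReal_sub, Complex.norm_real, Real.norm_eq_abs,
    abs_sub_comm, abs_of_nonneg (sub_nonneg.2 (sw_th_le n))]
  exact mul_le_of_le_one_left (sub_nonneg.2 (sw_th_le n)) (hc n)

theorem sw_noncop (r : ℕ) (hr : 1 ≤ r) (S : Finset ℕ) (hS : ∀ n ∈ S, ¬n.Coprime r) :
    ∑ n ∈ S, th n ≤ Real.log r := by
  rw [← ArithmeticFunction.vonMangoldt_sum]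
  calc ∑ n ∈ S, th n = ∑ n ∈ S.filter Nat.Prime, th n := by
        rw [sum_filter]
        refine sum_congr rfl fun n _ => ?_
        split_ifs with h
        · rfl
        · simp [th, h]
    _ ≤ ∑ n ∈ r.divisors, th n := by
        refine sum_le_sum_of_subset_of_nonneg (fun n hn => ?_) fun n _ _ => sw_th_nonneg n
        rw [mem_filter] at hn
        rw [Nat.mem_divisors]
        exact ⟨by_contra fun h => hS n hn.1 ((Nat.Prime.coprime_iff_not_dvd hn.2).2 h), by omega⟩
    _ ≤ _ := sum_le_sum fun n _ => sw_th_le n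

theorem sw_orth (r k M : ℕ) [NeZero r] (hk : k < r) (hc : k.Coprime r) :
    (r.totient : ℂ) * (Eth r k 0 M : ℝ) = ∑ χ : DirichletCharacter ℂ r, χ (k : ZMod r)⁻¹ *
      (∑ n ∈ Ioc 0 M, χ n * (th n : ℂ) - if χ = 1 then (M : ℂ) else 0) := by
  have hu : IsUnit (k : ZMod r) := (ZMod.isUnit_iff_coprime k r).2 hc
  have hφ : (r.totient : ℂ) ≠ 0 := by exact_mod_cast (Nat.totient_pos.2 (NeZero.pos r)).ne'
  have hu' : IsUnit (k : ZMod r)⁻¹ := by
    obtain ⟨u, hu⟩ := hu
    rw [← hu, ZMod.inv_coe_unit]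
    exact Units.isUnit _
  simp_rw [mul_sub, sum_sub_distrib, mul_sum, ← mul_assoc]
  rw [sum_comm]
  simp_rw [← sum_mul, DirichletCharacter.sum_char_inv_mul_char_eq ℂ hu, mul_ite, mul_zero]
  rw [sum_ite_eq' univ (1 : DirichletCharacter ℂ r), if_pos (mem_univ _), MulChar.one_apply hu',
    one_mul, Eth, if_pos hc, cls, sum_filter]
  push_cast
  rw [mul_sub, mul_sum]
  congr 1
  · refine sum_congr rfl fun n _ => ?_
    have : ((k : ZMod r) = n) ↔ n % r = k := by
      rw [ZMod.natCast_eq_natCast_iff', Nat.mod_eq_of_lt hk, eq_comm]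
    by_cases h : n % r = k
    · rw [if_pos h, if_pos (this.2 h)]
    · rw [if_neg h, if_neg (mt this.1 h)]
      simp
  · simp only [tsub_zero]
    field_simp

theorem sw_of
    (h1 : ∀ (k : ℕ) {ε : ℝ}, 0 < ε → ∃ C : ℝ,
      ∀ (r : ℕ) [NeZero r] (χ : DirichletCharacter ℂ r), χ ≠ 1 → ∀ s : ℂ, 1 < s.re → s.re ≤ 2 →
        ‖LSeries (fun n : ℕ => χ n * (Λ n : ℂ) * (Real.log n : ℂ) ^ k) s‖ ≤
          C * (r * (|s.im| + 3)) ^ ε)
    (h2 : ∀ (k : ℕ) {ε : ℝ}, 0 < ε → ∃ C : ℝ, ∀ s : ℂ, 1 < s.re → s.re ≤ 2 →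
      ‖LSeries (fun n : ℕ => ((Λ n : ℂ) - 1) * (Real.log n : ℂ) ^ k) s‖ ≤
        C * (|s.im| + 3) ^ ε)
    (A B : ℕ) : ∃ C : ℝ, ∀ N r k M : ℕ, 2 ≤ N → 1 ≤ r →
    (r : ℝ) ≤ Real.log N ^ B → M ≤ N → k < r →
      |Eth r k 0 M| ≤ C * N / Real.log N ^ A := by
  set ε : ℝ := 1 / (2 * (B + 1)) with hε
  have hε0 : 0 < ε := by positivity
  have hε1 : ε ≤ 1 / 2 := one_div_le_one_div_of_le (by norm_num)
    (by linarith [Nat.cast_nonneg (α := ℝ) B])
  obtain ⟨C₁, H₁⟩ := h1 (2 * A + 2) hε0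
  obtain ⟨C₂, H₂⟩ := h2 (2 * A + 2) (ε := 1 / 2) (by norm_num)
  obtain ⟨C, hC, H⟩ := sw_main A (|C₁| + |C₂|) (by positivity)
  obtain ⟨D, hD1, hD⟩ := sw_log_pow (A + 1)
  refine ⟨C + 2 * D + B * D + 2, fun N r k M hN hr hrL hM hk => ?_⟩
  have : NeZero r := ⟨by omega⟩
  rw [mul_div_assoc]
  have hr' : (1 : ℝ) ≤ r := by exact_mod_cast hr
  rcases hN.eq_or_lt with rfl | hN
  · have hl0 : 0 < Real.log ((2 : ℕ) : ℝ) := Real.log_pos (by norm_num)
    have hl1 : Real.log ((2 : ℕ) : ℝ) ≤ 1 := by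
      push_cast
      linarith [Real.log_two_lt_d9]
    have hX : (2 : ℝ) ≤ ((2 : ℕ) : ℝ) / Real.log ((2 : ℕ) : ℝ) ^ A := by
      rw [le_div_iff₀ (by positivity)]
      have := pow_le_one₀ (n := A) hl0.le hl1
      push_cast at this ⊢
      linarith
    have e1 : 0 ≤ cls th r k 0 M := sum_nonneg fun n _ => sw_th_nonneg n
    have e2 : cls th r k 0 M ≤ 2 := by
      refine (sum_le_sum_of_subset_of_nonneg (t := Ioc 0 2) ((filter_subset _ _).trans
        (Ioc_subset_Ioc_right hM)) fun n _ _ => sw_th_nonneg n).trans ?_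
      refine (sum_le_card_nsmul _ _ 1 fun n hn => ?_).trans (by simp)
      rw [mem_Ioc] at hn
      exact ((sw_th_le n).trans ArithmeticFunction.vonMangoldt_le_log).trans
        ((Real.log_le_log (by exact_mod_cast hn.1) (by exact_mod_cast hn.2)).trans hl1)
    have e3 : (0 : ℝ) ≤ ((M - 0 : ℕ) : ℝ) / r.totient := by positivity
    have e4 : ((M - 0 : ℕ) : ℝ) / r.totient ≤ 2 := by
      refine (div_le_self (by positivity) ?_).trans (by exact_mod_cast (by omega : M - 0 ≤ 2))
      exact_mod_cast Nat.totient_pos.2 (by omega : 0 < r)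
    have e5 : |Eth r k 0 M| ≤ 2 := by
      rw [Eth, abs_le]
      split_ifs <;> constructor <;> linarith
    have : (1 : ℝ) ≤ C + 2 * D + B * D + 2 := by
      have : (0 : ℝ) ≤ B * D := by positivity
      linarith
    nlinarith
  have hN' : (3 : ℝ) ≤ N := by exact_mod_cast hN
  have hL : 1 ≤ Real.log N := by
    rw [Real.le_log_iff_exp_le (by linarith)]
    linarith [Real.exp_one_lt_d9]
  set L := Real.log N with hLd
  have hL0 : 0 < L := by linarith
  set X : ℝ := N / L ^ A with hX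
  have hX0 : 0 < X := by positivity
  have hsq : √(N : ℝ) * √(N : ℝ) = N := Real.mul_self_sqrt (by linarith)
  have hsq1 : 1 ≤ √(N : ℝ) := Real.one_le_sqrt.2 (by linarith)
  have hLX : √(N : ℝ) * L ≤ D * X := by
    rw [hX, ← mul_div_assoc, le_div_iff₀ (by positivity)]
    have := mul_le_mul_of_nonneg_left (hD N (by linarith)) (by linarith : 0 ≤ √(N : ℝ))
    calc _ = √(N : ℝ) * L ^ (A + 1) := by ring
      _ ≤ √(N : ℝ) * (D * √(N : ℝ)) := this
      _ = D * (√(N : ℝ) * √(N : ℝ)) := by ring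
      _ = _ := by rw [hsq]
  have hlogr : Real.log r ≤ B * D * X := by
    have e1 := Real.log_le_log (by linarith) hrL
    rw [Real.log_pow] at e1
    have e2 : Real.log L ≤ D * X := by
      have := Real.log_le_sub_one_of_pos hL0
      nlinarith
    rw [mul_assoc]
    exact e1.trans (mul_le_mul_of_nonneg_left e2 (by positivity))
  have hψ : 2 * √(M : ℝ) * Real.log M ≤ 2 * D * X := by
    have e1 : √(M : ℝ) ≤ √(N : ℝ) := Real.sqrt_le_sqrt (by exact_mod_cast hM)
    have e2 : Real.log M ≤ L := by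
      rcases Nat.eq_zero_or_pos M with rfl | h0
      · simp; linarith
      · exact Real.log_le_log (by exact_mod_cast h0) (by exact_mod_cast hM)
    have := mul_le_mul e1 e2 (Real.log_natCast_nonneg M) (by linarith)
    linarith
  have hCX : 0 ≤ C * X := by positivity
  have hDX : 0 ≤ D * X := by positivity
  have hBX : 0 ≤ B * D * X := by positivity
  by_cases hc : k.Coprime r
  swap
  · have e1 : 0 ≤ cls th r k 0 M := sum_nonneg fun n _ => sw_th_nonneg n
    have e2 : cls th r k 0 M ≤ Real.log r := sw_noncop r hr _ fun n hn h => hc (by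
      rw [← (mem_filter.1 hn).2]
      rw [Nat.Coprime, ← Nat.gcd_rec, Nat.gcd_comm]
      exact h)
    rw [Eth, if_neg hc, sub_zero, abs_of_nonneg e1]
    nlinarith
  have key : ∀ χ : DirichletCharacter ℂ r,
      ‖∑ n ∈ Ioc 0 M, χ n * (th n : ℂ) - if χ = 1 then (M : ℂ) else 0‖ ≤
        (C + 2 * D + B * D) * X := by
    intro χ
    split_ifs with hχ
    · subst hχ
      have a1 := H (fun n => (Λ n : ℂ) - 1) N hN (fun n => by
        refine (norm_sub_le _ _).trans ?_
        rw [Complex.norm_real, Real.norm_of_nonneg ArithmeticFunction.vonMangoldt_nonneg, norm_one]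
        linarith [ArithmeticFunction.vonMangoldt_le_log (n := n)]) (fun s hs1 hs2 => by
        refine (H₂ s hs1 hs2).trans (mul_le_mul_of_nonneg_right ?_ (by positivity))
        nlinarith [le_abs_self C₂, abs_nonneg C₁, abs_nonneg C₂]) M hM
      have a2 := sw_twist (fun _ => 1) (fun _ => by simp) M
      have a3 : ‖∑ n ∈ Ioc 0 M, (1 : DirichletCharacter ℂ r) n * (th n : ℂ) -
          ∑ n ∈ Ioc 0 M, 1 * (th n : ℂ)‖ ≤ Real.log r := by
        rw [← sum_sub_distrib]
        refine (norm_sum_le _ _).trans (le_trans (le_of_eq ?_)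
          (sw_noncop r hr ((Ioc 0 M).filter fun n => ¬n.Coprime r) fun n hn => (mem_filter.1 hn).2))
        rw [sum_filter]
        refine sum_congr rfl fun n _ => ?_
        split_ifs with h
        · rw [MulChar.one_apply ((ZMod.isUnit_iff_coprime n r).2 h)]
          simp
        · rw [MulChar.map_nonunit _ (mt (ZMod.isUnit_iff_coprime n r).1 h)]
          simp [abs_of_nonneg (sw_th_nonneg n)]
      have a4 : ∑ n ∈ Ioc 0 M, ((Λ n : ℂ) - 1) = ∑ n ∈ Ioc 0 M, 1 * (Λ n : ℂ) - M := by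
        simp
      rw [a4] at a1
      have a5 := (norm_sub_le_norm_sub_add_norm_sub _ (∑ n ∈ Ioc 0 M, 1 * (th n : ℂ)) (M : ℂ)).trans
        (add_le_add a3 ((norm_sub_le_norm_sub_add_norm_sub _ _ _).trans (add_le_add a2 a1)))
      linarith
    · have a1 := H (fun n => χ n * (Λ n : ℂ)) N hN (fun n => by
        rw [norm_mul, Complex.norm_real, Real.norm_of_nonneg ArithmeticFunction.vonMangoldt_nonneg]
        have := mul_le_of_le_one_left (ArithmeticFunction.vonMangoldt_nonneg (n := n))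
          (χ.norm_le_one n)
        linarith [ArithmeticFunction.vonMangoldt_le_log (n := n)]) (fun s hs1 hs2 => by
        refine (H₁ r χ hχ s hs1 hs2).trans ?_
        have ht : 1 ≤ |s.im| + 3 := by linarith [abs_nonneg s.im]
        have b1 : (r : ℝ) ^ ε ≤ L := by
          refine (Real.rpow_le_rpow (by linarith) hrL hε0.le).trans ?_
          rw [← Real.rpow_natCast, ← Real.rpow_mul hL0.le]
          refine (Real.rpow_le_rpow_of_exponent_le hL ?_).trans (Real.rpow_one L).le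
          rw [hε, mul_one_div, div_le_one (by positivity)]
          linarith [Nat.cast_nonneg (α := ℝ) B]
        have b2 : (|s.im| + 3) ^ ε ≤ (|s.im| + 3) ^ (1 / 2 : ℝ) :=
          Real.rpow_le_rpow_of_exponent_le ht hε1
        rw [Real.mul_rpow (by linarith) (by linarith), mul_assoc]
        exact mul_le_mul (by linarith [le_abs_self C₁, abs_nonneg C₂])
          (mul_le_mul b1 b2 (by positivity) hL0.le) (by positivity) (by positivity)) M hM
      have a2 := sw_twist (fun n => χ n) (fun n => χ.norm_le_one n) M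
      have a5 := norm_add_le (∑ n ∈ Ioc 0 M, χ n * (th n : ℂ) - ∑ n ∈ Ioc 0 M, χ n * (Λ n : ℂ))
        (∑ n ∈ Ioc 0 M, χ n * (Λ n : ℂ))
      rw [sub_add_cancel] at a5
      rw [sub_zero]
      linarith
  have hφ : (0 : ℝ) < r.totient := by exact_mod_cast Nat.totient_pos.2 (by omega : 0 < r)
  have fin : (r.totient : ℝ) * |Eth r k 0 M| ≤ r.totient * ((C + 2 * D + B * D) * X) := by
    have e := congrArg norm (sw_orth r k M hk hc)
    rw [norm_mul, Complex.norm_natCast, Complex.norm_real, Real.norm_eq_abs] at e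
    rw [e]
    refine (norm_sum_le _ _).trans ((sum_le_card_nsmul _ _ ((C + 2 * D + B * D) * X)
      fun χ _ => ?_).trans ?_)
    · rw [norm_mul]
      exact (mul_le_of_le_one_left (norm_nonneg _) (χ.norm_le_one _)).trans (key χ)
    · rw [card_univ, ← Nat.card_eq_fintype_card,
        DirichletCharacter.card_eq_totient_of_hasEnoughRootsOfUnity, nsmul_eq_mul]
  have := le_of_mul_le_mul_left fin hφ
  linarith

end Pool.Agent.Lib.RankZero
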