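import Pool.Agent.Lib.MP_6073f3_nt.Z.BDH3
import Pool.Agent.Lib.MP_6073f3_nt.Z.SW2
import Pool.Agent.Lib.MP_6073f3_nt.Z.LogDer
import Pool.Agent.Lib.MP_6073f3_nt.Z.Siegel

namespace Pool.Agent.Lib.RankZero

theorem bdh (A : ℕ) : ∃ B N₀ : ℕ, ∀ N ≥ N₀, ∃ V : ℕ → ℝ, Var Eth N V ∧
    Var (Eh ⌊Real.log N ^ B⌋₊) N V ∧ Avg N V (1 / Real.log N ^ A) :=
  bdh_of (sw_of (fun k _ h => logder_chi_of (fun h => siegel h) k h)
    (fun k _ h => logder_one k h)) A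

end Pool.Agent.Lib.RankZero
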