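import Pool.Agent.Lib.MP_6073f3_nt.Z.DispC

/-!
Dispersion: averaging over the moduli and the final estimate.
-/

namespace Pool.Agent.Lib.RankZero

open Finset

theorem dp_fib {ι : Type} (T : Finset ι) (w : ι → ℝ) (φ : ι → Fin 6 → ℕ) {D : ℕ} {F L : ℝ}
    (hL : 1 + Real.log D ≤ L) (hφ : ∀ τ ∈ T, ∀ i, φ τ i ∈ Icc 1 D)
    (hw : ∀ τ ∈ T, w τ ≤ 2 * ∏ i, (φ τ i : ℝ)⁻¹)
    (hF : ∀ v, ((T.filter (φ · = v)).card : ℝ) ≤ F) (i : Fin 6) {g : ℕ} (hg : 1 ≤ g) :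
    ∑ τ ∈ T with g ∣ φ τ i, w τ ≤ 2 * F * L ^ 6 / g := by
  have F0 : 0 ≤ F := (Nat.cast_nonneg _).trans (hF 0)
  rw [← sum_fiberwise_of_maps_to (g := φ) (t := Fintype.piFinset fun _ => Icc 1 D)
    fun τ h => Fintype.mem_piFinset.2 (hφ τ (mem_filter.1 h).1)]
  refine (sum_le_sum (g := fun v => 2 * F * ∏ j, if (if j = i then g else 1) ∣ v j then
    (v j : ℝ)⁻¹ else 0) fun v _ => ?_).trans ?_
  · refine (sum_le_card_nsmul _ _ (2 * ∏ j, if (if j = i then g else 1) ∣ v j then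
      (v j : ℝ)⁻¹ else 0) fun τ h => ?_).trans ?_
    · obtain ⟨h1, rfl⟩ := mem_filter.1 h
      refine (hw τ (mem_filter.1 h1).1).trans_eq (congrArg _ (prod_congr rfl fun j _ => ?_))
      rw [if_pos]
      split_ifs with h2
      · exact h2 ▸ (mem_filter.1 h1).2
      · exact one_dvd _
    · rw [nsmul_eq_mul, mul_comm 2 F, mul_assoc]
      refine mul_le_mul_of_nonneg_right (le_trans (Nat.cast_le.2 (card_le_card
        (filter_subset_filter _ (filter_subset _ _)))) (hF v))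
        (mul_nonneg two_pos.le (prod_nonneg fun j _ => by positivity))
  · rw [← mul_sum, ← prod_univ_sum (fun _ => Icc 1 D) fun j t =>
      if (if j = i then g else 1) ∣ t then (t : ℝ)⁻¹ else 0, mul_div_assoc]
    refine mul_le_mul_of_nonneg_left ((prod_le_prod (g := fun j => L / (if j = i then g else 1 : ℕ))
      (fun j _ => sum_nonneg fun _ _ => by positivity) fun j _ => (dp_harm D _ ?_).trans
      (div_le_div_of_nonneg_right hL (by positivity))).trans_eq ?_) (by positivity)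
    · split_ifs
      · exact hg
      · rfl
    · rw [prod_div_distrib, ← Nat.cast_prod, prod_ite_eq']
      simp

theorem dp_omega {n D : ℕ} (h0 : 1 ≤ n) (h : n ≤ D) :
    (n.primeFactors.card : ℝ) ≤ 2 * Real.log D := by
  have h1 : 2 ^ n.primeFactors.card ≤ D := (pow_card_le_prod _ _ 2 fun p hp =>
    (Nat.prime_of_mem_primeFactors hp).two_le).trans
    ((Nat.le_of_dvd h0 (Nat.prod_primeFactors_dvd n)).trans h)
  have h2 := Real.log_le_log (by positivity) (Nat.cast_le (α := ℝ).2 h1)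
  rw [Nat.cast_pow, Real.log_pow, Nat.cast_ofNat] at h2
  nlinarith [Real.log_two_gt_d9, Nat.cast_nonneg (α := ℝ) n.primeFactors.card]

theorem dp_avg {N D : ℕ} {V : ℕ → ℝ} {ε L : ℝ} (D2 : 2 ≤ D) (hD : D ^ 200 ≤ N)
    (hL : 1 + Real.log D ≤ L) (hL' : 4 * Real.log D ≤ L) (hV : Avg N V ε) {P : Finset (Dat × Dat)}
    (hP : ∀ e ∈ P, e.1.Ok D ∧ e.2.Ok D ∧ dpKey e.1 = dpKey e.2 ∧ e.1.2.1 ≠ e.2.2.1) :
    ∑ e ∈ P, dpW e.1 e.2 * V (dpQ e.1 e.2) ≤ 128 * L ^ 7 * ε := by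
  set G : Dat × Dat → ℕ := fun e => e.2.C.gcd (dpD e.1 e.2) with hG
  set φ : Bool → Dat × Dat → Fin 6 → ℕ := fun b e => ![if b then e.1.A else e.2.A, e.1.B, e.1.C,
    e.2.C / G e, G e, dpD e.1 e.2 / G e] with hφ
  have k0 : ∀ e ∈ P, e.1.1 = e.2.1 ∧ e.1.B = e.2.B ∧ dpY e.1.2.1 = dpY e.2.2.1 := fun e he => by
    have := (hP e he).2.2.1
    simp only [dpKey, Prod.mk.injEq] at this
    exact ⟨this.1, this.2.1, congrArg (2 ^ ·) this.2.2⟩
  have k1 : ∀ e ∈ P, (0 < e.1.1 ∧ 0 < dpD e.1 e.2 ∧ dpD e.1 e.2 ≤ D) ∧ 0 < G e ∧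
      e.2.C / G e * G e = e.2.C ∧ dpD e.1 e.2 / G e * G e = dpD e.1 e.2 := fun e he => by
    obtain ⟨o, o', -, h⟩ := hP e he
    have a0 := Nat.pos_of_mul_pos_right o.hA.1
    have p1 := (Nat.le_mul_of_pos_left _ a0).trans o.hA.2
    have p2 := (Nat.le_mul_of_pos_left _ (Nat.pos_of_mul_pos_right o'.hA.1)).trans o'.hA.2
    refine ⟨⟨a0, ?_, ?_⟩, Nat.gcd_pos_of_pos_left _ o'.hC.1,
      Nat.div_mul_cancel (Nat.gcd_dvd_left _ _), Nat.div_mul_cancel (Nat.gcd_dvd_right _ _)⟩ <;>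
    · unfold dpD
      omega
  have k2 : ∀ b, ∀ e ∈ P, ∀ i, φ b e i ∈ Icc 1 D := fun b e he i => by
    obtain ⟨o, o', -, h⟩ := hP e he
    obtain ⟨⟨-, d0, d1⟩, g0, -⟩ := k1 e he
    have g1 : G e ≤ e.2.C := Nat.gcd_le_left _ o'.hC.1
    have g2 : G e ≤ dpD e.1 e.2 := Nat.gcd_le_right _ d0
    rw [mem_Icc]
    fin_cases i
    · cases b
      · exact o'.hA
      · exact o.hA
    · exact o.hB
    · exact o.hC
    · exact ⟨Nat.div_pos g1 g0, (Nat.div_le_self _ _).trans o'.hC.2⟩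
    · exact ⟨g0, g2.trans d1⟩
    · exact ⟨Nat.div_pos g2 g0, (Nat.div_le_self _ _).trans d1⟩
  have k3 : ∀ b, ∀ e ∈ P, dpW e.1 e.2 ≤ 2 * ∏ i, (φ b e i : ℝ)⁻¹ := fun b e he => by
    have h1 : ∏ i, φ b e i ≤ 2 * (dpY e.1.2.1 * e.1.1 * e.1.B * e.1.C * e.2.C *
        (dpD e.1 e.2 / G e)) := by
      have h2 : (if b then e.1.A else e.2.A) ≤ 2 * (dpY e.1.2.1 * e.1.1) := by
        rw [← mul_assoc, mul_comm]
        cases b
        · rw [(k0 e he).1, (k0 e he).2.2]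
          exact Nat.mul_le_mul_left _ (dpY_lt _).le
        · exact Nat.mul_le_mul_left _ (dpY_lt _).le
      calc _ = (if b then e.1.A else e.2.A) * (e.1.B * e.1.C * (e.2.C / G e * G e) *
            (dpD e.1 e.2 / G e)) := by
            simp only [hφ, Fin.prod_univ_six]
            simp
            ring_nf
        _ ≤ _ := (Nat.mul_le_mul_right _ h2).trans_eq (by rw [(k1 e he).2.2.1]; ring)
    have h2 : (0 : ℝ) < (∏ i, φ b e i : ℕ) :=
      Nat.cast_pos.2 (prod_pos fun i _ => (mem_Icc.1 (k2 b e he i)).1)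
    have h3 := Nat.cast_le (α := ℝ).2 h1
    rw [prod_inv_distrib, ← Nat.cast_prod, ← div_eq_mul_inv, le_div_iff₀ h2, dpW, inv_mul_eq_div]
    refine div_le_of_le_mul₀ (by positivity) two_pos.le (h3.trans_eq ?_)
    simp only [Nat.cast_mul, Nat.cast_ofNat, hG]
  have k4 : ∀ b v, ((P.filter (φ b · = v)).card : ℝ) ≤ L := fun b v => by
    rcases (P.filter (φ b · = v)).eq_empty_or_nonempty with h | ⟨e₀, h⟩
    · rw [h, card_empty, Nat.cast_zero]
      linarith [Real.log_natCast_nonneg D]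
    have h1 := mem_Icc.1 ((mem_filter.1 h).2 ▸ k2 b e₀ (mem_filter.1 h).1 0)
    have h2 : (P.filter (φ b · = v)).card ≤ ((v 0).primeFactors ×ˢ (univ : Finset Bool)).card := by
      refine card_le_card_of_injOn (fun e => (if b then e.1.2.1 else e.2.2.1,
        decide (e.1.2.1 ≤ e.2.2.1))) (fun e he => ?_) fun e he e' he' h => ?_
      · obtain ⟨h3, rfl⟩ := mem_filter.1 he
        obtain ⟨o, o', -⟩ := hP e h3
        refine mem_coe.2 (mem_product.2 ⟨?_, mem_univ _⟩)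
        cases b
        · exact Nat.mem_primeFactors.2 ⟨o'.hp, dvd_mul_left _ _, o'.hA.1.trans_lt'
            one_pos |>.ne'⟩
        · exact Nat.mem_primeFactors.2 ⟨o.hp, dvd_mul_left _ _, o.hA.1.trans_lt' one_pos |>.ne'⟩
      · obtain ⟨h3, h4⟩ := mem_filter.1 he
        obtain ⟨h5, h6⟩ := mem_filter.1 he'
        have t := congrFun (h4.trans h6.symm)
        have t0 : (if b then e.1.A else e.2.A) = if b then e'.1.A else e'.2.A := t 0
        have t1 : e.1.B = e'.1.B := t 1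
        have t2 : e.1.C = e'.1.C := t 2
        have t3 : e.2.C / G e = e'.2.C / G e' := t 3
        have t4 : G e = G e' := t 4
        have t5 : dpD e.1 e.2 / G e = dpD e'.1 e'.2 / G e' := t 5
        have t6 : e.2.C = e'.2.C := by rw [← (k1 e h3).2.2.1, t3, t4, (k1 e' h5).2.2.1]
        have t7 : dpD e.1 e.2 = dpD e'.1 e'.2 := by
          rw [← (k1 e h3).2.2.2, t5, t4, (k1 e' h5).2.2.2]
        obtain ⟨s1, s2⟩ := Prod.mk.inj h
        have s3 := decide_eq_decide.1 s2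
        have s4 : e.1.2.1 = e'.1.2.1 ∧ e.2.2.1 = e'.2.2.1 := by
          unfold dpD at t7
          cases b <;> simp only [Bool.false_eq_true, if_false, if_true] at s1 <;> omega
        have s5 : e.1.1 = e'.1.1 := by
          cases b
          · rw [(k0 e h3).1, (k0 e' h5).1]
            exact Nat.eq_of_mul_eq_mul_right (hP e h3).2.1.hp.pos (t0.trans (by
              simp [Dat.A, s4.2]))
          · exact Nat.eq_of_mul_eq_mul_right (hP e h3).1.hp.pos (t0.trans (by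
              simp [Dat.A, s4.1]))
        exact Prod.ext (Prod.ext s5 (Prod.ext s4.1 (Prod.ext t1 t2))) (Prod.ext
          ((k0 e h3).1.symm.trans (s5.trans (k0 e' h5).1)) (Prod.ext s4.2 (Prod.ext
          ((k0 e h3).2.1.symm.trans (t1.trans (k0 e' h5).2.1)) t6)))
    rw [card_product, card_univ, Fintype.card_bool] at h2
    have h3 := Nat.cast_le (α := ℝ).2 h2
    push_cast at h3
    linarith [dp_omega h1.1 h1.2]
  have k5 := fun b => dp_fib P (fun e => dpW e.1 e.2) (φ b) hL (k2 b) (k3 b) (k4 b)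
  have k6 : ∀ e ∈ P, ∏ i, ![64, e.1.A, e.2.A, e.1.B, e.1.B, e.1.C, e.2.C / G e, G e, G e,
      dpD e.1 e.2 / G e] i = dpQ e.1 e.2 := fun e he => by
    rw [dpQ, ← (k0 e he).2.1]
    conv_rhs => rw [← (k1 e he).2.2.1, ← (k1 e he).2.2.2]
    simp [Fin.prod_univ_succ]
    ring
  have L0 : 0 ≤ L := by linarith [Real.log_natCast_nonneg D]
  rw [← sum_congr rfl fun e he => congrArg (fun t => dpW e.1 e.2 * V t) (k6 e he)]
  refine hV.2 _ P _ _ _ (fun e _ => by unfold dpW; positivity) (fun e he i => ?_)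
    (fun e he => ?_) fun i g hg => ?_
  · have := fun b j => Nat.one_le_iff_ne_zero.1 (mem_Icc.1 (k2 b e he j)).1
    fin_cases i
    exacts [by simp, this true 0, this false 0, this true 1, this true 1, this true 2, this true 3,
      this true 4, this true 4, this true 5]
  · obtain ⟨o, o', -⟩ := hP e he
    rw [k6 e he, dpQ]
    refine le_trans (Nat.pow_le_pow_left (show _ ≤ D ^ 6 * D * D * D * D * D * D * D by
      gcongr
      exacts [Nat.pow_le_pow_left D2 6, o.hA.2, o'.hA.2, o.hB.2, o'.hB.2, o.hC.2, o'.hC.2,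
        (k1 e he).1.2.2]) 5) (le_of_eq_of_le (by ring)
      ((Nat.pow_le_pow_right (by omega) (show 65 ≤ 200 by norm_num)).trans hD))
  · have k7 : ∀ b j, ∑ e ∈ P with g ∣ φ b e j, dpW e.1 e.2 ≤ 128 * L ^ 7 / g := fun b j =>
      (k5 b j hg).trans (div_le_div_of_nonneg_right (by nlinarith [pow_nonneg L0 7]) (by positivity))
    fin_cases i
    · by_cases h : g ∣ 64
      · have h1 := k5 true 0 le_rfl
        have h2 : (g : ℝ) ≤ 64 := by exact_mod_cast Nat.le_of_dvd (by norm_num) h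
        simp only [one_dvd, filter_true, Nat.cast_one, div_one] at h1
        refine (sum_le_sum_of_subset_of_nonneg (filter_subset _ _) fun e _ _ => by
          unfold dpW; positivity).trans (h1.trans ?_)
        rw [le_div_iff₀ (by exact_mod_cast hg)]
        nlinarith [pow_nonneg L0 7]
      · exact (sum_eq_zero fun e he => absurd (mem_filter.1 he).2 h).trans_le (by positivity)
    exacts [k7 true 0, k7 false 0, k7 true 1, k7 true 1, k7 true 2, k7 true 3, k7 true 4,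
      k7 true 4, k7 true 5]

theorem dp_cs {ι κ : Type} [DecidableEq κ] (S : Finset ι) (T : Finset κ) (key : ι → κ)
    (hk : ∀ d ∈ S, key d ∈ T) (Box : κ → Finset (ℕ × ℕ)) (c : ℕ × ℕ → ℝ) (t : ι → ℕ × ℕ → ℝ)
    (Y : κ → ℝ) (hY : ∀ k, 0 < Y k) {M μ : ℝ} (hM : 0 ≤ M) (hμ : 0 < μ)
    (hc : ∀ k ∈ T, ∀ q ∈ Box k, |c q| ≤ M) :
    |∑ d ∈ S, ∑ q ∈ Box (key d), c q * t d q| ≤ M / 2 * (μ * ∑ e ∈ S ×ˢ S with key e.1 = key e.2,
      (∑ q ∈ Box (key e.1), t e.1 q * t e.2 q) / Y (key e.1) +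
      (∑ k ∈ T, (Box k).card * Y k) / μ) := by
  rw [← sum_fiberwise_of_maps_to hk, ← sum_fiberwise_of_maps_to (g := fun e : ι × ι => key e.1)
    (t := T) fun e he => hk _ (mem_product.1 (mem_filter.1 he).1).1, mul_sum, sum_div,
    ← sum_add_distrib, mul_sum]
  refine (abs_sum_le_sum_abs _ _).trans (sum_le_sum fun k hk => ?_)
  have e : ((S ×ˢ S).filter fun e => key e.1 = key e.2).filter (fun e => key e.1 = k) =
      S.filter (key · = k) ×ˢ S.filter (key · = k) := by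
    ext e
    simp only [mem_filter, mem_product]
    constructor
    · rintro ⟨⟨⟨h1, h2⟩, h3⟩, h4⟩
      exact ⟨⟨h1, h4⟩, h2, h3 ▸ h4⟩
    · rintro ⟨⟨h1, h2⟩, h3, h4⟩
      exact ⟨⟨⟨h1, h3⟩, h2.trans h4.symm⟩, h2⟩
  rw [e, sum_congr rfl fun d hd => by rw [(mem_filter.1 hd).2], sum_comm,
    sum_congr (s₁ := _ ×ˢ _) rfl fun d hd => by rw [(mem_filter.1 (mem_product.1 hd).1).2],
    ← sum_div, sum_comm (s := _ ×ˢ _), card_eq_sum_ones, Nat.cast_sum, sum_mul, sum_div, sum_div,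
    mul_sum, ← sum_add_distrib, mul_sum]
  refine (abs_sum_le_sum_abs _ _).trans (sum_le_sum fun q hq => ?_)
  rw [← mul_sum, sum_product' (f := fun d d' => t d q * t d' q), ← sum_mul_sum, abs_mul,
    ← abs_mul_abs_self, Nat.cast_one, one_mul]
  refine (mul_le_mul_of_nonneg_right (hc k hk q hq) (abs_nonneg _)).trans ?_
  generalize |∑ d ∈ S with key d = k, t d q| = u
  have := hY k
  have h1 : (μ * (u * u / Y k) + Y k / μ) / 2 - u = (μ * u - Y k) ^ 2 / (2 * μ * Y k) := by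
    field_simp
    ring
  have h2 : 0 ≤ (μ * u - Y k) ^ 2 / (2 * μ * Y k) := by positivity
  nlinarith

theorem dp_tri {N R D : ℕ} (Φ : Dat → ℤ → ℤ → ℝ) (ψ : ℤ → ℤ → ℝ) {d : Dat} (o : d.Ok D) :
    tri N d (fun x y => ψ x y * Φ d x y) (fun z => th z - Ls R z) =
      ∑ q ∈ dpBox N (dpKey d), th q.1 * th q.2 * ψ q.1 q.2 * dpTrm N R Φ d q := by
  rw [dpBox, sum_product, ← sum_subset (s₁ := Ioc (2 * N / d.A) (3 * N / d.A)) (fun x hx => ?_)
    fun x _ hx => by simp only [dpTrm, if_neg hx, mul_zero, sum_const_zero]]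
  · refine sum_congr rfl fun x hx => sum_congr rfl fun y _ => ?_
    simp only [dpTrm, if_pos hx, dpG, mul_assoc]
  · exact mem_Ioc.2 ⟨zero_le.trans_lt (mem_Ioc.1 hx).1, (mem_Ioc.1 hx).2.trans
      (Nat.div_le_div_left (Nat.mul_le_mul_left _ (dpY_le o.hp.pos))
        (Nat.mul_pos (Nat.pos_of_mul_pos_right o.hA.1) (dpY_pos _)))⟩

theorem dp_near {D p : ℕ} {H : ℝ} (H1 : 1 ≤ H) (hY : H ≤ dpY p) :
    ∑ p' ∈ Icc 1 D with dpY p' = dpY p,
      ((if ((p : ℤ) - p').natAbs * H ≤ dpY p then 8 else 0) + 60 / H) ≤ 144 * dpY p / H := by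
  have H0 : 0 < H := by linarith
  have h1 : (((Icc 1 D).filter fun p' => dpY p' = dpY p).card : ℝ) ≤ 2 * dpY p := by
    have := card_le_card (show (Icc 1 D).filter (fun p' => dpY p' = dpY p) ⊆ range (2 * dpY p) from
      fun x hx => mem_range.2 ((mem_filter.1 hx).2 ▸ dpY_lt x))
    rw [card_range] at this
    exact_mod_cast this
  have h2 := dp_card (s := ((Icc 1 D).filter fun p' => dpY p' = dpY p).filter
    fun p' : ℕ => ((p : ℤ) - p').natAbs * H ≤ dpY p) (u := p - ⌊dpY p / H⌋₊) (w := 2 * ⌊dpY p / H⌋₊)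
    (m := 1) (fun x hx => by
      have := Nat.le_floor ((le_div_iff₀ H0).2 (mem_filter.1 hx).2)
      rw [mem_Icc]
      omega) fun _ _ _ _ => by simp
  have h3 := Nat.floor_le (show 0 ≤ dpY p / H by positivity)
  have h4 : 1 ≤ dpY p / H := (one_le_div H0).2 hY
  rw [sum_add_distrib, ← sum_filter, sum_const, sum_const, nsmul_eq_mul, nsmul_eq_mul]
  push_cast at h2
  calc _ ≤ 3 * (dpY p / H) * 8 + 2 * dpY p * (60 / H) := by
        gcongr
        linarith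
    _ = _ := by ring

theorem dp_abs {D : ℕ} {H c : ℝ} (β : ℕ → ℕ → ℕ → ℕ → ℕ → ℕ → ℝ)
    (β0 : ∀ a p B p' C C', 0 ≤ β a p B p' C C') (H1 : 1 ≤ H) (c0 : 0 ≤ c)
    (hβ : ∀ a p B p' : ℕ, 0 < a * p → 0 < a * p' → 0 < B → a * p ≤ D → B ≤ D →
      (a * p).Coprime (16 * B) → (a * p').Coprime (16 * B) →
      ∑ C ∈ Icc 1 D, ∑ C' ∈ Icc 1 D, β a p B p' C C' ≤ c / (a * dpY p * B) *
        ((if ((p : ℤ) - p').natAbs * H ≤ dpY p then 8 else 0) + 60 / H)) {P : Finset (Dat × Dat)}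
    (hP : ∀ e ∈ P, e.1.Ok D ∧ e.2.Ok D ∧ dpKey e.1 = dpKey e.2 ∧ H ≤ dpY e.1.2.1) :
    ∑ e ∈ P, β e.1.1 e.1.2.1 e.1.B e.2.2.1 e.1.C e.2.C / dpY e.1.2.1 ≤
      288 * c / H * (1 + Real.log D) ^ 3 := by
  have H0 : 0 < H := by linarith
  refine (dp_inj (t := (((Icc 1 D ×ˢ Icc 1 D ×ˢ Icc 1 D) ×ˢ Icc 1 D).filter
    fun τ : (ℕ × ℕ × ℕ) × ℕ => (H ≤ dpY τ.1.2.1 ∧ dpY τ.2 = dpY τ.1.2.1) ∧ τ.1.1 * τ.1.2.1 ≤ D ∧
      (τ.1.1 * τ.1.2.1).Coprime (16 * τ.1.2.2) ∧ (τ.1.1 * τ.2).Coprime (16 * τ.1.2.2)) ×ˢ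
      Icc 1 D ×ˢ Icc 1 D)
    (g := fun σ => β σ.1.1.1 σ.1.1.2.1 σ.1.1.2.2 σ.1.2 σ.2.1 σ.2.2 / dpY σ.1.1.2.1)
    (fun e : Dat × Dat => (((e.1.1, e.1.2.1, e.1.B), e.2.2.1), e.1.C, e.2.C))
    (fun e he e' he' h => ?_)
    (fun e he => ?_) (fun _ _ => le_rfl)
    fun _ _ => div_nonneg (β0 _ _ _ _ _ _) (Nat.cast_nonneg _)).trans ?_
  · have h1 := (hP e he).2.2.1
    have h2 := (hP e' he').2.2.1
    simp only [dpKey, Prod.ext_iff, Dat.B, Dat.C] at h h1 h2 ⊢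
    omega
  · obtain ⟨o, o', h1, h2⟩ := hP e he
    simp only [dpKey, Prod.mk.injEq] at h1
    have a0 := Nat.pos_of_mul_pos_right o.hA.1
    have a1 := (Nat.le_mul_of_pos_right _ o.hp.pos).trans o.hA.2
    have p1 := (Nat.le_mul_of_pos_left _ a0).trans o.hA.2
    have p2 := (Nat.le_mul_of_pos_left _ (Nat.pos_of_mul_pos_right o'.hA.1)).trans o'.hA.2
    simp only [mem_product, mem_filter, mem_Icc]
    refine ⟨⟨⟨⟨⟨a0, a1⟩, ⟨o.hp.pos, p1⟩, o.hB⟩, o'.hp.pos, p2⟩, ⟨h2, (congrArg (2 ^ ·) h1.2.2).symm⟩,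
      o.hA.2, Nat.Coprime.coprime_dvd_right ⟨e.1.B ^ 3, by ring⟩ (o.cA.pow_right 4), ?_⟩,
      o.hC, o'.hC⟩
    rw [h1.1, h1.2.1]
    exact Nat.Coprime.coprime_dvd_right ⟨e.2.B ^ 3, by ring⟩ (o'.cA.pow_right 4)
  rw [sum_product]
  refine (sum_le_sum (g := fun τ : (ℕ × ℕ × ℕ) × ℕ =>
    c / (τ.1.1 * dpY τ.1.2.1 * τ.1.2.2) / dpY τ.1.2.1 *
      ((if ((τ.1.2.1 : ℤ) - τ.2).natAbs * H ≤ dpY τ.1.2.1 then 8 else 0) + 60 / H))
    fun τ hτ => ?_).trans ?_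
  · simp only [mem_product, mem_filter, mem_Icc] at hτ
    obtain ⟨⟨⟨b1, b2, b3⟩, b4⟩, -, b5, b6, b7⟩ := hτ
    rw [sum_product, div_mul_eq_mul_div]
    simp only [← sum_div]
    exact div_le_div_of_nonneg_right (hβ _ _ _ _ (Nat.mul_pos b1.1 b2.1)
      (Nat.mul_pos b1.1 b4.1) b3.1 b5 b3.2 b6 b7) (Nat.cast_nonneg _)
  refine (sum_le_sum_of_subset_of_nonneg (t := ((Icc 1 D ×ˢ Icc 1 D ×ˢ Icc 1 D) ×ˢ Icc 1 D).filter
    fun τ : (ℕ × ℕ × ℕ) × ℕ => H ≤ dpY τ.1.2.1 ∧ dpY τ.2 = dpY τ.1.2.1)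
    (monotone_filter_right _ fun _ _ h => h.1) fun _ _ _ => by positivity).trans ?_
  rw [sum_filter, sum_product]
  refine (sum_le_sum (g := fun σ : ℕ × ℕ × ℕ => 288 * c / H *
    ((σ.1 : ℝ)⁻¹ * ((σ.2.1 : ℝ)⁻¹ * (σ.2.2 : ℝ)⁻¹))) fun σ hσ => ?_).trans ?_
  · simp only [mem_product, mem_Icc] at hσ
    by_cases h : H ≤ dpY σ.2.1
    · simp only [h, true_and]
      rw [← sum_filter, ← mul_sum]
      refine (mul_le_mul_of_nonneg_left (dp_near H1 h) (by positivity)).trans ?_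
      have y0 : (0 : ℝ) < dpY σ.2.1 := by exact_mod_cast dpY_pos _
      have y1 : (σ.2.1 : ℝ) ≤ 2 * dpY σ.2.1 := by exact_mod_cast (dpY_lt _).le
      have y2 : (0 : ℝ) < σ.2.1 := by exact_mod_cast hσ.2.1.1
      calc _ = 288 * c / H * ((σ.1 : ℝ)⁻¹ * ((2 * dpY σ.2.1 : ℝ)⁻¹ * (σ.2.2 : ℝ)⁻¹)) := by
            field_simp
            ring
        _ ≤ _ := by gcongr
    · simp only [h, false_and, if_false, sum_const_zero]
      positivity
  · have h1 := dp_harm1 D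
    rw [← mul_sum, sum_product]
    simp only [sum_product, ← mul_sum, ← sum_mul]
    calc _ ≤ 288 * c / H * ((1 + Real.log D) * ((1 + Real.log D) * (1 + Real.log D))) := by gcongr
      _ = _ := by ring

theorem dispersion : ∃ (A K : ℕ) (C₀ : ℝ), ∀ (N R D : ℕ) (V : ℕ → ℝ), 3 ≤ N → 2 ≤ D →
    D ^ 200 ≤ N → R ≤ D → Var (Eh R) N V → Avg N V (1 / Real.log N ^ A) →
    ∀ (S : Finset Dat) (Φ : Dat → ℤ → ℤ → ℝ) (ψ : ℤ → ℤ → ℝ),
      (∀ d ∈ S, d.Ok D ∧ Real.log N ^ K ≤ d.2.1 ∧ Per d.M (Φ d) ∧ ∀ x y, |Φ d x y| ≤ 1) →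
      (∀ x y, |ψ x y| ≤ 1) →
      |∑ d ∈ S, tri N d (fun x y => ψ x y * Φ d x y) fun z => th z - Ls R z| ≤
        C₀ * (N : ℝ) ^ 2 := by
  refine ⟨134, 61, 20000, fun N R D V hN D2 hD hR hV hA S Φ ψ hS hψ => ?_⟩
  rcases S.eq_empty_or_nonempty with rfl | ⟨d₀, h₀⟩
  · simp
  set L := Real.log N with hL
  have l1 : 200 * Real.log D ≤ L := by
    have := Real.log_le_log (by positivity) (Nat.cast_le (α := ℝ).2 hD)
    rwa [Nat.cast_pow, Real.log_pow] at this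
  have l2 : 1 / 2 ≤ Real.log D := by
    have := Real.log_le_log two_pos (show (2 : ℝ) ≤ D by exact_mod_cast D2)
    linarith [Real.log_two_gt_d9]
  have l3 : 2 ≤ L := by linarith
  have l4 : 1 + Real.log D ≤ L := by linarith
  have pD : ∀ d ∈ S, d.1 ∈ Icc 1 D ∧ d.2.1 ≤ D := fun d hd =>
    have o := (hS d hd).1
    ⟨mem_Icc.2 ⟨Nat.pos_of_mul_pos_right o.hA.1, (Nat.le_mul_of_pos_right _ o.hp.pos).trans o.hA.2⟩,
      (Nat.le_mul_of_pos_left _ (Nat.pos_of_mul_pos_right o.hA.1)).trans o.hA.2⟩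
  have H2 : 2 ≤ L ^ 30 := l3.trans (le_self_pow₀ (by linarith) (by norm_num))
  have HD : (L ^ 30) ^ 2 ≤ D := by
    refine le_trans ?_ ((hS d₀ h₀).2.1.trans (Nat.cast_le.2 (pD d₀ h₀).2))
    rw [← pow_mul]
    exact pow_le_pow_right₀ (by linarith) (by norm_num)
  have HY : ∀ d ∈ S, L ^ 30 ≤ dpY d.2.1 := fun d hd => by
    have h1 : (d.2.1 : ℝ) ≤ 2 * dpY d.2.1 := by exact_mod_cast (dpY_lt _).le
    have h2 : L ^ 31 ≤ L ^ 61 := pow_le_pow_right₀ (by linarith) (by norm_num)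
    nlinarith [(hS d hd).2.1]
  rw [sum_congr rfl fun d hd => dp_tri Φ ψ (hS d hd).1]
  refine (dp_cs S (Icc 1 D ×ˢ Icc 1 D ×ˢ range (Nat.log 2 D + 1)) dpKey (fun d hd => ?_) (dpBox N)
    _ (dpTrm N R Φ) (fun k => (2 ^ k.2.2 : ℕ)) (fun k => by positivity) (M := 4 * L ^ 2)
    (μ := L ^ 5) (by positivity) (by positivity) fun k hk q hq => ?_).trans ?_
  · exact mem_product.2 ⟨(pD d hd).1, mem_product.2 ⟨mem_Icc.2 (hS d hd).1.hB,
      mem_range.2 (Nat.lt_succ_of_le (Nat.log_mono_right (b := 2) (pD d hd).2))⟩⟩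
  · simp only [dpBox, mem_product, mem_Ioc] at hq
    have h1 := dp_th hN (hq.1.2.trans (Nat.div_le_self _ _))
    have h2 := dp_th hN ((hq.2.2.trans (Nat.div_le_self _ _)).trans (by omega : N ≤ 3 * N))
    rw [abs_mul, abs_mul]
    calc _ ≤ 2 * L * (2 * L) * 1 := by gcongr; exact hψ _ _
      _ = _ := by ring
  set P := (S ×ˢ S).filter fun e => dpKey e.1 = dpKey e.2 with hP
  have hP' : ∀ e ∈ P, e.1 ∈ S ∧ e.2 ∈ S ∧ dpKey e.1 = dpKey e.2 := fun e he =>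
    ⟨(mem_product.1 (mem_filter.1 he).1).1, (mem_product.1 (mem_filter.1 he).1).2,
      (mem_filter.1 he).2⟩
  have a1 := dp_avg D2 hD l4 (by linarith) hA (P := P.filter fun e => e.1.2.1 ≠ e.2.2.1)
    fun e he => have h := hP' e (mem_filter.1 he).1
      ⟨(hS _ h.1).1, (hS _ h.2.1).1, h.2.2, (mem_filter.1 he).2⟩
  have a2 : ∑ e ∈ P with e.1.2.1 ≠ e.2.2.1, dpW e.2 e.1 * V (dpQ e.1 e.2) =
      ∑ e ∈ P with e.1.2.1 ≠ e.2.2.1, dpW e.1 e.2 * V (dpQ e.1 e.2) := by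
    refine sum_equiv (Equiv.prodComm _ _) (fun e => ?_) fun e _ => ?_
    · simp only [hP, mem_filter, mem_product, Equiv.prodComm_apply, Prod.fst_swap, Prod.snd_swap]
      tauto
    · have : dpD e.1 e.2 = dpD e.2 e.1 := by
        unfold dpD
        omega
      simp only [Equiv.prodComm_apply, Prod.fst_swap, Prod.snd_swap, dpQ, this]
      congr 2
      ring
  have a3 := (dp_abs _ (fun _ _ _ _ _ _ => sum_nonneg fun _ _ => by positivity) (by linarith)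
    (by positivity) (fun a p B p' => dp_badsum (H := L ^ 30) hN hD hR (by
      rw [Nat.cast_pow, Real.log_pow]
      push_cast
      linarith) l3 (by linarith) (by nlinarith)) (P := P) fun e he => have h := hP' e he
      ⟨(hS _ h.1).1, (hS _ h.2.1).1, h.2.2, HY _ h.1⟩).trans (mul_le_mul_of_nonneg_left
      (pow_le_pow_left₀ (by linarith) l4 3) (by positivity))
  have a4 := sum_le_sum fun e (he : e ∈ P) => have h := hP' e he
    dp_T D2 hD H2 HD hV hA.1 h.2.2 (hS _ h.1).1 (hS _ h.2.1).1 (hS _ h.1).2.2.1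
      (hS _ h.2.1).2.2.1 (hS _ h.1).2.2.2 (hS _ h.2.1).2.2.2
  rw [sum_add_distrib, ← sum_filter, ← mul_sum] at a4
  simp only [add_mul, sum_add_distrib, a2] at a4
  have a5 : ∑ k ∈ Icc 1 D ×ˢ Icc 1 D ×ˢ range (Nat.log 2 D + 1),
      ((dpBox N k).card : ℝ) * (2 ^ k.2.2 : ℕ) ≤ N ^ 2 * L ^ 3 := by
    refine (sum_le_sum (g := fun k : ℕ × ℕ × ℕ => N ^ 2 * ((k.1 : ℝ)⁻¹ * ((k.2.1 : ℝ)⁻¹ * 1)))
      fun k hk => ?_).trans ?_
    · simp only [mem_product, mem_Icc] at hk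
      have b1 : (0 : ℝ) < k.1 := by exact_mod_cast hk.1.1
      have b2 : (0 : ℝ) < k.2.1 := by exact_mod_cast hk.2.1.1
      rw [dpBox, card_product, Nat.card_Ioc, Nat.card_Ioc, Nat.cast_mul]
      calc _ ≤ ((3 * N : ℕ) : ℝ) / (k.1 * 2 ^ k.2.2 : ℕ) * (N / (16 * k.2.1 : ℕ)) *
            (2 ^ k.2.2 : ℕ) := by
            gcongr
            · exact Nat.cast_div_le
            · exact (Nat.cast_le.2 (Nat.sub_le _ _)).trans Nat.cast_div_le
        _ = 3 / 16 * (N ^ 2 * ((k.1 : ℝ)⁻¹ * ((k.2.1 : ℝ)⁻¹ * 1))) := by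
            push_cast
            field_simp
        _ ≤ _ := mul_le_of_le_one_left (by positivity) (by norm_num)
    · have h1 := (dp_harm1 D).trans l4
      have h2 : ∑ _j ∈ range (Nat.log 2 D + 1), (1 : ℝ) ≤ L := by
        have := Real.log_le_log (by positivity)
          (Nat.cast_le (α := ℝ).2 (Nat.pow_log_le_self 2 (show D ≠ 0 by omega)))
        rw [Nat.cast_pow, Real.log_pow, Nat.cast_ofNat] at this
        rw [sum_const, card_range, nsmul_eq_mul, mul_one, Nat.cast_succ]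
        nlinarith [Real.log_two_gt_d9, Nat.cast_nonneg (α := ℝ) (Nat.log 2 D)]
      rw [← mul_sum, sum_product]
      simp only [sum_product, ← mul_sum]
      simp only [← sum_mul]
      calc _ ≤ (N : ℝ) ^ 2 * (L * (L * L)) := by gcongr
        _ = _ := by ring
  have L0 : 0 < L := by linarith
  calc _ ≤ 4 * L ^ 2 / 2 * (L ^ 5 * (16 * (L ^ 30) ^ 4 * N ^ 2 * (128 * L ^ 7 * (1 / L ^ 134) +
        128 * L ^ 7 * (1 / L ^ 134)) + 288 * (4 * L ^ 20 * N ^ 2) / L ^ 30 * L ^ 3) +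
        N ^ 2 * L ^ 3 / L ^ 5) := by
        gcongr
        exact a4.trans (by gcongr)
    _ = 10498 * (N : ℝ) ^ 2 := by
        field_simp
        ring
    _ ≤ _ := by gcongr; norm_num

end Pool.Agent.Lib.RankZero
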