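import Pool.Agent.Lib.MP_6073f3_nt.Z.Defs
import Pool.Agent.Lib.MP_6073f3_nt.Chars

/-!
A bilinear bound for Jacobi symbols over pairs of primes.
-/

namespace Pool.Agent.Lib.RankZero

open Finset TorsRank
open scoped NumberTheorySymbols

/-- Sets of odd primes up to `n`. -/
def s2_P (n : ℕ) (Y : Finset ℕ) : Prop := ∀ y ∈ Y, y.Prime ∧ y ≠ 2 ∧ y ≤ n

lemma s2_card {n : ℕ} {Y : Finset ℕ} (hY : s2_P n Y) : (Y.card : ℝ) ≤ n := by
  have : Y ⊆ Icc 1 n := fun y hy => mem_Icc.2 ⟨(hY y hy).1.pos, (hY y hy).2.2⟩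
  exact_mod_cast (card_le_card this).trans_eq (by simp)

lemma s2_sq {n : ℕ} {Y : Finset ℕ} (hY : s2_P n Y) (L : ℕ) :
    ∑ k ∈ range L, (∑ y ∈ Y, xi y k) ^ 2 ≤ (n : ℝ) * (L + n * (4 * n ^ 2)) := by
  have hc := s2_card hY
  simp only [sq (∑ y ∈ Y, _), sum_mul_sum]
  rw [sum_comm]
  refine (sum_le_card_nsmul _ _ (L + n * (4 * n ^ 2) : ℝ) fun y hy => ?_).trans
    (by rw [nsmul_eq_mul]; gcongr)
  rw [sum_comm]
  calc _ ≤ ∑ z ∈ Y, ((if y = z then (L : ℝ) else 0) + 4 * n ^ 2) := sum_le_sum fun z hz => ?_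
    _ ≤ _ := by rw [sum_add_distrib, sum_ite_eq, if_pos hy, sum_const, nsmul_eq_mul]; gcongr
  have e : ∀ k, xi y k * xi z k = xi (y * z) k := fun k => by
    unfold xi; split_ifs <;> simp [jacobiSym.mul_left]
  simp only [e]
  split_ifs with h
  · refine (sum_le_card_nsmul _ _ 1 fun k _ => (le_abs_self _).trans (abs_xi _ _)).trans ?_
    simp
  · have := (NP.of_prime (hY y hy).1 (hY y hy).2.1 (b := z) fun hd => h
      ((Nat.prime_dvd_prime_iff_eq (hY y hy).1 (hY z hz).1).1 (by exact_mod_cast hd))).sum_range L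
    refine (le_abs_self _).trans (this.trans ?_)
    have h1 : (y : ℝ) ≤ n := by exact_mod_cast (hY y hy).2.2
    have h2 : (z : ℝ) ≤ n := by exact_mod_cast (hY z hz).2.2
    rw [Int.natAbs_mul, Int.natAbs_natCast, Int.natAbs_natCast, zero_add, sq, Nat.cast_mul]
    gcongr

lemma s2_fib {n : ℕ} {X : Finset ℕ} (hX : s2_P n X) (k : ℕ) :
    ((Fintype.piFinset fun _ : Fin 4 => X).filter fun f => ∏ i, f i = k).card ≤ 256 := by
  rcases ((Fintype.piFinset fun _ : Fin 4 => X).filter fun f => ∏ i, f i = k).eq_empty_or_nonempty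
    with h | ⟨g, hg⟩
  · simp [h]
  refine (card_le_card (t := Fintype.piFinset fun _ : Fin 4 => univ.image g) fun f hf => ?_).trans ?_
  · simp only [mem_filter, Fintype.mem_piFinset] at hf hg ⊢
    intro i
    have p := (hX _ (hf.1 i)).1
    obtain ⟨j, -, hj⟩ := (p.prime.dvd_finsetProd_iff g).1
      (hg.2 ▸ hf.2 ▸ dvd_prod_of_mem f (mem_univ i))
    exact mem_image.2 ⟨j, mem_univ _, ((Nat.prime_dvd_prime_iff_eq p (hX _ (hg.1 j)).1).1 hj).symm⟩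
  · rw [Fintype.card_piFinset, prod_const, card_univ, Fintype.card_fin]
    exact Nat.pow_le_pow_left (card_image_le.trans_eq (by simp)) 4 |>.trans_eq (by norm_num : 4 ^ 4 = 256)

lemma s2_bil {n : ℕ} {X Y : Finset ℕ} (hX : s2_P n X) (hY : s2_P n Y) (α β : ℕ → ℝ)
    (hα : ∀ x ∈ X, |α x| ≤ 1) (hβ : ∀ y ∈ Y, |β y| ≤ 1) :
    |∑ x ∈ X, ∑ y ∈ Y, α x * β y * xi y x| ^ 8 ≤ 1536 * (n : ℝ) ^ 15 := by
  rcases n.eq_zero_or_pos with rfl | hn
  · simp [eq_empty_of_forall_notMem fun x hx => (hX x hx).1.pos.not_ge (hX x hx).2.2]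
  have hn' : (1 : ℝ) ≤ n := by exact_mod_cast hn
  set T : ℕ → ℝ := fun y => ∑ x ∈ X, α x * xi y x with hT
  set W : ℕ → ℝ := fun k => ∑ y ∈ Y, xi y k with hW
  set F := Fintype.piFinset fun _ : Fin 4 => X with hF
  have h1 : |∑ x ∈ X, ∑ y ∈ Y, α x * β y * xi y x| ≤ ∑ y ∈ Y, |T y| := by
    rw [sum_comm]
    refine (abs_sum_le_sum_abs _ _).trans (sum_le_sum fun y hy => ?_)
    rw [show ∑ x ∈ X, α x * β y * xi y x = β y * T y by
      rw [hT, mul_sum]; exact sum_congr rfl fun _ _ => by ring, abs_mul]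
    exact mul_le_of_le_one_left (abs_nonneg _) (hβ y hy)
  have h2 : (∑ y ∈ Y, |T y|) ^ 4 ≤ (n : ℝ) ^ 3 * ∑ y ∈ Y, |T y| ^ 4 :=
    (pow_sum_le_card_mul_sum_pow (fun _ _ => abs_nonneg _) 3).trans (by gcongr; exact_mod_cast s2_card hY)
  have h3 : ∑ y ∈ Y, |T y| ^ 4 ≤ ∑ f ∈ F, |W (∏ i, f i)| := by
    simp only [(by decide : Even 4).pow_abs, hT, sum_pow', prod_mul_distrib]
    rw [sum_comm]
    refine sum_le_sum fun f hf => (le_abs_self _).trans ?_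
    rw [← mul_sum, abs_mul, abs_prod]
    refine (mul_le_of_le_one_left (abs_nonneg _) (prod_le_one (fun _ _ => abs_nonneg _)
      fun i _ => hα _ (Fintype.mem_piFinset.1 hf i))).trans_eq ?_
    simp only [hW, Fin.prod_univ_four, xi_mul]
  have h4 : (∑ f ∈ F, |W (∏ i, f i)|) ^ 2 ≤ (n : ℝ) ^ 4 * ∑ f ∈ F, W (∏ i, f i) ^ 2 := by
    refine sq_sum_le_card_mul_sum_sq.trans ?_
    simp only [sq_abs, hF, Fintype.card_piFinset, prod_const, card_univ, Fintype.card_fin,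
      Nat.cast_pow]
    gcongr; exact_mod_cast s2_card hX
  have h5 : ∑ f ∈ F, W (∏ i, f i) ^ 2 ≤ 256 * ∑ k ∈ range (n ^ 4 + 1), W k ^ 2 := by
    rw [← sum_fiberwise_of_maps_to (g := fun f => ∏ i, f i) (t := range (n ^ 4 + 1)), mul_sum]
    · refine sum_le_sum fun k _ => ?_
      rw [sum_congr rfl (g := fun _ => W k ^ 2) fun f hf => by rw [(mem_filter.1 hf).2], sum_const,
        nsmul_eq_mul]
      gcongr
      exact_mod_cast s2_fib hX k
    · intro f hf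
      refine mem_range.2 (Nat.lt_succ_of_le ?_)
      simpa using prod_le_pow_card univ f n fun i _ => (hX _ (Fintype.mem_piFinset.1 hf i)).2.2
  have h6 : ∑ k ∈ range (n ^ 4 + 1), W k ^ 2 ≤ 6 * (n : ℝ) ^ 5 := by
    refine (s2_sq hY _).trans ?_
    push_cast
    have : (n : ℝ) ^ 3 ≤ n ^ 4 := pow_le_pow_right₀ hn' (by norm_num)
    have : (1 : ℝ) ≤ n ^ 4 := one_le_pow₀ hn'
    nlinarith
  calc _ = (|∑ x ∈ X, ∑ y ∈ Y, α x * β y * xi y x| ^ 4) ^ 2 := by ring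
    _ ≤ ((n : ℝ) ^ 3 * ∑ f ∈ F, |W (∏ i, f i)|) ^ 2 := by
      gcongr
      exact (pow_le_pow_left₀ (abs_nonneg _) h1 4).trans (h2.trans (by gcongr))
    _ ≤ (n : ℝ) ^ 6 * (n ^ 4 * (256 * (6 * n ^ 5))) := by
      rw [mul_pow, ← pow_mul]
      gcongr
      exact h4.trans (by gcongr; exact h5.trans (by gcongr))
    _ = _ := by ring

lemma s2_per {n Q : ℕ} {X Y : Finset ℕ} (hX : s2_P n X) (hY : s2_P n Y) (α β : ℕ → ℝ)
    (hα : ∀ x ∈ X, |α x| ≤ 1) (hβ : ∀ y ∈ Y, |β y| ≤ 1) (G : ℕ → ℕ → ℝ) (hQ : 0 < Q)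
    (h1 : ∀ x y, |G x y| ≤ 1) (hG : ∀ x ∈ X, ∀ x' ∈ X, x % Q = x' % Q → ∀ y ∈ Y, G x y = G x' y)
    {B : ℝ} (hB : 0 ≤ B) (hB8 : B ^ 8 = 1536 * (n : ℝ) ^ 15) :
    |∑ x ∈ X, ∑ y ∈ Y, α x * β y * xi y x * G x y| ≤ Q * B := by
  rw [← sum_fiberwise_of_maps_to (g := fun x => x % Q) (t := range Q)
    fun x _ => mem_range.2 (Nat.mod_lt _ hQ)]
  refine (abs_sum_le_sum_abs _ _).trans ((sum_le_card_nsmul _ _ B fun k _ => ?_).trans (by simp))
  rcases (X.filter fun x => x % Q = k).eq_empty_or_nonempty with h | ⟨x₀, h₀⟩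
  · simpa [h] using hB
  rw [sum_congr rfl (g := fun x => ∑ y ∈ Y, α x * (β y * G x₀ y) * xi y x) fun x hx =>
    sum_congr rfl fun y hy => by
      rw [hG x (mem_filter.1 hx).1 x₀ (mem_filter.1 h₀).1
        ((mem_filter.1 hx).2.trans (mem_filter.1 h₀).2.symm) y hy]; ring]
  refine le_of_pow_le_pow_left₀ (by norm_num : 8 ≠ 0) hB (hB8 ▸ s2_bil
    (fun x hx => hX x (mem_filter.1 hx).1) hY _ _ (fun x hx => hα x (mem_filter.1 hx).1)
    fun y hy => ?_)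
  rw [abs_mul]
  exact mul_le_one₀ (hβ y hy) (abs_nonneg _) (h1 _ _)

lemma s2_lam (r z : ℕ) : |lam r z| ≤ 1 := by
  rw [lam, abs_prod]
  refine prod_le_one (fun _ _ => abs_nonneg _) fun q hq => ?_
  have : (2 : ℝ) ≤ q := by exact_mod_cast (Nat.prime_of_mem_primeFactors hq).two_le
  unfold gq
  split_ifs
  · simp
  · rw [abs_of_nonneg (div_nonneg zero_le_one (by linarith)), div_le_one (by linarith)]
    linarith

lemma s2_lam_per {C r U U' : ℕ} (hC : 0 < C) (h : U ≡ U' [MOD C * r]) :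
    (if C ∣ U then lam r (U / C) else 0) = if C ∣ U' then lam r (U' / C) else 0 := by
  have e := (h.of_mul_right r).dvd_iff dvd_rfl
  by_cases hU : C ∣ U
  · rw [if_pos hU, if_pos (e.1 hU)]
    obtain ⟨a, rfl⟩ := hU
    obtain ⟨b, rfl⟩ := e.1 (dvd_mul_right C a)
    rw [Nat.mul_div_cancel_left _ hC, Nat.mul_div_cancel_left _ hC]
    refine prod_congr rfl fun q hq => ?_
    simp only [gq, (Nat.ModEq.mul_left_cancel' hC.ne' h).dvd_iff (Nat.dvd_of_mem_primeFactors hq)]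
  · rw [if_neg hU, if_neg (mt e.2 hU)]

lemma s2_one {N R D : ℕ} (hD : 2 ≤ D) (hN : D ^ 200 ≤ N) (hR : R ≤ D) {d : Dat} (hd : d.Ok D)
    {Φ : ℤ → ℤ → ℝ} (hp : Per d.M Φ) (h1 : ∀ x y, |Φ x y| ≤ 1) {B : ℝ} (hB : 0 ≤ B)
    (hB8 : B ^ 8 = 1536 * ((3 * N : ℕ) : ℝ) ^ 15) :
    |tri N d (fun x y => J(y | x.toNat) * Φ x y) (Ls R)| ≤
      D * (Real.log (3 * N : ℕ) ^ 2 * (4 * D ^ 4 * B)) := by
  have hN' : 64 * D ≤ N := by
    calc 64 * D = 2 ^ 6 * D := by norm_num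
      _ ≤ D ^ 199 * D := Nat.mul_le_mul_right _ ((Nat.pow_le_pow_left hD 6).trans
        (Nat.pow_le_pow_right (by omega) (by norm_num)))
      _ ≤ N := by rw [← pow_succ]; exact hN
  obtain ⟨⟨a1, a2⟩, ⟨b1, b2⟩, ⟨c1, c2⟩, -, -, -⟩ := hd
  set L := Real.log (3 * N : ℕ) with hL
  have L0 : 0 < L := Real.log_pos (by exact_mod_cast (by omega : 1 < 3 * N))
  set X := (Ioc (2 * N / d.A) (3 * N / d.A)).filter Nat.Prime with hX
  set Y := (Ioc (N / (32 * d.B)) (N / (16 * d.B))).filter Nat.Prime with hY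
  have pX : s2_P (3 * N) X := fun x hx => by
    obtain ⟨h, p⟩ := mem_filter.1 hx
    have : 2 ≤ 2 * N / d.A := (Nat.le_div_iff_mul_le a1).2 (by omega)
    exact ⟨p, (this.trans_lt (mem_Ioc.1 h).1).ne', (mem_Ioc.1 h).2.trans (Nat.div_le_self _ _)⟩
  have pY : s2_P (3 * N) Y := fun x hx => by
    obtain ⟨h, p⟩ := mem_filter.1 hx
    have : 2 ≤ N / (32 * d.B) := (Nat.le_div_iff_mul_le (by omega)).2 (by omega)
    exact ⟨p, (this.trans_lt (mem_Ioc.1 h).1).ne',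
      (mem_Ioc.1 h).2.trans ((Nat.div_le_self _ _).trans (by omega))⟩
  have hth : ∀ Z, s2_P (3 * N) Z → ∀ x ∈ Z, |th x / L| ≤ 1 := fun Z hZ x hx => by
    rw [th, if_pos (hZ x hx).1, abs_of_nonneg (div_nonneg (Real.log_natCast_nonneg x) L0.le),
      div_le_one L0]
    exact Real.log_le_log (by exact_mod_cast (hZ x hx).1.pos) (by exact_mod_cast (hZ x hx).2.2)
  have e : tri N d (fun x y => J(y | x.toNat) * Φ x y) (Ls R) =
      ∑ r ∈ (Icc 1 R).filter Squarefree, L ^ 2 * ∑ x ∈ X, ∑ y ∈ Y,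
        th x / L * (th y / L) * xi y x * (Φ x y * if d.C ∣ d.A * x - 16 * d.B * y then
          lam r ((d.A * x - 16 * d.B * y) / d.C) else 0) := by
    simp only [mul_sum]
    rw [sum_comm, tri, ← sum_subset (filter_subset Nat.Prime _) fun x h hx =>
      sum_eq_zero fun y _ => by simp [th, mt (fun p => mem_filter.2 ⟨h, p⟩) hx]]
    refine sum_congr rfl fun x hx => ?_
    rw [sum_comm, ← sum_subset (filter_subset Nat.Prime _) fun y h hy => by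
      simp [th, mt (fun p => mem_filter.2 ⟨h, p⟩) hy]]
    refine sum_congr rfl fun y _ => ?_
    rw [xi_odd ((pX x hx).1.odd_of_ne_two (pX x hx).2.1), Int.toNat_natCast, Ls]
    split_ifs
    · rw [mul_sum]; exact sum_congr rfl fun r _ => by field_simp
    · simp
  rw [e]
  refine (abs_sum_le_sum_abs _ _).trans ((sum_le_card_nsmul _ _ (L ^ 2 * (4 * D ^ 4 * B))
    fun r hr => ?_).trans ?_)
  · obtain ⟨r1, r2⟩ := mem_Icc.1 (mem_filter.1 hr).1
    rw [abs_mul, abs_of_nonneg (sq_nonneg L)]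
    gcongr
    refine (s2_per (Q := d.M * r) pX pY _ _ (hth X pX) (hth Y pY) _ (by unfold Dat.M; positivity)
      (fun x y => ?_) (fun x hx x' hx' h y hy => ?_) hB hB8).trans ?_
    · rw [abs_mul]
      refine mul_le_one₀ (h1 _ _) (abs_nonneg _) ?_
      split_ifs
      · exact s2_lam _ _
      · simp
    · have h' : x ≡ x' [MOD d.M * r] := h
      have l : ∀ x ∈ X, 16 * d.B * y ≤ d.A * x := fun x hx => by
        have u := (Nat.div_lt_iff_lt_mul a1).1 (mem_Ioc.1 (mem_filter.1 hx).1).1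
        have v := (Nat.le_div_iff_mul_le (by omega)).1 (mem_Ioc.1 (mem_filter.1 hy).1).2
        rw [mul_comm _ y, mul_comm _ x]; omega
      rw [hp x y x' y ((h'.of_mul_right r).dvd) (by simp), s2_lam_per c1
        (Nat.ModEq.sub (l x hx) (l x' hx') ((h'.of_dvd (Nat.mul_dvd_mul_right
          (Dvd.intro_left _ rfl) r)).mul_left _) rfl)]
    · gcongr
      have : d.M * r ≤ 4 * D * D * D * D := by unfold Dat.M; gcongr; omega
      exact_mod_cast this.trans_eq (by ring)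
  · rw [nsmul_eq_mul]
    gcongr
    exact (card_filter_le _ _).trans (by simpa using hR)

theorem step2 : ∃ C₀ : ℝ, ∀ (N R D : ℕ), 3 ≤ N → 2 ≤ D → D ^ 200 ≤ N → R ≤ D →
    ∀ (S : Finset Dat) (Φ : Dat → ℤ → ℤ → ℝ),
      (∀ d ∈ S, d.Ok D ∧ Per d.M (Φ d) ∧ ∀ x y, |Φ d x y| ≤ 1) →
      |∑ d ∈ S, tri N d (fun x y => J(y | x.toNat) * Φ d x y) (Ls R)| ≤ C₀ * (N : ℝ) ^ 2 := by
  obtain ⟨c, hc⟩ : ∃ c : ℝ, c = (Nat.factorial 32 : ℕ) * 3 * (1536 * 3 ^ 15) ^ 2 := ⟨_, rfl⟩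
  have c1 : 1 ≤ c := by rw [hc]; norm_num [Nat.factorial]
  refine ⟨4 * c, fun N R D hN hD hDN hR S Φ h => ?_⟩
  obtain ⟨B, hB, hB8⟩ : ∃ B : ℝ, 0 ≤ B ∧ B ^ 8 = 1536 * ((3 * N : ℕ) : ℝ) ^ 15 :=
    ⟨_, by positivity, Real.rpow_inv_natCast_pow (by positivity) (by norm_num)⟩
  set L := Real.log (3 * N : ℕ) with hL
  have L0 : 0 ≤ L := Real.log_natCast_nonneg _
  have hS : S.card ≤ D ^ 4 := by
    refine (card_le_card (t := Icc 1 D ×ˢ Icc 1 D ×ˢ Icc 1 D ×ˢ Icc 1 D) fun d hd => ?_).trans_eq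
      (by simp; ring)
    obtain ⟨⟨a1, a2⟩, b, c, p, -, -⟩ := (h d hd).1
    have a0 : 0 < d.1 := Nat.pos_of_mul_pos_right a1
    simp only [mem_product, mem_Icc]
    exact ⟨⟨a0, (Nat.le_mul_of_pos_right _ p.pos).trans a2⟩,
      ⟨p.pos, (Nat.le_mul_of_pos_left _ a0).trans a2⟩, b, c⟩
  refine (abs_sum_le_sum_abs _ _).trans ((sum_le_card_nsmul _ _ _ fun d hd =>
    s2_one hD hDN hR (h d hd).1 (h d hd).2.1 (h d hd).2.2 hB hB8).trans ?_)
  have hP : (D : ℝ) ^ 9 * L ^ 2 * B ≤ c * N ^ 2 := by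
    refine le_of_pow_le_pow_left₀ (by norm_num : 16 ≠ 0) (by positivity) ?_
    have u : (D : ℝ) ^ 144 ≤ N := by
      exact_mod_cast (Nat.pow_le_pow_right (by omega) (by norm_num)).trans hDN
    have v : L ^ 32 ≤ (Nat.factorial 32 : ℕ) * (3 * N) := by
      have := Real.pow_div_factorial_le_exp L L0 32
      rw [hL, Real.exp_log (by positivity), div_le_iff₀ (by positivity)] at this
      exact this.trans_eq (by push_cast; ring)
    calc _ = (D : ℝ) ^ 144 * L ^ 32 * (B ^ 8) ^ 2 := by ring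
      _ ≤ N * ((Nat.factorial 32 : ℕ) * (3 * N)) * (B ^ 8) ^ 2 := by gcongr
      _ = c * N ^ 32 := by rw [hB8, hc]; push_cast; ring
      _ ≤ c ^ 16 * N ^ 32 := by gcongr; exact le_self_pow₀ c1 (by norm_num)
      _ = _ := by ring
  rw [nsmul_eq_mul]
  calc _ ≤ (D : ℝ) ^ 4 * (D * (L ^ 2 * (4 * D ^ 4 * B))) := by gcongr; exact_mod_cast hS
    _ = 4 * ((D : ℝ) ^ 9 * L ^ 2 * B) := by ring
    _ ≤ _ := by linarith

end Pool.Agent.Lib.RankZero
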