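import Pool.Agent.Lib.MP_6073f3_nt.Z.Step3b

/-!
The main term of the ternary problem with the approximant.
-/

namespace Pool.Agent.Lib.RankZero

open Finset

theorem s3_class {Q : ℕ} (hQ : 1 ≤ Q) {F : ℤ → ℤ → ℝ} (hF : Per Q F) (a b c e : ℕ) :
    ∑ x ∈ Ioc a b, ∑ y ∈ Ioc c e, th x * th y * F x y
      = ∑ k ∈ range Q, ∑ l ∈ range Q, F k l * (cls th Q k a b * cls th Q l c e) := by
  have hm : ∀ s : Finset ℕ, ∀ x ∈ s, x % Q ∈ range Q := fun _ x _ => mem_range.2 (Nat.mod_lt x hQ)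
  rw [← sum_fiberwise_of_maps_to (hm _)]
  refine sum_congr rfl fun k _ => ?_
  simp only [cls, sum_mul_sum]
  simp only [mul_sum]
  rw [sum_comm (s := range Q)]
  refine sum_congr rfl fun x hx => ?_
  rw [← sum_fiberwise_of_maps_to (hm _)]
  refine sum_congr rfl fun l _ => sum_congr rfl fun y hy => ?_
  rw [← (mem_filter.1 hx).2, ← (mem_filter.1 hy).2, mul_comm,
    hF ((x % Q : ℕ) : ℤ) ((y % Q : ℕ) : ℤ) x y]
  · exact ⟨x / Q, by push_cast; linarith [Int.emod_add_mul_ediv (x : ℤ) Q]⟩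
  · exact ⟨y / Q, by push_cast; linarith [Int.emod_add_mul_ediv (y : ℤ) Q]⟩

theorem s3_schur {Q : ℕ} (hQ : 1 ≤ Q) {C X Y α β t : ℝ} (hC : 0 < C) (hX : 0 < X) (hY : 0 < Y)
    (ht : 0 < t) (K : ℕ → ℕ → ℝ) (rel : ℕ → ℕ → Prop) [DecidableRel rel]
    (hK : ∀ k l, |K k l| ≤ if rel k l then 1 else 0)
    (hr : ∀ k, (((range Q).filter fun l => rel k l).card : ℝ) ≤ Q / C)
    (hc : ∀ l, (((range Q).filter fun k => rel k l).card : ℝ) ≤ Q / C) (a b : ℕ → ℝ)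
    (ha : ∑ k ∈ range Q, a k ^ 2 ≤ X ^ 2 / Q * α) (hb : ∑ k ∈ range Q, b k ^ 2 ≤ Y ^ 2 / Q * β) :
    |∑ k ∈ range Q, ∑ l ∈ range Q, K k l * (a k * b l)| ≤ X * Y / C * ((t * α + β / t) / 2) := by
  have hQ' : (0 : ℝ) < Q := by exact_mod_cast hQ
  set s := t * Y / X with hs
  have hs0 : 0 < s := by positivity
  have h1 : ∀ k l, |K k l * (a k * b l)| ≤
      (if rel k l then s / 2 * a k ^ 2 else 0) + if rel k l then 1 / (2 * s) * b l ^ 2 else 0 := by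
    intro k l
    have := hK k l
    rw [abs_mul]
    split_ifs at this ⊢
    · have h2 : |a k * b l| ≤ s / 2 * a k ^ 2 + 1 / (2 * s) * b l ^ 2 := by
        have e : s / 2 * a k ^ 2 + 1 / (2 * s) * b l ^ 2 - |a k * b l|
            = (s * |a k| - |b l|) ^ 2 / (2 * s) := by
          rw [abs_mul, ← sq_abs (a k), ← sq_abs (b l)]
          field_simp
          ring
        have : 0 ≤ (s * |a k| - |b l|) ^ 2 / (2 * s) := by positivity
        linarith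
      nlinarith [abs_nonneg (a k * b l)]
    · nlinarith [abs_nonneg (a k * b l), abs_nonneg (K k l)]
  refine (abs_sum_le_sum_abs _ _).trans ((sum_le_sum fun k _ => (abs_sum_le_sum_abs _ _).trans
    (sum_le_sum fun l _ => h1 k l)).trans ?_)
  simp only [sum_add_distrib]
  rw [sum_comm (f := fun k l => if rel k l then 1 / (2 * s) * b l ^ 2 else 0)]
  simp only [← sum_filter, sum_const, nsmul_eq_mul]
  have h3 : ∑ k ∈ range Q, (((range Q).filter fun l => rel k l).card : ℝ) * (s / 2 * a k ^ 2)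
      ≤ Q / C * (s / 2 * (X ^ 2 / Q * α)) := by
    refine (sum_le_sum fun k _ => mul_le_mul_of_nonneg_right (hr k) (by positivity)).trans ?_
    rw [← mul_sum, ← mul_sum]
    gcongr
  have h4 : ∑ l ∈ range Q, (((range Q).filter fun k => rel k l).card : ℝ) * (1 / (2 * s) * b l ^ 2)
      ≤ Q / C * (1 / (2 * s) * (Y ^ 2 / Q * β)) := by
    refine (sum_le_sum fun k _ => mul_le_mul_of_nonneg_right (hc k) (by positivity)).trans ?_
    rw [← mul_sum, ← mul_sum]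
    gcongr
  refine (add_le_add h3 h4).trans (le_of_eq ?_)
  rw [hs]
  field_simp

theorem s3_count {Q C c : ℕ} (hC : 1 ≤ C) (hCQ : C ∣ Q) (hc : C.Coprime c) (P : ℕ → Prop)
    [DecidablePred P] (hP : ∀ l l', P l → P l' → (C : ℤ) ∣ c * ((l : ℤ) - l')) :
    (((range Q).filter P).card : ℝ) ≤ Q / C := by
  obtain ⟨m, rfl⟩ := hCQ
  have hC' : (0 : ℝ) < C := by exact_mod_cast hC
  have : ((range (C * m)).filter P).card ≤ (range m).card := by
    refine card_le_card_of_injOn (· / C) (fun l hl => ?_) fun l hl l' hl' h => ?_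
    · exact mem_coe.2 (mem_range.2 (Nat.div_lt_of_lt_mul (mem_range.1 (mem_filter.1 hl).1)))
    · have h1 : (C : ℤ) ∣ (l : ℤ) - l' :=
        (Nat.isCoprime_iff_coprime.2 hc).dvd_of_dvd_mul_left
          (hP l l' (mem_filter.1 hl).2 (mem_filter.1 hl').2)
      have h2 : l' % C = l % C := (Nat.modEq_iff_dvd.2 h1)
      rw [← Nat.div_add_mod l C, ← Nat.div_add_mod l' C, h2]
      exact congrArg (C * · + l % C) h
  rw [card_range] at this
  push_cast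
  rw [mul_div_cancel_left₀ _ hC'.ne']
  exact_mod_cast this

theorem s3_prod_ge (P : Finset ℕ) (hP : ∀ p ∈ P, 2 ≤ p) :
    1 ≤ ((P.card : ℝ) + 1) * ∏ p ∈ P, (1 - (p : ℝ)⁻¹) := by
  induction P using Finset.induction_on_max with
  | empty => simp
  | insert a P ha ih =>
    have haP : a ∉ P := fun h => lt_irrefl _ (ha a h)
    have h1 := ih fun p hp => hP p (mem_insert_of_mem hp)
    have h2 : P.card ≤ (Ico 2 a).card :=
      card_le_card fun p hp => mem_Ico.2 ⟨hP p (mem_insert_of_mem hp), ha p hp⟩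
    have h3 := hP a (mem_insert_self _ _)
    rw [Nat.card_Ico] at h2
    have h4 : (P.card : ℝ) + 2 ≤ a := by exact_mod_cast (by omega : P.card + 2 ≤ a)
    have h5 : (0 : ℝ) ≤ P.card := Nat.cast_nonneg _
    have h6 : (P.card : ℝ) + 1 ≤ (P.card + 1 + 1) * (1 - (a : ℝ)⁻¹) := by
      have : ((P.card : ℝ) + 2) * (a : ℝ)⁻¹ ≤ 1 := by
        rw [← div_eq_mul_inv, div_le_one (by linarith)]; exact h4
      linarith
    have h7 : 0 ≤ ∏ p ∈ P, (1 - (p : ℝ)⁻¹) := by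
      by_contra h
      nlinarith
    rw [prod_insert haP, card_insert_of_notMem haP, ← mul_assoc]
    push_cast
    nlinarith

theorem s3_phi {Q : ℕ} (hQ : 1 ≤ Q) : (Q : ℝ) ≤ (2 * Real.log Q + 1) * Q.totient := by
  have h1 := s3_prod_ge Q.primeFactors fun p hp => (Nat.prime_of_mem_primeFactors hp).two_le
  have h2 : (Q.totient : ℝ) = Q * ∏ p ∈ Q.primeFactors, (1 - (p : ℝ)⁻¹) := by
    have := congrArg (Rat.cast : ℚ → ℝ) (Nat.totient_eq_mul_prod_factors Q)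
    push_cast at this
    exact this
  have h3 : 2 ^ Q.primeFactors.card ≤ Q :=
    (pow_card_le_prod _ _ _ fun p hp => (Nat.prime_of_mem_primeFactors hp).two_le).trans
      (Nat.le_of_dvd hQ (Nat.prod_primeFactors_dvd Q))
  have h4 : (Q.primeFactors.card : ℝ) * Real.log 2 ≤ Real.log Q := by
    rw [← Real.log_pow]
    exact Real.log_le_log (by positivity) (by exact_mod_cast h3)
  have h5 := Real.log_two_gt_d9
  have h6 : (0 : ℝ) ≤ Q.primeFactors.card := Nat.cast_nonneg _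
  have h7 : (0 : ℝ) ≤ Q.totient := Nat.cast_nonneg _
  have h8 : (0 : ℝ) ≤ Q := Nat.cast_nonneg _
  calc (Q : ℝ) ≤ ((Q.primeFactors.card : ℝ) + 1) * Q.totient := by rw [h2]; nlinarith
    _ ≤ _ := mul_le_mul_of_nonneg_right (by nlinarith) h7

theorem s3_single {Q X Y lo hi lo' hi' : ℕ} (hQ : 1 ≤ Q) {C L v t : ℝ} (hC : 0 < C) (hX : 0 < X)
    (hY : 0 < Y) (ht : 0 < t) (hL : (Q : ℝ) ≤ L * Q.totient) (h1 : hi ≤ X) (h2 : hi' ≤ Y)
    {F : ℤ → ℤ → ℝ} (hF : Per Q F) (rel : ℕ → ℕ → Prop) [DecidableRel rel]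
    (hK : ∀ k l : ℕ, |F k l| ≤ if rel k l then 1 else 0)
    (hr : ∀ k, (((range Q).filter fun l => rel k l).card : ℝ) ≤ Q / C)
    (hc : ∀ l, (((range Q).filter fun k => rel k l).card : ℝ) ≤ Q / C)
    (ha : ∑ k ∈ range Q, Eth Q k lo hi ^ 2 ≤ (X : ℝ) ^ 2 / Q * v)
    (hb : ∑ k ∈ range Q, Eth Q k lo' hi' ^ 2 ≤ (Y : ℝ) ^ 2 / Q * v) :
    ((hi - lo : ℕ) : ℝ) * ((hi' - lo' : ℕ) : ℝ) * mean Q F - X * Y / C * ((1 + t) * v + L / t)
      ≤ ∑ x ∈ Ioc lo hi, ∑ y ∈ Ioc lo' hi', th x * th y * F x y := by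
  have hQ' : (0 : ℝ) < Q := by exact_mod_cast hQ
  have hφ : (0 : ℝ) < Q.totient := by exact_mod_cast Nat.totient_pos.2 hQ
  have hX' : (0 : ℝ) < X := by exact_mod_cast hX
  have hY' : (0 : ℝ) < Y := by exact_mod_cast hY
  let u : ℕ → ℕ → ℝ := fun n k => if k.Coprime Q then (n : ℝ) / Q.totient else 0
  have hu : ∀ n Z : ℕ, n ≤ Z → ∑ k ∈ range Q, u n k ^ 2 ≤ (Z : ℝ) ^ 2 / Q * L := by
    intro n Z h
    have h' : (n : ℝ) ≤ Z := by exact_mod_cast h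
    have e : ∑ k ∈ range Q, u n k ^ 2 = (n : ℝ) ^ 2 / Q.totient := by
      simp only [u, ite_pow, ne_eq, OfNat.ofNat_ne_zero, not_false_eq_true, zero_pow]
      rw [← sum_filter, sum_const, nsmul_eq_mul]
      simp only [Nat.coprime_comm (m := Q)]
      rw [← Nat.totient_eq_card_coprime]
      field_simp
    rw [e, div_mul_eq_mul_div, div_le_div_iff₀ hφ hQ', mul_assoc]
    gcongr
  have e1 := s3_schur hQ hC hX' hY' one_pos (fun k l => F k l) rel hK hr hc _ _ ha hb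
  have e2 := s3_schur hQ hC hX' hY' ht (fun k l => F k l) rel hK hr hc _ _ ha
    (hu (hi' - lo') Y (by omega))
  have e3 := s3_schur hQ hC hX' hY' (inv_pos.2 ht) (fun k l => F k l) rel hK hr hc _ _
    (hu (hi - lo) X (by omega)) hb
  have e4 : ∑ k ∈ range Q, ∑ l ∈ range Q, F k l * (u (hi - lo) k * u (hi' - lo') l)
      = ((hi - lo : ℕ) : ℝ) * ((hi' - lo' : ℕ) : ℝ) * mean Q F := by
    rw [mean, ← mul_div_assoc, mul_sum, sum_div]
    refine sum_congr rfl fun k _ => ?_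
    rw [mul_sum, sum_div]
    refine sum_congr rfl fun l _ => ?_
    by_cases a1 : k.Coprime Q
    · by_cases a2 : l.Coprime Q
      · rw [if_pos ⟨a1, a2⟩, show u _ k = _ from if_pos a1, show u _ l = _ from if_pos a2]
        ring
      · rw [if_neg (by tauto), show u _ l = _ from if_neg a2]
        ring
    · rw [if_neg (by tauto), show u _ k = _ from if_neg a1]
      ring
  have e5 : ∀ k lo hi, cls th Q k lo hi = Eth Q k lo hi + u (hi - lo) k := fun k lo hi =>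
    (sub_add_cancel _ _).symm
  rw [s3_class hQ hF, ← e4]
  simp only [e5, add_mul, mul_add, sum_add_distrib]
  have e6 : X * Y / C * ((1 * v + v / 1) / 2) + X * Y / C * ((t * v + L / t) / 2) +
      X * Y / C * ((t⁻¹ * L + v / t⁻¹) / 2)
      = X * Y / C * (1 * v) + X * Y / C * (t * v) + X * Y / C * (L / t) := by
    field_simp
    ring
  linarith [neg_abs_le (∑ k ∈ range Q, ∑ l ∈ range Q, F k l * (Eth Q k lo hi * Eth Q l lo' hi')),
    neg_abs_le (∑ k ∈ range Q, ∑ l ∈ range Q, F k l * (Eth Q k lo hi * u (hi' - lo') l)),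
    neg_abs_le (∑ k ∈ range Q, ∑ l ∈ range Q, F k l * (u (hi - lo) k * Eth Q l lo' hi'))]

theorem s3_tri {N : ℕ} {d : Dat} (hA : 1 ≤ d.A) (hC : 1 ≤ d.C) (Φ : ℤ → ℤ → ℝ) (R : ℕ) :
    tri N d Φ (Ls R) = ∑ r ∈ (Icc 1 R).filter Squarefree,
      ∑ x ∈ Ioc (2 * N / d.A) (3 * N / d.A), ∑ y ∈ Ioc (N / (32 * d.B)) (N / (16 * d.B)),
        th x * th y * s3_Psi d.A d.B d.C Φ r.primeFactors x y := by
  rw [tri, sum_comm (s := (Icc 1 R).filter Squarefree)]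
  refine sum_congr rfl fun x hx => ?_
  rw [sum_comm (s := (Icc 1 R).filter Squarefree)]
  refine sum_congr rfl fun y hy => ?_
  have h1 : 2 * N < d.A * x := by
    rw [mul_comm d.A]; exact (Nat.div_lt_iff_lt_mul hA).1 (mem_Ioc.1 hx).1
  have h2 : 16 * d.B * y ≤ N := (Nat.mul_le_mul_left _ (mem_Ioc.1 hy).2).trans (Nat.mul_div_le _ _)
  have h3 : ((d.A * x - 16 * d.B * y : ℕ) : ℤ) = d.A * (x : ℤ) - 16 * d.B * (y : ℤ) := by
    rw [Nat.cast_sub (by omega)]; push_cast; rfl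
  simp only [s3_Psi, ← h3, Int.natCast_dvd_natCast, ← Int.natCast_div, s3_g]
  split_ifs
  · rw [Ls, mul_sum]
    exact sum_congr rfl fun r _ => by rw [mul_assoc]; rfl
  · simp

theorem s3_harm {D g : ℕ} (hg : 1 ≤ g) :
    ∑ n ∈ Icc 1 D, (if g ∣ n then 1 / (n : ℝ) else 0) ≤ (1 + Real.log D) / g := by
  rw [← sum_filter]
  have h1 : (Icc 1 D).filter (g ∣ ·) ⊆ (Icc 1 D).image (g * ·) := by
    intro n hn
    obtain ⟨h, m, rfl⟩ := mem_filter.1 hn
    rw [mem_Icc] at h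
    exact mem_image.2 ⟨m, mem_Icc.2 ⟨Nat.pos_of_mul_pos_left h.1,
      (Nat.le_mul_of_pos_left m hg).trans h.2⟩, rfl⟩
  refine (sum_le_sum_of_subset_of_nonneg h1 fun _ _ _ => by positivity).trans ?_
  rw [sum_image fun a _ b _ h => Nat.eq_of_mul_eq_mul_left hg h]
  have h5 := harmonic_le_one_add_log D
  rw [harmonic_eq_sum_Icc] at h5
  push_cast at h5 ⊢
  refine le_trans (le_of_eq ?_) (div_le_div_of_nonneg_right h5 (Nat.cast_nonneg g))
  rw [sum_div]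
  exact sum_congr rfl fun m _ => by rw [one_div, mul_inv, mul_comm, div_eq_mul_inv]

theorem s3_wsum {D R : ℕ} {L : ℝ} (hL : 1 + Real.log D ≤ L) {S : Finset Dat}
    (hS : ∀ d ∈ S, d.Ok D) {g₀ g₁ g₂ g₃ g₄ : ℕ} (h₀ : 1 ≤ g₀) (h₁ : 1 ≤ g₁) (h₂ : 1 ≤ g₂)
    (h₃ : 1 ≤ g₃) (h₄ : 1 ≤ g₄) (T : Finset (Dat × ℕ))
    (hT : ∀ t ∈ T, t.1 ∈ S ∧ t.2 ∈ Icc 1 R ∧
      g₀ ∣ t.1.1 ∧ g₁ ∣ t.1.2.1 ∧ g₂ ∣ t.1.B ∧ g₃ ∣ t.1.C ∧ g₄ ∣ t.2) :
    ∑ t ∈ T, 1 / ((t.1.A : ℝ) * t.1.B * t.1.C) ≤ R * L ^ 4 / (g₀ * g₁ * g₂ * g₃ * g₄ : ℕ) := by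
  let h : ℕ → ℕ → ℝ := fun g n => if g ∣ n then 1 / (n : ℝ) else 0
  have hh : ∀ g n, 0 ≤ h g n := fun g n => by simp only [h]; split_ifs <;> positivity
  let c : ℕ → ℝ := fun n => if g₄ ∣ n then 1 else 0
  have hc : ∀ n, 0 ≤ c n := fun n => by simp only [c]; split_ifs <;> positivity
  have hs : ∀ g, 1 ≤ g → ∑ n ∈ Icc 1 D, h g n ≤ L / g := fun g hg =>
    (s3_harm hg).trans (div_le_div_of_nonneg_right hL (Nat.cast_nonneg g))
  have hs0 : ∀ g, 0 ≤ ∑ n ∈ Icc 1 D, h g n := fun g => sum_nonneg fun n _ => hh g n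
  have hcs : ∑ n ∈ Icc 1 R, c n ≤ R / g₄ := by
    rw [sum_boole, show Icc 1 R = Ioc 0 R from rfl, Nat.Ioc_filter_dvd_card_eq_div]
    exact Nat.cast_div_le
  let f : Dat × ℕ → ℝ := fun t =>
    h g₀ t.1.1 * (h g₁ t.1.2.1 * (h g₂ t.1.2.2.1 * h g₃ t.1.2.2.2)) * c t.2
  have e1 : ∑ t ∈ T, 1 / ((t.1.A : ℝ) * t.1.B * t.1.C) = ∑ t ∈ T, f t := by
    refine sum_congr rfl fun t ht => ?_
    obtain ⟨-, -, a0, a1, a2, a3, a4⟩ := hT t ht
    simp only [Dat.A, Dat.B, Dat.C] at *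
    simp only [f, h, c, a0, a1, a2, a3, a4, if_true]
    push_cast
    ring
  have e2 : T ⊆ (Icc 1 D ×ˢ Icc 1 D ×ˢ Icc 1 D ×ˢ Icc 1 D) ×ˢ Icc 1 R := by
    intro t ht
    obtain ⟨a0, a1, -⟩ := hT t ht
    obtain ⟨⟨b1, b2⟩, b3, b4, -⟩ := hS _ a0
    have c1 := Nat.pos_of_mul_pos_left b1
    have c2 := Nat.pos_of_mul_pos_right b1
    simp only [mem_product, mem_Icc] at a1 ⊢
    exact ⟨⟨⟨c2, (Nat.le_mul_of_pos_right _ c1).trans b2⟩,
      ⟨c1, (Nat.le_mul_of_pos_left _ c2).trans b2⟩, b3, b4⟩, a1⟩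
  rw [e1]
  refine (sum_le_sum_of_subset_of_nonneg e2 fun t _ _ => mul_nonneg (mul_nonneg (hh _ _)
    (mul_nonneg (hh _ _) (mul_nonneg (hh _ _) (hh _ _)))) (hc _)).trans ?_
  simp only [f, sum_product, ← mul_sum, ← sum_mul]
  have hL0 : 0 ≤ L := by linarith [Real.log_natCast_nonneg D]
  calc _ ≤ L / g₀ * (L / g₁ * (L / g₂ * (L / g₃))) * (R / g₄) := by
        have := hs0 g₁
        have := hs0 g₂
        have := hs0 g₃
        have : 0 ≤ ∑ n ∈ Icc 1 R, c n := sum_nonneg fun n _ => hc n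
        gcongr
        exacts [hs _ h₀, hs _ h₁, hs _ h₂, hs _ h₃]
    _ = _ := by push_cast; ring

theorem s3_dr {N D r : ℕ} {V : ℕ → ℝ} (hD : 2 ≤ D) (hN : D ^ 200 ≤ N) (hV : Var Eth N V)
    (hV0 : ∀ Q, 0 ≤ V Q) {d : Dat} (hd : d.Ok D) {Φ : ℤ → ℤ → ℝ} (hΦ : Per d.M Φ)
    (hΦ' : ∀ x y, 0 ≤ Φ x y ∧ Φ x y ≤ 1) (hr : Squarefree r) (hrD : r ≤ D) {t : ℝ} (ht : 0 < t) :
    ((3 * N / d.A - 2 * N / d.A : ℕ) : ℝ) * ((N / (16 * d.B) - N / (32 * d.B) : ℕ) : ℝ) *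
      ((∏ q ∈ r.primeFactors, s3_gam d.A d.B d.C q) *
        mean d.M fun x y => if (d.C : ℤ) ∣ d.A * x - 16 * d.B * y then Φ x y else 0) -
      (N : ℝ) ^ 2 * (1 / ((d.A : ℝ) * d.B * d.C) * ((1 + t) * V (d.M * r) + Real.log N / t))
      ≤ ∑ x ∈ Ioc (2 * N / d.A) (3 * N / d.A), ∑ y ∈ Ioc (N / (32 * d.B)) (N / (16 * d.B)),
        th x * th y * s3_Psi d.A d.B d.C Φ r.primeFactors x y := by
  obtain ⟨⟨hA, hA'⟩, ⟨hB, hB'⟩, ⟨hC, hC'⟩, -, cA, cC⟩ := hd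
  rw [Dat.M] at hΦ ⊢
  generalize d.A = A at *
  generalize d.B = B at *
  generalize d.C = C at *
  have hr0 : 1 ≤ r := Nat.pos_of_ne_zero hr.ne_zero
  have hp : ∀ q ∈ r.primeFactors, q.Prime := fun q => Nat.prime_of_mem_primeFactors
  rw [← s3_mean hA hB hC cA cC hΦ _ hp, Nat.prod_primeFactors_of_squarefree hr]
  have hQ : 1 ≤ 4 * A * B * C * r := Nat.pos_of_ne_zero (by positivity)
  have hD2 : 4 ≤ D ^ 2 := Nat.pow_le_pow_left hD 2
  have hQ6 : 4 * A * B * C * r ≤ D ^ 6 :=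
    calc _ ≤ D ^ 2 * D * D * D * D := by gcongr
      _ = _ := by ring
  have hQ5 : (4 * A * B * C * r) ^ 5 ≤ N :=
    (Nat.pow_le_pow_left hQ6 5).trans (le_trans (by
      rw [← pow_mul]; exact Nat.pow_le_pow_right (by omega) (by norm_num)) hN)
  have hZ : ∀ a Z : ℕ, 1 ≤ a → a ≤ 16 * D → N / a ≤ Z → N ≤ Z ^ 2 ∧ 0 < Z := by
    intro a Z ha ha' hZ
    have a1 : N < a * (Z + 1) := (Nat.lt_mul_div_succ N ha).trans_le (by gcongr)
    have a2 : 16 * D ≤ D ^ 5 :=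
      calc _ = 4 * 4 * D := by ring
        _ ≤ D ^ 2 * D ^ 2 * D := by gcongr
        _ = _ := by ring
    have a3 : D ^ 5 * (D ^ 5 * D ^ 190) < D ^ 5 * (Z + 1) :=
      calc _ = D ^ 200 := by ring
        _ ≤ N := hN
        _ < a * (Z + 1) := a1
        _ ≤ _ := by gcongr; omega
    have a4 := Nat.lt_of_mul_lt_mul_left a3
    have a5 : 2 ≤ D ^ 190 := hD.trans (Nat.le_self_pow (by norm_num) D)
    have a6 : 2 * a ≤ Z := by nlinarith
    constructor <;> nlinarith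
  obtain ⟨x1, x2⟩ := hZ A (3 * N / A) hA (by omega) (Nat.div_le_div_right (by omega))
  obtain ⟨y1, y2⟩ := hZ (16 * B) (N / (16 * B)) (by omega) (by omega) le_rfl
  have hQ' : (1 : ℝ) ≤ (4 * A * B * C * r : ℕ) := by exact_mod_cast hQ
  have hl : 5 * Real.log (4 * A * B * C * r : ℕ) ≤ Real.log N := by
    have := Real.log_le_log (by positivity) (Nat.cast_le (α := ℝ).2 hQ5)
    rwa [Nat.cast_pow, Real.log_pow] at this
  have hl2 : 2 ≤ Real.log N := by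
    have h1 : 2 ^ 200 ≤ N := (Nat.pow_le_pow_left hD 200).trans hN
    have := Real.log_le_log (by positivity) (Nat.cast_le (α := ℝ).2 h1)
    rw [Nat.cast_pow, Real.log_pow] at this
    push_cast at this
    linarith [Real.log_two_gt_d9]
  have hL : ((4 * A * B * C * r : ℕ) : ℝ) ≤ Real.log N * (4 * A * B * C * r).totient :=
    (s3_phi hQ).trans (mul_le_mul_of_nonneg_right (by linarith) (Nat.cast_nonneg _))
  have hCQ : C ∣ 4 * A * B * C * r := ⟨4 * A * B * r, by ring⟩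
  have hC0 : (0 : ℝ) < C := by exact_mod_cast hC
  have hA0 : (0 : ℝ) < A := by exact_mod_cast hA
  have hB0 : (0 : ℝ) < B := by exact_mod_cast hB
  have c1 : C.Coprime (16 * B) :=
    (cC.pow_right 4).coprime_dvd_right ⟨A ^ 4 * B ^ 3, by ring⟩
  have c2 : C.Coprime A := cC.coprime_dvd_right ⟨2 * B, by ring⟩
  refine le_trans ?_ (s3_single hQ hC0 x2 y2 ht hL le_rfl le_rfl
    (s3_per hC hΦ fun q => Nat.dvd_of_mem_primeFactors)
    (fun k l => (C : ℤ) ∣ A * (k : ℤ) - 16 * B * (l : ℤ)) (fun k l => ?_)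
    (fun k => s3_count hC hCQ c1 _ fun l l' h h' => ?_)
    (fun l => s3_count hC hCQ c2 _ fun k k' h h' => ?_)
    (hV _ _ _ _ hQ hQ5 x1 ((Nat.div_le_self _ _).trans (by omega))
      (Nat.div_le_div_right (by omega)) le_rfl)
    (hV _ _ _ _ hQ hQ5 y1 ((Nat.div_le_self _ _).trans (by omega))
      (Nat.div_le_div_left (by omega) (by omega)) le_rfl))
  · refine sub_le_sub_left ?_ _
    have := hV0 (4 * A * B * C * r)
    rw [← mul_assoc]
    refine mul_le_mul_of_nonneg_right ?_ (by positivity)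
    have b1 : ((3 * N / A : ℕ) : ℝ) ≤ (3 * N : ℕ) / A := Nat.cast_div_le
    have b2 : ((N / (16 * B) : ℕ) : ℝ) ≤ N / (16 * B : ℕ) := Nat.cast_div_le
    push_cast at b1 b2
    calc _ ≤ (3 * N / A) * (N / (16 * B)) / (C : ℝ) := by gcongr
      _ = 3 / 16 * ((N : ℝ) ^ 2 * (1 / (A * B * C))) := by field_simp
      _ ≤ _ := mul_le_of_le_one_left (by positivity) (by norm_num)
  · rw [s3_Psi, abs_mul]
    split_ifs
    · rw [abs_of_nonneg (hΦ' _ _).1, abs_prod]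
      exact mul_le_one₀ (hΦ' _ _).2 (prod_nonneg fun _ _ => abs_nonneg _)
        (prod_le_one (fun _ _ => abs_nonneg _) fun q hq => s3_abs_g (hp q hq) _)
    · simp
  · have := dvd_sub h' h
    push_cast
    rwa [show _ - _ = 16 * (B : ℤ) * ((l : ℤ) - l') by ring] at this
  · have := dvd_sub h h'
    rwa [show _ - _ = (A : ℤ) * ((k : ℤ) - k') by ring] at this

theorem step3 : ∃ C₀ : ℝ, ∀ (N R D : ℕ) (V : ℕ → ℝ) (ε : ℝ), 3 ≤ N → 2 ≤ D → D ^ 200 ≤ N →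
    1 ≤ R → R ≤ D → Var Eth N V → Avg N V ε → ε * R ^ 3 * Real.log N ^ 9 ≤ 1 →
    ∀ (S : Finset Dat) (Φ : Dat → ℤ → ℤ → ℝ),
      (∀ d ∈ S, d.Ok D ∧ Per d.M (Φ d) ∧ ∀ x y, 0 ≤ Φ d x y ∧ Φ d x y ≤ 1) →
      (N : ℝ) ^ 2 / 400 * ∑ d ∈ S, (mean d.M fun x y =>
          if (d.C : ℤ) ∣ d.A * x - 16 * d.B * y then Φ d x y else 0) / (d.A * d.B) -
        C₀ * (N : ℝ) ^ 2 ≤ ∑ d ∈ S, tri N d (Φ d) (Ls R) := by
  refine ⟨9, fun N R D V ε _ hD hN hR hRD hV hAv hε S Φ hS => ?_⟩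
  obtain ⟨hV0, hAv⟩ := hAv
  set L := Real.log N with hLdef
  set s := (Icc 1 R).filter Squarefree with hs
  have hR' : (1 : ℝ) ≤ R := by exact_mod_cast hR
  have hlD : 200 * Real.log D ≤ L := by
    have := Real.log_le_log (by positivity) (Nat.cast_le (α := ℝ).2 hN)
    rwa [Nat.cast_pow, Real.log_pow] at this
  have hlD2 : Real.log 2 ≤ Real.log D := Real.log_le_log two_pos (by exact_mod_cast hD)
  have hL : 1 + Real.log D ≤ L := by linarith [Real.log_two_gt_d9]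
  have hL1 : 1 ≤ L := by linarith [Real.log_two_gt_d9]
  have hS' : ∀ d ∈ S, d.Ok D := fun d hd => (hS d hd).1
  let w : Dat × ℕ → ℝ := fun t => 1 / ((t.1.A : ℝ) * t.1.B * t.1.C)
  let n : Dat × ℕ → Fin 10 → ℕ := fun t => ![4, t.1.1, t.1.2.1, t.1.B, t.1.C, t.2, 1, 1, 1, 1]
  have hn : ∀ t, ∏ i, n t i = t.1.M * t.2 := by
    intro t
    simp only [n, Fin.prod_univ_succ, Fin.prod_univ_zero, Matrix.cons_val_zero,
      Matrix.cons_val_succ, Dat.M, Dat.A]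
    ring
  have hm : ∀ t ∈ S ×ˢ s, t.1 ∈ S ∧ t.2 ∈ Icc 1 R := fun t ht =>
    ⟨(mem_product.1 ht).1, (mem_filter.1 (mem_product.1 ht).2).1⟩
  have hQ : ∀ t ∈ S ×ˢ s, t.1.M * t.2 ≠ 0 ∧ (t.1.M * t.2) ^ 5 ≤ N := by
    intro t ht
    obtain ⟨⟨hA, hA'⟩, ⟨hB, hB'⟩, ⟨hC, hC'⟩, -⟩ := hS' _ (hm t ht).1
    obtain ⟨h1, h2⟩ := mem_Icc.1 (hm t ht).2
    have hD2 : 4 ≤ D ^ 2 := Nat.pow_le_pow_left hD 2
    have h3 := h2.trans hRD
    have hQ6 : t.1.M * t.2 ≤ D ^ 6 :=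
      calc _ ≤ D ^ 2 * D * D * D * D := by rw [Dat.M]; gcongr
        _ = _ := by ring
    exact ⟨by rw [Dat.M]; positivity, (Nat.pow_le_pow_left hQ6 5).trans (le_trans (by
      rw [← pow_mul]; exact Nat.pow_le_pow_right (by omega) (by norm_num)) hN)⟩
  have hW : ∀ {g₀ g₁ g₂ g₃ g₄ g : ℕ}, 1 ≤ g → g₀ * g₁ * g₂ * g₃ * g₄ = g →
      ∀ (P : Dat × ℕ → Prop) [DecidablePred P],
      (∀ t, P t → g₀ ∣ t.1.1 ∧ g₁ ∣ t.1.2.1 ∧ g₂ ∣ t.1.B ∧ g₃ ∣ t.1.C ∧ g₄ ∣ t.2) →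
      ∑ t ∈ (S ×ˢ s).filter P, w t ≤ R * L ^ 4 / g := by
    intro g₀ g₁ g₂ g₃ g₄ g hg e P _ hP
    subst e
    have := hg
    simp only [Nat.succ_le_iff, pos_iff_ne_zero, ne_eq, mul_eq_zero, not_or] at this
    exact s3_wsum hL hS' (by omega) (by omega) (by omega) (by omega) (by omega) _ fun t ht =>
      ⟨(hm t (mem_filter.1 ht).1).1, (hm t (mem_filter.1 ht).1).2, hP t (mem_filter.1 ht).2⟩
  have hW0 : 0 < R * L ^ 4 := by positivity
  have hW1 : ∀ (P : Dat × ℕ → Prop) [DecidablePred P],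
      ∑ t ∈ (S ×ˢ s).filter P, w t ≤ R * L ^ 4 := fun P _ => by
    simpa using hW (g₀ := 1) (g₁ := 1) (g₂ := 1) (g₃ := 1) (g₄ := 1) le_rfl rfl P (by simp)
  have hW2 : ∀ g c : ℕ, 1 ≤ g → c ∣ 4 →
      ∑ t ∈ (S ×ˢ s).filter fun _ => g ∣ c, w t ≤ 4 * (R * L ^ 4) / g := by
    intro g c hg hc
    have hg' : (0 : ℝ) < g := by exact_mod_cast hg
    by_cases h : g ∣ c
    · have : (g : ℝ) ≤ 4 := by exact_mod_cast Nat.le_of_dvd (by norm_num) (h.trans hc)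
      refine (hW1 _).trans ?_
      rw [le_div_iff₀ hg']
      nlinarith
    · rw [filter_false_of_mem fun _ _ => h, sum_empty]
      positivity
  have hW3 : ∀ g : ℕ, 1 ≤ g → R * L ^ 4 / g ≤ 4 * (R * L ^ 4) / g := fun g hg =>
    div_le_div_of_nonneg_right (by linarith) (Nat.cast_nonneg g)
  have key := hAv (Dat × ℕ) (S ×ˢ s) w n (4 * (R * L ^ 4)) (fun t _ => by positivity)
    (fun t ht i => prod_ne_zero_iff.1 (hn t ▸ (hQ t ht).1) i (mem_univ i))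
    (fun t ht => hn t ▸ (hQ t ht).2) (fun i g hg => by
      fin_cases i
      · exact hW2 g 4 hg dvd_rfl
      · exact (hW (g₀ := g) (g₁ := 1) (g₂ := 1) (g₃ := 1) (g₄ := 1) hg (by ring) _
          fun t h => by simpa [n] using h).trans (hW3 g hg)
      · exact (hW (g₀ := 1) (g₁ := g) (g₂ := 1) (g₃ := 1) (g₄ := 1) hg (by ring) _
          fun t h => by simpa [n] using h).trans (hW3 g hg)
      · exact (hW (g₀ := 1) (g₁ := 1) (g₂ := g) (g₃ := 1) (g₄ := 1) hg (by ring) _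
          fun t h => by simpa [n] using h).trans (hW3 g hg)
      · exact (hW (g₀ := 1) (g₁ := 1) (g₂ := 1) (g₃ := g) (g₄ := 1) hg (by ring) _
          fun t h => by simpa [n] using h).trans (hW3 g hg)
      · exact (hW (g₀ := 1) (g₁ := 1) (g₂ := 1) (g₃ := 1) (g₄ := g) hg (by ring) _
          fun t h => by simpa [n] using h).trans (hW3 g hg)
      all_goals exact hW2 g 1 hg (one_dvd _))
  simp only [hn] at key
  have hW4 : ∑ t ∈ S ×ˢ s, w t ≤ R * L ^ 4 := by simpa using hW1 fun _ => True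
  have hε0 : 0 ≤ ε := by
    have : 0 ≤ ∑ t ∈ S ×ˢ s, w t * V (t.1.M * t.2) :=
      sum_nonneg fun t _ => mul_nonneg (by positivity) (hV0 _)
    by_contra h
    nlinarith
  have ht : 0 < R * L ^ 5 := by positivity
  have herr : ∑ t ∈ S ×ˢ s, w t * ((1 + R * L ^ 5) * V (t.1.M * t.2) + L / (R * L ^ 5)) ≤ 9 := by
    simp only [mul_add (w _), mul_left_comm (w _), sum_add_distrib, ← mul_sum, ← sum_mul]
    have a1 : (∑ t ∈ S ×ˢ s, w t) * (L / (R * L ^ 5)) ≤ 1 := by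
      refine (mul_le_mul_of_nonneg_right hW4 (by positivity)).trans (le_of_eq ?_)
      field_simp
    have a2 : 1 ≤ R * L ^ 5 := one_le_mul_of_one_le_of_one_le hR' (one_le_pow₀ hL1)
    have a3 : (1 + R * L ^ 5) * ∑ t ∈ S ×ˢ s, w t * V (t.1.M * t.2) ≤ 8 :=
      calc _ ≤ (2 * (R * L ^ 5)) * (4 * (R * L ^ 4) * ε) := by
            refine (mul_le_mul_of_nonneg_left key (by positivity)).trans ?_
            exact mul_le_mul_of_nonneg_right (by linarith) (by positivity)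
        _ = 8 * (ε * R ^ 2 * L ^ 9) := by ring
        _ ≤ 8 * (ε * R ^ 3 * L ^ 9) := by gcongr; norm_num
        _ ≤ 8 := by linarith
    linarith
  have hN2 : (0 : ℝ) ≤ (N : ℝ) ^ 2 := by positivity
  refine le_trans (sub_le_sub_left (mul_le_mul_of_nonneg_right herr hN2) _) ?_
  rw [sum_product, mul_sum, sum_mul, ← sum_sub_distrib]
  refine sum_le_sum fun d hd => ?_
  obtain ⟨h1, h2, h3⟩ := hS d hd
  rw [s3_tri h1.hA.1 h1.hC.1]
  refine le_trans ?_ (sum_le_sum fun r hr => s3_dr hD hN hV hV0 h1 h2 h3 (mem_filter.1 hr).2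
    ((mem_Icc.1 (mem_filter.1 hr).1).2.trans hRD) ht)
  rw [sum_sub_distrib, ← mul_sum, ← mul_sum, ← sum_mul, mul_comm _ ((N : ℝ) ^ 2)]
  refine sub_le_sub_right ?_ _
  have h4 := s3_series d.A d.B d.C hR
  have h5 : 0 ≤ mean d.M fun x y => if (d.C : ℤ) ∣ d.A * x - 16 * d.B * y then Φ d x y else 0 := by
    refine div_nonneg (sum_nonneg fun x _ => sum_nonneg fun y _ => ?_) (by positivity)
    beta_reduce
    split_ifs
    exacts [(h3 _ _).1, le_rfl, le_rfl]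
  obtain ⟨⟨hA, hA'⟩, ⟨hB, hB'⟩, -⟩ := h1
  have hA0 : (0 : ℝ) < d.A := by exact_mod_cast hA
  have hB0 : (0 : ℝ) < d.B := by exact_mod_cast hB
  have hND : 64 * D ≤ N := by
    refine le_trans ?_ hN
    calc 64 * D = 2 ^ 6 * D := by norm_num
      _ ≤ D ^ 6 * D := by gcongr
      _ = D ^ 7 := by ring
      _ ≤ _ := Nat.pow_le_pow_right (by omega) (by norm_num)
  have hZ : ∀ a b c : ℕ, 1 ≤ a → 2 * a ≤ N → N / a ≤ c - b → (N : ℝ) / (2 * a) ≤ (c - b : ℕ) := by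
    intro a b c ha h h'
    have a1 := Nat.lt_mul_div_succ N ha
    have a2 : N ≤ (c - b) * (2 * a) := by
      have a3 : 1 ≤ N / a := (Nat.le_div_iff_mul_le ha).2 (by omega)
      nlinarith
    rw [div_le_iff₀ (by positivity)]
    exact_mod_cast a2
  have h6 := hZ d.A (2 * N / d.A) (3 * N / d.A) hA (by omega) (by
    have : 2 * N / d.A + N / d.A ≤ (2 * N + N) / d.A := Nat.div_add_div_le_add_div
    rw [show 2 * N + N = 3 * N by ring] at this
    omega)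
  have h7 := hZ (32 * d.B) (N / (32 * d.B)) (N / (16 * d.B)) (by omega) (by omega) (by
    have : N / (32 * d.B) = N / (16 * d.B) / 2 := by
      rw [Nat.div_div_eq_div_mul]; congr 1; ring
    omega)
  push_cast at h7
  calc _ = (N : ℝ) / (2 * d.A) * (N / (2 * (32 * d.B))) * (8 / 25 * mean d.M _) := by
        field_simp
        ring
    _ ≤ _ := by gcongr; linarith

end Pool.Agent.Lib.RankZero
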