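import Pool.Agent.Lib.MP_6073f3_nt.Z.Asm1
import Pool.Agent.Lib.MP_6073f3_nt.Z.BDH
import Pool.Agent.Lib.MP_6073f3_nt.Z.Disp
import Pool.Agent.Lib.MP_6073f3_nt.Z.Step2
import Pool.Agent.Lib.MP_6073f3_nt.Z.Step3

/-!
A positive proportion of the curves `y ^ 2 = x (x - s) (x - 16 T)` has rank zero.
-/

set_option linter.unusedSectionVars false

namespace Pool.Agent.Lib.RankZero

open Finset Pool.Agent.Lib.TorsRank
open scoped NumberTheorySymbols

open Classical in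
/-- The pairs whose curve has rank zero. -/
noncomputable def Good (N : ℕ) : Finset (ℕ × ℕ) :=
  (Icc 1 (3 * N) ×ˢ Icc 1 (3 * N)).filter fun p => 16 * p.2 < p.1 ∧ p.1.Coprime (16 * p.2) ∧
    Module.Finite ℤ (PE (rts p.1 p.2)) ∧ Module.finrank ℤ (PE (rts p.1 p.2)) = 0

theorem uniq {x x' A A' D : ℕ} (hx : x.Prime ∧ D < x) (hx' : x'.Prime ∧ D < x')
    (hA : 1 ≤ A' ∧ A' ≤ D) (h : A * x = A' * x') : x = x' ∧ A = A' := by
  obtain rfl : x = x' := (hx.1.dvd_mul.1 (h ▸ Dvd.intro_left _ rfl)).elim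
    (fun h => absurd (Nat.le_of_dvd hA.1 h) (by omega))
    (Nat.prime_dvd_prime_iff_eq hx.1 hx'.1).1
  exact ⟨rfl, Nat.eq_of_mul_eq_mul_right hx.1.pos h⟩

theorem tri_split (N R : ℕ) (d : Dat) (F : ℤ → ℤ → ℝ) :
    tri N d F th = tri N d F (Ls R) + tri N d F fun z => th z - Ls R z := by
  simp only [tri, ← sum_add_distrib]
  refine sum_congr rfl fun x _ => sum_congr rfl fun y _ => ?_
  split_ifs <;> ring

section

variable {κ : Type} [Fintype κ] [DecidableEq κ] {q : κ → ℕ} {z₀ Y D N : ℕ}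
  {τ : κ → Option (Fin 3)}

open Classical in
/-- A chosen large prime. -/
noncomputable def pk (q : κ → ℕ) (Y : ℕ) (τ : κ → Option (Fin 3)) : ℕ :=
  if h : ∃ i, τ i = some 1 ∧ Y ≤ q i then q h.choose else 1

/-- The data of the ternary equation. -/
noncomputable def dat (q : κ → ℕ) (Y : ℕ) (τ : κ → Option (Fin 3)) : Dat :=
  (pr q (fib τ 1) / pk q Y τ, pk q Y τ, pr q (fib τ 0), pr q (fib τ 2))

theorem dat_A : (dat q Y τ).A = pr q (fib τ 1) := Nat.div_mul_cancel (by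
  unfold pk
  split_ifs with h
  · exact dvd_prod_of_mem q (mem_filter.2 ⟨mem_univ _, h.choose_spec.1⟩)
  · exact one_dvd _)

theorem lab_ext (hq : PrimeSys q z₀) {τ' : κ → Option (Fin 3)}
    (h : ∀ u, pr q (fib τ u) = pr q (fib τ' u)) : τ = τ' := funext fun i =>
  Option.ext fun u => by rw [← dvd_fib hq, ← dvd_fib hq, h]

theorem dat_inj (hq : PrimeSys q z₀) : Function.Injective (dat q Y) := fun τ τ' h =>
  lab_ext hq fun u => by
    fin_cases u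
    exacts [congrArg Dat.B h, dat_A.symm.trans ((congrArg Dat.A h).trans dat_A), congrArg Dat.C h]

theorem dat_ok (hq : PrimeSys q z₀) (h : tot q τ ≤ D ∧ ∃ i, τ i = some 1 ∧ Y ≤ q i) :
    (dat q Y τ).Ok D ∧ Y ≤ (dat q Y τ).2.1 := by
  have hc : ∀ u v, u ≠ v → (pr q (fib τ u)).Coprime (pr q (fib τ v)) := fun u v huv =>
    Nat.Coprime.prod_left fun i hi => Nat.Coprime.prod_right fun j hj => hq.cop (by
      rintro rfl
      exact huv (Option.some.inj ((mem_filter.1 hi).2.symm.trans (mem_filter.1 hj).2)))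
  have h1 : ∀ u, 1 ≤ pr q (fib τ u) := fun u => (hq.odd _).pos
  have h2 : ∀ u, (pr q (fib τ u)).Coprime 2 := fun u => Nat.coprime_two_right.2 (hq.odd _)
  have h3 : ∀ u, pr q (fib τ u) ∣ tot q τ → pr q (fib τ u) ≤ D := fun u hu =>
    (Nat.le_of_dvd (by rw [tot_eq]; exact mul_pos (mul_pos (h1 _) (h1 _)) (h1 _)) hu).trans h.1
  have h4 : (dat q Y τ).2.1 = q h.2.choose := dif_pos h.2
  rw [tot_eq] at h3
  refine ⟨⟨?_, ⟨h1 _, h3 0 ((Dvd.intro_left _ rfl).mul_right _)⟩, ⟨h1 _, h3 2 (Dvd.intro_left _ rfl)⟩,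
    h4 ▸ hq.hp _, ?_, ?_⟩, h4 ▸ h.2.choose_spec.2⟩ <;> rw [dat_A]
  exacts [⟨h1 _, h3 1 ⟨_, mul_assoc _ _ _⟩⟩, (h2 1).mul_right (hc 1 0 (by decide)),
    ((h2 2).mul_right (hc 2 1 (by decide))).mul_right (hc 2 0 (by decide))]

/-- The periodic weights. -/
noncomputable def Ph (q : κ → ℕ) (τ : κ → Option (Fin 3)) (s : ℝ) (x y : ℤ) : ℝ :=
  if pr q (fib τ 1) * x % 4 = 3 ∧ pr q (fib τ 1) * y % 4 = 1 then
    (fun δ => (GG q τ δ 1 + s * GG q τ δ (-1)) / 2)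
      fun i => dd (pr q (fib τ 1) * x) (pr q (fib τ 0) * y) (τ i) (q i)
  else 0

theorem Ph_mem (x y : ℤ) : (0 ≤ Ph q τ 1 x y ∧ Ph q τ 1 x y ≤ 1) ∧ |Ph q τ (-1) x y| ≤ 1 := by
  have := GG_mem (q := q) (τ := τ)
    fun i => dd (pr q (fib τ 1) * x) (pr q (fib τ 0) * y) (τ i) (q i)
  simp only [Ph, abs_le]
  split_ifs
  · refine ⟨⟨?_, ?_⟩, ?_, ?_⟩ <;> linarith [this 1, this (-1)]
  · norm_num

theorem Ph_per (hq : PrimeSys q z₀) (s : ℝ) : Per (dat q Y τ).M (Ph q τ s) := by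
  intro x y x' y' h1 h2
  have h3 : ∀ i, τ i ≠ none → q i ∣ (dat q Y τ).M := fun i hi => by
    obtain ⟨u, hu⟩ := Option.ne_none_iff_exists'.1 hi
    refine (Int.natCast_dvd_natCast.1 ((dvd_fib hq i u).2 hu)).trans ?_
    rw [Dat.M, dat_A]
    fin_cases u
    exacts [(Dvd.intro_left _ rfl).mul_right _, ((Dvd.intro_left _ rfl).mul_right _).mul_right _,
      Dvd.intro_left _ rfl]
  simp only [Ph, fun i => dd_per (A := pr q (fib τ 1)) (B := pr q (fib τ 0)) (h3 i) h1 h2]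
  have h4 : (4 : ℤ) ∣ (dat q Y τ).M := by
    rw [Dat.M, mul_assoc, mul_assoc]; push_cast; exact Dvd.intro _ rfl
  obtain ⟨a, h1⟩ := h4.trans h1
  obtain ⟨b, h2⟩ := h4.trans h2
  refine if_congr ?_ rfl rfl
  simp only [eq_add_of_sub_eq h1, eq_add_of_sub_eq h2, mul_add, mul_left_comm _ (4 : ℤ)]
  omega

theorem mean_lb (hq : PrimeSys q z₀) : 1 / 4 * (gm q τ / tot q τ) ≤
    (mean (dat q Y τ).M fun x y => if ((dat q Y τ).C : ℤ) ∣ (dat q Y τ).A * x -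
      16 * (dat q Y τ).B * y then Ph q τ 1 x y else 0) / ((dat q Y τ).A * (dat q Y τ).B) := by
  have := crt_mean (τ := τ) hq rfl rfl rfl fun δ => (GG q τ δ 1 + 1 * GG q τ δ (-1)) / 2
  rw [Dat.M, dat_A]
  erw [this]
  simp only [one_mul]
  have h1 : ((pr q (fib τ 2) : ℕ) : ℝ)⁻¹ ≤ ∏ i ∈ fib τ 2, 1 / ((q i : ℝ) - 1) := by
    rw [pr, Nat.cast_prod, ← prod_inv_distrib]
    refine prod_le_prod (fun i _ => by positivity) fun i _ => ?_
    have : (1 : ℝ) < q i := by exact_mod_cast (hq.hp i).one_lt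
    rw [one_div]
    exact inv_anti₀ (by linarith) (by linarith)
  have h2 := (gm_mem (q := q) (τ := τ)).1
  calc _ = 1 / 4 * ((pr q (fib τ 2) : ℕ) : ℝ)⁻¹ * gm q τ /
        ((pr q (fib τ 1) : ℕ) * (pr q (fib τ 0) : ℕ)) := by
        rw [tot_eq]; push_cast; ring
    _ ≤ _ := div_le_div_of_nonneg_right (mul_le_mul_of_nonneg_right (by linarith) h2)
        (by positivity)

theorem term_le (hq : PrimeSys q z₀) (hz : z₀ ≤ D) (hN : 32 * (D * D) ≤ N)
    (hd : (dat q Y τ).Ok D) {A B C x y : ℕ} (hA : A = pr q (fib τ 1)) (hB : B = pr q (fib τ 0))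
    (hC : C = pr q (fib τ 2)) (hx : x ∈ Ioc (2 * N / A) (3 * N / A))
    (hy : y ∈ Ioc (N / (32 * B)) (N / (16 * B))) {w : ℝ}
    (hw : w = th x * th y * (Ph q τ 1 x y + J(y | x) * Ph q τ (-1) x y) *
      if C ∣ A * x - 16 * B * y then th ((A * x - 16 * B * y) / C) else 0) (h0 : 0 < w) :
    w ≤ Real.log (3 * N) ^ 3 ∧ (x.Prime ∧ D < x) ∧ (y.Prime ∧ D < y) ∧
      (∃ z, (z.Prime ∧ D < z) ∧ A * x = 16 * (B * y) + C * z) ∧ (A * x, B * y) ∈ Good N := by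
  obtain ⟨a1, a2⟩ : 1 ≤ A ∧ A ≤ D := by simpa only [hA, dat_A] using hd.hA
  obtain ⟨b1, b2⟩ : 1 ≤ B ∧ B ≤ D := hB ▸ hd.hB
  obtain ⟨c1, c2⟩ : 1 ≤ C ∧ C ≤ D := hC ▸ hd.hC
  rw [mem_Ioc, Nat.div_lt_iff_lt_mul (by omega), Nat.le_div_iff_mul_le (by omega)] at hx hy
  have hp : ∀ n, th n ≠ 0 → n.Prime := fun n h => by_contra fun h' => h (if_neg h')
  have h1 := hw ▸ h0.ne'
  simp only [mul_ne_zero_iff] at h1
  obtain ⟨⟨⟨px, py⟩, h2⟩, h3⟩ := h1
  rw [ite_ne_right_iff] at h3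
  obtain ⟨⟨z, hz'⟩, pz⟩ := h3
  rw [hz', Nat.mul_div_cancel_left _ c1] at pz hw
  replace px := hp _ px
  replace py := hp _ py
  replace pz := hp _ pz
  have e : A * x = 16 * (B * y) + C * z := by
    rw [← hz', mul_assoc]
    have : 16 * (B * y) ≤ A * x := by nlinarith
    omega
  have hbig : ∀ c n : ℕ, c ≤ D → N < 32 * (c * n) → D < n := fun c n hc h => by
    by_contra h'
    have := Nat.mul_le_mul hc (not_lt.1 h')
    omega
  have dx := hbig A x a2 (by nlinarith)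
  have dy := hbig B y b2 (by nlinarith)
  have dz := hbig C z c2 (by nlinarith)
  have h4 : (A : ℤ) * x % 4 = 3 ∧ (A : ℤ) * y % 4 = 1 := by
    by_contra h
    simp [Ph, ← hA, h] at h2
  have hxy : x ≠ y := by rintro rfl; omega
  set δ := fun i => dd (A * x) (B * y) (τ i) (q i) with hδ
  have h5 : Ph q τ 1 x y + J(y | x) * Ph q τ (-1) x y = GG q τ δ J(y | x) := by
    simp only [Ph, ← hA, ← hB, h4, ← hδ]
    rcases jac_primes py px hxy.symm with h | h <;> simp [h] <;> ring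
  have h6 := GG_mem (q := q) (τ := τ) δ J(y | x)
  rw [h5] at h2 hw
  have h7 := bridge hq hA hB ⟨px, by omega⟩ ⟨py, by omega⟩ ⟨pz, by omega⟩ hxy (hC ▸ e)
    (by exact_mod_cast h4.1) (h6.1.lt_of_ne h2.symm)
  have hl : ∀ c n : ℕ, n.Prime → 1 ≤ c → c * n ≤ 3 * N → 0 ≤ th n ∧ th n ≤ Real.log (3 * N) :=
    fun c n hn h1 h2 => by
      rw [th, if_pos hn]
      exact ⟨Real.log_natCast_nonneg _, Real.log_le_log (by exact_mod_cast hn.pos)
        (by exact_mod_cast (Nat.le_mul_of_pos_left n h1).trans h2)⟩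
  have l1 := hl A x px a1 (by nlinarith)
  have l2 := hl B y py b1 (by nlinarith)
  have l3 := hl C z pz c1 (by nlinarith)
  refine ⟨?_, ⟨px, dx⟩, ⟨py, dy⟩, ⟨z, ⟨pz, dz⟩, e⟩, ?_⟩
  · rw [hw, if_pos (Dvd.intro _ rfl)]
    calc _ ≤ Real.log (3 * N) * Real.log (3 * N) * 1 * Real.log (3 * N) := by
          have := l1.1.trans l1.2
          gcongr
          exacts [l3.1, h6.1, l2.1, l1.2, l2.2, h6.2, l3.2]
      _ = _ := by ring
  · simp only [Good, mem_filter, mem_product, mem_Icc]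
    have := Nat.mul_pos b1 py.pos
    have := Nat.mul_pos c1 pz.pos
    exact ⟨⟨⟨by omega, by nlinarith⟩, by omega, by nlinarith⟩, by omega, h7⟩

theorem upper (hq : PrimeSys q z₀) (hz : z₀ ≤ D) (hN : 32 * (D * D) ≤ N)
    (G : Finset (κ → Option (Fin 3))) (hG : ∀ τ ∈ G, (dat q Y τ).Ok D) :
    ∑ τ ∈ G, tri N (dat q Y τ) (Ph q τ 1) th +
      ∑ τ ∈ G, tri N (dat q Y τ) (fun x y => J(y | x.toNat) * Ph q τ (-1) x y) th ≤
      Real.log (3 * N) ^ 3 * #(Good N) := by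
  classical
  simp only [tri, ← sum_add_distrib, ← add_mul, ← mul_add, Int.toNat_natCast, dat_A,
    ← sum_product', sum_sigma']
  set s := G.sigma fun τ => Ioc (2 * N / pr q (fib τ 1)) (3 * N / pr q (fib τ 1)) ×ˢ
    Ioc (N / (32 * (dat q Y τ).B)) (N / (16 * (dat q Y τ).B)) with hs
  generalize hw : (fun t : (_ : κ → Option (Fin 3)) × ℕ × ℕ => _) = w
  have key := fun t (ht : t ∈ s) => term_le hq hz hN (hG _ (mem_sigma.1 ht).1) rfl rfl rfl
    (mem_product.1 (mem_sigma.1 ht).2).1 (mem_product.1 (mem_sigma.1 ht).2).2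
    (w := w t) (by rw [← hw]; rfl)
  have hL : 0 ≤ Real.log (3 * N) ^ 3 := by
    have := Real.log_natCast_nonneg (3 * N)
    push_cast at this
    positivity
  refine (sum_le_sum (g := fun t => if 0 < w t then Real.log (3 * N) ^ 3 else 0)
    fun t ht => ?_).trans ?_
  · split_ifs with h
    exacts [(key t ht h).1, not_lt.1 h]
  rw [← sum_filter, sum_const, nsmul_eq_mul, mul_comm]
  refine mul_le_mul_of_nonneg_left (Nat.cast_le.2 (card_le_card_of_injOn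
    (fun t => (pr q (fib t.1 1) * t.2.1, pr q (fib t.1 0) * t.2.2))
    (fun t ht => (key t (mem_filter.1 ht).1 (mem_filter.1 ht).2).2.2.2.2) ?_)) hL
  rintro ⟨τ, x, y⟩ ht ⟨τ', x', y'⟩ ht' e
  obtain ⟨-, a1, a2, ⟨z, a3, a4⟩, -⟩ := key _ (mem_filter.1 ht).1 (mem_filter.1 ht).2
  obtain ⟨-, b1, b2, ⟨z', b3, b4⟩, -⟩ := key _ (mem_filter.1 ht').1 (mem_filter.1 ht').2
  have ok := hG _ (mem_sigma.1 (mem_filter.1 ht').1).1
  obtain ⟨e1, e2⟩ := Prod.mk.inj e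
  obtain ⟨rfl, c1⟩ := uniq a1 b1 (by simpa only [dat_A] using ok.hA) e1
  obtain ⟨rfl, c2⟩ := uniq a2 b2 ok.hB e2
  obtain ⟨-, c3⟩ := uniq a3 b3 ok.hC (Nat.add_left_cancel
    (a4.symm.trans (e1.trans (b4.trans (by rw [← e2]; rfl)))))
  obtain rfl : τ = τ' := lab_ext hq fun u => by fin_cases u; exacts [c2, c1, c3]
  rfl

end

theorem root_log {a b N : ℕ} (ha : a ≠ 0) (hb : b ≠ 0) (hN : 0 < N) : ∃ z D : ℕ,
    (z ^ a = D ∧ D ^ b ≤ N) ∧ z ≤ D ∧ Real.log D = a * Real.log z ∧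
      Real.log N ≤ a * b * Real.log (z + 1 : ℕ) := by
  have h := mul_ne_zero ha hb
  refine ⟨Nat.nthRoot (a * b) N, _, ⟨rfl, ?_⟩, Nat.le_self_pow ha _,
    by rw [Nat.cast_pow, Real.log_pow], ?_⟩
  · rw [← pow_mul]; exact Nat.pow_nthRoot_le (Or.inl h)
  · rw [← Nat.cast_mul, ← Real.log_pow, ← Nat.cast_pow]
    exact Real.log_le_log (by positivity) (Nat.cast_le.2 (Nat.lt_pow_nthRoot_add_one h N).le)

theorem many_good : ∃ c : ℝ, 0 < c ∧ ∃ N₀ : ℕ, ∀ N ≥ N₀, c * N ^ 2 ≤ #(Good N) := by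
  obtain ⟨A, K, C1, hdis⟩ := dispersion
  obtain ⟨C2, h2⟩ := step2
  obtain ⟨C3, h3⟩ := step3
  obtain ⟨B, N1, hb1⟩ := bdh A
  obtain ⟨-, N2, hb2⟩ : ∃ _ N₀ : ℕ, ∀ N ≥ N₀, ∃ V : ℕ → ℝ, Var Eth N V ∧
      Avg N V (1 / Real.log N ^ (3 * B + 9)) := by
    obtain ⟨B', N₀, h⟩ := bdh (3 * B + 9)
    exact ⟨B', N₀, fun N hN => (h N hN).imp fun _ h => ⟨h.1, h.2.2⟩⟩
  obtain ⟨M, hM⟩ := main_lb
  obtain ⟨κ, hκ⟩ : ∃ κ : ℝ, κ = Real.exp 51 := ⟨_, rfl⟩
  obtain ⟨ν, hν⟩ : ∃ ν : ℝ, ν = 28 * Real.exp 25 := ⟨_, rfl⟩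
  rw [← hκ, ← hν] at hM
  have κ0 : 0 < κ := hκ ▸ Real.exp_pos _
  have ν0 : 0 < ν := hν ▸ by positivity
  obtain ⟨C, hC⟩ : ∃ C, C = |C1| + |C1| + |C2| + |C3| := ⟨_, rfl⟩
  have C0 : 0 ≤ C := hC ▸ by positivity
  obtain ⟨W, hW⟩ : ∃ W : ℝ, W = 400 * B + 180000 * (ν * (K + 1) + |M| + 51200 * κ * C + 1) :=
    ⟨_, rfl⟩
  have W0 : 0 < W := hW ▸ by positivity
  have hT : Filter.Tendsto (fun N : ℕ => Real.log N) Filter.atTop Filter.atTop :=
    Real.tendsto_log_atTop.comp tendsto_natCast_atTop_atTop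
  obtain ⟨N4, hN4⟩ := Filter.eventually_atTop.1 (hT.eventually
    ((Real.isLittleO_log_id_atTop.bound (inv_pos.2 W0)).and (Filter.eventually_ge_atTop 3)))
  refine ⟨1 / (51200 * κ * 360000 ^ 3), by positivity, N1 + N2 + N4 + 3, fun N hN => ?_⟩
  obtain ⟨l1, l2⟩ := hN4 N (by omega)
  obtain ⟨V, hV0, hV1, hV2⟩ := hb1 N (by omega)
  obtain ⟨V', hV3, hV4⟩ := hb2 N (by omega)
  set L := Real.log N with hL
  have l3 : 1 ≤ Real.log L := (Real.le_log_iff_exp_le (by linarith)).2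
    (by linarith [Real.exp_one_lt_d9])
  rw [id, Real.norm_of_nonneg (by linarith), Real.norm_of_nonneg (by linarith),
    le_inv_mul_iff₀ W0, hW] at l1
  have N0 : (0 : ℝ) < N := by exact_mod_cast (by omega : 0 < N)
  have N3 : 3 ≤ N := by omega
  obtain ⟨z, D, z1, z2, z5, z3⟩ := root_log (a := 450) (b := 200) (N := N) (by norm_num)
    (by norm_num) (by omega)
  have p1 : 0 ≤ B * Real.log L := by positivity
  have p2 : 0 ≤ ν * (K + 1) * Real.log L := by positivity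
  have p3 := le_mul_of_one_le_right (abs_nonneg M) l3
  have p4 := le_mul_of_one_le_right (show 0 ≤ κ * C by positivity) l3
  have p5 : 0 ≤ κ * C := by positivity
  have p6 := abs_nonneg M
  have hz : 2 ≤ z := by
    by_contra h
    have := Real.log_le_log (by positivity) (Nat.cast_le (α := ℝ).2 (by omega : z + 1 ≤ 2))
    push_cast at this z3
    linarith [Real.log_two_lt_d9]
  set l := Real.log z with hl
  have z4 : L ≤ 180000 * l := by
    have := Real.log_le_log (by positivity)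
      (Nat.cast_le (α := ℝ).2 (by nlinarith : z + 1 ≤ z ^ 2))
    rw [Nat.cast_pow, Real.log_pow] at this
    push_cast at this z3
    linarith
  have hD := hz.trans z2
  have L1 : ∀ k, 1 ≤ L ^ k := fun k => one_le_pow₀ (by linarith)
  have hR1 := Nat.floor_le (zero_le_one.trans (L1 B))
  have hR2 : 1 ≤ ⌊L ^ B⌋₊ := Nat.le_floor (by simpa using L1 B)
  have hR3 : ⌊L ^ B⌋₊ ≤ D := Nat.floor_le_of_le (by
    rw [← Real.log_le_log_iff (by positivity) (by positivity), z5, Real.log_pow]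
    push_cast; linarith)
  set R := ⌊L ^ B⌋₊
  set Y := ⌈L ^ K⌉₊ + 1 with hY
  have hY1 : L ^ K ≤ Y := (Nat.le_ceil _).trans (by simp [hY])
  have hY2 : 2 ≤ Y := Nat.succ_le_succ (Nat.ceil_pos.2 (by positivity))
  have hY3 : Real.log Y ≤ (K + 1) * Real.log L := by
    rw [← Nat.cast_succ, ← Real.log_pow]
    refine Real.log_le_log (by positivity) ?_
    have := Nat.ceil_lt_add_one (zero_le_one.trans (L1 K))
    rw [hY, pow_succ]
    push_cast
    nlinarith [L1 K]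
  have hq := primeSys_PS (c := 12) (by norm_num) hz
  have m1 := hM z Y hz hY2 (by linarith [le_abs_self M])
    (by linarith [mul_le_mul_of_nonneg_left hY3 ν0.le])
  set q := fun i : PS 12 z => i.1 with hq'
  have ok := fun τ (h : τ ∈ Gd z Y) => dat_ok (Y := Y) (D := D) hq (z1.1 ▸ (mem_filter.1 h).2)
  have u1 := upper hq z2 (le_trans (by
    calc 32 * (D * D) ≤ D ^ 5 * (D * D) := by gcongr; exact Nat.pow_le_pow_left hD 5
      _ = D ^ 7 := by ring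
      _ ≤ _ := Nat.pow_le_pow_right (by omega) (by norm_num)) z1.2) _ fun τ h => (ok τ h).1
  have hi := dat_inj (Y := Y) hq
  have hs : ∀ {P : Dat → (ℝ → ℤ → ℤ → ℝ) → Prop}, (∀ τ ∈ Gd z Y, P (dat q Y τ) (Ph q τ)) →
      ∀ d ∈ (Gd z Y).image (dat q Y), P d (Ph q (Function.invFun (dat q Y) d)) := fun h d hd => by
    obtain ⟨τ, hτ, rfl⟩ := mem_image.1 hd
    rw [Function.leftInverse_invFun hi]
    exact h τ hτ
  have hY4 : ∀ τ ∈ Gd z Y, L ^ K ≤ (dat q Y τ).2.1 := fun τ h =>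
    hY1.trans (Nat.cast_le.2 (ok τ h).2)
  have d1 := hdis N R _ V N3 hD z1.2 hR3 hV1 hV2 _ _ (fun _ _ => 1)
    (hs (P := fun d F => d.Ok _ ∧ L ^ K ≤ d.2.1 ∧ Per d.M (F 1) ∧ ∀ x y, |F 1 x y| ≤ 1)
      fun τ h => ⟨(ok τ h).1, hY4 τ h, Ph_per hq 1, fun x y =>
        (abs_of_nonneg (Ph_mem x y).1.1).trans_le (Ph_mem x y).1.2⟩) (by simp)
  have d2 := hdis N R _ V N3 hD z1.2 hR3 hV1 hV2 _ _ (fun x y => J(y | x.toNat))
    (hs (P := fun d F => d.Ok _ ∧ L ^ K ≤ d.2.1 ∧ Per d.M (F (-1)) ∧ ∀ x y, |F (-1) x y| ≤ 1)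
      fun τ h => ⟨(ok τ h).1, hY4 τ h, Ph_per hq _, fun x y => (Ph_mem x y).2⟩) fun x y => by
        rcases jacobiSym.trichotomy y x.toNat with h | h | h <;> simp [h]
  have d3 := h2 N R _ N3 hD z1.2 hR3 _ _
    (hs (P := fun d F => d.Ok _ ∧ Per d.M (F (-1)) ∧ ∀ x y, |F (-1) x y| ≤ 1)
      fun τ h => ⟨(ok τ h).1, Ph_per hq _, fun x y => (Ph_mem x y).2⟩)
  have d4 := h3 N R _ V' _ N3 hD z1.2 hR2 hR3 hV3 hV4 (by
    rw [div_mul_eq_mul_div, div_mul_eq_mul_div, div_le_one (by positivity), one_mul, pow_add,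
      mul_comm 3, pow_mul]
    gcongr) _ _
    (hs (P := fun d F => d.Ok _ ∧ Per d.M (F 1) ∧ ∀ x y, 0 ≤ F 1 x y ∧ F 1 x y ≤ 1)
      fun τ h => ⟨(ok τ h).1, Ph_per hq _, fun x y => (Ph_mem x y).1⟩)
  simp only [sum_image hi.injOn, Function.leftInverse_invFun hi _, one_mul, abs_le] at d1 d2 d3 d4
  simp only [tri_split N R, sum_add_distrib] at u1
  have m2 := sum_le_sum fun τ (_ : τ ∈ Gd z Y) => mean_lb (Y := Y) (τ := τ) hq
  rw [← mul_sum] at m2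
  have n2 : (0 : ℝ) < N ^ 2 := by positivity
  have f1 : (N : ℝ) ^ 2 * (l ^ 3 / (25600 * κ) - C) ≤ Real.log (3 * N) ^ 3 * #(Good N) := by
    have e1 := mul_le_mul_of_nonneg_left ((mul_le_mul_of_nonneg_left m1 (by norm_num)).trans m2)
      (show (0 : ℝ) ≤ N ^ 2 / 400 by positivity)
    have e2 := fun C : ℝ => mul_le_mul_of_nonneg_right (le_abs_self C) n2.le
    rw [show (N : ℝ) ^ 2 * (l ^ 3 / (25600 * κ) - C) =
      N ^ 2 / 400 * (1 / 4 * (l ^ 3 / (16 * κ))) - C * N ^ 2 by ring, hC]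
    linarith [e2 C1, e2 C2, e2 C3]
  have f2 : Real.log (3 * N) ^ 3 ≤ (360000 * l) ^ 3 := by
    rw [Real.log_mul (by norm_num) N0.ne']
    have := Real.log_le_sub_one_of_pos (show (0 : ℝ) < 3 by norm_num)
    have := Real.log_nonneg (show (1 : ℝ) ≤ 3 by norm_num)
    gcongr; linarith
  have f3 : C ≤ l ^ 3 / (51200 * κ) := by
    rw [le_div_iff₀ (by positivity)]
    linarith [le_self_pow₀ (show 1 ≤ l by linarith) three_ne_zero]
  have f4 := f1.trans (mul_le_mul_of_nonneg_right f2 (Nat.cast_nonneg _))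
  have l0 : 0 < l ^ 3 := by have : 0 < l := by linarith
                            positivity
  refine le_of_mul_le_mul_left (le_trans ?_ f4) (show 0 < (360000 * l) ^ 3 by
    rw [mul_pow]; positivity)
  calc _ = (N : ℝ) ^ 2 * (l ^ 3 / (25600 * κ) - l ^ 3 / (51200 * κ)) := by field_simp; ring
    _ ≤ _ := by gcongr

end Pool.Agent.Lib.RankZero
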