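import Pool.Agent.Lib.MP_6073f3_nt.Z.Crt

/-!
The average of the minorant over the splitting signs.
-/

set_option linter.unusedSectionVars false

namespace Pool.Agent.Lib.RankZero

open Finset Pool.Agent.Lib.TorsRank
open scoped NumberTheorySymbols

variable {κ : Type} [Fintype κ] [DecidableEq κ] {q : κ → ℕ} {z₀ : ℕ} {τ : κ → Option (Fin 3)}

theorem ex_prod {Ω : Type} [Fintype Ω] (w f : κ → Ω → ℝ) :
    ∑ d : κ → Ω, (∏ i, w i (d i)) * ∏ i, f i (d i) = ∏ i, ∑ t, w i t * f i t := by
  simp only [← prod_mul_distrib]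
  rw [prod_univ_sum, Fintype.piFinset_univ]

theorem prod_sign {ι : Type} (s : Finset ι) {f : ι → ℤ} (h : ∀ i, f i = 1 ∨ f i = -1) :
    ∏ i ∈ s, f i = 1 ∨ ∏ i ∈ s, f i = -1 :=
  prod_induction _ (fun x : ℤ => x = 1 ∨ x = -1) (by rintro x y (rfl | rfl) (rfl | rfl) <;> simp)
    (Or.inl rfl) fun i _ => h i

theorem PP_sign (hq : PrimeSys q z₀) (a : κ → Bool) (i : κ) : PP q τ a i = 1 ∨ PP q τ a i = -1 :=
  prod_sign _ fun j => by split_ifs; exacts [sy_sign hq i j, Or.inl rfl]

theorem PP_none {i : κ} (h : τ i = none) (a : κ → Bool) : PP q τ a i = 1 := by simp [PP, h, sy]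

theorem rr_sign (hq : PrimeSys q z₀) (i : κ) : rr (pr q (fib τ 0)) (τ i) (q i) = 1 ∨
    rr (pr q (fib τ 0)) (τ i) (q i) = -1 := by
  rcases hu : τ i with _ | u
  · exact Or.inl rfl
  refine jacobiSym.eq_one_or_neg_one (gcd_of_not_dvd (hq.hp i) ?_)
  have := dvd_fib (τ := τ) hq i 0
  fin_cases u
  · exact fun h => (hq.hp i).one_lt.ne' (Nat.dvd_one.1 (Int.natCast_dvd_natCast.1 h))
  · simp [this, hu]
  · simp [this, hu]

theorem PP_diag (hq : PrimeSys q z₀) (c : κ → Bool) :
    ∏ i, (if c i then PP q τ c i * sy (τ i) (τ i) (q i) (q i) else 1) = 1 := by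
  set m : κ → κ → ℤ := fun i j => if c i ∧ c j then sy (τ i) (τ j) (q i) (q j) else 1 with hm
  have h1 : ∀ i j, m i j * m j i = 1 := fun i j => by
    simp only [hm, and_comm (a := c j = true), sy_comm (τ j)]
    rcases sy_sign (τ := τ) hq i j with h | h <;> split_ifs <;> simp [h]
  have h2 : ∏ p ∈ (univ : Finset κ).offDiag, m p.1 p.2 = 1 :=
    prod_involution (fun p _ => p.swap) (fun p _ => h1 _ _)
      (fun p hp _ h => (mem_offDiag.1 hp).2.2 (congrArg Prod.snd h))
      (fun p hp => by simpa [eq_comm] using hp) fun _ _ => rfl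
  have h3 : ∏ i, ∏ j, m i j = ∏ i, m i i := by
    rw [← prod_product', ← diag_union_offDiag, prod_union (disjoint_diag_offDiag _), h2, prod_diag,
      mul_one]
  rw [prod_congr rfl (g := fun i => (∏ j, m i j) * m i i) fun i _ => by
    cases h : c i <;> simp [hm, h, PP], prod_mul_distrib, h3, ← prod_mul_distrib]
  exact prod_eq_one fun i _ => h1 i i

theorem ind_all (P : κ → Prop) [DecidablePred P] {h : Decidable (∀ i, P i)} :
    (if ∀ i, P i then 1 else 0 : ℝ) = ∏ i, if P i then 1 else 0 := by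
  rw [Fintype.prod_boole]; congr

/-- The local weights in the character expansion. -/
noncomputable def uu (x : Option (Fin 3)) (a c : Bool) : ℝ :=
  if x = none then (if a || c then 0 else 1) else if a && c then 0 else 1 / 2

/-- The expected number of solutions. -/
noncomputable def FE (q : κ → ℕ) (τ : κ → Option (Fin 3)) : ℝ :=
  ∑ c : κ → Bool, ∑ a : κ → Bool, (∏ i, uu (τ i) (a i) (c i)) *
    ∏ i, if c i then (PP q τ a i : ℝ) else 1

open Classical in
theorem ex_c0 (hq : PrimeSys q z₀) : ∑ d : κ → Bool, (∏ i, law (τ i) (d i)) *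
    ∑ a, (if c0 q τ (fun i => sb (d i)) a then 1 else 0) = FE q τ := by
  simp only [mul_sum]
  rw [FE, sum_comm]
  refine Eq.trans (sum_congr rfl fun a _ => ?_) sum_comm
  rw [ex_prod (fun i => uu (τ i) (a i)) fun i c => if c then (PP q τ a i : ℝ) else 1,
    sum_congr rfl fun d _ => by rw [c0, ind_all], ex_prod (fun i => law (τ i))
    fun i t => if (τ i = none → a i = false) ∧ PP q τ a i = if a i then sb t else 1 then 1 else 0]
  refine prod_congr rfl fun i _ => ?_
  by_cases h : τ i = none
  · cases a i <;> simp [law, uu, h, PP_none h]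
  · cases a i <;> rcases PP_sign (τ := τ) hq a i with e | e <;> simp [law, uu, h, e, sb]

open Classical in
theorem ex_c1 (hq : PrimeSys q z₀) : ∑ d : κ → Bool, (∏ i, law (τ i) (d i)) *
    ∑ b, (if c1 q τ (fun i => sb (d i)) b then 1 else 0) = FE q τ := by
  simp only [mul_sum]
  have e : FE q τ = ∑ b : κ → Bool, ∑ c : κ → Bool, (∏ i, uu (τ i) (xor (b i) (c i)) (c i)) *
      ∏ i, if c i then (PP q τ b i * sy (τ i) (τ i) (q i) (q i) : ℝ) else 1 := by
    refine Eq.trans (sum_congr rfl fun c _ => ?_) sum_comm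
    refine sum_nbij' (fun a i => xor (a i) (c i))
      (fun a i => xor (a i) (c i)) (by simp) (by simp) (fun _ _ => by simp) (fun _ _ => by simp)
      fun a _ => ?_
    have := congrArg (Int.cast (R := ℝ)) (PP_diag (τ := τ) hq c)
    push_cast at this
    simp only [Bool.xor_assoc, Bool.xor_self, Bool.xor_false, PP_xor hq]
    rw [← mul_one (∏ i, if c i then (PP q τ a i : ℝ) else 1), ← this, ← prod_mul_distrib]
    congr 1
    exact prod_congr rfl fun i _ => by split_ifs <;> simp [mul_assoc]
  rw [e, sum_comm]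
  refine sum_congr rfl fun b _ => ?_
  rw [ex_prod (fun i c => uu (τ i) (xor (b i) c) c) fun i c =>
      if c then (PP q τ b i * sy (τ i) (τ i) (q i) (q i) : ℝ) else 1,
    sum_congr rfl fun d _ => by rw [c1, ind_all], ex_prod (fun i => law (τ i))
    fun i t => if (τ i = none → b i = false) ∧
      PP q τ b i * sy (τ i) (τ i) (q i) (q i) = if b i then 1 else sb t then 1 else 0]
  refine prod_congr rfl fun i _ => ?_
  by_cases h : τ i = none
  · cases b i <;> simp [law, uu, h, PP_none h, sy, sb]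
  · cases b i <;> rcases PP_sign (τ := τ) hq b i with e | e <;>
      rcases sy_sign (τ := τ) hq i i with e' | e' <;> simp [law, uu, h, e, e', sb]

open Classical in
theorem ex_w (hq : PrimeSys q z₀) {r : κ → ℤ} (hr : ∀ i, r i = 1 ∨ r i = -1) :
    ∑ d : κ → Bool, (∏ i, law (τ i) (d i)) * ∑ b, (if c1 q τ (fun i => sb (d i)) b then 1 else 0) *
      (w0 τ (fun i => r i * sb (d i)) * chy τ (fun i => r i * sb (d i)) b : ℝ) ≤
      ∏ i, if τ i = none then 1 else 1 / 2 := by
  simp only [mul_sum]
  rw [sum_comm]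
  refine (sum_le_sum (g := fun b => ∏ i, if b i then 0 else if τ i = none then 1 else 1 / 2)
    fun b _ => ?_).trans (le_of_eq ?_)
  · refine (le_abs_self _).trans ?_
    have := ex_prod (fun i => law (τ i)) fun i t => (if (τ i = none → b i = false) ∧
      PP q τ b i * sy (τ i) (τ i) (q i) (q i) = if b i then 1 else sb t then 1 else 0) *
      ((if τ i = none then 1 else if τ i = some 2 then -1 else -(r i * sb t) : ℤ) *
      (if τ i = some 1 ∧ b i = false ∨ τ i = some 2 ∧ b i = true then r i * sb t else 1 : ℤ))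
    rw [← abs_neg, ← sum_neg_distrib, sum_congr rfl fun d _ => by
      rw [c1, ind_all, w0, chy, Int.cast_neg, neg_mul, mul_neg, mul_neg, neg_neg,
        Int.cast_prod, Int.cast_prod, ← prod_mul_distrib, ← prod_mul_distrib], this, abs_prod]
    refine prod_le_prod (fun _ _ => abs_nonneg _) fun i _ => ?_
    have h1 : PP q τ b i * sy (τ i) (τ i) (q i) (q i) = 1 ∨
        PP q τ b i * sy (τ i) (τ i) (q i) (q i) = -1 := by
      rcases PP_sign (τ := τ) hq b i with e | e <;>
        rcases sy_sign (τ := τ) hq i i with e' | e' <;> simp [e, e']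
    generalize PP q τ b i * sy (τ i) (τ i) (q i) (q i) = s at h1
    rcases τ i with _ | u
    · cases b i <;> rcases h1 with rfl | rfl <;> simp [law, sb]
    · fin_cases u <;> cases b i <;> rcases h1 with rfl | rfl <;> rcases hr i with e | e <;>
        simp [law, sb, e]
  · rw [← Fintype.piFinset_univ, ← prod_univ_sum (fun _ => univ)
      fun i (t : Bool) => if t then (0 : ℝ) else if τ i = none then 1 else 1 / 2]
    simp

theorem ex_GG (hq : PrimeSys q z₀) :
    (4 - 3 / 2 * FE q τ - 1 / 2 * ∏ i, if τ i = none then 1 else 1 / 2) / 8 ≤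
      ∑ d : κ → Bool, (∏ i, law (τ i) (d i)) *
        ((GG q τ (fun i => sb (d i)) 1 + GG q τ (fun i => sb (d i)) (-1)) / 2) := by
  classical
  set r := fun i => rr (pr q (fib τ 0)) (τ i) (q i) with hr'
  have hr : ∀ i, r i = 1 ∨ r i = -1 := rr_sign hq
  have h0 : ∑ d : κ → Bool, ∏ i, law (τ i) (d i) = 1 := by
    rw [← Fintype.piFinset_univ, ← prod_univ_sum (fun _ => univ) fun i t => law (τ i) t]
    exact prod_eq_one fun i _ => by by_cases h : τ i = none <;> simp [law, h]
  refine le_trans ?_ (sum_le_sum (f := fun d => (∏ i, law (τ i) (d i)) * ((4 -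
    ∑ a, (if c0 q τ (fun i => sb (d i)) a then 1 else 0) -
    1 / 2 * ∑ b, (if c1 q τ (fun i => sb (d i)) b then 1 else 0) -
    1 / 2 * ∑ b, (if c1 q τ (fun i => sb (d i)) b then 1 else 0) *
      (w0 τ (fun i => r i * sb (d i)) * chy τ (fun i => r i * sb (d i)) b : ℝ)) / 8))
    fun d _ => mul_le_mul_of_nonneg_left ?_ (prod_nonneg fun i _ => by
      simp only [law]; split_ifs <;> norm_num))
  · simp only [← mul_div_assoc, mul_sub, mul_left_comm _ (1 / 2 : ℝ), ← sum_div, sum_sub_distrib,
      ← mul_sum, ← sum_mul, h0, ex_c0 hq, ex_c1 hq]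
    linarith [ex_w (τ := τ) hq hr]
  · set δ := fun i => sb (d i)
    set η := fun i => r i * δ i with hη
    have hη1 : ∀ i, η i = 1 ∨ η i = -1 := fun i => by
      rcases hr i with e | e <;> cases h : d i <;> simp [hη, δ, sb, h, e]
    have hw : w0 τ η = 1 ∨ w0 τ η = -1 := by
      have := prod_sign univ (f := fun j => if τ j = none then 1 else if τ j = some 2 then -1
        else -η j) fun j => by rcases hη1 j with e | e <;> split_ifs <;> simp [e]
      rw [w0]; omega
    have hN : (Nn q τ δ η (w0 τ η) : ℝ) = ∑ a, (if c0 q τ δ a then 1 else 0) +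
        1 / 2 * ∑ b, (if c1 q τ δ b then 1 else 0) +
        1 / 2 * ∑ b, (if c1 q τ δ b then 1 else 0) * (w0 τ η * chy τ η b : ℝ) := by
      rw [Nn, Nat.cast_add, add_assoc, ← mul_add, ← sum_add_distrib, mul_sum, card_filter,
        card_filter]
      push_cast
      congr 1
      refine sum_congr rfl fun b _ => ?_
      have hc : chy τ η b = 1 ∨ chy τ η b = -1 :=
        prod_sign _ fun j => by split_ifs; exacts [hη1 j, Or.inl rfl]
      by_cases h : c1 q τ δ b <;> rcases hw with e | e <;> rcases hc with e' | e' <;>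
        simp [h, e, e'] <;> norm_num
    have h1 : (4 - Nn q τ δ η (w0 τ η)) / 4 ≤ GG q τ δ (w0 τ η) := by
      simp only [GG]
      rw [if_pos (show w0 τ η * w0 τ η = 1 by rcases hw with e | e <;> simp [e])]
      exact le_max_right _ _
    have h2 := (GG_mem (q := q) (τ := τ) δ 1).1
    have h3 := (GG_mem (q := q) (τ := τ) δ (-1)).1
    rw [hN] at h1
    rcases hw with e | e <;> rw [e] at h1 ⊢ <;> linarith

end Pool.Agent.Lib.RankZero
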