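import Pool.Agent.Lib.MP_6073f3_nt.Engine2

/-!
Two-sided and decaying bounds for the configuration sums.
-/

set_option linter.unusedSectionVars false

namespace Pool.Agent.Lib.RankZero

open Finset Pool.Agent.Lib.TorsRank
open scoped NumberTheorySymbols

variable {Λ : Type} [Fintype Λ] [DecidableEq Λ]

section

variable {ι : Type} [Fintype ι] [DecidableEq ι] {lnk : Λ → Λ → Bool} {q : ι → ℕ} {z : ℕ}
  {w : ι → Option Λ → ℝ}

theorem engine_abs (hq : PrimeSys q z) {K : ℝ} (hw : Wts q w K)
    (has : ∀ a b, lnk a b = true → lnk b a = false) (R : Finset Λ → Prop) [DecidablePred R]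
    {n : ℕ} (hn : 1 ≤ n) {E : ℝ}
    (hE : ∀ (U V : Finset Λ) (ψ : ι → Option Λ), (∀ a ∈ U, ∀ b ∈ U, lnk a b = false) → V ⊆ U →
      (∀ i l, ψ i = some l → l ∉ V) → (∀ l, pr q (fib ψ l) < 2 ^ n) → R (U ∪ pat ψ) →
      ∑ i, (w i none - 1 + ∑ l ∈ V, w i (some l) * chi lnk q ψ i (some l)) ≤ E) :
    |∑ φ : ι → Option Λ, (if R (pat φ) then FT lnk q w φ else 0)| ≤ 2 ^ Fintype.card Λ *
      (2 ^ Fintype.card Λ * (Real.exp E *
        Real.exp (Fintype.card Λ * ∑ i, if q i < 2 ^ n then 3 * K / q i else 0)) +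
      Real.exp (Fintype.card Λ * (K * HH q)) *
        (2208 * Real.exp (192 * (2 * K) ^ 2 * HH q) * Real.log z * (15 / 16) ^ n)) := by
  have hK := hw.hK
  have h2n : 1 < 2 ^ n := Nat.one_lt_two_pow (by omega)
  set A := Real.exp E *
    Real.exp (Fintype.card Λ * ∑ i, if q i < 2 ^ n then 3 * K / q i else 0) with hA
  set B := 2208 * Real.exp (192 * (2 * K) ^ 2 * HH q) * Real.log z * (15 / 16) ^ n with hB
  have hA0 : 0 ≤ A := by positivity
  have hB0 : 0 ≤ B := by have := Real.log_natCast_nonneg z; positivity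
  set Lg : (ι → Option Λ) → Finset Λ := fun φ => univ.filter fun l => 2 ^ n ≤ pr q (fib φ l)
    with hLg
  have e : ∀ φ : ι → Option Λ, (if R (pat φ) then FT lnk q w φ else 0) =
      ∑ U, if Lg φ = U then (if R (U ∪ pat φ) then FT lnk q w φ else 0) else 0 := by
    intro φ
    rw [sum_ite_eq, if_pos (mem_univ _), union_eq_right.2]
    intro l hl
    by_contra h
    have : fib φ l = ∅ := by
      simpa [fib, pat] using h
    have hl := (mem_filter.1 hl).2
    rw [this, pr, prod_empty] at hl
    omega
  rw [sum_congr rfl fun φ _ => e φ, sum_comm]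
  refine (abs_sum_le_sum_abs _ _).trans ((sum_le_card_nsmul _ _ _ fun U _ => ?_).trans (le_of_eq (by
    rw [nsmul_eq_mul, card_univ, Fintype.card_finset]; push_cast; rfl)))
  by_cases hU : ∀ a ∈ U, ∀ b ∈ U, lnk a b = false
  · refine le_trans ?_ (le_add_of_nonneg_right (by positivity))
    have e1 : ∀ φ : ι → Option Λ,
        (if Lg φ = U then (if R (U ∪ pat φ) then FT lnk q w φ else 0) else 0) =
        ∑ t ∈ U.powerset, (-1) ^ t.card * if (∀ l, l ∉ U \ t → pr q (fib φ l) < 2 ^ n) ∧
          R (U ∪ pat φ) then FT lnk q w φ else 0 := by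
      intro φ
      by_cases h1 : (∀ l, l ∉ U → pr q (fib φ l) < 2 ^ n) ∧ R (U ∪ pat φ)
      · have h2 := prod_one_add (s := U)
          (f := fun l => if pr q (fib φ l) < 2 ^ n then (-1 : ℝ) else 0)
        rw [sum_congr rfl (g := fun t => (∏ l ∈ t, if pr q (fib φ l) < 2 ^ n then (-1 : ℝ) else 0) *
          FT lnk q w φ) (fun t ht => by
            rw [prod_ite_zero, prod_const]
            by_cases h3 : ∀ l ∈ t, pr q (fib φ l) < 2 ^ n
            · rw [if_pos h3, if_pos ⟨fun l hl => by
                by_cases h4 : l ∈ U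
                · exact h3 l (by simpa [h4] using hl)
                · exact h1.1 l h4, h1.2⟩]
            · rw [if_neg h3, if_neg fun h => h3 fun l hl => h.1 l (by simp [hl])]; simp),
          ← sum_mul, ← h2, if_pos h1.2]
        split_ifs with h3
        · rw [prod_eq_one, one_mul]
          intro l hl
          rw [← h3] at hl
          rw [if_neg (not_lt.2 (mem_filter.1 hl).2), add_zero]
        · obtain ⟨l, hl, hl'⟩ : ∃ l ∈ U, pr q (fib φ l) < 2 ^ n := by
            by_contra h4
            push Not at h4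
            refine h3 (Finset.ext fun l => ⟨fun h => ?_, fun h => mem_filter.2
              ⟨mem_univ _, h4 l h⟩⟩)
            by_contra h5
            exact absurd (mem_filter.1 h).2 (not_le.2 (h1.1 l h5))
          rw [prod_eq_zero hl (by rw [if_pos hl']; ring), zero_mul]
      · rw [sum_eq_zero fun t _ => by
          rw [if_neg fun h => h1 ⟨fun l hl => h.1 l (by simp [hl]), h.2⟩, mul_zero]]
        split_ifs with h3 h4
        · refine absurd ⟨fun l hl => ?_, h4⟩ h1
          rw [← h3] at hl
          simpa [hLg] using hl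
        · rfl
        · rfl
    rw [sum_congr rfl fun φ _ => e1 φ, sum_comm]
    refine (abs_sum_le_sum_abs _ _).trans ((sum_le_card_nsmul _ _ A fun t _ => ?_).trans ?_)
    · rw [← mul_sum, abs_mul, abs_neg_one_pow, one_mul, sum_split (U \ t)]
      refine (abs_sum_le_sum_abs _ _).trans ((sum_le_sum (g := fun ψ => Real.exp E *
          ∏ i, if ψ i = none then 1 else if q i < 2 ^ n then 3 * K / q i else 0)
          fun ψ hψ => ?_).trans ?_)
      · have hψ := (mem_filter.1 hψ).2
        have hp0 : 0 ≤ ∏ i, if ψ i = none then 1 else if q i < 2 ^ n then 3 * K / q i else 0 :=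
          prod_nonneg fun i _ => by split_ifs <;> positivity
        have e2 : ∀ g ∈ Fintype.piFinset (TT ψ (U \ t)),
            ((∀ l, l ∉ U \ t → pr q (fib (mrg ψ g) l) < 2 ^ n) ∧ R (U ∪ pat (mrg ψ g))) ↔
            ((∀ l, pr q (fib ψ l) < 2 ^ n) ∧ R (U ∪ pat ψ)) := fun g hg => by
          rw [pat_mrg sdiff_subset hg]
          refine and_congr_left fun _ => forall_congr' fun l => ?_
          rw [fib_mrg hψ hg]
          by_cases hl : l ∈ U \ t
          · have : fib ψ l = ∅ := filter_eq_empty_iff.2 fun i _ h => hψ i l h hl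
            simp only [hl, not_true, false_imp_iff, this, pr, prod_empty, h2n]
          · simp only [hl, not_false_iff, true_imp_iff, if_false]
        rw [sum_congr rfl fun g hg => if_congr (e2 g hg) rfl rfl]
        by_cases h1 : (∀ l, pr q (fib ψ l) < 2 ^ n) ∧ R (U ∪ pat ψ)
        · simp only [if_pos h1]
          refine (unlinked_le hw (fun a ha b hb => hU a (sdiff_subset ha) b (sdiff_subset hb))
            ψ).trans ?_
          have h3 := Real.exp_le_exp.2 (hE U _ ψ hU sdiff_subset hψ h1.1 h1.2)
          refine mul_le_mul h3 (le_of_eq (prod_congr rfl fun i _ => ?_))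
            (prod_nonneg fun i _ => by split_ifs <;> positivity) (Real.exp_pos _).le
          rcases h : ψ i with _ | l
          · rfl
          · rw [if_neg (by simp), if_neg (by simp), if_pos (lt_of_le_of_lt (Nat.le_of_dvd
              (hq.odd _).pos (hq.dvd_pr.2 (mem_filter.2 ⟨mem_univ _, h⟩))) (h1.1 l))]
        · simp only [if_neg h1, sum_const_zero, abs_zero]
          positivity
      · refine (sum_le_sum_of_subset_of_nonneg (filter_subset _ _) fun ψ _ _ =>
          mul_nonneg (Real.exp_pos _).le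
          (prod_nonneg fun i _ => by split_ifs <;> positivity)).trans ?_
        rw [← mul_sum]
        exact mul_le_mul_of_nonneg_left
          (sum_conf_le _ fun i => by split_ifs <;> positivity) (Real.exp_pos _).le
    · rw [card_powerset, nsmul_eq_mul]
      push_cast
      gcongr
      · norm_num
      · exact card_le_univ U
  · refine le_trans ?_ (le_add_of_nonneg_left (by positivity))
    push Not at hU
    obtain ⟨a, ha, b, hb, hab⟩ := hU
    have hab : lnk a b = true := by simpa using hab
    have hV : ({a, b} : Finset Λ) ⊆ U := by intro x; simp; rintro (rfl | rfl) <;> assumption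
    rw [sum_split {a, b}]
    refine (abs_sum_le_sum_abs _ _).trans ((sum_le_sum
      (g := fun ψ => (∏ i, if ψ i = none then 1 else K / q i) * B) fun ψ hψ => ?_).trans ?_)
    · have hψ := (mem_filter.1 hψ).2
      have e2 : ∀ g ∈ Fintype.piFinset (TT ψ {a, b}), (if Lg (mrg ψ g) = U then
          (if R (U ∪ pat (mrg ψ g)) then FT lnk q w (mrg ψ g) else 0) else 0) =
          if (∀ l ∉ ({a, b} : Finset Λ), 2 ^ n ≤ pr q (fib ψ l) ↔ l ∈ U) ∧ R (U ∪ pat ψ) then
            (if 2 ^ n ≤ pr q (fib g a) ∧ 2 ^ n ≤ pr q (fib g b) then FT lnk q w (mrg ψ g)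
              else 0) else 0 := fun g hg => by
        rw [pat_mrg hV hg, ← ite_and, ← ite_and]
        refine if_congr ?_ rfl rfl
        simp only [hLg, Finset.ext_iff, mem_filter, mem_univ, true_and, fib_mrg hψ hg]
        constructor
        · rintro ⟨h1, h2⟩
          refine ⟨⟨fun l hl => by simpa only [if_neg hl] using h1 l, h2⟩, ?_, ?_⟩
          · simpa [ha] using h1 a
          · simpa [hb] using h1 b
        · rintro ⟨⟨h1, h2⟩, h3, h4⟩
          refine ⟨fun l => ?_, h2⟩
          split_ifs with hl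
          · rcases mem_insert.1 hl with rfl | hl
            · exact iff_of_true h3 ha
            · cases mem_singleton.1 hl
              exact iff_of_true h4 hb
          · exact h1 l hl
      rw [sum_congr rfl e2, sum_ite_irrel, sum_const_zero]
      split_ifs
      · exact linked_le hq hw has hab hn ψ
      · rw [abs_zero]
        exact mul_nonneg (prod_nonneg fun i _ => by split_ifs <;> positivity) hB0
    · rw [← sum_mul]
      refine mul_le_mul_of_nonneg_right ((sum_le_sum_of_subset_of_nonneg (filter_subset _ _)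
        fun ψ _ _ => prod_nonneg fun i _ => by split_ifs <;> positivity).trans
        ((sum_conf_le _ fun i => by positivity).trans (le_of_eq ?_))) hB0
      simp only [HH, mul_sum, div_eq_mul_inv]

end

theorem engine_small {lnk : Λ → Λ → Bool} (has : ∀ a b, lnk a b = true → lnk b a = false)
    (R : Finset Λ → Prop) [DecidablePred R] {K δ B : ℝ} (hδ : 0 < δ) (hB : 0 ≤ B) :
    ∃ C : ℝ, ∀ (ι : Type) [Fintype ι] [DecidableEq ι] (q : ι → ℕ) (z : ℕ) (w : ι → Option Λ → ℝ),
      PrimeSys q z → Wts q w K → Real.log z ≤ Real.exp (HH q + B) →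
      (∀ n : ℕ, 1 ≤ n → ∀ (U V : Finset Λ) (ψ : ι → Option Λ),
        (∀ a ∈ U, ∀ b ∈ U, lnk a b = false) → V ⊆ U →
        (∀ i l, ψ i = some l → l ∉ V) → (∀ l, pr q (fib ψ l) < 2 ^ n) → R (U ∪ pat ψ) →
        ∑ i, (w i none - 1 + ∑ l ∈ V, w i (some l) * chi lnk q ψ i (some l)) ≤
          -(2 * δ) * HH q + B * (1 + Real.log n)) →
      |∑ φ : ι → Option Λ, (if R (pat φ) then FT lnk q w φ else 0)| ≤
        C * Real.exp (-δ * HH q) := by
  set L : ℝ := (Fintype.card Λ : ℝ) with hL
  have hL0 : 0 ≤ L := Nat.cast_nonneg _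
  set A := 16 * (L * K + 768 * K ^ 2 + 1 + δ) with hA
  set B' := B + 24 * L * K + 1 with hB'
  refine ⟨2 ^ Fintype.card Λ * (2 ^ Fintype.card Λ * Real.exp (δ + B' *
    (1 + Real.log (A + 1) - Real.log (δ / B'))) + 2208 * Real.exp B), ?_⟩
  intro ι _ _ q z w hq hw hz hE
  have hK := hw.hK
  have hH := HH_nonneg (q := q)
  have hA0 : 16 ≤ A := by nlinarith [mul_nonneg hL0 (by linarith : 0 ≤ K), sq_nonneg K]
  have hB0 : 1 ≤ B' := by nlinarith [mul_nonneg hL0 (by linarith : 0 ≤ K)]
  set n := ⌈A * (HH q + 1)⌉₊ with hn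
  have hn1 : A * (HH q + 1) ≤ n := Nat.le_ceil _
  have hn2 : (n : ℝ) ≤ (A + 1) * (HH q + 1) := by
    have := (Nat.ceil_lt_add_one (show 0 ≤ A * (HH q + 1) by positivity)).le
    nlinarith
  have hn3 : (1 : ℝ) ≤ n := by nlinarith
  have hn4 : 1 ≤ n := by exact_mod_cast hn3
  have hl0 : 0 ≤ Real.log n := Real.log_nonneg hn3
  refine (engine_abs hq hw has R hn4 (hE n hn4)).trans ?_
  rw [← Real.exp_add, mul_assoc _ _ (Real.exp (-δ * HH q)), add_mul _ _ (Real.exp (-δ * HH q)),
    mul_assoc _ _ (Real.exp (-δ * HH q)), mul_assoc _ _ (Real.exp (-δ * HH q)), ← Real.exp_add,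
    ← Real.exp_add B]
  refine mul_le_mul_of_nonneg_left (add_le_add (mul_le_mul_of_nonneg_left
    (Real.exp_le_exp.2 ?_) (by positivity)) ?_) (by positivity)
  · have h1 : ∑ i, (if q i < 2 ^ n then 3 * K / q i else 0) ≤ 3 * K * (8 + Real.log n) := by
      have h2 := recip_upper (z := 2 ^ n) (Nat.le_self_pow (by omega) 2)
        (S := (univ.filter fun i => q i < 2 ^ n).image q) (fun l hl => by
          obtain ⟨i, hi, rfl⟩ := mem_image.1 hl
          exact ⟨hq.hp i, (mem_filter.1 hi).2.le⟩)
      rw [sum_image fun _ _ _ _ h => hq.inj h] at h2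
      have h3 : Real.log (28 * Real.log ((2 ^ n : ℕ) : ℝ)) ≤ 4 + Real.log n := by
        have h4 := Real.log_two_lt_d9
        have h5 := Real.log_two_gt_d9
        push_cast
        rw [Real.log_pow, show 28 * (n * Real.log 2) = 28 * Real.log 2 * n by ring,
          Real.log_mul (by positivity) (by positivity)]
        have h6 : Real.log (28 * Real.log 2) ≤ 4 := by
          rw [Real.log_le_iff_le_exp (by positivity)]
          have e : Real.exp 4 = Real.exp 1 ^ 4 := by rw [← Real.exp_nat_mul]; norm_num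
          have := Real.exp_one_gt_d9
          rw [e]; calc 28 * Real.log 2 ≤ 2.5 ^ 4 := by linarith
            _ ≤ _ := by gcongr; linarith
        linarith
      rw [← sum_filter]
      simp only [div_eq_mul_inv, ← mul_sum]
      gcongr; linarith
    have h2 : Real.log n ≤ Real.log (A + 1) + Real.log (HH q + 1) := by
      rw [← Real.log_mul (by positivity) (by positivity)]
      exact Real.log_le_log (by positivity) hn2
    have h3 := Real.log_le_sub_one_of_pos (show 0 < δ / B' * (HH q + 1) by positivity)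
    rw [Real.log_mul (by positivity) (by positivity)] at h3
    have h4 := mul_le_mul_of_nonneg_left h3 (show 0 ≤ B' by linarith)
    have e : B' * (δ / B' * (HH q + 1) - 1) = δ * (HH q + 1) - B' := by field_simp
    have h5 := mul_le_mul_of_nonneg_left h1 hL0
    have h6 := mul_le_mul_of_nonneg_left h2 (show 0 ≤ B' by linarith)
    have h7 := mul_nonneg (mul_nonneg hL0 (by linarith : 0 ≤ K)) hl0
    nlinarith
  · have h1 : (15 / 16 : ℝ) ^ n ≤ Real.exp (-(n / 16)) := by
      rw [show -((n : ℝ) / 16) = n * (-(1 / 16)) by ring, Real.exp_nat_mul]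
      gcongr
      linarith [Real.add_one_le_exp (-(1 / 16))]
    calc _ ≤ Real.exp (L * (K * HH q)) * (2208 * Real.exp (192 * (2 * K) ^ 2 * HH q) *
          Real.exp (HH q + B) * Real.exp (-(n / 16))) := by gcongr
      _ = 2208 * Real.exp (L * (K * HH q) + 192 * (2 * K) ^ 2 * HH q + (HH q + B) + -(n / 16)) := by
          simp only [Real.exp_add]; ring
      _ ≤ _ := mul_le_mul_of_nonneg_left (Real.exp_le_exp.2 (by nlinarith)) (by norm_num)

end Pool.Agent.Lib.RankZero
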