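import Pool.Agent.Lib.MP_6073f3_nt.Z.Avg1
import Pool.Agent.Lib.MP_6073f3_nt.Z.Eng
import Pool.Agent.Lib.MP_6073f3_nt.Model

/-!
The average over the labels of the small primes.
-/

set_option linter.unusedSectionVars false

namespace Pool.Agent.Lib.RankZero

open Finset Pool.Agent.Lib.TorsRank
open scoped NumberTheorySymbols

/-- The law of the label. -/
noncomputable def pw (p : ℕ) (x : Option (Fin 3)) : ℝ :=
  if x = none then p / (p + 3) else 1 / (p + 3)

/-- The links. -/
def lz (x y : Fin 3 × Bool) : Bool := decide (x.1 < y.1 ∧ x.2 ≠ y.2)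

/-- The twisted weights. -/
noncomputable def wt (tw : Fin 3 × Bool → Bool) (p : ℕ) : Option (Fin 3 × Bool) → ℝ
  | some l => 1 / (p + 3) / 2 * if tw l then xi (-1) p else 1
  | none => 1 - 3 * (1 / (p + 3) / 2)

theorem lz_false : ∀ x y : Fin 3 × Bool, lz x y = false → lz y x = false → x.1 = y.1 ∨ x.2 = y.2 := by
  decide

theorem both_small (tw : Fin 3 × Bool → Bool) : ∃ C : ℝ, ∀ z ≥ 2,
    |∑ φ : PS 12 z → Option (Fin 3 × Bool),
      if (∃ x ∈ pat φ, x.2 = false) ∧ ∃ x ∈ pat φ, x.2 = true then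
        FT lz (fun i : PS 12 z => i.1) (fun i => wt tw i) φ else 0| ≤
      C * Real.exp (-(1 / 8) * HS 12 z) := by
  obtain ⟨C, hC⟩ := engine_small (lnk := lz) (by decide)
    (fun P => (∃ x ∈ P, x.2 = false) ∧ ∃ x ∈ P, x.2 = true) (K := 1) (δ := 1 / 8) (B := 120)
    (by norm_num) (by norm_num)
  refine ⟨C, fun z hz => ?_⟩
  have hq := primeSys_PS (c := 12) (by norm_num) hz
  have hi : ∀ i : PS 12 z, (12 : ℝ) ≤ (i : ℕ) := fun i => by
    exact_mod_cast (mem_PS.1 i.2).1.1.le
  have hk : ∀ i : PS 12 z, 3 / 4 * ((i : ℕ) : ℝ)⁻¹ ≤ 1 / ((i : ℕ) + 3) ∧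
      (1 : ℝ) / ((i : ℕ) + 3) ≤ 1 / (i : ℕ) ∧ (1 : ℝ) / (i : ℕ) ≤ 1 / 12 := fun i => by
    have := hi i
    refine ⟨?_, by gcongr; linarith, by gcongr⟩
    rw [← div_eq_mul_inv, div_le_div_iff₀ (by positivity) (by positivity)]; linarith
  have hw : ∀ (i : PS 12 z) l, |wt tw i (some l)| ≤ 1 / ((i : ℕ) + 3) / 2 := fun i l => by
    rw [wt, abs_mul, abs_of_nonneg (by positivity)]
    refine mul_le_of_le_one_right (by positivity) ?_
    split_ifs
    exacts [abs_xi _ _, by simp]
  rw [← HH_PS]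
  refine hC _ _ z _ hq ⟨le_rfl, fun i l => (hw i l).trans ?_, fun i => ?_, fun i => ?_, fun i => ?_⟩
    ?_ ?_
  · linarith [(hk i).2.1, (by positivity : (0 : ℝ) ≤ 1 / (i : ℕ))]
  · simp only [wt]; linarith [hk i]
  · simp only [wt]; linarith [(by positivity : (0 : ℝ) ≤ 1 / ((i : ℕ) + 3))]
  · simp only [Fintype.card_prod, Fintype.card_fin, Fintype.card_bool]; push_cast; linarith [hk i]
  · rw [HH_PS]
    exact (log_le_exp 12 z).trans (Real.exp_le_exp.2 (by push_cast; linarith))
  rintro n hn U V ψ hU hV - hsm ⟨⟨x, hx, hx'⟩, y, hy, hy'⟩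
  set W := V.filter fun a => ∀ b ∈ pat ψ, lz a b = false ∧ lz b a = false with hW
  have hl0 : 0 ≤ Real.log n := Real.log_natCast_nonneg n
  have h1 : W ⊆ {(y.1, false), (x.1, true)} := fun a ha => by
    have key : ∀ b ∈ U ∪ pat ψ, a.1 = b.1 ∨ a.2 = b.2 := fun b hb => by
      obtain ⟨h1, h2⟩ := mem_filter.1 ha
      rcases mem_union.1 hb with hb | hb
      · exact lz_false _ _ (hU _ (hV h1) _ hb) (hU _ hb _ (hV h1))
      · exact lz_false _ _ (h2 b hb).1 (h2 b hb).2
    have h2 := key x hx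
    have h3 := key y hy
    rw [hx'] at h2
    rw [hy'] at h3
    clear * - h2 h3
    obtain ⟨a, _ | _⟩ := a <;> simp_all
  have h2 : ∑ l ∈ W, ∑ i : PS 12 z, wt tw i (some l) * chi lz (fun i : PS 12 z => i.1) ψ i (some l) ≤
      ∑ i : PS 12 z, (1 : ℝ) / ((i : ℕ) + 3) := by
    refine (sum_le_card_nsmul _ _ (∑ i : PS 12 z, (1 : ℝ) / ((i : ℕ) + 3) / 2) fun l _ =>
      sum_le_sum fun i _ => (le_abs_self _).trans ?_).trans ?_
    · rw [abs_mul]
      exact (mul_le_of_le_one_right (abs_nonneg _) (abs_chi _ _ _)).trans (hw i l)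
    · have : (W.card : ℝ) ≤ 2 := by exact_mod_cast (card_le_card h1).trans card_le_two
      rw [nsmul_eq_mul, ← sum_div]
      nlinarith [sum_nonneg (s := univ) fun (i : PS 12 z) _ =>
        (by positivity : (0 : ℝ) ≤ 1 / ((i : ℕ) + 3))]
  have h3 : ∑ l ∈ V with ¬ ∀ b ∈ pat ψ, lz l b = false ∧ lz b l = false, ∑ i : PS 12 z,
      wt tw i (some l) * chi lz (fun i : PS 12 z => i.1) ψ i (some l) ≤
      120 * (1 + Real.log n) := by
    refine (sum_le_card_nsmul _ _ (20 * (1 + Real.log n)) fun l hl => ?_).trans ?_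
    · have := (mem_filter.1 hl).2
      push Not at this
      obtain ⟨b, hb, hb'⟩ := this
      have h4 := dead_le (lnk := lz) (by decide) (c := 12) (by norm_num) hz hn hsm hb (l := l) (by
        cases h : lz l b
        · exact Or.inr (by simpa using hb' h)
        · exact Or.inl rfl) (e := Pi.single (if tw l then 1 else 0) 1)
        fun j => by simp only [Pi.single_apply]; split_ifs <;> norm_num
      have h5 := sum_inv_sq_le (S := PS 12 z) fun l hl => (mem_PS.1 hl).2.two_le
      rw [← sum_coe_sort] at h5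
      have h6 : ∑ i : PS 12 z, wt tw i (some l) * chi lz (fun i : PS 12 z => i.1) ψ i (some l) ≤
          ∑ i : PS 12 z, (1 / 2 * (ff i * ch i (Pi.single (if tw l then 1 else 0) 1) *
            chi lz (fun i : PS 12 z => i.1) ψ i (some l)) + (((i : ℕ) : ℝ) ^ 2)⁻¹) :=
        sum_le_sum fun i _ => by
          have e : ch i (Pi.single (if tw l then 1 else 0) 1) = if tw l then xi (-1) i else 1 := by
            split_ifs <;> simp [ch_eq, xi_odd ((hq.hp i).odd_of_ne_two (hq.h2 i))]
          have h7 : |(if tw l then xi (-1) i else 1) *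
              chi lz (fun i : PS 12 z => i.1) ψ i (some l)| ≤ 1 := by
            rw [abs_mul]
            refine mul_le_one₀ ?_ (abs_nonneg _) (abs_chi _ _ _)
            split_ifs
            exacts [abs_xi _ _, by simp]
          have h8 := hi i
          have h9 : ff i - 1 / ((i : ℕ) + 3) = (2 * (i : ℕ) - 3) / ((i : ℕ) + 3) *
            (((i : ℕ) : ℝ) ^ 2)⁻¹ := by rw [ff]; field_simp; ring
          have h10 : (2 * (i : ℕ) - 3) / ((i : ℕ) + 3) ≤ (2 : ℝ) := by
            rw [div_le_iff₀ (by positivity)]; linarith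
          have h11 : (0 : ℝ) ≤ (2 * (i : ℕ) - 3) / ((i : ℕ) + 3) :=
            div_nonneg (by linarith) (by positivity)
          have h12 : (0 : ℝ) ≤ (((i : ℕ) : ℝ) ^ 2)⁻¹ := by positivity
          rw [e, wt, mul_assoc, mul_assoc, eq_add_of_sub_eq h9]
          nlinarith [mul_nonneg (mul_nonneg h11 h12) (neg_le_iff_add_nonneg.1 (abs_le.1 h7).1),
            mul_le_mul_of_nonneg_right h10 h12]
      rw [sum_add_distrib, ← mul_sum] at h6
      simp only [sum_pi_single', mem_univ, if_true, Fintype.card_prod, Fintype.card_fin,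
        Fintype.card_bool] at h4
      push_cast at h4
      linarith
    · have : ((V.filter fun l => ¬ ∀ b ∈ pat ψ, lz l b = false ∧ lz b l = false).card : ℝ) ≤ 6 := by
        exact_mod_cast (card_le_univ _).trans (by simp)
      rw [nsmul_eq_mul]; nlinarith
  have h4 : 3 / 4 * HH (fun i : PS 12 z => i.1) ≤ ∑ i : PS 12 z, (1 : ℝ) / ((i : ℕ) + 3) := by
    rw [HH, mul_sum]; exact sum_le_sum fun i _ => (hk i).1
  rw [sum_add_distrib, sum_comm, ← sum_filter_add_sum_filter_not V
    (fun a => ∀ b ∈ pat ψ, lz a b = false ∧ lz b a = false)]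
  simp only [wt, sub_sub_cancel_left, sum_neg_distrib, ← mul_sum, ← sum_div] at h2 h3 ⊢
  linarith [HH_nonneg (q := fun i : PS 12 z => i.1)]

/-- The labels of the character expansion. -/
def hz : Option (Fin 3) × Bool × Bool → Option (Fin 3 × Bool)
  | (some u, true, false) => some (u, false)
  | (some u, false, true) => some (u, true)
  | _ => none

/-- The symbols of the character expansion. -/
def mm (x y : Option (Fin 3 × Bool)) (p r : ℕ) : ℝ :=
  match x, y with
  | some (u, true), some (v, false) => sy (some u) (some v) p r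
  | _, _ => 1

variable {ι : Type} [Fintype ι] [DecidableEq ι] {q : ι → ℕ} {z₀ : ℕ}

theorem sum_FE : ∑ τ : ι → Option (Fin 3), (∏ i, pw (q i) (τ i)) * FE q τ =
    ∑ φ : ι → Option (Fin 3 × Bool), (∏ i, wt (fun _ => false) (q i) (φ i)) *
      ∏ i, ∏ j, mm (φ i) (φ j) (q i) (q j) := by
  let E : (ι → Option (Fin 3)) × (ι → Bool) × (ι → Bool) ≃ (ι → Option (Fin 3) × Bool × Bool) :=
    ⟨fun x i => (x.1 i, x.2.2 i, x.2.1 i), fun ω => (fun i => (ω i).1, fun i => (ω i).2.2,
      fun i => (ω i).2.1), fun _ => rfl, fun _ => rfl⟩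
  have := sum_push hz (fun i y => pw (q i) y.1 * uu y.1 y.2.1 y.2.2)
    fun φ => ∏ i, ∏ j, mm (φ i) (φ j) (q i) (q j)
  rw [← E.sum_comp, Fintype.sum_prod_type] at this
  convert this using 2 with τ _ φ
  · rw [FE, Fintype.sum_prod_type, mul_sum]
    refine sum_congr rfl fun c _ => ?_
    rw [mul_sum]
    refine sum_congr rfl fun a _ => ?_
    simp only [E, Equiv.coe_fn_mk, prod_mul_distrib, mul_assoc]
    congr 1
    by_cases h : ∀ i, ¬ (a i = true ∧ c i = true)
    · congr 1
      refine prod_congr rfl fun i _ => ?_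
      rw [PP, Int.cast_prod, show (1 : ℝ) = ∏ _j : ι, 1 from prod_const_one.symm, ← prod_ite_irrel]
      refine prod_congr rfl fun j _ => ?_
      have h1 := h i
      have h2 := h j
      revert h1 h2
      rcases τ i with _ | u <;> rcases τ j with _ | v <;> cases a i <;> cases a j <;> cases c i <;>
        cases c j <;> simp [hz, mm, sy]
    · push Not at h
      obtain ⟨i, h1, h2⟩ := h
      rw [prod_eq_zero (mem_univ i) (by simp [uu, h1, h2]), zero_mul, zero_mul]
  · congr 1
    refine prod_congr rfl fun i _ => ?_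
    have : (q i : ℝ) + 3 ≠ 0 := by positivity
    simp only [sum_filter, Fintype.sum_prod_type, Fintype.sum_option, Fintype.sum_bool,
      Fin.sum_univ_three, hz, pw, uu]
    rcases φ i with _ | ⟨u, _ | _⟩
    · simp [wt]; field_simp; ring
    · fin_cases u <;> simp [wt] <;> ring
    · fin_cases u <;> simp [wt] <;> ring

theorem mm_eq (hq : PrimeSys q z₀) (φ : ι → Option (Fin 3 × Bool)) :
    ∏ i, ∏ j, mm (φ i) (φ j) (q i) (q j) = LL lz q φ *
      ((1 + ∏ i, (if φ i = some (1, true) then xi (-1) (q i) else 1) +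
        ∏ i, (if φ i = some (1, false) then xi (-1) (q i) else 1) -
        (∏ i, if φ i = some (1, true) then xi (-1) (q i) else 1) *
        ∏ i, (if φ i = some (1, false) then xi (-1) (q i) else 1)) / 2) := by
  have hx : ∀ i, xi (-1) (q i) = if q i % 4 = 3 then -1 else 1 := fun i => by
    have := (hq.hp i).odd_of_ne_two (hq.h2 i)
    rw [xi_odd this, jac_neg_one this]; split_ifs <;> simp
  let L : Bool → ι → ι → ℝ := fun b i j =>
    if ∃ u, φ i = some (u, b) then lk lz (φ i) (φ j) (q i) (q j) else 1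
  have e1 : ∀ i j, mm (φ i) (φ j) (q i) (q j) = L true i j * L false j i *
      if φ i = some (1, true) ∧ q i % 4 = 3 then
        (if φ j = some (1, false) then xi (-1) (q j) else 1) else 1 := fun i j => by
    simp only [L, hx]
    rcases φ i with _ | ⟨u, _ | _⟩ <;> rcases φ j with _ | ⟨v, _ | _⟩ <;> simp [mm, lk, lz, sy]
    rcases lt_trichotomy u v with h | rfl | h
    · simp [h, h.not_gt]; rintro rfl - rfl; simp at h
    · by_cases h : u = 1 <;> simp [h, ite_and]
    · simp [h, h.not_gt]; rintro rfl - rfl; simp at h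
  have e2 : ∀ i j, L true i j * L false i j = lk lz (φ i) (φ j) (q i) (q j) := fun i j => by
    simp only [L]
    rcases φ i with _ | ⟨u, _ | _⟩ <;> simp [lk_none_left]
  simp only [e1, prod_mul_distrib]
  rw [prod_comm (f := fun i j => L false j i)]
  rw [← prod_mul_distrib, LL]
  simp only [prod_ite_irrel, prod_const_one]
  congr 1
  · exact prod_congr rfl fun i _ => by simp only [← prod_mul_distrib, e2]
  generalize hY : ∏ j, (if φ j = some (1, false) then xi (-1) (q j) else 1) = Y
  have : Y = 1 ∨ Y = -1 := hY ▸ prod_induction _ (fun x : ℝ => x = 1 ∨ x = -1)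
    (by rintro x y (rfl | rfl) (rfl | rfl) <;> simp) (Or.inl rfl) fun j _ => by
      rw [hx]; split_ifs <;> simp
  rcases this with rfl | rfl
  · simp only [ite_self, prod_const_one]; ring
  · simp only [hx, ite_and]; ring

theorem model : ∃ C : ℝ, ∀ z ≥ 2, ∑ τ : PS 12 z → Option (Fin 3),
    (∏ i : PS 12 z, pw i (τ i)) * FE (fun i : PS 12 z => i.1) τ ≤
      2 + C * Real.exp (-(1 / 8) * HS 12 z) := by
  choose C hC using both_small
  refine ⟨(C (fun _ => false) + C (· = (1, true)) + C (· = (1, false)) + C (·.1 = 1)) / 2,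
    fun z hz => ?_⟩
  have hq := primeSys_PS (c := 12) (by norm_num) hz
  set q := fun i : PS 12 z => i.1 with hq'
  set w := fun i => wt (fun _ => false) (q i) with hw
  have hw0 : ∀ i x, 0 ≤ w i x := fun i x => by
    have : (1 : ℝ) / (q i + 3) ≤ 1 / 3 := by gcongr; linarith [(q i).cast_nonneg (α := ℝ)]
    cases x <;> simp only [hw, wt]
    · linarith
    · simp only [Bool.false_eq_true, if_false]; positivity
  have h1 : ∀ b, ∑ φ : PS 12 z → Option (Fin 3 × Bool),
      (∏ i, w i (φ i)) * ∏ i, (if ∃ u, φ i = some (u, b) then (0 : ℝ) else 1) = 1 := fun b => by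
    rw [ex_prod w fun _ x => if ∃ u, x = some (u, b) then (0 : ℝ) else 1]
    refine prod_eq_one fun i _ => ?_
    cases b <;> simp [Fintype.sum_option, Fintype.sum_prod_type, hw, wt]
  have h2 : ∀ (tw : Fin 3 × Bool → Bool) (φ : PS 12 z → Option (Fin 3 × Bool)),
      FT lz q (fun i => wt tw i) φ = (∏ i, w i (φ i)) * LL lz q φ *
        ∏ i, if ∃ l, φ i = some l ∧ tw l then xi (-1) (q i) else 1 := fun tw φ => by
    rw [FT, mul_right_comm, ← prod_mul_distrib]
    congr 1
    exact prod_congr rfl fun i _ => by cases φ i <;> simp [hw, wt, hq']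
  have a1 := abs_le.1 (hC (fun _ => false) z hz)
  have a2 := abs_le.1 (hC (· = (1, true)) z hz)
  have a3 := abs_le.1 (hC (· = (1, false)) z hz)
  have a4 := abs_le.1 (hC (·.1 = 1) z hz)
  let T := fun (tw : Fin 3 × Bool → Bool) (φ : PS 12 z → Option (Fin 3 × Bool)) =>
    if (∃ x ∈ pat φ, x.2 = false) ∧ ∃ x ∈ pat φ, x.2 = true then FT lz q (fun i => wt tw i) φ else 0
  let Z := fun (b : Bool) (φ : PS 12 z → Option (Fin 3 × Bool)) =>
    (∏ i, w i (φ i)) * ∏ i, (if ∃ u, φ i = some (u, b) then (0 : ℝ) else 1)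
  rw [sum_FE]
  refine (sum_le_sum (g := fun φ => Z true φ + Z false φ + (T (fun _ => false) φ +
    T (· = (1, true)) φ + T (· = (1, false)) φ - T (·.1 = 1) φ) / 2) fun φ _ => ?_).trans (by
      simp only [sum_add_distrib, ← sum_div, sum_sub_distrib]
      linarith [a1.2, a2.2, a3.2, a4.1, h1 true, h1 false])
  have h3 : 0 ≤ ∏ i, w i (φ i) := prod_nonneg fun i _ => hw0 _ _
  have h4 : ∀ b, 0 ≤ Z b φ := fun b =>
    mul_nonneg h3 (prod_nonneg fun i _ => by split_ifs <;> norm_num)
  by_cases hR : (∃ x ∈ pat φ, x.2 = false) ∧ ∃ x ∈ pat φ, x.2 = true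
  · have h5 : ∏ i, (if ∃ l, φ i = some l ∧ decide (l.1 = 1) then xi (-1) (q i) else 1) =
        (∏ i, if φ i = some (1, true) then xi (-1) (q i) else 1) *
          ∏ i, (if φ i = some (1, false) then xi (-1) (q i) else 1) := by
      rw [← prod_mul_distrib]
      refine prod_congr rfl fun i _ => ?_
      rcases φ i with _ | ⟨u, _ | _⟩ <;> simp
    rw [show ∏ i : PS 12 z, ∏ j : PS 12 z, mm (φ i) (φ j) i j = _ from mm_eq hq φ]
    simp only [T, if_pos hR, h2, h5]
    simp only [Bool.false_eq_true, and_false, exists_false, if_false, prod_const_one,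
      decide_eq_true_eq, exists_eq_right]
    linarith [h4 true, h4 false]
  · simp only [T, if_neg hR]
    obtain ⟨b, hb⟩ : ∃ b, ∀ i u, φ i ≠ some (u, b) := by
      by_contra h
      push Not at h
      obtain ⟨i, u, hi⟩ := h true
      obtain ⟨j, v, hj⟩ := h false
      exact hR ⟨⟨_, mem_filter.2 ⟨mem_univ _, j, hj⟩, rfl⟩, _, mem_filter.2 ⟨mem_univ _, i, hi⟩, rfl⟩
    have h5 : Z b φ = ∏ i, w i (φ i) := by simp [Z, hb]
    rw [prod_eq_one (f := fun i => ∏ j, mm _ _ _ _) fun i _ => prod_eq_one fun j _ => by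
      have h6 := hb i
      have h7 := hb j
      revert h6 h7
      rcases φ i with _ | ⟨u, _ | _⟩ <;> rcases φ j with _ | ⟨v, _ | _⟩ <;> cases b <;> simp [mm]]
    cases b <;> linarith [h4 true, h4 false]

end Pool.Agent.Lib.RankZero
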