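import Pool.Agent.Lib.MP_6073f3_nt.Z.Defs
import Pool.Agent.Lib.MP_d48457_nt.LargeSieve

/-!
Fourier analysis for the Barban-Davenport-Halberstam theorem.
-/

namespace Pool.Agent.Lib.RankZero

open Finset
open Pool.Agent.Lib.MP_d48457_nt

/-- The additive character at a rational point. -/
noncomputable def bdhE (q : ℚ) (n : ℕ) : ℂ := ee ((n : ℝ) * q)

lemma bdh_norm (q : ℚ) (n : ℕ) : ‖bdhE q n‖ = 1 := norm_ee _

lemma bdh_add (q : ℚ) (m n : ℕ) : bdhE q (m + n) = bdhE q m * bdhE q n := by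
  unfold bdhE
  rw [← ee_add]
  congr 1
  push_cast
  ring

lemma bdh_one {q : ℚ} {P : ℕ} (h : q.den ∣ P) : bdhE q P = 1 := by
  obtain ⟨c, rfl⟩ := h
  unfold bdhE
  rw [← ee_int (q.num * c)]
  congr 1
  have : (q : ℝ) * q.den = q.num := by exact_mod_cast Rat.mul_den_eq_num q
  push_cast
  rw [← this]
  ring

lemma bdh_mod {q : ℚ} {Q : ℕ} (h : q.den ∣ Q) (n : ℕ) : bdhE q (n % Q) = bdhE q n := by
  conv_rhs => rw [← Nat.mod_add_div n Q, bdh_add, bdh_one (h.mul_right _), mul_one]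

lemma bdh_pow (q : ℚ) (n : ℕ) : bdhE q n = bdhE q 1 ^ n := by
  induction n with
  | zero => simp [bdhE, ee_zero]
  | succ n ih => rw [bdh_add, ih, pow_succ]

lemma bdh_orth {q : ℚ} {P : ℕ} (h : q.den ∣ P) :
    ∑ n ∈ range P, bdhE q n = if q.den = 1 then (P : ℂ) else 0 := by
  split_ifs with h1
  · rw [sum_congr rfl fun n _ => bdh_one (h1 ▸ one_dvd n)]
    simp
  · have h2 : bdhE q 1 ≠ 1 := by
      intro h3
      obtain ⟨n, hn⟩ := ee_eq_one_iff.1 h3
      apply h1
      have : q = n := by exact_mod_cast (by simpa using hn : (q : ℝ) = n)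
      rw [this]
      rfl
    have h3 := mul_geom_sum (bdhE q 1) P
    rw [← bdh_pow, bdh_one h, sub_self, mul_eq_zero, sub_eq_zero] at h3
    rw [sum_congr rfl fun n _ => bdh_pow q n]
    exact h3.resolve_left h2

lemma bdh_parseval (D : ℕ → ℝ) {Q : ℕ} (hQ : 1 ≤ Q) :
    ∑ m ∈ range Q, ‖∑ k ∈ range Q, (D k : ℂ) * bdhE ((m : ℚ) / Q) k‖ ^ 2 =
      Q * ∑ k ∈ range Q, D k ^ 2 := by
  have hQ0 : (Q : ℤ) ≠ 0 := by omega
  have key : ∀ k ∈ range Q, ∀ l ∈ range Q,
      ∑ m ∈ range Q, bdhE ((m : ℚ) / Q) k * (starRingEnd ℂ) (bdhE ((m : ℚ) / Q) l) =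
        if k = l then (Q : ℂ) else 0 := by
    intro k hk l hl
    have h1 : ∀ m : ℕ, bdhE ((m : ℚ) / Q) k * (starRingEnd ℂ) (bdhE ((m : ℚ) / Q) l) =
        bdhE ((((k : ℤ) - l : ℤ) : ℚ) / ((Q : ℤ) : ℚ)) m := by
      intro m
      unfold bdhE
      rw [conj_ee, ← ee_add]
      congr 1
      push_cast
      ring
    have h2 : ((((k : ℤ) - l : ℤ) : ℚ) / ((Q : ℤ) : ℚ)).den ∣ Q := by
      have := Rat.den_dvd ((k : ℤ) - l) Q
      rw [Rat.divInt_eq_div] at this
      exact_mod_cast this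
    rw [sum_congr rfl fun m _ => h1 m, bdh_orth h2]
    simp only [Rat.den_div_intCast_eq_one_iff _ _ hQ0]
    refine if_congr ⟨fun h => ?_, fun h => by simp [h]⟩ rfl rfl
    have := Int.eq_zero_of_abs_lt_dvd h (by
      simp only [mem_range] at hk hl
      rw [abs_lt]
      omega)
    omega
  have : ((∑ m ∈ range Q, ‖∑ k ∈ range Q, (D k : ℂ) * bdhE ((m : ℚ) / Q) k‖ ^ 2 : ℝ) : ℂ) =
      ((Q * ∑ k ∈ range Q, D k ^ 2 : ℝ) : ℂ) := by
    push_cast
    simp_rw [← Complex.mul_conj', map_sum, sum_mul_sum, map_mul, Complex.conj_ofReal]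
    rw [sum_comm, mul_sum]
    refine sum_congr rfl fun k hk => ?_
    rw [sum_comm]
    have : ∀ l ∈ range Q, ∑ m ∈ range Q, (D k : ℂ) * bdhE ((m : ℚ) / Q) k *
        ((D l : ℂ) * (starRingEnd ℂ) (bdhE ((m : ℚ) / Q) l)) =
        if k = l then (D k : ℂ) * D l * Q else 0 := by
      intro l hl
      simp_rw [mul_mul_mul_comm (D k : ℂ)]
      rw [← mul_sum, key k hk l hl]
      split_ifs <;> simp
    rw [sum_congr rfl this, sum_ite_eq, if_pos hk]
    ring
  exact_mod_cast this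

lemma bdh_cls (f : ℕ → ℝ) {q : ℚ} {Q : ℕ} (hQ : 1 ≤ Q) (h : q.den ∣ Q) (lo hi : ℕ) :
    ∑ k ∈ range Q, (cls f Q k lo hi : ℂ) * bdhE q k = ∑ n ∈ Ioc lo hi, (f n : ℂ) * bdhE q n := by
  rw [← sum_fiberwise_of_maps_to (s := Ioc lo hi) (t := range Q) (g := fun n => n % Q)
    (fun n _ => mem_range.2 (Nat.mod_lt _ hQ))]
  refine sum_congr rfl fun k _ => ?_
  unfold cls
  push_cast
  rw [sum_mul]
  refine sum_congr rfl fun n hn => ?_
  rw [← (mem_filter.1 hn).2, bdh_mod h]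

lemma bdh_den (p : ℕ) (q : ℚ) : ((p : ℚ) * q).den = q.den / Nat.gcd p q.den := by
  rw [Rat.mul_den]
  simp only [Rat.den_natCast, one_mul, Rat.num_natCast, Int.natAbs_mul, Int.natAbs_natCast]
  rw [Nat.Coprime.gcd_mul_right_cancel _ q.reduced]

lemma bdh_gq (p n : ℕ) (hp : p.Prime) :
    gq p n = 1 / ((p : ℝ) - 1) - p / ((p : ℝ) - 1) * if p ∣ n then 1 else 0 := by
  have : (p : ℝ) - 1 ≠ 0 := by
    have : (2 : ℝ) ≤ p := by exact_mod_cast hp.two_le
    linarith
  unfold gq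
  split_ifs
  · field_simp
    ring
  · simp

lemma bdh_mean (s : Finset ℕ) (hs : ∀ p ∈ s, p.Prime) : ∀ (q : ℚ) (P : ℕ),
    q.den * ∏ p ∈ s, p ∣ P → ∑ n ∈ range P, ((∏ p ∈ s, gq p n : ℝ) : ℂ) * bdhE q n =
      if q.den = ∏ p ∈ s, p then (P : ℂ) * ((∏ p ∈ s, -(1 / ((p : ℝ) - 1)) : ℝ) : ℂ) else 0 := by
  induction s using Finset.induction_on with
  | empty =>
    intro q P h
    simpa using bdh_orth (by simpa using h)
  | insert p s hps ih =>
    intro q P h
    have hp := hs p (mem_insert_self _ _)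
    have hs' : ∀ l ∈ s, l.Prime := fun l hl => hs l (mem_insert_of_mem hl)
    have hcop : ¬p ∣ ∏ l ∈ s, l := by
      intro hd
      obtain ⟨l, hl, hd'⟩ := (Prime.dvd_finsetProd_iff hp.prime _).1 hd
      exact hps (((Nat.prime_dvd_prime_iff_eq hp (hs' l hl)).1 hd') ▸ hl)
    simp only [prod_insert hps] at h ⊢
    obtain ⟨c, rfl⟩ := h
    set P' := q.den * (∏ l ∈ s, l) * c with hP'
    have hP : q.den * (p * ∏ l ∈ s, l) * c = p * P' := by rw [hP']; ring
    rw [hP]
    have h1 := ih hs' q (p * P') ⟨p * c, by rw [hP']; ring⟩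
    have hden := bdh_den p q
    have h2 := ih hs' ((p : ℚ) * q) P' (by
      rw [hP', hden]
      exact (mul_dvd_mul_right (Nat.div_dvd_of_dvd (Nat.gcd_dvd_right _ _)) _).mul_right c)
    have h3 : ∑ n ∈ range (p * P'), (if p ∣ n then ((∏ l ∈ s, gq l n : ℝ) : ℂ) * bdhE q n else 0) =
        ∑ n ∈ range P', ((∏ l ∈ s, gq l n : ℝ) : ℂ) * bdhE ((p : ℚ) * q) n := by
      rw [← sum_filter]
      symm
      refine sum_bij (fun n _ => p * n) (fun n hn => ?_) (fun a _ b _ hab => ?_) (fun n hn => ?_)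
        fun n _ => ?_
      · exact mem_filter.2 ⟨mem_range.2 (Nat.mul_lt_mul_of_pos_left (mem_range.1 hn) hp.pos),
          dvd_mul_right _ _⟩
      · exact Nat.eq_of_mul_eq_mul_left hp.pos hab
      · obtain ⟨h4, m, rfl⟩ := mem_filter.1 hn
        exact ⟨m, mem_range.2 (Nat.lt_of_mul_lt_mul_left (mem_range.1 h4)), rfl⟩
      · congr 1
        · congr 1
          refine prod_congr rfl fun l hl => ?_
          have hl' := hs' l hl
          have : l ∣ p * n ↔ l ∣ n := by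
            refine Nat.Coprime.dvd_mul_left ((Nat.coprime_primes hl' hp).2 ?_)
            rintro rfl
            exact hps hl
          simp only [gq, this]
        · unfold bdhE
          congr 1
          push_cast
          ring
    have h4 : ∑ n ∈ range (p * P'), ((gq p n * ∏ l ∈ s, gq l n : ℝ) : ℂ) * bdhE q n =
        ((1 / ((p : ℝ) - 1) : ℝ) : ℂ) *
          ((∑ n ∈ range (p * P'), ((∏ l ∈ s, gq l n : ℝ) : ℂ) * bdhE q n) - p *
          ∑ n ∈ range (p * P'),
            (if p ∣ n then ((∏ l ∈ s, gq l n : ℝ) : ℂ) * bdhE q n else 0)) := by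
      rw [mul_sum, ← sum_sub_distrib, mul_sum]
      refine sum_congr rfl fun n _ => ?_
      rw [bdh_gq p n hp]
      split_ifs <;> push_cast <;> ring
    rw [h4, h3, h1, h2, hden]
    by_cases hd : p ∣ q.den
    · rw [Nat.gcd_eq_left hd, if_neg fun h5 : q.den = ∏ l ∈ s, l => hcop (h5 ▸ hd)]
      obtain ⟨e, he⟩ := hd
      rw [he, Nat.mul_div_cancel_left _ hp.pos]
      simp only [Nat.mul_right_inj hp.ne_zero]
      split_ifs
      · push_cast; ring
      · simp
    · rw [(Nat.Prime.coprime_iff_not_dvd hp).2 hd, Nat.div_one,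
        if_neg fun h5 : q.den = p * ∏ l ∈ s, l => hd (h5 ▸ dvd_mul_right _ _)]
      split_ifs
      · push_cast; ring
      · simp

/-- The Fourier coefficient of the main term. -/
noncomputable def bdhC (r : ℕ) : ℝ :=
  if Squarefree r then ∏ p ∈ r.primeFactors, -(1 / ((p : ℝ) - 1)) else 0

lemma bdh_cop {Q : ℕ} (hQ : 1 ≤ Q) (k : ℕ) :
    (if k.Coprime Q then (Q : ℝ) / Q.totient else 0) = ∏ p ∈ Q.primeFactors, (1 + gq p k) := by
  split_ifs with h
  · have h1 : (Q.totient : ℝ) * ∏ p ∈ Q.primeFactors, (p : ℝ) =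
        Q * ∏ p ∈ Q.primeFactors, ((p : ℝ) - 1) := by
      have := congrArg (Nat.cast : ℕ → ℝ) (Nat.totient_mul_prod_primeFactors Q)
      push_cast at this
      rw [this]
      congr 1
      refine prod_congr rfl fun p hp => ?_
      rw [Nat.cast_sub (Nat.prime_of_mem_primeFactors hp).one_le, Nat.cast_one]
    have h2 : ∀ p ∈ Q.primeFactors, (p : ℝ) - 1 ≠ 0 := by
      intro p hp
      have : (2 : ℝ) ≤ p := by exact_mod_cast (Nat.prime_of_mem_primeFactors hp).two_le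
      linarith
    have h3 : ∀ p ∈ Q.primeFactors, 1 + gq p k = p / ((p : ℝ) - 1) := by
      intro p hp
      have h4 : ¬p ∣ k := fun h5 => (Nat.prime_of_mem_primeFactors hp).one_lt.ne'
        (Nat.eq_one_of_dvd_coprimes h h5 (Nat.dvd_of_mem_primeFactors hp))
      have := h2 p hp
      simp only [gq, if_neg h4]
      field_simp
      ring
    have h5 : (Q.totient : ℝ) ≠ 0 := by exact_mod_cast (Nat.totient_pos.2 hQ).ne'
    rw [prod_congr rfl h3, prod_div_distrib, div_eq_div_iff h5 (prod_ne_zero_iff.2 h2), ← h1,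
      mul_comm]
  · obtain ⟨p, hp, h1, h2⟩ := Nat.Prime.not_coprime_iff_dvd.1 h
    symm
    refine prod_eq_zero (Nat.mem_primeFactors.2 ⟨hp, h2, by omega⟩) ?_
    simp [gq, h1]

lemma bdh_unit {q : ℚ} {Q : ℕ} (hQ : 1 ≤ Q) (h : q.den ∣ Q) (H : ℝ) :
    ∑ k ∈ range Q, ((if k.Coprime Q then H / Q.totient else 0 : ℝ) : ℂ) * bdhE q k =
      (H * bdhC q.den : ℝ) := by
  have hQ0 : (Q : ℂ) ≠ 0 := by exact_mod_cast (by omega : Q ≠ 0)
  have hQ1 : (Q : ℝ) ≠ 0 := by exact_mod_cast (by omega : Q ≠ 0)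
  have h0 : ∀ k : ℕ, (if k.Coprime Q then H / Q.totient else 0 : ℝ) =
      H / Q * ∑ t ∈ Q.primeFactors.powerset, ∏ p ∈ t, gq p k := by
    intro k
    rw [← prod_one_add, ← bdh_cop hQ]
    split_ifs
    · field_simp
    · simp
  have hper : ∀ g : ℕ → ℂ, (∀ k, g (k % Q) = g k) →
      ∑ k ∈ range (Q * Q), g k = Q * ∑ k ∈ range Q, g k := by
    intro g hg
    have : ∀ j : ℕ, ∑ k ∈ range (Q * j), g k = j * ∑ k ∈ range Q, g k := by
      intro j
      induction j with
      | zero => simp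
      | succ j ih =>
        rw [Nat.mul_succ, sum_range_add, ih]
        push_cast
        rw [add_mul, one_mul]
        congr 1
        refine sum_congr rfl fun k _ => ?_
        rw [← hg, Nat.mul_add_mod, hg]
    exact this Q
  have h1 : ∀ t ∈ Q.primeFactors.powerset,
      ∑ k ∈ range Q, ((∏ p ∈ t, gq p k : ℝ) : ℂ) * bdhE q k =
      if q.den = ∏ p ∈ t, p then (Q : ℂ) * ((∏ p ∈ t, -(1 / ((p : ℝ) - 1)) : ℝ) : ℂ) else 0 := by
    intro t ht
    have ht' := mem_powerset.1 ht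
    have h2 := bdh_mean t (fun p hp => Nat.prime_of_mem_primeFactors (ht' hp)) q (Q * Q)
      (mul_dvd_mul h ((prod_dvd_prod_of_subset _ _ _ ht').trans (Nat.prod_primeFactors_dvd Q)))
    rw [hper _ fun k => by
      rw [bdh_mod h]
      congr 2
      refine prod_congr rfl fun p hp => ?_
      simp only [gq, Nat.dvd_mod_iff (Nat.dvd_of_mem_primeFactors (ht' hp))]] at h2
    apply mul_left_cancel₀ hQ0
    rw [h2]
    split_ifs
    · push_cast; ring
    · simp
  simp_rw [h0]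
  push_cast
  simp_rw [mul_assoc, sum_mul]
  rw [← mul_sum, sum_comm]
  push_cast at h1
  rw [sum_congr rfl h1, sum_eq_single q.den.primeFactors]
  · unfold bdhC
    by_cases hs : Squarefree q.den
    · rw [if_pos hs, if_pos (Nat.prod_primeFactors_of_squarefree hs).symm]
      push_cast
      field_simp
    · rw [if_neg hs, if_neg]
      · simp
      · intro h2
        apply hs
        rw [h2]
        refine Finset.squarefree_prod_of_pairwise_isCoprime (fun a ha b hb hab => ?_)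
          fun a ha => (Nat.prime_of_mem_primeFactors ha).squarefree
        exact Nat.coprime_iff_isRelPrime.1 ((Nat.coprime_primes
          (Nat.prime_of_mem_primeFactors ha) (Nat.prime_of_mem_primeFactors hb)).2 hab)
  · intro t ht hne
    rw [if_neg]
    intro h2
    apply hne
    rw [h2, Nat.primeFactors_prod fun p hp => Nat.prime_of_mem_primeFactors (mem_powerset.1 ht hp)]
  · intro hn
    exact absurd (mem_powerset.2 (Nat.primeFactors_mono h (by omega))) hn

lemma bdh_eth {q : ℚ} {Q : ℕ} (hQ : 1 ≤ Q) (h : q.den ∣ Q) (lo hi : ℕ) :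
    ∑ k ∈ range Q, (Eth Q k lo hi : ℂ) * bdhE q k =
      ∑ n ∈ Ioc lo hi, (th n : ℂ) * bdhE q n - (((hi - lo : ℕ) : ℝ) * bdhC q.den : ℝ) := by
  rw [← bdh_cls th hQ h, ← bdh_unit hQ h, ← sum_sub_distrib]
  refine sum_congr rfl fun k _ => ?_
  unfold Eth
  rw [Complex.ofReal_sub, sub_mul]

lemma bdh_periodic (f : ℕ → ℂ) {P : ℕ} (hP : 1 ≤ P) (hf : ∀ n, f (n + P) = f n)
    (hb : ∀ n, ‖f n‖ ≤ 1) (μ : ℂ) (hμ : ∑ n ∈ range P, f n = P * μ) {lo hi : ℕ} (h : lo ≤ hi) :
    ‖∑ n ∈ Ioc lo hi, f n - ((hi - lo : ℕ) : ℂ) * μ‖ ≤ 4 * P := by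
  have hP0 : (0 : ℝ) < P := by exact_mod_cast hP
  have hμ1 : ‖μ‖ ≤ 1 := by
    have h1 : ‖(P : ℂ) * μ‖ ≤ P := by
      rw [← hμ]
      refine (norm_sum_le _ _).trans ((sum_le_sum fun n _ => hb n).trans ?_)
      simp
    rw [norm_mul, Complex.norm_natCast] at h1
    nlinarith
  have h1 : ∀ M, ∑ n ∈ range (M + P), (f n - μ) = ∑ n ∈ range M, (f n - μ) := by
    intro M
    induction M with
    | zero => simp [hμ]
    | succ M ih => rw [add_right_comm, sum_range_succ, sum_range_succ, ih, hf]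
  have h2 : ∀ M, ‖∑ n ∈ range M, (f n - μ)‖ ≤ 2 * P := by
    intro M
    induction M using Nat.strong_induction_on with
    | _ M ih =>
      rcases lt_or_ge M P with h3 | h3
      · refine (norm_sum_le _ _).trans ((sum_le_sum (g := fun _ => (2 : ℝ)) fun n _ =>
          (norm_sub_le _ _).trans (by linarith [hb n])).trans ?_)
        have : (M : ℝ) ≤ P := by exact_mod_cast h3.le
        simp only [sum_const, card_range, nsmul_eq_mul]
        linarith
      · obtain ⟨M', rfl⟩ := Nat.exists_eq_add_of_le' h3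
        rw [h1]
        exact ih M' (by omega)
  have h3 : ∑ n ∈ Ioc lo hi, f n - ((hi - lo : ℕ) : ℂ) * μ =
      ∑ n ∈ range (hi + 1), (f n - μ) - ∑ n ∈ range (lo + 1), (f n - μ) := by
    rw [← sum_Ico_eq_sub _ (by omega), Ico_add_one_add_one_eq_Ioc, sum_sub_distrib]
    simp
  rw [h3]
  refine (norm_sub_le _ _).trans ?_
  linarith [h2 (hi + 1), h2 (lo + 1)]

lemma bdh_lam_le (r n : ℕ) : |lam r n| ≤ 1 := by
  unfold lam
  rw [abs_prod]
  refine prod_le_one (fun _ _ => abs_nonneg _) fun p hp => ?_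
  have : (2 : ℝ) ≤ p := by exact_mod_cast (Nat.prime_of_mem_primeFactors hp).two_le
  unfold gq
  split_ifs
  · simp
  · rw [abs_of_nonneg (div_nonneg zero_le_one (by linarith)), div_le_one (by linarith)]
    linarith

lemma bdh_eh {q : ℚ} {Q : ℕ} (hQ : 1 ≤ Q) (h : q.den ∣ Q) (R : ℕ) {lo hi : ℕ} (hl : lo ≤ hi) :
    ‖∑ k ∈ range Q, (Eh R Q k lo hi : ℂ) * bdhE q k -
      (∑ n ∈ Ioc lo hi, (th n : ℂ) * bdhE q n -
        if q.den ≤ R then ((((hi - lo : ℕ) : ℝ) * bdhC q.den : ℝ) : ℂ) else 0)‖ ≤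
      4 * R ^ 2 * Q := by
  unfold Eh
  rw [bdh_cls _ hQ h]
  set μ : ℕ → ℂ := fun r => if q.den = r then (bdhC q.den : ℂ) else 0 with hμ
  have h1 : (if q.den ≤ R then ((((hi - lo : ℕ) : ℝ) * bdhC q.den : ℝ) : ℂ) else 0) =
      ∑ r ∈ (Icc 1 R).filter Squarefree, ((hi - lo : ℕ) : ℂ) * μ r := by
    rw [← mul_sum, hμ, sum_ite_eq]
    by_cases hs : Squarefree q.den
    · have := q.den_pos
      simp only [mem_filter, mem_Icc, hs, and_true, show 1 ≤ q.den from this, true_and]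
      split_ifs <;> simp
    · simp [bdhC, hs]
  have h2 : ∑ n ∈ Ioc lo hi, ((th n - Ls R n : ℝ) : ℂ) * bdhE q n =
      ∑ n ∈ Ioc lo hi, (th n : ℂ) * bdhE q n -
        ∑ r ∈ (Icc 1 R).filter Squarefree, ∑ n ∈ Ioc lo hi, (lam r n : ℂ) * bdhE q n := by
    rw [sum_comm, ← sum_sub_distrib]
    refine sum_congr rfl fun n _ => ?_
    unfold Ls
    push_cast
    rw [sub_mul, sum_mul]
  rw [h1, h2, sub_sub_sub_cancel_left, ← sum_sub_distrib]
  refine (norm_sum_le _ _).trans ((sum_le_sum (g := fun _ => (4 * R * Q : ℝ)) fun r hr => ?_).trans ?_)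
  · obtain ⟨h3, h4⟩ := mem_filter.1 hr
    obtain ⟨h5, h6⟩ := mem_Icc.1 h3
    rw [norm_sub_rev]
    refine (bdh_periodic _ (P := Q * r) (Nat.mul_pos hQ h5) (fun n => ?_) (fun n => ?_) (μ r) ?_
      hl).trans ?_
    · rw [bdh_add, bdh_one (h.mul_right r), mul_one]
      congr 2
      refine prod_congr rfl fun p hp => ?_
      simp only [gq, Nat.dvd_add_left ((Nat.dvd_of_mem_primeFactors hp).mul_left Q)]
    · rw [norm_mul, bdh_norm, mul_one, Complex.norm_real]
      exact bdh_lam_le r n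
    · have h7 := Nat.prod_primeFactors_of_squarefree h4
      have := bdh_mean r.primeFactors (fun p hp => Nat.prime_of_mem_primeFactors hp) q (Q * r)
        (by rw [h7]; exact mul_dvd_mul_right h r)
      rw [h7] at this
      unfold lam
      rw [this, hμ]
      dsimp only
      split_ifs with h8
      · rw [h8, bdhC, if_pos h4]
      · simp
    · have : (r : ℝ) ≤ R := by exact_mod_cast h6
      push_cast
      nlinarith [Nat.cast_nonneg (α := ℝ) Q]
  · have : (((Icc 1 R).filter Squarefree).card : ℝ) ≤ R := by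
      exact_mod_cast (card_filter_le _ _).trans (by simp)
    rw [sum_const, nsmul_eq_mul]
    nlinarith [mul_nonneg (Nat.cast_nonneg (α := ℝ) R) (Nat.cast_nonneg (α := ℝ) Q)]

end Pool.Agent.Lib.RankZero
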