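import Pool.Agent.Lib.MP_6073f3_nt.Z.BDH1
import Pool.Agent.Lib.MP_fb430f_co.Circle

/-!
The maximal large sieve and averaging over moduli.
-/

namespace Pool.Agent.Lib.RankZero

open Finset
open Pool.Agent.Lib.MP_d48457_nt

lemma bdh_max {D K : ℝ} (hD : 1 ≤ D) (g : ℤ → ℝ) (hg : ∀ k, |g k| ≤ 1) (m : ℕ) :
    ∀ A : ℤ, 2 ^ m + D ^ 2 * (1 + 2 * Real.log D) ≤ K → ∃ F : ℚ → ℝ,
      (∀ (q : ℚ) (M : ℕ), M ≤ 2 ^ m → ‖ghat g (Ico A (A + M)) q‖ ^ 2 ≤ F q) ∧
      ∑ q ∈ farey D, F q ≤ (m + 1) ^ 2 * K * 2 ^ m := by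
  induction m with
  | zero =>
    intro A hK
    refine ⟨fun q => ‖ghat g (Ico A (A + (1 : ℕ))) q‖ ^ 2, fun q M hM => ?_, ?_⟩
    · rcases Nat.le_one_iff_eq_zero_or_eq_one.1 hM with rfl | rfl
      · simp [ghat]
      · exact le_rfl
    · refine (ls_farey hD g hg A 1).trans ?_
      simpa using hK
  | succ m ih =>
    intro A hK
    have h2 : (0 : ℝ) < 2 ^ m := by positivity
    have hK' : 2 ^ m + D ^ 2 * (1 + 2 * Real.log D) ≤ K := by
      rw [pow_succ] at hK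
      linarith
    have hK0 : 0 ≤ K := by
      have := Real.log_nonneg hD
      exact le_trans (by positivity) hK'
    obtain ⟨F₁, a1, b1⟩ := ih A hK'
    obtain ⟨F₂, a2, b2⟩ := ih (A + (2 ^ m : ℕ)) hK'
    have c := ls_farey hD g hg A (2 ^ m)
    have hm : (0 : ℝ) < m + 1 := by positivity
    refine ⟨fun q => (m + 2) / (m + 1) * (F₁ q + F₂ q) +
      (m + 2) * ‖ghat g (Ico A (A + (2 ^ m : ℕ))) q‖ ^ 2, fun q M hM => ?_, ?_⟩
    · have f1 : 0 ≤ F₁ q := le_trans (sq_nonneg _) (a1 q 0 (Nat.zero_le _))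
      have f2 : 0 ≤ F₂ q := le_trans (sq_nonneg _) (a2 q 0 (Nat.zero_le _))
      have t1 : (1 : ℝ) ≤ (m + 2) / (m + 1) := by
        rw [le_div_iff₀ hm]; linarith
      rcases le_total M (2 ^ m) with h | h
      · have := a1 q M h
        have : 0 ≤ ((m : ℝ) + 2) * ‖ghat g (Ico A (A + (2 ^ m : ℕ))) q‖ ^ 2 := by positivity
        dsimp only
        nlinarith
      · obtain ⟨M', rfl⟩ := Nat.exists_eq_add_of_le h
        have hM' : M' ≤ 2 ^ m := by rw [pow_succ] at hM; omega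
        have e : ghat g (Ico A (A + ((2 ^ m + M' : ℕ) : ℤ))) q =
            ghat g (Ico A (A + (2 ^ m : ℕ))) q +
              ghat g (Ico (A + (2 ^ m : ℕ)) (A + (2 ^ m : ℕ) + M')) q := by
          unfold ghat
          rw [← sum_union (Ico_disjoint_Ico_consecutive _ _ _),
            Ico_union_Ico_eq_Ico (by omega) (by omega), Nat.cast_add, add_assoc]
        have h3 := a2 q M' hM'
        rw [e]
        dsimp only
        set u := ‖ghat g (Ico A (A + (2 ^ m : ℕ))) q‖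
        set v := ‖ghat g (Ico (A + (2 ^ m : ℕ)) (A + (2 ^ m : ℕ) + M')) q‖
        have h4 : (u + v) ^ 2 ≤ (m + 2) / (m + 1) * v ^ 2 + (m + 2) * u ^ 2 := by
          have : (m + 2) / (m + 1) * v ^ 2 + (m + 2) * u ^ 2 - (u + v) ^ 2 =
              ((m + 1) * u - v) ^ 2 / (m + 1) := by
            field_simp
            ring
          have h5 : 0 ≤ (((m : ℝ) + 1) * u - v) ^ 2 / (m + 1) := by positivity
          linarith
        refine (pow_le_pow_left₀ (norm_nonneg _) (norm_add_le _ _) 2).trans (h4.trans ?_)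
        gcongr
        linarith
    · rw [sum_add_distrib, ← mul_sum, ← mul_sum, sum_add_distrib]
      push_cast at c ⊢
      have c' : ∑ q ∈ farey D, ‖ghat g (Ico A (A + 2 ^ m)) q‖ ^ 2 ≤ K * 2 ^ m :=
        c.trans (by gcongr)
      have h5 : ((m : ℝ) + 2) / (m + 1) * (∑ q ∈ farey D, F₁ q + ∑ q ∈ farey D, F₂ q) ≤
          (m + 2) / (m + 1) * (2 * ((m + 1) ^ 2 * K * 2 ^ m)) := by
        gcongr
        linarith
      have h6 : ((m : ℝ) + 2) / (m + 1) * (2 * ((m + 1) ^ 2 * K * 2 ^ m)) =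
          (m + 2) * (m + 1) * 2 * (K * 2 ^ m) := by
        field_simp
      have h7 : ((m : ℝ) + 2) * ∑ q ∈ farey D, ‖ghat g (Ico A (A + 2 ^ m)) q‖ ^ 2 ≤
          (m + 2) * (K * 2 ^ m) := by gcongr
      have h8 : 0 ≤ ((m : ℝ) + 2) * (K * 2 ^ m) := by positivity
      rw [pow_succ (2 : ℝ) m]
      nlinarith

/-- The exponential sum over primes. -/
noncomputable def bdhS (M : ℕ) (q : ℚ) : ℂ := ∑ n ∈ Ioc 0 M, (th n : ℂ) * bdhE q n

lemma bdh_large {N : ℕ} (hN : 8 ≤ N) {ρ : ℝ} (hρ : 1 ≤ ρ) (hρN : ρ ^ 5 = N) :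
    ∃ e : ℕ → ℝ, (∀ r, 0 ≤ e r) ∧ (∀ s : Finset ℕ, ∑ r ∈ s, e r ≤ 768 * Real.log N ^ 6) ∧
      ∀ X M r : ℕ, N ≤ X ^ 2 → X ≤ 4 * N → M ≤ X →
        ∑ q ∈ farey ρ with q.den = r, ‖bdhS M q‖ ^ 2 ≤ 4 * X ^ 2 * e r := by
  classical
  set L := Real.log N with hL
  have hN' : (8 : ℝ) ≤ N := by exact_mod_cast hN
  have hl2 := Real.log_two_gt_d9
  have hL1 : 1 ≤ L := by
    have : Real.log 8 ≤ L := Real.log_le_log (by norm_num) hN'
    rw [show (8 : ℝ) = 2 ^ 3 by norm_num, Real.log_pow] at this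
    push_cast at this
    linarith
  have hlog : ∀ x : ℝ, 0 < x → x ≤ 8 * N → Real.log x ≤ 2 * L := by
    intro x h0 h1
    have : Real.log x ≤ Real.log (N ^ 2) := Real.log_le_log h0 (by nlinarith)
    rw [Real.log_pow] at this
    exact_mod_cast this
  set g : ℤ → ℝ := fun k => if k ≤ 8 * N then th k.toNat / (2 * L) else 0 with hg
  have hg1 : ∀ k, |g k| ≤ 1 := by
    intro k
    simp only [hg, th]
    split_ifs with h1 h2
    · rw [abs_of_nonneg (div_nonneg (Real.log_natCast_nonneg _) (by linarith)),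
        div_le_one (by linarith)]
      refine hlog _ (by exact_mod_cast h2.pos) ?_
      have : k.toNat ≤ 8 * N := by omega
      exact_mod_cast this
    · simp
    · simp
  have hS : ∀ (M : ℕ) (q : ℚ), M ≤ 8 * N →
      bdhS M q = ((2 * L : ℝ) : ℂ) * ghat g (Ico 1 (1 + (M : ℤ))) q := by
    intro M q hM
    unfold bdhS ghat
    rw [mul_sum]
    refine sum_bij (fun n _ => (n : ℤ)) (fun n hn => ?_) (fun a _ b _ hab => ?_) (fun n hn => ?_)
      fun n hn => ?_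
    · simp only [mem_Ioc, mem_Ico] at hn ⊢
      omega
    · exact_mod_cast hab
    · simp only [mem_Ioc, mem_Ico] at hn ⊢
      exact ⟨n.toNat, by omega, by omega⟩
    · have h1 : (n : ℤ) ≤ 8 * N := by
        have := (mem_Ioc.1 hn).2
        omega
      have h2 : (L : ℂ) ≠ 0 := by exact_mod_cast (by linarith : L ≠ 0)
      simp only [hg, if_pos h1, Int.toNat_natCast, bdhE]
      push_cast
      field_simp
  set J := (range (Nat.log 2 (8 * N) + 1)).filter fun m => N ≤ 4 ^ m ∧ 2 ^ m ≤ 8 * N with hJ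
  have hm : ∀ m : ℕ, 2 ^ m ≤ 8 * N → (m : ℝ) + 1 ≤ 4 * L := by
    intro m h
    have h1 := hlog (2 ^ m) (by positivity) (by exact_mod_cast h)
    rw [Real.log_pow] at h1
    nlinarith [Nat.cast_nonneg (α := ℝ) m]
  have hJc : (J.card : ℝ) ≤ 4 * L := by
    refine le_trans ?_ (hm (Nat.log 2 (8 * N)) (Nat.pow_log_le_self 2 (by omega)))
    exact_mod_cast (card_filter_le _ _).trans (card_range _).le
  have hlρ : Real.log ρ ≤ L := by
    have h1 : L = 5 * Real.log ρ := by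
      rw [hL, ← hρN, Real.log_pow]
      norm_num
    linarith [Real.log_nonneg hρ]
  have hF : ∀ m : ℕ, ∃ F : ℚ → ℝ, (∀ q, 0 ≤ F q) ∧ (m ∈ J →
      (∀ (q : ℚ) (M : ℕ), M ≤ 2 ^ m → ‖ghat g (Ico 1 (1 + (M : ℤ))) q‖ ^ 2 ≤ F q) ∧
      ∑ q ∈ farey ρ, F q ≤ 48 * L ^ 3 * 4 ^ m) := by
    intro m
    by_cases hmJ : m ∈ J
    · obtain ⟨-, h1, h2⟩ := mem_filter.1 hmJ
      have h3 : ρ ^ 2 ≤ 2 ^ m := by
        refine le_of_pow_le_pow_left₀ (n := 2) (by norm_num) (by positivity) ?_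
        have h3 : (N : ℝ) ≤ 4 ^ m := by exact_mod_cast h1
        rw [← pow_mul, ← pow_mul, mul_comm m, pow_mul (2 : ℝ), show (2 : ℝ) ^ 2 = 4 by norm_num]
        exact (pow_le_pow_right₀ hρ (by norm_num)).trans (hρN.le.trans h3)
      have h4 : (0 : ℝ) < 2 ^ m := by positivity
      have h5 := Real.log_nonneg hρ
      have h6 : 5 * Real.log ρ = L := by
        rw [hL, ← hρN, Real.log_pow]
        norm_num
      obtain ⟨F, a, b⟩ := bdh_max (K := 3 * L * 2 ^ m) hρ g hg1 m 1 (by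
        have : ρ ^ 2 * (1 + 2 * Real.log ρ) ≤ 2 ^ m * (2 * L) := by
          gcongr
          linarith
        nlinarith)
      refine ⟨F, fun q => le_trans (sq_nonneg _) (a q 0 (Nat.zero_le _)), fun _ => ⟨a, b.trans ?_⟩⟩
      have h7 := hm m h2
      rw [show (4 : ℝ) ^ m = 2 ^ m * 2 ^ m by rw [← mul_pow]; norm_num]
      calc ((m : ℝ) + 1) ^ 2 * (3 * L * 2 ^ m) * 2 ^ m
          ≤ (4 * L) ^ 2 * (3 * L * 2 ^ m) * 2 ^ m := by gcongr
        _ = _ := by ring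
    · exact ⟨fun _ => 0, fun _ => le_rfl, fun h => absurd h hmJ⟩
  choose F hF0 hF using hF
  refine ⟨fun r => ∑ m ∈ J, (2 * L) ^ 2 / 4 ^ m * ∑ q ∈ farey ρ with q.den = r, F m q,
    fun r => sum_nonneg fun m _ => mul_nonneg (by positivity) (sum_nonneg fun q _ => hF0 m q),
    fun s => ?_, fun X M r h1 h2 h3 => ?_⟩
  · rw [sum_comm]
    refine (sum_le_sum (g := fun _ => 192 * L ^ 5) fun m hmJ => ?_).trans ?_
    · rw [← mul_sum, sum_fiberwise_eq_sum_filter]
      have : ∑ q ∈ farey ρ with q.den ∈ s, F m q ≤ 48 * L ^ 3 * 4 ^ m :=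
        (sum_le_sum_of_subset_of_nonneg (filter_subset _ _) fun q _ _ => hF0 m q).trans
          (hF m hmJ).2
      refine (mul_le_mul_of_nonneg_left this (by positivity)).trans (le_of_eq ?_)
      field_simp
      ring
    · rw [sum_const, nsmul_eq_mul]
      calc (J.card : ℝ) * (192 * L ^ 5) ≤ 4 * L * (192 * L ^ 5) := by gcongr
        _ = _ := by ring
  · have hX : 1 < X := by
      by_contra h
      have : X ^ 2 ≤ 1 ^ 2 := Nat.pow_le_pow_left (by omega) 2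
      omega
    set m := Nat.clog 2 X with hm'
    have a1 : X ≤ 2 ^ m := Nat.le_pow_clog one_lt_two X
    have a2 : 2 ^ m ≤ 2 * X := by
      have b1 := Nat.pow_pred_clog_lt_self one_lt_two hX
      have b2 := Nat.clog_pos one_lt_two hX
      have b3 : m = (Nat.clog 2 X).pred + 1 := (Nat.succ_pred_eq_of_pos b2).symm
      rw [b3, pow_succ]
      omega
    have a3 : 4 ^ m = (2 ^ m) ^ 2 := by rw [← pow_mul, mul_comm, pow_mul]; norm_num
    have hmJ : m ∈ J := by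
      refine mem_filter.2 ⟨mem_range.2 (Nat.lt_succ_of_le (Nat.le_log_of_pow_le one_lt_two
        (by omega))), ?_, by omega⟩
      rw [a3]
      exact h1.trans (Nat.pow_le_pow_left a1 2)
    have a4 : (4 : ℝ) ^ m ≤ 4 * X ^ 2 := by
      have : 4 ^ m ≤ (2 * X) ^ 2 := a3 ▸ Nat.pow_le_pow_left a2 2
      have : ((4 ^ m : ℕ) : ℝ) ≤ ((2 * X) ^ 2 : ℕ) := by exact_mod_cast this
      push_cast at this
      linarith
    have a5 := single_le_sum (f := fun m => (2 * L) ^ 2 / 4 ^ m *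
      ∑ q ∈ farey ρ with q.den = r, F m q) (fun m _ => mul_nonneg (by positivity)
        (sum_nonneg fun q _ => hF0 m q)) hmJ
    have a6 : ∑ q ∈ farey ρ with q.den = r, ‖bdhS M q‖ ^ 2 ≤
        (2 * L) ^ 2 * ∑ q ∈ farey ρ with q.den = r, F m q := by
      rw [mul_sum]
      refine sum_le_sum fun q _ => ?_
      rw [hS M q (by omega), norm_mul, mul_pow, Complex.norm_real, Real.norm_eq_abs, sq_abs]
      exact mul_le_mul_of_nonneg_left ((hF m hmJ).1 q M (h3.trans a1)) (sq_nonneg _)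
    have a7 : 0 ≤ ∑ q ∈ farey ρ with q.den = r, F m q := sum_nonneg fun q _ => hF0 m q
    calc _ ≤ 4 ^ m * ((2 * L) ^ 2 / 4 ^ m * ∑ q ∈ farey ρ with q.den = r, F m q) := by
          refine a6.trans (le_of_eq ?_)
          field_simp
      _ ≤ _ := mul_le_mul a4 a5 (mul_nonneg (by positivity) a7) (by positivity)

lemma bdh_card (ρ : ℝ) (r : ℕ) : ((farey ρ).filter fun q => q.den = r).card ≤ r := by
  conv_rhs => rw [← card_range r]
  refine card_le_card_of_injOn (fun q => q.num.toNat) (fun q hq => ?_) fun q hq q' hq' h => ?_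
  · obtain ⟨h1, h2⟩ := mem_filter.1 hq
    obtain ⟨h3, h4, -⟩ := mem_farey.1 h1
    have := Rat.num_lt_denom_iff.2 h4
    have := Rat.num_nonneg.2 h3
    simp only [coe_range, Set.mem_Iio]
    omega
  · obtain ⟨h1, h2⟩ := mem_filter.1 hq
    obtain ⟨h3, h4⟩ := mem_filter.1 hq'
    have := Rat.num_nonneg.2 (mem_farey.1 h1).1
    have := Rat.num_nonneg.2 (mem_farey.1 h3).1
    exact Rat.ext (by simp only at h; omega) (h2.trans h4.symm)

lemma bdh_var (D : ℕ → ℝ) {Q : ℕ} (hQ : 1 ≤ Q) {ρ δ : ℝ} (hρ : Q ≤ ρ) (b : ℚ → ℝ) (η : ℕ → ℝ)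
    (h1 : ∀ q : ℚ, q.den ∣ Q → ‖∑ k ∈ range Q, (D k : ℂ) * bdhE q k‖ ≤ b q + δ)
    (h2 : ∀ r, ∑ q ∈ farey ρ with q.den = r, b q ^ 2 ≤ η r) :
    Q * ∑ k ∈ range Q, D k ^ 2 ≤ 2 * ∑ r ∈ Q.divisors, η r + 2 * Q * δ ^ 2 := by
  classical
  have hQ0 : (0 : ℚ) < Q := by exact_mod_cast hQ
  have hd : ∀ m : ℕ, ((m : ℚ) / Q).den ∣ Q := by
    intro m
    have := Rat.den_dvd (m : ℤ) Q
    rw [Rat.divInt_eq_div, Int.cast_natCast, Int.cast_natCast] at this
    exact Int.natCast_dvd_natCast.1 this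
  rw [← bdh_parseval D hQ]
  have h3 : ∑ m ∈ range Q, b ((m : ℚ) / Q) ^ 2 ≤ ∑ r ∈ Q.divisors, η r := by
    rw [← sum_image (g := fun m : ℕ => (m : ℚ) / Q) (f := fun q => b q ^ 2) (fun a _ c _ h => by
      have := (div_left_inj' hQ0.ne').1 h
      exact_mod_cast this)]
    refine le_trans ?_ (sum_le_sum fun r _ => h2 r)
    rw [sum_fiberwise_eq_sum_filter]
    refine sum_le_sum_of_subset_of_nonneg (fun q hq => ?_) fun q _ _ => sq_nonneg _
    obtain ⟨m, hm, rfl⟩ := mem_image.1 hq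
    refine mem_filter.2 ⟨mem_farey.2 ⟨by positivity, ?_, ?_⟩, Nat.mem_divisors.2 ⟨hd m, by omega⟩⟩
    · rw [div_lt_one hQ0]
      exact_mod_cast mem_range.1 hm
    · exact le_trans (by exact_mod_cast Nat.le_of_dvd hQ (hd m)) hρ
  refine (sum_le_sum (g := fun m : ℕ => 2 * b ((m : ℚ) / Q) ^ 2 + 2 * δ ^ 2) fun m _ => ?_).trans ?_
  · refine (pow_le_pow_left₀ (norm_nonneg _) (h1 _ (hd m)) 2).trans ?_
    nlinarith [sq_nonneg (b ((m : ℚ) / Q) - δ)]
  · rw [sum_add_distrib, ← mul_sum, sum_const, card_range, nsmul_eq_mul]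
    linarith

lemma bdh_tau : ∃ C : ℝ, 0 < C ∧ ∀ r : ℕ, r ≠ 0 → (r.divisors.card : ℝ) ≤ C * (r : ℝ) ^ (1 / 40 : ℝ) ∧
    |bdhC r| * r ≤ C * (r : ℝ) ^ (1 / 40 : ℝ) := by
  obtain ⟨C, hC, h⟩ := Pool.Agent.Lib.MP_fb430f_co.div_bound (ε := 1 / 40) (by norm_num)
  refine ⟨C, hC, fun r hr => ⟨le_trans ?_ (h r hr), le_trans ?_ (h r hr)⟩⟩
  · rw [Nat.card_divisors hr]
    exact_mod_cast prod_le_prod' fun p _ => by omega
  · unfold bdhC
    split_ifs with hs
    · conv_lhs => rw [← congrArg (Nat.cast : ℕ → ℝ) (Nat.prod_primeFactors_of_squarefree hs)]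
      push_cast
      rw [abs_prod, ← prod_mul_distrib]
      refine prod_le_prod (fun p _ => by positivity) fun p hp => ?_
      have h2 : (2 : ℝ) ≤ p := by exact_mod_cast (Nat.prime_of_mem_primeFactors hp).two_le
      rw [abs_neg, abs_of_nonneg (div_nonneg zero_le_one (by linarith)), one_div_mul_eq_div,
        div_le_iff₀ (by linarith)]
      nlinarith [Nat.cast_nonneg (α := ℝ) (r.factorization p)]
    · simp only [abs_zero, zero_mul]
      positivity

lemma bdh_gcd {r : ℕ} (hr : r ≠ 0) (n : Fin 10 → ℕ) (h : r ∣ ∏ i, n i) :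
    ∃ i, r ≤ Nat.gcd r (n i) ^ 10 := by
  have h1 : ∀ s : Finset (Fin 10), Nat.gcd r (∏ i ∈ s, n i) ∣ ∏ i ∈ s, Nat.gcd r (n i) := by
    intro s
    induction s using Finset.induction_on with
    | empty => simp
    | insert a s ha ih =>
      rw [prod_insert ha, prod_insert ha]
      exact (gcd_mul_dvd_mul_gcd r _ _).trans (mul_dvd_mul_left _ ih)
  have h2 := h1 univ
  rw [Nat.gcd_eq_left h] at h2
  obtain ⟨i, -, hi⟩ := exists_max_image univ (fun i => Nat.gcd r (n i)) univ_nonempty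
  refine ⟨i, (Nat.le_of_dvd (prod_pos fun i _ => Nat.gcd_pos_of_pos_left _ (by omega)) h2).trans ?_⟩
  simpa using prod_le_pow_card univ (fun i => Nat.gcd r (n i)) _ hi

lemma bdh_P {ι : Type} (S : Finset ι) (w : ι → ℝ) (n : ι → Fin 10 → ℕ) (W : ℝ)
    (hw : ∀ d ∈ S, 0 ≤ w d) (hW : ∀ i g, 1 ≤ g → ∑ d ∈ S with g ∣ n d i, w d ≤ W / g)
    {r : ℕ} (hr : r ≠ 0) {z C : ℝ} (hz : 0 < z) (hzr : z ^ 40 = r)
    (hC : (r.divisors.card : ℝ) ≤ C * z) :
    ∑ d ∈ S with r ∣ ∏ i, n d i, w d ≤ 10 * C * W / z ^ 3 := by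
  have hW0 : 0 ≤ W := by
    have := hW 0 1 le_rfl
    simp only [Nat.cast_one, div_one] at this
    exact le_trans (sum_nonneg fun d hd => hw d (mem_filter.1 hd).1) this
  set T := r.divisors.filter fun g => r ≤ g ^ 10 with hT
  have h1 : ∑ d ∈ S with r ∣ ∏ i, n d i, w d ≤
      ∑ i : Fin 10, ∑ g ∈ T, ∑ d ∈ S with g ∣ n d i, w d := by
    simp_rw [sum_filter]
    rw [sum_congr rfl fun i _ => sum_comm, sum_comm]
    refine sum_le_sum fun d hd => ?_
    have h0 : ∀ i g, 0 ≤ if g ∣ n d i then w d else 0 := fun i g => by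
      split_ifs
      · exact hw d hd
      · exact le_rfl
    split_ifs with h
    · obtain ⟨i, hi⟩ := bdh_gcd hr (n d) h
      refine le_trans ?_ (single_le_sum (fun i _ => sum_nonneg fun g _ => h0 i g) (mem_univ i))
      refine le_trans ?_ (single_le_sum (fun g _ => h0 i g) (a := Nat.gcd r (n d i))
        (mem_filter.2 ⟨Nat.mem_divisors.2 ⟨Nat.gcd_dvd_left _ _, hr⟩, hi⟩))
      rw [if_pos (Nat.gcd_dvd_right _ _)]
    · exact sum_nonneg fun i _ => sum_nonneg fun g _ => h0 i g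
  have h2 : ∀ i : Fin 10, ∑ g ∈ T, ∑ d ∈ S with g ∣ n d i, w d ≤ C * W / z ^ 3 := by
    intro i
    refine (sum_le_sum (g := fun _ => W / z ^ 4) fun g hg => ?_).trans ?_
    · obtain ⟨h3, h4⟩ := mem_filter.1 hg
      refine (hW i g (Nat.pos_of_mem_divisors h3)).trans ?_
      have h5 : z ^ 4 ≤ g := by
        refine le_of_pow_le_pow_left₀ (n := 10) (by norm_num) (Nat.cast_nonneg g) ?_
        rw [← pow_mul, hzr]
        exact_mod_cast h4
      gcongr
    · rw [sum_const, nsmul_eq_mul]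
      have : (T.card : ℝ) ≤ C * z := le_trans (by exact_mod_cast card_filter_le _ _) hC
      refine (mul_le_mul_of_nonneg_right this (by positivity)).trans (le_of_eq ?_)
      field_simp
  refine h1.trans ((sum_le_sum fun i _ => h2 i).trans (le_of_eq ?_))
  simp only [sum_const, card_univ, Fintype.card_fin, nsmul_eq_mul]
  push_cast
  ring

end Pool.Agent.Lib.RankZero
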