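import Pool.Agent.Lib.MP_6073f3_nt.Z.BDH2

/-!
The Barban-Davenport-Halberstam theorem from the Siegel-Walfisz theorem.
-/

namespace Pool.Agent.Lib.RankZero

open Finset Filter
open Pool.Agent.Lib.MP_d48457_nt

lemma bdh_S_sub {lo hi : ℕ} (h : lo ≤ hi) (q : ℚ) :
    ∑ n ∈ Ioc lo hi, (th n : ℂ) * bdhE q n = bdhS hi q - bdhS lo q := by
  unfold bdhS
  rw [← sum_Ioc_consecutive _ (Nat.zero_le lo) h]
  ring

lemma bdh_Eth_sub (r k : ℕ) {lo hi : ℕ} (h : lo ≤ hi) :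
    Eth r k lo hi = Eth r k 0 hi - Eth r k 0 lo := by
  unfold Eth cls
  simp only [sum_filter]
  rw [← sum_Ioc_consecutive _ (Nat.zero_le lo) h, Nat.cast_sub h]
  split_ifs
  · simp only [Nat.sub_zero]
    ring
  · ring

lemma bdh_vars {N R : ℕ} {ρ κ : ℝ} (hρ : 1 ≤ ρ) (hρN : ρ ^ 5 = N) (e : ℕ → ℝ)
    (he : ∀ X M r : ℕ, N ≤ X ^ 2 → X ≤ 4 * N → M ≤ X →
      ∑ q ∈ farey ρ with q.den = r, ‖bdhS M q‖ ^ 2 ≤ 4 * X ^ 2 * e r)
    (hκ : ∀ X M r k : ℕ, N ≤ X ^ 2 → M ≤ X → 1 ≤ r → r ≤ R → k < r → |Eth r k 0 M| ≤ κ * X)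
    (V : ℕ → ℝ) (hV : ∀ Q, V Q = ∑ r ∈ Q.divisors,
      2 * (if r ≤ R then R * (2 * R * κ) ^ 2 else 24 * e r + 3 * r * bdhC r ^ 2) +
        32 * R ^ 4 / ρ ^ 2) : Var Eth N V ∧ Var (Eh R) N V := by
  have key : ∀ (Q X lo hi : ℕ) (D : ℕ → ℝ), 1 ≤ Q → Q ^ 5 ≤ N → N ≤ X ^ 2 → X ≤ 4 * N → lo ≤ hi →
      hi ≤ X → (∀ q : ℚ, q.den ∣ Q → ‖∑ k ∈ range Q, (D k : ℂ) * bdhE q k‖ ≤
        (if q.den ≤ R then 2 * R * κ * X else ‖bdhS hi q‖ + ‖bdhS lo q‖ + X * |bdhC q.den|) +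
          4 * R ^ 2 * Q) → ∑ k ∈ range Q, D k ^ 2 ≤ (X : ℝ) ^ 2 / Q * V Q := by
    intro Q X lo hi D hQ hQN hX1 hX2 hl hh hD
    have hQ0 : (0 : ℝ) < Q := by exact_mod_cast hQ
    have hQρ : (Q : ℝ) ≤ ρ := by
      refine le_of_pow_le_pow_left₀ (n := 5) (by norm_num) (by linarith) ?_
      rw [hρN]
      exact_mod_cast hQN
    have h1 := bdh_var D hQ hQρ _ (fun r => (X : ℝ) ^ 2 *
      (if r ≤ R then R * (2 * R * κ) ^ 2 else 24 * e r + 3 * r * bdhC r ^ 2)) hD (by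
      intro r
      have hc : (((farey ρ).filter fun q => q.den = r).card : ℝ) ≤ r := by
        exact_mod_cast bdh_card ρ r
      split_ifs with hr
      · rw [sum_congr rfl (g := fun _ => (2 * R * κ * X) ^ 2) fun q hq => by
          rw [(mem_filter.1 hq).2, if_pos hr], sum_const, nsmul_eq_mul]
        have : (r : ℝ) ≤ R := by exact_mod_cast hr
        calc _ ≤ R * (2 * R * κ * X) ^ 2 :=
              mul_le_mul_of_nonneg_right (hc.trans this) (sq_nonneg _)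
          _ = _ := by ring
      · refine (sum_le_sum (g := fun q => 3 * ‖bdhS hi q‖ ^ 2 + 3 * ‖bdhS lo q‖ ^ 2 +
          3 * (X * bdhC r) ^ 2) fun q hq => ?_).trans ?_
        · rw [(mem_filter.1 hq).2, if_neg hr, mul_pow, ← sq_abs (bdhC r), ← mul_pow]
          nlinarith [sq_nonneg (‖bdhS hi q‖ - ‖bdhS lo q‖), sq_nonneg (‖bdhS hi q‖ - X * |bdhC r|),
            sq_nonneg (‖bdhS lo q‖ - X * |bdhC r|)]
        · rw [sum_add_distrib, sum_add_distrib, ← mul_sum, ← mul_sum, sum_const, nsmul_eq_mul]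
          have a1 := he X hi r hX1 hX2 hh
          have a2 := he X lo r hX1 hX2 (hl.trans hh)
          have a3 := mul_le_mul_of_nonneg_right hc (show 0 ≤ 3 * (X * bdhC r) ^ 2 by positivity)
          nlinarith)
    rw [div_mul_eq_mul_div, le_div_iff₀ hQ0, mul_comm]
    refine h1.trans ?_
    rw [hV, ← mul_sum, ← mul_sum, mul_add]
    refine add_le_add (le_of_eq (by ring)) ?_
    have hX3 : ρ ^ 5 ≤ (X : ℝ) ^ 2 := by rw [hρN]; exact_mod_cast hX1
    calc 2 * (Q : ℝ) * (4 * R ^ 2 * Q) ^ 2 = 32 * R ^ 4 * Q ^ 3 := by ring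
      _ ≤ 32 * R ^ 4 * ρ ^ 3 := by gcongr
      _ = ρ ^ 5 * (32 * R ^ 4 / ρ ^ 2) := by field_simp
      _ ≤ _ := by gcongr
  have small : ∀ (X lo hi : ℕ) (q : ℚ), N ≤ X ^ 2 → lo ≤ hi → hi ≤ X → q.den ≤ R →
      ‖∑ n ∈ Ioc lo hi, (th n : ℂ) * bdhE q n - (((hi - lo : ℕ) : ℝ) * bdhC q.den : ℝ)‖ ≤
        2 * R * κ * X := by
    intro X lo hi q hX hl hh hr
    have hd : 1 ≤ q.den := q.den_pos
    rw [← bdh_eth hd dvd_rfl]
    have hκ0 : 0 ≤ κ * X := (abs_nonneg _).trans (hκ X hi q.den 0 hX hh hd hr hd)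
    refine (norm_sum_le _ _).trans ((sum_le_sum (g := fun _ => 2 * (κ * X)) fun k hk => ?_).trans ?_)
    · rw [norm_mul, bdh_norm, mul_one, Complex.norm_real, Real.norm_eq_abs, bdh_Eth_sub _ _ hl]
      have a1 := hκ X hi q.den k hX hh hd hr (mem_range.1 hk)
      have a2 := hκ X lo q.den k hX (hl.trans hh) hd hr (mem_range.1 hk)
      exact (abs_sub _ _).trans (by linarith)
    · have : (q.den : ℝ) ≤ R := by exact_mod_cast hr
      rw [sum_const, card_range, nsmul_eq_mul]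
      nlinarith
  constructor
  · intro Q X lo hi hQ hQN hX1 hX2 hl hh
    refine key Q X lo hi _ hQ hQN hX1 hX2 hl hh fun q hq => ?_
    rw [bdh_eth hQ hq]
    refine le_add_of_le_of_nonneg ?_ (by positivity)
    split_ifs with hr
    · exact small X lo hi q hX1 hl hh hr
    · rw [bdh_S_sub hl]
      refine (norm_sub_le _ _).trans (add_le_add (norm_sub_le _ _) ?_)
      rw [Complex.norm_real, Real.norm_eq_abs, abs_mul, Nat.abs_cast]
      have : ((hi - lo : ℕ) : ℝ) ≤ X := by exact_mod_cast (Nat.sub_le hi lo).trans hh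
      gcongr
  · intro Q X lo hi hQ hQN hX1 hX2 hl hh
    refine key Q X lo hi _ hQ hQN hX1 hX2 hl hh fun q hq => ?_
    refine (norm_le_insert' _ _).trans (add_le_add ?_ (bdh_eh hQ hq R hl))
    split_ifs with hr
    · exact small X lo hi q hX1 hl hh hr
    · rw [sub_zero, bdh_S_sub hl]
      exact le_add_of_le_of_nonneg (norm_sub_le _ _) (by positivity)

lemma bdh_avg {N R : ℕ} {ρ y a τ E C : ℝ} (hρ : 1 ≤ ρ) (hρN : ρ ^ 5 = N) (hy : 1 ≤ y)
    (hR : y ^ 40 < R + 1) (ha : 0 ≤ a) (hτ : 0 ≤ τ) (e : ℕ → ℝ) (he0 : ∀ r, 0 ≤ e r)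
    (he : ∀ s : Finset ℕ, ∑ r ∈ s, e r ≤ E) (hC0 : 0 < C)
    (hC : ∀ r : ℕ, r ≠ 0 → (r.divisors.card : ℝ) ≤ C * (r : ℝ) ^ (1 / 40 : ℝ) ∧
      |bdhC r| * r ≤ C * (r : ℝ) ^ (1 / 40 : ℝ))
    (V : ℕ → ℝ) (hV : ∀ Q, V Q = ∑ r ∈ Q.divisors,
      2 * (if r ≤ R then a else 24 * e r + 3 * r * bdhC r ^ 2) + τ) :
    Avg N V (2 * R * a + τ + (480 * C * E + 60 * C ^ 3 * (1 + Real.log N)) / y) := by
  classical
  have hη : ∀ r : ℕ, 0 ≤ 2 * (if r ≤ R then a else 24 * e r + 3 * r * bdhC r ^ 2) := by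
    intro r
    have := he0 r
    split_ifs <;> positivity
  refine ⟨fun Q => by rw [hV]; exact add_nonneg (sum_nonneg fun r _ => hη r) hτ, ?_⟩
  intro ι S w n W hw hn hN hW
  have hW1 : ∑ d ∈ S, w d ≤ W := by simpa using hW 0 1 le_rfl
  have hW0 : 0 ≤ W := (sum_nonneg hw).trans hW1
  have hN1 : 1 ≤ N := by
    have : (1 : ℝ) ≤ N := hρN ▸ one_le_pow₀ hρ
    exact_mod_cast this
  have h1 : ∑ d ∈ S, w d * V (∏ i, n d i) = ∑ r ∈ Icc 1 N,
      2 * (if r ≤ R then a else 24 * e r + 3 * r * bdhC r ^ 2) *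
        ∑ d ∈ S with r ∣ ∏ i, n d i, w d + τ * ∑ d ∈ S, w d := by
    simp_rw [hV, mul_add (w _), sum_add_distrib, sum_filter, mul_sum]
    congr 1
    · rw [sum_comm]
      refine sum_congr rfl fun d hd => ?_
      have h0 : ∏ i, n d i ≠ 0 := prod_ne_zero_iff.2 fun i _ => hn d hd i
      have h2 : (∏ i, n d i).divisors = (Icc 1 N).filter (· ∣ ∏ i, n d i) := by
        ext r
        simp only [Nat.mem_divisors, mem_filter, mem_Icc]
        refine ⟨fun h => ⟨⟨Nat.pos_of_dvd_of_pos h.1 (by omega), (Nat.le_of_dvd (by omega) h.1).trans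
          ((Nat.le_self_pow (by norm_num) _).trans (hN d hd))⟩, h.1⟩, fun h => ⟨h.2, h0⟩⟩
      rw [h2, sum_filter]
      refine sum_congr rfl fun r _ => ?_
      by_cases h : r ∣ ∏ i, n d i
      · rw [if_pos h, if_pos h, mul_comm]
      · rw [if_neg h, if_neg h, mul_zero]
    · exact sum_congr rfl fun d _ => mul_comm _ _
  have hy0 : 0 < y := by linarith
  have h2 : ∀ r ∈ Icc 1 N, 2 * (if r ≤ R then a else 24 * e r + 3 * r * bdhC r ^ 2) *
      ∑ d ∈ S with r ∣ ∏ i, n d i, w d ≤ (if r ≤ R then 2 * a * W else 0) +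
        (480 * C * W / y * e r + 60 * C ^ 3 * W / y * (r : ℝ)⁻¹) := by
    intro r hr
    have hr1 : 1 ≤ r := (mem_Icc.1 hr).1
    have hr0 : (0 : ℝ) < r := by exact_mod_cast hr1
    have he1 := he0 r
    split_ifs with h
    · refine le_add_of_le_of_nonneg (mul_le_mul_of_nonneg_left ?_ (by positivity)) (by positivity)
      exact (sum_le_sum_of_subset_of_nonneg (filter_subset _ _) fun d hd _ => hw d hd).trans hW1
    · set z := (r : ℝ) ^ (1 / 40 : ℝ) with hz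
      have hz0 : 0 < z := Real.rpow_pos_of_pos hr0 _
      have hzr : z ^ 40 = r := by
        rw [hz, ← Real.rpow_natCast, ← Real.rpow_mul hr0.le]
        norm_num
      have hyz : y ≤ z := by
        refine le_of_pow_le_pow_left₀ (n := 40) (by norm_num) hz0.le ?_
        have : (R : ℝ) + 1 ≤ r := by exact_mod_cast (by omega : R + 1 ≤ r)
        linarith
      obtain ⟨c1, c2⟩ := hC r (by omega)
      have c3 := bdh_P S w n W hw hW (by omega : r ≠ 0) hz0 hzr c1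
      have c4 : (r : ℝ) * bdhC r ^ 2 ≤ (C * z) ^ 2 * (r : ℝ)⁻¹ := by
        rw [← div_eq_mul_inv, le_div_iff₀ hr0]
        calc (r : ℝ) * bdhC r ^ 2 * r = (|bdhC r| * r) ^ 2 := by rw [mul_pow, sq_abs]; ring
          _ ≤ _ := by gcongr
      have c5 : y ≤ z ^ 3 := hyz.trans (le_self_pow₀ (by linarith) (by norm_num))
      rw [zero_add]
      calc _ ≤ 2 * (24 * e r + 3 * ((C * z) ^ 2 * (r : ℝ)⁻¹)) * (10 * C * W / z ^ 3) := by
            rw [mul_assoc 3]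
            refine mul_le_mul (by gcongr) c3
              (sum_nonneg fun d hd => hw d (mem_filter.1 hd).1) (by positivity)
        _ = 480 * C * W / z ^ 3 * e r + 60 * C ^ 3 * W / z * (r : ℝ)⁻¹ := by
            field_simp
            ring
        _ ≤ _ := by gcongr
  rw [h1]
  refine (add_le_add (sum_le_sum h2) (mul_le_mul_of_nonneg_left hW1 hτ)).trans ?_
  rw [sum_add_distrib, sum_add_distrib, ← mul_sum, ← mul_sum, ← sum_filter, sum_const,
    nsmul_eq_mul]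
  have b1 : (((Icc 1 N).filter (· ≤ R)).card : ℝ) ≤ R := by
    have : (Icc 1 N).filter (· ≤ R) ⊆ Icc 1 R := fun r hr => by
      simp only [mem_filter, mem_Icc] at hr ⊢
      omega
    exact_mod_cast (card_le_card this).trans (by simp)
  have b2 : ∑ r ∈ Icc 1 N, (r : ℝ)⁻¹ ≤ 1 + Real.log N := by
    have := harmonic_le_one_add_log N
    rw [harmonic_eq_sum_Icc] at this
    push_cast at this
    exact this
  calc _ ≤ R * (2 * a * W) + (480 * C * W / y * E + 60 * C ^ 3 * W / y * (1 + Real.log N)) +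
        τ * W := by
        have := he (Icc 1 N)
        gcongr
    _ = _ := by ring

theorem bdh_of (hSW : ∀ A B : ℕ, ∃ C : ℝ, ∀ N r k M : ℕ, 2 ≤ N → 1 ≤ r →
    (r : ℝ) ≤ Real.log N ^ B → M ≤ N → k < r → |Eth r k 0 M| ≤ C * N / Real.log N ^ A) (A : ℕ) :
    ∃ B N₀ : ℕ, ∀ N ≥ N₀, ∃ V : ℕ → ℝ, Var Eth N V ∧
      Var (Eh ⌊Real.log N ^ B⌋₊) N V ∧ Avg N V (1 / Real.log N ^ A) := by
  obtain ⟨B, hB⟩ : ∃ B, B = (A + 7) * 40 := ⟨_, rfl⟩
  obtain ⟨A', hA'⟩ : ∃ A', A' = 2 * B + A + 1 := ⟨_, rfl⟩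
  obtain ⟨C₁, hC₁⟩ := hSW A' (B + 1)
  obtain ⟨C, hC0, hC⟩ := bdh_tau
  set c : ℝ := |C₁| * 2 ^ A' with hc
  have hev : ∀ᶠ N : ℕ in atTop, 8 ≤ N ∧
      2 ^ (B + 1) + 24 * c ^ 2 + 3 * (480 * C * 768 + 120 * C ^ 3) ≤ Real.log N ∧
      96 * Real.log N ^ (4 * B + A) ≤ (N : ℝ) ^ (2 / 5 : ℝ) := by
    refine (eventually_ge_atTop 8).and (((Real.tendsto_log_atTop.comp
      tendsto_natCast_atTop_atTop).eventually_ge_atTop _).and ?_)
    have h1 := (isLittleO_log_rpow_rpow_atTop ((4 * B + A : ℕ) : ℝ)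
      (show (0 : ℝ) < 2 / 5 by norm_num)).bound (show (0 : ℝ) < 1 / 96 by norm_num)
    filter_upwards [tendsto_natCast_atTop_atTop.eventually h1] with N hN
    rw [Real.rpow_natCast, Real.norm_eq_abs, Real.norm_eq_abs,
      abs_of_nonneg (Real.rpow_nonneg (Nat.cast_nonneg N) _)] at hN
    linarith [le_abs_self (Real.log N ^ (4 * B + A))]
  obtain ⟨N₀, hN₀⟩ := eventually_atTop.1 hev
  refine ⟨B, N₀, fun N hN => ?_⟩
  obtain ⟨h8, hL, hτ⟩ := hN₀ N hN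
  set L := Real.log N with hLdef
  set R := ⌊L ^ B⌋₊ with hR
  set ρ := (N : ℝ) ^ (1 / 5 : ℝ) with hρ
  have hN1 : (1 : ℝ) ≤ N := by exact_mod_cast (by omega : 1 ≤ N)
  have hρ1 : 1 ≤ ρ := Real.one_le_rpow hN1 (by norm_num)
  have hρN : ρ ^ 5 = N := by
    rw [hρ, ← Real.rpow_natCast, ← Real.rpow_mul (by linarith)]
    norm_num
  have hρ2 : ρ ^ 2 = (N : ℝ) ^ (2 / 5 : ℝ) := by
    rw [hρ, ← Real.rpow_natCast, ← Real.rpow_mul (by linarith)]
    norm_num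
  have p1 : (1 : ℝ) ≤ 2 ^ (B + 1) := one_le_pow₀ one_le_two
  have p2 : 0 ≤ 24 * c ^ 2 := by positivity
  have p3 : 0 ≤ 3 * (480 * C * 768 + 120 * C ^ 3) := by positivity
  have hL1 : 1 ≤ L := by linarith
  have hL0 : 0 < L := by linarith
  have hRL : (R : ℝ) ≤ L ^ B := Nat.floor_le (by positivity)
  obtain ⟨e, he0, he1, he2⟩ := bdh_large h8 hρ1 hρN
  have hκ : ∀ X M r k : ℕ, N ≤ X ^ 2 → M ≤ X → 1 ≤ r → r ≤ R → k < r →
      |Eth r k 0 M| ≤ c / L ^ A' * X := by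
    intro X M r k h1 h2 h3 h4 h5
    have hX : 2 ≤ X := by
      by_contra h
      have : X ^ 2 ≤ 1 ^ 2 := Nat.pow_le_pow_left (by omega) 2
      omega
    have hlX : L / 2 ≤ Real.log X := by
      have : L ≤ Real.log ((X : ℝ) ^ 2) := Real.log_le_log (by linarith) (by exact_mod_cast h1)
      rw [Real.log_pow] at this
      push_cast at this
      linarith
    have h6 : (r : ℝ) ≤ Real.log X ^ (B + 1) := by
      have a1 : (r : ℝ) ≤ R := by exact_mod_cast h4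
      refine a1.trans (hRL.trans (le_trans ?_ (pow_le_pow_left₀ (by positivity) hlX _)))
      rw [div_pow, le_div_iff₀ (by positivity), pow_succ L]
      gcongr
      linarith
    refine (hC₁ X r k M hX h3 h6 h2 h5).trans ?_
    calc C₁ * X / Real.log X ^ A' ≤ |C₁| * X / (L / 2) ^ A' := by
          gcongr
          exact le_abs_self _
      _ = _ := by
          rw [hc, div_pow]
          field_simp
  have hv := bdh_vars hρ1 hρN e he2 hκ _ fun _ => rfl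
  refine ⟨_, hv.1, hv.2, ?_⟩
  have hy : 1 ≤ L ^ (A + 7) := one_le_pow₀ hL1
  obtain ⟨a1, a2⟩ := bdh_avg (y := L ^ (A + 7)) (R := R) (a := R * (2 * R * (c / L ^ A')) ^ 2)
    (τ := 32 * R ^ 4 / ρ ^ 2) hρ1 hρN hy (by rw [← pow_mul, ← hB]; exact Nat.lt_floor_add_one _)
    (by positivity) (by positivity) e he0 he1 hC0 hC _ fun _ => rfl
  refine ⟨a1, fun ι S w n W hw hn hN hW => (a2 ι S w n W hw hn hN hW).trans ?_⟩
  have hW0 : 0 ≤ W := (sum_nonneg hw).trans (by simpa using hW 0 1 le_rfl)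
  refine mul_le_mul_of_nonneg_left ?_ hW0
  have hLA : 0 < L ^ A := by positivity
  have t1 : 2 * (R : ℝ) * (R * (2 * R * (c / L ^ A')) ^ 2) ≤ 1 / 3 / L ^ A := by
    calc 2 * (R : ℝ) * (R * (2 * R * (c / L ^ A')) ^ 2)
        ≤ 2 * L ^ B * (L ^ B * (2 * L ^ B * (c / L ^ A')) ^ 2) := by gcongr
      _ = 8 * c ^ 2 / L ^ (A + 2) / L ^ A := by
          rw [hA']
          field_simp
          ring
      _ ≤ _ := by
          refine div_le_div_of_nonneg_right ?_ hLA.le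
          rw [div_le_iff₀ (by positivity)]
          have : L ≤ L ^ (A + 2) := le_self_pow₀ hL1 (by omega)
          linarith
  have t2 : 32 * (R : ℝ) ^ 4 / ρ ^ 2 ≤ 1 / 3 / L ^ A := by
    rw [hρ2, div_le_div_iff₀ (by positivity) hLA]
    calc 32 * (R : ℝ) ^ 4 * L ^ A ≤ 32 * (L ^ B) ^ 4 * L ^ A := by gcongr
      _ = 1 / 3 * (96 * L ^ (4 * B + A)) := by ring
      _ ≤ _ := by gcongr
  have t3 : (480 * C * (768 * L ^ 6) + 60 * C ^ 3 * (1 + L)) / L ^ (A + 7) ≤ 1 / 3 / L ^ A := by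
    have h1 : 1 + L ≤ 2 * L ^ 6 := by
      have : L ≤ L ^ 6 := le_self_pow₀ hL1 (by omega)
      linarith
    calc _ ≤ (480 * C * (768 * L ^ 6) + 60 * C ^ 3 * (2 * L ^ 6)) / L ^ (A + 7) := by gcongr
      _ = (480 * C * 768 + 120 * C ^ 3) / L / L ^ A := by
          field_simp
          ring
      _ ≤ _ := by
          refine div_le_div_of_nonneg_right ?_ hLA.le
          rw [div_le_iff₀ hL0]
          linarith
  have : 1 / L ^ A = 1 / 3 / L ^ A + 1 / 3 / L ^ A + 1 / 3 / L ^ A := by ring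
  linarith

end Pool.Agent.Lib.RankZero
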