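import Pool.Agent.Lib.MP_6073f3_nt.Z.Alg

/-!
A minorant of the indicator of rank zero which depends only on symbols at the small primes.
-/

set_option linter.unusedSectionVars false

namespace Pool.Agent.Lib.RankZero

open Finset Pool.Agent.Lib.TorsRank
open scoped NumberTheorySymbols

variable {κ : Type} [Fintype κ] [DecidableEq κ] {q : κ → ℕ} {z₀ : ℕ} {τ : κ → Option (Fin 3)}

theorem jac_bot (hq : PrimeSys q z₀) (a : ℤ) (t : Finset κ) :
    J(a | pr q t) = ∏ j ∈ t, J(a | q j) := by
  induction t using Finset.induction_on with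
  | empty => simp [pr]
  | insert j t hj ih =>
    rw [pr, prod_insert hj, prod_insert hj, ← ih]
    exact jacobiSym.mul_right' _ (hq.hp j).ne_zero (hq.odd t).pos.ne'

theorem Crv.row (hq : PrimeSys q z₀) {S T : ℕ} (h : Crv q τ S T) (i : κ) :
    ∏ j, (if τ j = some 1 then sy (τ i) (τ j) (q i) (q j) else 1) =
      if τ i = some 1 then sy (τ i) (τ i) (q i) (q i) else dd S T (τ i) (q i) := by
  have hodd : ∀ j, Odd (q j) := fun j => (hq.hp j).odd_of_ne_two (hq.h2 j)
  rw [← prod_filter, prod_congr rfl fun j hj => by rw [(mem_filter.1 hj).2]]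
  have h3 := h.h3
  rcases τ i with _ | u
  · simp [sy, dd]
  fin_cases u
  · have := jac_star (hodd i) (hq.odd (fib τ 1))
    rw [jac_bot hq, ← h.hS, TorsRank.star, if_neg (by omega)] at this
    simpa [sy, dd, fib] using this
  · have := jac_neg_one (hq.odd (fib τ 1))
    rw [jac_bot hq, ← h.hS, if_pos h3, prod_congr rfl fun j _ => jac_neg_one (hodd j)] at this
    by_cases h4 : q i % 4 = 3 <;> simp only [sy, h4] <;> simp
    simpa [fib] using this
  · simp [sy, dd, h.hS, pr, jac_prod_left, fib]

theorem PP_xor (hq : PrimeSys q z₀) (a b : κ → Bool) (i : κ) :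
    PP q τ (fun j => xor (a j) (b j)) i = PP q τ a i * PP q τ b i := by
  rw [PP, PP, PP, ← prod_mul_distrib]
  refine prod_congr rfl fun j _ => ?_
  rcases sy_sign (τ := τ) hq i j with h | h <;> cases a j <;> cases b j <;> simp [h]

/-- The Selmer conditions for classes ramified at the first large prime. -/
def c1 (q : κ → ℕ) (τ : κ → Option (Fin 3)) (δ : κ → ℤ) (b : κ → Bool) : Prop :=
  ∀ i, (τ i = none → b i = false) ∧
    PP q τ b i * sy (τ i) (τ i) (q i) (q i) = if b i then 1 else δ i

/-- The condition at the second large prime. -/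
def chy (τ : κ → Option (Fin 3)) (η : κ → ℤ) (b : κ → Bool) : ℤ :=
  ∏ j, if τ j = some 1 ∧ b j = false ∨ τ j = some 2 ∧ b j = true then η j else 1

/-- The parity. -/
def w0 (τ : κ → Option (Fin 3)) (η : κ → ℤ) : ℤ :=
  -∏ j, if τ j = none then 1 else if τ j = some 2 then -1 else -η j

/-- The twisting signs. -/
def rr (B : ℤ) (x : Option (Fin 3)) (p : ℕ) : ℤ :=
  match x with
  | some u => J(![1, -B, B] u | p)
  | none => 1

open Classical in
/-- The bound for the size of the reduced Selmer group. -/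
noncomputable def Nn (q : κ → ℕ) (τ : κ → Option (Fin 3)) (δ η : κ → ℤ) (ξ : ℤ) : ℕ :=
  #{a | c0 q τ δ a} + #{b | c1 q τ δ b ∧ ξ * chy τ η b = 1}

/-- The minorant. -/
noncomputable def GG (q : κ → ℕ) (τ : κ → Option (Fin 3)) (δ : κ → ℤ) (ξ : ℤ) : ℝ :=
  let η := fun i => rr (pr q (fib τ 0)) (τ i) (q i) * δ i
  if ξ * w0 τ η = 1 then max 0 ((4 - Nn q τ δ η ξ) / 4) else 0

theorem GG_mem (δ : κ → ℤ) (ξ : ℤ) : 0 ≤ GG q τ δ ξ ∧ GG q τ δ ξ ≤ 1 := by
  simp only [GG]
  split_ifs
  · refine ⟨le_max_left _ _, max_le one_pos.le ?_⟩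
    linarith [(Nat.cast_nonneg (Nn q τ δ (fun i => rr (pr q (fib τ 0)) (τ i) (q i) * δ i) ξ) :
      (0 : ℝ) ≤ _)]
  · simp

theorem not_dvd_pr (hq : PrimeSys q z₀) {p : ℕ} (hp : p.Prime) (h : z₀ < p) (s : Finset κ) :
    ¬ p ∣ pr q s := fun hd => by
  obtain ⟨j, -, hj⟩ := (hp.prime.dvd_finsetProd_iff _).1 hd
  exact absurd (hq.le j) (by rw [← (Nat.prime_dvd_prime_iff_eq hp (hq.hp j)).1 hj]; omega)

theorem bridge (hq : PrimeSys q z₀) {x y z A B : ℕ} (hA : A = pr q (fib τ 1))
    (hB : B = pr q (fib τ 0)) (hx : x.Prime ∧ z₀ < x) (hy : y.Prime ∧ z₀ < y)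
    (hz : z.Prime ∧ z₀ < z) (hxy : x ≠ y) (hE : A * x = 16 * (B * y) + pr q (fib τ 2) * z)
    (h3 : A * x % 4 = 3)
    (hG : 0 < GG q τ (fun i => dd (A * x) (B * y) (τ i) (q i)) J(y | x)) :
    (A * x).Coprime (16 * (B * y)) ∧ Module.Finite ℤ (PE (rts (A * x) (B * y))) ∧
      Module.finrank ℤ (PE (rts (A * x) (B * y))) = 0 := by
  classical
  have h2 := hq.hz
  let q' : κ ⊕ Fin 3 → ℕ := Sum.elim q ![y, x, z]
  let τ' : κ ⊕ Fin 3 → Option (Fin 3) := Sum.elim τ some
  have hxz : x ≠ z := by
    rintro rfl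
    have : x ∣ 16 * (B * y) := (Nat.dvd_add_left (Dvd.intro_left _ rfl)).1 (hE ▸ Dvd.intro_left _ rfl)
    rcases hx.1.dvd_mul.1 this with h | h
    · have := (Nat.prime_dvd_prime_iff_eq hx.1 Nat.prime_two).1 (hx.1.dvd_of_dvd_pow (n := 4) h)
      omega
    · exact (hx.1.dvd_mul.1 h).elim (hB ▸ not_dvd_pr hq hx.1 hx.2 _)
        fun h => hxy ((Nat.prime_dvd_prime_iff_eq hx.1 hy.1).1 h)
  have hyz : y ≠ z := by
    rintro rfl
    have : y ∣ A * x := hE ▸ dvd_add ⟨16 * B, by ring⟩ (Dvd.intro_left _ rfl)
    exact (hy.1.dvd_mul.1 this).elim (hA ▸ not_dvd_pr hq hy.1 hy.2 _)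
      fun h => hxy ((Nat.prime_dvd_prime_iff_eq hy.1 hx.1).1 h).symm
  have hq' : PrimeSys q' (z₀ + x + y + z) := by
    refine ⟨?_, ?_, ?_, ?_, by omega⟩
    · rintro (i | u)
      · exact hq.hp i
      · fin_cases u; exacts [hy.1, hx.1, hz.1]
    · rintro (i | u)
      · exact hq.h2 i
      · fin_cases u <;> simp [q'] <;> omega
    · rintro (i | u) (j | v) h
      · exact congrArg _ (hq.inj h)
      · have := hq.le i
        fin_cases v <;> simp [q'] at h <;> omega
      · have := hq.le j
        fin_cases u <;> simp [q'] at h <;> omega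
      · fin_cases u <;> fin_cases v <;> simp [q'] at h ⊢ <;> omega
    · rintro (i | u)
      · have := hq.le i
        simp only [q', Sum.elim_inl]; omega
      · fin_cases u <;> simp [q'] <;> omega
  have hf : ∀ u, pr q' (fib τ' u) = pr q (fib τ u) * ![y, x, z] u := fun u => by
    simp [pr, fib, prod_filter, Fintype.prod_sum_type, q', τ']
  have h : Crv q' τ' (A * x) (B * y) :=
    ⟨by rw [hf, hB]; rfl, by rw [hf, hA]; rfl, by rw [hf, hE]; rfl, h3⟩
  refine ⟨Nat.coprime_of_dvd fun p hp h1 h4 => ?_, ?_⟩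
  · rw [h.hS, pr, hp.prime.dvd_finsetProd_iff] at h1
    obtain ⟨j, hj, h1⟩ := h1
    obtain rfl := (Nat.prime_dvd_prime_iff_eq hp (hq'.hp j)).1 h1
    have := (dvd_c hp (hq'.h2 j) 0 _).trans (dvd_fib (τ := τ') hq' j 0) |>.1
      (by rw [← h.hT]; simpa using Int.natCast_dvd_natCast.2 h4)
    simp [fib, this] at hj
  set δ := fun i => dd (A * x) (B * y) (τ i) (q i) with hδ
  set η := fun i => rr (pr q (fib τ 0)) (τ i) (q i) * δ i with hη
  have hodd : ∀ j, Odd (q j) := fun j => (hq.hp j).odd_of_ne_two (hq.h2 j)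
  have hη0 : ∀ i, τ i = some 0 → η i = δ i := fun i hi => by simp [hη, hi, rr]
  have hη1 : ∀ i u, τ i = some u → u ≠ 0 → η i = J(y | q i) := fun i u hi hu => by
    have h1 : ¬ (q i : ℤ) ∣ B := by rw [hB, dvd_fib hq, hi]; simpa
    fin_cases u
    · exact absurd rfl hu
    · simp only [hη, hδ, hi, rr, dd, ← hB]
      simp only [Fin.mk_one, Matrix.cons_val_one, Matrix.cons_val_zero]
      rw [← neg_mul, jacobiSym.mul_left, ← mul_assoc, jac_sq (hq.hp i) (mt dvd_neg.1 h1), one_mul]
    · have : J(A * x | q i) = J(16 * (B * y) | q i) := jac_congr (by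
        have := congrArg (Nat.cast (R := ℤ)) hE
        push_cast at this
        simpa [this] using ((dvd_fib hq i 2).2 hi).mul_right _)
      simp only [hη, hδ, hi, rr, dd, ← hB]
      simp only [Fin.reduceFinMk, Matrix.cons_val]
      rw [this, jac16 (hodd i), jacobiSym.mul_left, ← mul_assoc, jac_sq (hq.hp i) h1, one_mul]
  simp only [GG, ← hη] at hG
  split_ifs at hG with hW
  swap
  · exact absurd hG (lt_irrefl _)
  have hN : Nn q τ δ η J(y | x) < 4 := by
    rw [lt_max_iff, div_pos_iff_of_pos_right four_pos, sub_pos] at hG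
    exact_mod_cast hG.resolve_left (lt_irrefl _)
  have hr := h.row hq'
  refine h.rank_zero hq' (y := .inr 0) (z := .inr 2) rfl rfl ?_ ?_
  · have := hr (.inr 0)
    simp only [Fintype.prod_sum_type, Fin.prod_univ_three] at this ⊢
    simp only [τ', q', Sum.elim_inl, Sum.elim_inr, ww] at this ⊢
    simp only [Fin.isValue, Option.some.injEq, zero_ne_one, ↓reduceIte, one_mul, Fin.reduceEq,
      mul_one, reduceCtorEq, mul_neg, neg_neg, one_ne_zero] at this ⊢
    refine Eq.trans ?_ hW
    rw [← this, w0, ← mul_assoc, ← prod_mul_distrib, mul_neg, mul_comm]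
    congr 2
    refine prod_congr rfl fun j _ => ?_
    rcases hu : τ j with _ | u
    · simp
    · fin_cases u
      · simp [hη0 j hu, hδ, hu]
      · simp [hη1 j _ hu (by decide), sy]
      · simp
  · rw [← card_filter_add_card_filter_not (fun a => a (.inr 1) = false), filter_filter,
      filter_filter]
    refine Nat.le_of_lt_succ (lt_of_le_of_lt (add_le_add ?_ ?_) hN)
    · refine card_le_card_of_injOn (fun a i => a (.inl i)) (fun a ha => ?_) fun a ha b hb e => ?_
      · simp only [coe_filter, mem_univ, true_and, Set.mem_ofPred_eq] at ha ⊢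
        intro i
        simpa [PP, Fintype.prod_sum_type, Fin.prod_univ_three, ha.1.1, ha.1.2.1, ha.2, τ', q']
          using ha.1.2.2 (.inl i)
      · simp only [coe_filter, mem_univ, true_and, Set.mem_ofPred_eq] at ha hb
        funext j
        rcases j with j | u
        · exact congrFun e j
        · fin_cases u <;> simp [ha, hb]
    · refine card_le_card_of_injOn (fun a i => xor (a (.inl i)) (τ i = some 1)) (fun a ha => ?_)
        fun a ha b hb e => ?_
      · simp only [coe_filter, mem_univ, true_and, Set.mem_ofPred_eq, Bool.not_eq_false] at ha ⊢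
        obtain ⟨⟨a0, a2, ha⟩, a1⟩ := ha
        refine ⟨fun i => ⟨fun hi => by simpa [hi] using (ha (.inl i)).1 hi, ?_⟩, ?_⟩
        · have e1 := PP_xor (τ := τ') hq' a (fun j => τ' j = some 1) (.inl i)
          rw [(ha _).2] at e1
          simp only [PP, decide_eq_true_eq, hr] at e1
          simp only [Fintype.prod_sum_type, Fin.prod_univ_three, a0, a1, a2, τ', q', Sum.elim_inl,
            Sum.elim_inr] at e1
          simp only [Fin.isValue, Option.some.injEq, zero_ne_one, decide_false,
            Bool.false_eq_true, ↓reduceIte, decide_true, bne_self_eq_false, mul_one, Fin.reduceEq]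
            at e1
          refine (congrArg (· * _) (Eq.trans (by rfl) e1)).trans ?_
          beta_reduce
          rcases hu : τ i with _ | u
          · have := (ha (.inl i)).1 hu
            simp [this, sy, hδ, hu]
          · have h5 := (h.coll hq' (i := .inl i) hu)
            have h6 := jac_sq (hq.hp i) h5.1.2
            have h7 := sy_sign (τ := τ) hq i i
            rw [hu] at h7
            erw [h5.2.1] at h6
            by_cases h8 : u = 1
            · subst h8
              cases a (.inl i) <;> rcases h7 with h7 | h7 <;> simp [h7, hδ, hu]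
            · cases a (.inl i) <;> simp [h8, hδ, hu, sy]
              simpa [q'] using h6
        · have := (ha (.inr 0)).2
          simp only [PP, Fintype.prod_sum_type, Fin.prod_univ_three, a0, a1, a2, τ', q',
            Sum.elim_inl, Sum.elim_inr] at this
          simp only [Bool.false_eq_true, ↓reduceIte, one_mul, mul_one] at this
          rw [← this, mul_comm, chy]
          congr 1
          refine prod_congr rfl fun j _ => ?_
          rcases hu : τ j with _ | u
          · simp [sy]
          · fin_cases u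
            · simp [sy]
            · simp [hη1 j _ hu (by decide), sy]
            · simp [hη1 j _ hu (by decide), sy]
      · simp only [coe_filter, mem_univ, true_and, Set.mem_ofPred_eq, Bool.not_eq_false] at ha hb
        funext j
        rcases j with j | u
        · simpa using congrFun e j
        · fin_cases u <;> simp [ha, hb]

end Pool.Agent.Lib.RankZero
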