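import Mathlib

/-!
Definitions for the distribution of primes in residue classes on average.
-/

namespace Pool.Agent.Lib.RankZero

open Finset

/-- The logarithmically weighted indicator of the primes. -/
noncomputable def th (n : ℕ) : ℝ := if n.Prime then Real.log n else 0

/-- The local factor of the approximant. -/
noncomputable def gq (q n : ℕ) : ℝ := if q ∣ n then -1 else 1 / ((q : ℝ) - 1)

/-- The normalized Ramanujan sum. -/
noncomputable def lam (r n : ℕ) : ℝ := ∏ q ∈ r.primeFactors, gq q n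

/-- The approximant of `th`. -/
noncomputable def Ls (R n : ℕ) : ℝ := ∑ r ∈ (Icc 1 R).filter Squarefree, lam r n

/-- The sum over a residue class in an interval. -/
noncomputable def cls (f : ℕ → ℝ) (Q k lo hi : ℕ) : ℝ :=
  ∑ n ∈ (Ioc lo hi).filter (fun n => n % Q = k), f n

/-- The error of the primes in a residue class. -/
noncomputable def Eth (Q k lo hi : ℕ) : ℝ :=
  cls th Q k lo hi - if k.Coprime Q then ((hi - lo : ℕ) : ℝ) / Q.totient else 0

/-- The error against the approximant. -/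
noncomputable def Eh (R Q k lo hi : ℕ) : ℝ := cls (fun n => th n - Ls R n) Q k lo hi

/-- A bound for the variance over residue classes. -/
def Var (E : ℕ → ℕ → ℕ → ℕ → ℝ) (N : ℕ) (V : ℕ → ℝ) : Prop :=
  ∀ Q X lo hi : ℕ, 1 ≤ Q → Q ^ 5 ≤ N → N ≤ X ^ 2 → X ≤ 4 * N → lo ≤ hi → hi ≤ X →
    ∑ k ∈ range Q, E Q k lo hi ^ 2 ≤ (X : ℝ) ^ 2 / Q * V Q

/-- The bound is small on average over well distributed moduli. -/
def Avg (N : ℕ) (V : ℕ → ℝ) (ε : ℝ) : Prop :=
  (∀ Q, 0 ≤ V Q) ∧ ∀ (ι : Type) (S : Finset ι) (w : ι → ℝ) (n : ι → Fin 10 → ℕ) (W : ℝ),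
    (∀ d ∈ S, 0 ≤ w d) → (∀ d ∈ S, ∀ i, n d i ≠ 0) → (∀ d ∈ S, (∏ i, n d i) ^ 5 ≤ N) →
    (∀ i g, 1 ≤ g → ∑ d ∈ S with g ∣ n d i, w d ≤ W / g) →
    ∑ d ∈ S, w d * V (∏ i, n d i) ≤ W * ε

/-- Periodicity in both variables. -/
def Per (M : ℕ) (F : ℤ → ℤ → ℝ) : Prop :=
  ∀ x y x' y' : ℤ, (M : ℤ) ∣ x' - x → (M : ℤ) ∣ y' - y → F x y = F x' y'

/-- The data `(a, p, B, C)` of the ternary equation `a p x - 16 B y = C z`. -/
abbrev Dat := ℕ × ℕ × ℕ × ℕ

/-- The coefficient of the first variable. -/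
def Dat.A (d : Dat) : ℕ := d.1 * d.2.1

/-- The coefficient of the second variable, up to the factor 16. -/
def Dat.B (d : Dat) : ℕ := d.2.2.1

/-- The coefficient of the third variable. -/
def Dat.C (d : Dat) : ℕ := d.2.2.2

/-- The modulus of periodicity. -/
def Dat.M (d : Dat) : ℕ := 4 * d.A * d.B * d.C

/-- Admissible data. -/
structure Dat.Ok (d : Dat) (D : ℕ) : Prop where
  hA : 1 ≤ d.A ∧ d.A ≤ D
  hB : 1 ≤ d.B ∧ d.B ≤ D
  hC : 1 ≤ d.C ∧ d.C ≤ D
  hp : d.2.1.Prime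
  cA : d.A.Coprime (2 * d.B)
  cC : d.C.Coprime (2 * d.A * d.B)

/-- The weighted count of solutions with two prime variables and weight `f` on the third. -/
noncomputable def tri (N : ℕ) (d : Dat) (F : ℤ → ℤ → ℝ) (f : ℕ → ℝ) : ℝ :=
  ∑ x ∈ Ioc (2 * N / d.A) (3 * N / d.A), ∑ y ∈ Ioc (N / (32 * d.B)) (N / (16 * d.B)),
    th x * th y * F x y *
      if d.C ∣ d.A * x - 16 * d.B * y then f ((d.A * x - 16 * d.B * y) / d.C) else 0

/-- The mean over pairs of units. -/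
noncomputable def mean (M : ℕ) (F : ℤ → ℤ → ℝ) : ℝ :=
  (∑ x ∈ range M, ∑ y ∈ range M, if x.Coprime M ∧ y.Coprime M then F x y else 0) /
    (M.totient : ℝ) ^ 2

end Pool.Agent.Lib.RankZero
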