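import Pool.Agent.Lib.MP_6073f3_nt.Z.Bridge
import Pool.Agent.Lib.MP_6073f3_nt.Z.Defs
import Pool.Agent.Lib.MP_6073f3_nt.Sieve

/-!
The splitting signs are independent and uniform over pairs of units.
-/

set_option linter.unusedSectionVars false

namespace Pool.Agent.Lib.RankZero

open Finset Pool.Agent.Lib.TorsRank
open scoped NumberTheorySymbols

theorem crt_one {m n : ℕ} (h : m.Coprime n) (f g : ℕ → ℝ) (hf : ∀ x, f (x % m) = f x)
    (hg : ∀ x, g (x % n) = g x) :
    ∑ x ∈ range (m * n), f x * g x = (∑ x ∈ range m, f x) * ∑ x ∈ range n, g x := by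
  rcases Nat.eq_zero_or_pos m with rfl | hm
  · simp
  rcases Nat.eq_zero_or_pos n with rfl | hn
  · simp
  rw [sum_mul_sum, ← sum_product']
  refine sum_nbij' (fun x => (x % m, x % n)) (fun y => Nat.chineseRemainder h y.1 y.2)
    (fun x _ => by simp [Nat.mod_lt _ hm, Nat.mod_lt _ hn])
    (fun y _ => mem_range.2 (Nat.chineseRemainder_lt_mul h _ _ hm.ne' hn.ne')) (fun x hx => ?_)
    (fun y hy => ?_) fun x _ => by rw [hf, hg]
  · exact Nat.ModEq.eq_of_lt_of_lt (Nat.chineseRemainder_modEq_unique h (Nat.mod_modEq x m).symm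
      (Nat.mod_modEq x n).symm).symm (Nat.chineseRemainder_lt_mul h _ _ hm.ne' hn.ne')
      (mem_range.1 hx)
  · obtain ⟨h1, h2⟩ := mem_product.1 hy
    have := (Nat.chineseRemainder h y.1 y.2).2
    exact Prod.ext (Eq.trans this.1 (Nat.mod_eq_of_lt (mem_range.1 h1)))
      (Eq.trans this.2 (Nat.mod_eq_of_lt (mem_range.1 h2)))

theorem dvd_sub_mod (x m : ℕ) : (m : ℤ) ∣ x - (x % m : ℕ) := by
  push_cast; exact Int.dvd_self_sub_emod

theorem cop_mod (x m : ℕ) : (x % m).Coprime m ↔ x.Coprime m := by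
  rw [Nat.Coprime, ← Nat.gcd_rec, Nat.gcd_comm]

theorem mean_mul {m n : ℕ} (h : m.Coprime n) {F G : ℤ → ℤ → ℝ} (hF : Per m F) (hG : Per n G) :
    mean (m * n) (fun x y => F x y * G x y) = mean m F * mean n G := by
  have key : ∀ {m : ℕ} {F : ℤ → ℤ → ℝ}, Per m F → ∀ x y : ℕ,
      ((if (x % m).Coprime m ∧ y.Coprime m then F (x % m : ℕ) y else 0) =
        if x.Coprime m ∧ y.Coprime m then F x y else 0) ∧
      (if x.Coprime m ∧ (y % m).Coprime m then F x (y % m : ℕ) else 0) =
        if x.Coprime m ∧ y.Coprime m then F x y else 0 := fun {m F} hF x y => by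
    rw [hF _ y x y (dvd_sub_mod x m) (by simp), hF x _ x y (by simp) (dvd_sub_mod y m)]
    simp only [cop_mod, and_self]
  rw [mean, mean, mean, Nat.totient_mul h, div_mul_div_comm, Nat.cast_mul, mul_pow,
    ← crt_one h _ _ (fun x => sum_congr rfl fun y _ => (key hF x y).1)
      fun x => sum_congr rfl fun y _ => (key hG x y).1]
  congr 1
  refine sum_congr rfl fun x _ => ?_
  rw [← crt_one h _ _ (fun y => (key hF x y).2) fun y => (key hG x y).2]
  refine sum_congr rfl fun y _ => ?_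
  simp only [Nat.coprime_mul_iff_right, ite_zero_mul_ite_zero]
  exact if_congr (by tauto) rfl rfl

theorem Per.mono {m n : ℕ} {F : ℤ → ℤ → ℝ} (hF : Per m F) (h : m ∣ n) : Per n F :=
  fun x y x' y' h1 h2 => hF x y x' y' ((Int.natCast_dvd_natCast.2 h).trans h1)
    ((Int.natCast_dvd_natCast.2 h).trans h2)

theorem mean_prod {ι : Type} (m : ι → ℕ) (hm : Pairwise fun i j => (m i).Coprime (m j))
    (F : ι → ℤ → ℤ → ℝ) (hF : ∀ i, Per (m i) (F i)) (s : Finset ι) :
    mean (∏ i ∈ s, m i) (fun x y => ∏ i ∈ s, F i x y) = ∏ i ∈ s, mean (m i) (F i) := by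
  classical
  induction s using Finset.induction_on with
  | empty => simp [mean]
  | insert a s ha ih =>
    simp only [prod_insert ha]
    rw [mean_mul (Nat.Coprime.prod_right fun i hi => hm (by rintro rfl; exact ha hi)) (hF a)
      fun x y x' y' h1 h2 => prod_congr rfl fun i hi =>
        (hF i).mono (dvd_prod_of_mem m hi) x y x' y' h1 h2, ih]

theorem mean_prime {p : ℕ} [Fact p.Prime] (f : ZMod p → ZMod p → ℝ) :
    mean p (fun x y => f x y) =
      (∑ u, ∑ v, if u ≠ 0 ∧ v ≠ 0 then f u v else 0) / ((p : ℝ) - 1) ^ 2 := by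
  have hp : p.Prime := Fact.out
  have e : ∀ g : ZMod p → ℝ, ∑ x ∈ range p, g x = ∑ u, g u := fun g =>
    sum_nbij' (fun x => (x : ZMod p)) ZMod.val (fun _ _ => mem_univ _)
      (fun u _ => mem_range.2 (ZMod.val_lt u)) (fun x hx => ZMod.val_cast_of_lt (mem_range.1 hx))
      (fun u _ => ZMod.natCast_zmod_val u) fun _ _ => rfl
  have h : ∀ x : ℕ, x.Coprime p ↔ (x : ZMod p) ≠ 0 := fun x => by
    rw [Nat.coprime_comm, hp.coprime_iff_not_dvd, Ne, ZMod.natCast_eq_zero_iff]
  rw [mean, Nat.totient_prime hp, Nat.cast_pred hp.pos, ← e]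
  simp only [h, Int.cast_natCast, ← e]

theorem qc_half {p : ℕ} [Fact p.Prime] (h2 : p ≠ 2) {a : ZMod p} (ha : a ≠ 0) {s : ℤ}
    (hs : s = 1 ∨ s = -1) :
    ∑ u, (if u ≠ 0 then if quadraticChar (ZMod p) (a * u) = s then (1 : ℝ) else 0 else 0) =
      ((p : ℝ) - 1) / 2 := by
  have h1 := quadraticChar_sum_zero (F := ZMod p) (by rwa [ZMod.ringChar_zmod_n])
  have e : ∀ u, (if u ≠ 0 then if quadraticChar (ZMod p) (a * u) = s then (1 : ℝ) else 0 else 0) =
      (1 - (if u = 0 then 1 else 0) +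
        s * quadraticChar (ZMod p) a * quadraticChar (ZMod p) u) / 2 := fun u => by
    rcases eq_or_ne u 0 with rfl | hu
    · simp
    · rcases quadraticChar_dichotomy ha with h3 | h3 <;>
        rcases quadraticChar_dichotomy hu with h4 | h4 <;> rcases hs with rfl | rfl <;>
        simp only [map_mul, h3, h4, if_pos hu, if_neg hu] <;> norm_num
  simp only [e, ← sum_div, sum_add_distrib, sum_sub_distrib, ← mul_sum, ← Int.cast_sum, h1]
  simp [ZMod.card]

/-- The sign of a bit. -/
def sb (b : Bool) : ℤ := if b then -1 else 1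

/-- The law of the splitting sign. -/
noncomputable def law (x : Option (Fin 3)) (b : Bool) : ℝ :=
  if x = none then (if b then 0 else 1) else 1 / 2

theorem mean_loc {p : ℕ} (hp : p.Prime) (h2 : p ≠ 2) {A B : ℤ} (u : Fin 3) (b : Bool)
    (hA : u ≠ 1 → ¬ (p : ℤ) ∣ A) (hB : u ≠ 0 → ¬ (p : ℤ) ∣ B) :
    mean p (fun x y => if (u = 2 → (p : ℤ) ∣ A * x - 16 * B * y) ∧
      dd (A * x) (B * y) (some u) p = sb b then 1 else 0) =
      (if u = 2 then 1 / ((p : ℝ) - 1) else 1) * (1 / 2) := by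
  have : Fact p.Prime := ⟨hp⟩
  have h1 : (p : ℝ) - 1 ≠ 0 := sub_ne_zero.2 (by exact_mod_cast hp.one_lt.ne')
  have hs : sb b = 1 ∨ sb b = -1 := by cases b <;> simp [sb]
  have hJ : ∀ n : ℤ, J(n | p) = quadraticChar (ZMod p) n := fun n =>
    (jacobiSym.legendreSym.to_jacobiSym p n).symm
  have hc : ∀ c : ℝ, ∑ v : ZMod p, (if v ≠ 0 then c else 0) = (p - 1) * c := fun c => by
    rw [← sum_filter, filter_ne', sum_const, card_erase_of_mem (mem_univ _), card_univ, ZMod.card,
      nsmul_eq_mul, Nat.cast_pred hp.pos]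
  simp only [← ZMod.intCast_zmod_eq_zero_iff_dvd] at hA hB ⊢
  fin_cases u
  · have := mean_prime fun x _ : ZMod p =>
      if quadraticChar (ZMod p) (-A * x) = sb b then (1 : ℝ) else 0
    simp only [ite_and, sum_ite_irrel, sum_const_zero, hc] at this
    simp only [← mul_ite_zero, ← mul_sum] at this
    rw [qc_half h2 (neg_ne_zero.2 (hA (by decide))) hs] at this
    convert this using 1
    · simp [dd, hJ]
    · simp; field_simp
  · have := mean_prime fun _ y : ZMod p =>
      if quadraticChar (ZMod p) (-B * y) = sb b then (1 : ℝ) else 0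
    simp only [ite_and, sum_ite_irrel, sum_const_zero] at this
    rw [qc_half h2 (neg_ne_zero.2 (hB (by decide))) hs, hc] at this
    convert this using 1
    · simp [dd, hJ]
    · simp; field_simp
  · have := mean_prime fun x y : ZMod p => if A * x - 16 * B * y = 0 ∧
      quadraticChar (ZMod p) (A * x) = sb b then (1 : ℝ) else 0
    have h16 : (16 * B : ZMod p) ≠ 0 := by
      have := (dvd_c hp h2 0 B).not.2 (mt (ZMod.intCast_zmod_eq_zero_iff_dvd _ _).2 (hB (by decide)))
      simpa [← ZMod.intCast_zmod_eq_zero_iff_dvd] using this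
    rw [sum_congr rfl (g := fun u => if u ≠ 0 then
      if quadraticChar (ZMod p) (A * u) = sb b then (1 : ℝ) else 0 else 0) fun u _ => by
        rw [sum_eq_single (A * u / (16 * B)) (fun v _ hv => by
          rw [if_neg (c := _ = 0 ∧ _) fun h => hv (eq_div_of_mul_eq h16 (by
            linear_combination -h.1)), ite_self]) (by simp), mul_div_cancel₀ _ h16]
        by_cases hu : u = 0 <;> simp [hu, hA (by decide), h16],
      qc_half h2 (hA (by decide)) hs] at this
    convert this using 1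
    · simp [dd, hJ]
    · simp; field_simp

theorem mean_congr {M : ℕ} {F G : ℤ → ℤ → ℝ}
    (h : ∀ x y : ℕ, x.Coprime M → y.Coprime M → F x y = G x y) : mean M F = mean M G := by
  unfold mean
  congr 1
  exact sum_congr rfl fun x _ => sum_congr rfl fun y _ => if_ctx_congr Iff.rfl
    (fun h' => h x y h'.1 h'.2) fun _ => rfl

theorem mean_sum {ι : Type} (M : ℕ) (s : Finset ι) (c : ι → ℝ) (F : ι → ℤ → ℤ → ℝ) :
    mean M (fun x y => ∑ i ∈ s, F i x y * c i) = ∑ i ∈ s, mean M (F i) * c i := by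
  simp only [mean, div_mul_eq_mul_div, ← sum_div, sum_mul, ite_mul, zero_mul]
  rw [sum_comm (s := s)]
  congr 1
  refine sum_congr rfl fun x _ => ?_
  rw [sum_comm (s := s)]
  exact sum_congr rfl fun y _ => by split_ifs <;> simp

variable {κ : Type} [Fintype κ] [DecidableEq κ] {q : κ → ℕ} {z₀ : ℕ} {τ : κ → Option (Fin 3)}

theorem dd_per {A B : ℤ} {i : κ} {M : ℕ} (h : τ i ≠ none → q i ∣ M) {x y x' y' : ℤ}
    (h1 : (M : ℤ) ∣ x' - x) (h2 : (M : ℤ) ∣ y' - y) :
    dd (A * x) (B * y) (τ i) (q i) = dd (A * x') (B * y') (τ i) (q i) := by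
  rcases hu : τ i with _ | u
  · rfl
  · have h3 := Int.natCast_dvd_natCast.2 (h (by simp [hu]))
    refine (jac_congr ?_).symm
    fin_cases u
    · exact ((h3.trans h1).mul_left (-A)).trans (dvd_of_eq (by simp; ring))
    · exact ((h3.trans h2).mul_left (-B)).trans (dvd_of_eq (by simp; ring))
    · exact ((h3.trans h1).mul_left A).trans (dvd_of_eq (by simp; ring))

theorem crt_mean (hq : PrimeSys q z₀) {A B C : ℕ} (hA : A = pr q (fib τ 1))
    (hB : B = pr q (fib τ 0)) (hC : C = pr q (fib τ 2)) (H : (κ → ℤ) → ℝ) :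
    mean (4 * A * B * C) (fun x y => if (C : ℤ) ∣ A * x - 16 * B * y then
      if A * x % 4 = 3 ∧ A * y % 4 = 1 then H fun i => dd (A * x) (B * y) (τ i) (q i) else 0
      else 0) = 1 / 4 * (∏ i ∈ fib τ 2, 1 / ((q i : ℝ) - 1)) *
        ∑ d : κ → Bool, (∏ i, law (τ i) (d i)) * H fun i => sb (d i) := by
  set m : κ → ℕ := fun i => if τ i = none then 1 else q i with hm
  have hM : 4 * A * B * C = 4 * ∏ i, m i := by
    simp only [hA, hB, hC, pr, fib, prod_filter, mul_assoc, ← prod_mul_distrib]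
    congr 1
    refine prod_congr rfl fun i _ => ?_
    rcases hu : τ i with _ | u
    · simp [hm, hu]
    · fin_cases u <;> simp [hm, hu]
  have hcop : Pairwise fun i j => (m i).Coprime (m j) := fun i j hij => by
    simp only [hm]; split_ifs <;> first | exact hq.cop hij | simp
  have hAo : A % 2 = 1 := Nat.odd_iff.1 (hA ▸ hq.odd _)
  have hnd : ∀ i u v, τ i = some u → u ≠ v → ¬ (q i : ℤ) ∣ (pr q (fib τ v) : ℕ) :=
    fun i u v h1 h2 => by rw [dvd_fib hq, h1]; simpa
  let F0 : ℤ → ℤ → ℝ := fun x y => if A * x % 4 = 3 ∧ A * y % 4 = 1 then 1 else 0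
  let F : (κ → Bool) → κ → ℤ → ℤ → ℝ := fun d i x y =>
    if (τ i = some 2 → (q i : ℤ) ∣ A * x - 16 * B * y) ∧
      dd (A * x) (B * y) (τ i) (q i) = sb (d i) then 1 else 0
  have hF : ∀ d i, Per (m i) (F d i) := fun d i x y x' y' h1 h2 => by
    simp only [F]
    rw [dd_per (M := m i) (fun h => by simp [hm, h]) h1 h2]
    refine if_congr (and_congr_left' (imp_congr_right fun h => ?_)) rfl rfl
    simp only [hm, h, reduceCtorEq, if_false] at h1 h2
    refine dvd_iff_dvd_of_dvd_sub ?_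
    convert (h2.mul_left (16 * B)).sub (h1.mul_left A) using 1; ring
  rw [hM, mean_congr (G := fun x y => ∑ d : κ → Bool, (F0 x y * ∏ i, F d i x y) *
    H fun i => sb (d i)) fun x y hx hy => ?_, mean_sum, mul_sum]
  · refine sum_congr rfl fun d _ => ?_
    rw [mean_mul (Nat.Coprime.prod_right fun i _ => by
      simp only [hm]; split_ifs
      · simp
      · exact (Nat.coprime_two_left.2 ((hq.hp i).odd_of_ne_two (hq.h2 i))).pow_left 2)
      (fun x y x' y' ⟨a, h1⟩ ⟨b, h2⟩ => by
        simp only [F0, eq_add_of_sub_eq h1, eq_add_of_sub_eq h2, mul_add, mul_left_comm (A : ℤ)]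
        refine if_congr ?_ rfl rfl
        push_cast; omega)
      (fun x y x' y' h1 h2 => prod_congr rfl fun i hi =>
        (hF d i).mono (dvd_prod_of_mem m hi) x y x' y' h1 h2), mean_prod m hcop _ (hF d),
      ← mul_assoc, mul_assoc (1 / 4), fib, prod_filter, ← prod_mul_distrib]
    congr 2
    · rcases (show (A : ℤ) % 4 = 1 ∨ (A : ℤ) % 4 = 3 by omega) with h | h <;>
        simp [mean, F0, sum_range_succ, Int.mul_emod, h, show Nat.totient 4 = 2 from rfl] <;>
        norm_num
    · refine prod_congr rfl fun i _ => ?_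
      rcases hu : τ i with _ | u
      · cases h : d i <;> simp [F, hm, hu, mean, law, dd, sb, h]
      · simpa [F, hm, hu, law] using mean_loc (hq.hp i) (hq.h2 i) u (d i)
          (hA ▸ hnd i u 1 hu) (hB ▸ hnd i u 0 hu)
  · have h1 : ∀ i, ∃ b, dd (A * x) (B * y) (τ i) (q i) = sb b := fun i => by
      rcases hu : τ i with _ | u
      · exact ⟨false, rfl⟩
      have h2 : ∀ w : ℕ, w.Coprime (4 * ∏ i, m i) → ¬ (q i : ℤ) ∣ w := fun w hw h =>
        (hq.hp i).one_lt.ne' (Nat.eq_one_of_dvd_coprimes hw (mod_cast h) (Dvd.dvd.mul_left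
          ((show q i ∣ m i by simp [hm, hu]).trans (dvd_prod_of_mem m (mem_univ i))) 4))
      have hP := Nat.prime_iff_prime_int.1 (hq.hp i)
      have h3 : ¬ (q i : ℤ) ∣ ![-(A * x : ℤ), -(B * y), A * x] u := by
        fin_cases u
        · simpa [hP.dvd_mul, h2 x hx, hA] using hnd i _ 1 hu (by decide)
        · simpa [hP.dvd_mul, h2 y hy, hB] using hnd i _ 0 hu (by decide)
        · simpa [hP.dvd_mul, h2 x hx, hA] using hnd i _ 1 hu (by decide)
      rcases jacobiSym.eq_one_or_neg_one (gcd_of_not_dvd (hq.hp i) h3) with h | h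
      exacts [⟨false, h⟩, ⟨true, h⟩]
    choose d hd using h1
    have h2 : (C : ℤ) ∣ A * x - 16 * B * y ↔
        ∀ i, τ i = some 2 → (q i : ℤ) ∣ A * x - 16 * B * y := by
      refine ⟨fun h i hi => ((dvd_fib hq i 2).2 hi).trans (hC ▸ h), fun h => ?_⟩
      rw [hC, pr, Nat.cast_prod]
      exact prod_dvd_of_coprime (fun i _ j _ hij => Nat.isCoprime_iff_coprime.2 (hq.cop hij))
        fun i hi => h i (mem_filter.1 hi).2
    rw [sum_eq_single d (fun d' _ h => ?_) (by simp)]
    · simp only [F, F0, hd, and_true, prod_boole, mem_univ, true_imp_iff, ← h2]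
      split_ifs <;> simp
    · obtain ⟨i, hi⟩ := Function.ne_iff.1 h
      rw [prod_eq_zero (mem_univ i) (if_neg fun h => by
        have := h.2
        rw [hd] at this
        revert hi this
        cases d i <;> cases d' i <;> simp [sb]), mul_zero, zero_mul]

end Pool.Agent.Lib.RankZero
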