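import Pool.Agent.Lib.MP_6073f3_nt.Z.Final

/-!
The curves with full 2-torsion ordered by the minimal discriminant.
-/

namespace Pool.Agent.Lib.RankZero

open Finset Pool.Agent.Lib.TorsRank WeierstrassCurve

/-- The curves with full 2-torsion having an integral model of discriminant at most `X`. -/
def famD (X : ℕ) : Set (ℤ × ℤ) :=
  {c | 4 * c.1 ^ 3 + 27 * c.2 ^ 2 ≠ 0 ∧ Mn c.1 c.2 ∧
    (∃ (V : WeierstrassCurve ℤ) (C : VariableChange ℚ),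
      C • (W 0 c.1 c.2 : WeierstrassCurve ℚ) = V.map (Int.castRingHom ℚ) ∧ |V.Δ| ≤ X) ∧
    Emb 2 2 (Pt 0 c.1 c.2)}

theorem famS_sub (X : ℕ) : famS 2 2 X ⊆ famD (32 * X) := by
  rintro ⟨A, B⟩ ⟨h1, h2, h3, h4⟩
  refine ⟨h1, h2, ⟨⟨0, 0, 0, A, B⟩, 1, by simp [WeierstrassCurve.map], ?_⟩, h4⟩
  obtain ⟨h5, h6⟩ := max_le_iff.1 h3
  have h7 := abs_le.1 (abs_pow A 3).le
  simp only [Δ, b₂, b₄, b₆, b₈, abs_le] at *
  push_cast
  constructor <;> nlinarith [sq_nonneg B]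

theorem famD_disc {X : ℕ} {c : ℤ × ℤ} (h : c ∈ famD X) :
    |4 * c.1 ^ 3 + 27 * c.2 ^ 2| ≤ 6 ^ 12 * (X : ℤ) := by
  obtain ⟨-, h2, ⟨V, C, e, h3⟩, -⟩ := h
  have e4 := congrArg c₄ e
  have e6 := congrArg c₆ e
  have e12 := congrArg Δ e
  rw [variableChange_c₄, map_c₄] at e4
  rw [variableChange_c₆, map_c₆] at e6
  rw [variableChange_Δ, map_Δ] at e12
  simp only [eq_intCast] at e4 e6 e12
  have hu : ((C.u⁻¹ : ℚˣ) : ℚ) ≠ 0 := Units.ne_zero _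
  generalize ((C.u⁻¹ : ℚˣ) : ℚ) = u at *
  obtain ⟨k, hk⟩ := h2.int (A' := -27 * V.c₄) (B' := -54 * V.c₆) (ω := 6 * u)
    (by push_cast; rw [← e4]; simp only [c₄, b₂, b₄]; ring)
    (by push_cast; rw [← e6]; simp only [c₆, b₂, b₄, b₆]; ring)
  have h4 : 6 ^ 12 * V.Δ = -16 * k ^ 12 * (4 * c.1 ^ 3 + 27 * c.2 ^ 2) := by
    rw [← Int.cast_inj (α := ℚ)]
    push_cast
    rw [← e12, ← hk]
    simp only [Δ, b₂, b₄, b₆, b₈]; ring
  have h5 : k ≠ 0 := by rintro rfl; simp [hu] at hk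
  have h6 : 1 ≤ k ^ 12 := (Even.pow_pos (by decide) h5)
  have h7 := congrArg abs h4
  rw [abs_mul, abs_mul, abs_mul, abs_of_nonneg (zero_le_one.trans h6)] at h7
  norm_num at h7 ⊢
  nlinarith [abs_nonneg (4 * c.1 ^ 3 + 27 * c.2 ^ 2)]

theorem famD_par {X : ℕ} {c : ℤ × ℤ} (h : c ∈ famD X) : ∃ x : ℤ × ℤ, (∃ u r,
    Chg (P22.a ℚ x.1 x.2) (P22.b ℚ x.1 x.2) 0 0 c.1 c.2 u r) ∧ x.1 * x.2 * (x.1 - x.2) ≠ 0 ∧
      (x.1 * x.2 * (x.1 - x.2)) ^ 2 ≤ 84 ^ 12 * X := by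
  have hd := famD_disc h
  obtain ⟨hΔ, -, -, f, hf⟩ := h
  obtain ⟨r, hr, e, er⟩ := two_pt (P := f P22.x0)
    (fun h => P22.hx.1 (hf (h.trans (map_zero f).symm))) (by rw [← map_add, P22.hx.2, map_zero])
  obtain ⟨r, rfl⟩ := int_of_monic 0 c.1 c.2 (by simpa using er)
  have c1 : Chg (3 * r : ℤ) (c.1 + 3 * r ^ 2 : ℤ) 0 0 c.1 c.2 1 r :=
    ⟨one_ne_zero, by push_cast; ring, by push_cast; ring, by linear_combination er⟩
  obtain ⟨g, hg, hg'⟩ := c1.symm.exists_hom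
  obtain ⟨s, t, u, e1, e2, hu⟩ := P22.par _ _ (c1.nd.2 hΔ) (g.comp f) (hg.comp hf) (by
    rw [AddMonoidHom.comp_apply, e, hg']; exact some_eq (by simp) (by simp))
  have hu0 : u ≠ 0 := by rintro rfl; norm_num at hu
  have c2 : Chg (P22.a ℚ s t) (P22.b ℚ s t) 0 0 c.1 c.2 u r :=
    ⟨hu0, by rw [← e1]; push_cast; ring, by rw [← e2]; push_cast; ring, by linear_combination er⟩
  have h1 : ((4 * c.1 ^ 3 + 27 * c.2 ^ 2 : ℤ) : ℚ) = -((u ^ 2) ^ 6 * (s * t * (s - t) : ℤ) ^ 2) := by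
    have := c2.disc
    simp only [disc, P22] at this
    push_cast
    linear_combination -this
  refine ⟨(s, t), ⟨u, r, c2⟩, fun h => hΔ (by
    rw [h] at h1; exact Int.cast_eq_zero.1 (h1.trans (by simp))), ?_⟩
  rw [← Int.cast_le (R := ℚ)] at hd ⊢
  rw [Int.cast_abs, h1, abs_neg, abs_of_nonneg (by positivity)] at hd
  have h2 := pow_le_pow_left₀ zero_le_one hu 6
  push_cast at hd ⊢
  have : (0 : ℚ) ≤ X := by positivity
  nlinarith [sq_nonneg ((s : ℚ) * t * (s - t))]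

/-- The region in the cusp. -/
noncomputable def Rg (Z : ℕ) : Finset (ℤ × ℤ) :=
  Box Z Z ∪ (Ioc Z (Z ^ 2 + Z)).biUnion fun y => Icc (-(Z ^ 3 / y ^ 2 : ℕ) : ℤ) (Z ^ 3 / y ^ 2 : ℕ) ×ˢ
    {(y : ℤ), -(y : ℤ)} |>.filter (·.1 ≠ 0)

theorem mem_Rg {Z : ℕ} {x y : ℤ} (h0 : x ≠ 0) (h1 : |x| ≤ |y|) (h2 : |x| * y ^ 2 ≤ Z ^ 3) :
    (x, y) ∈ Rg Z := by
  rw [Rg, mem_union, mem_Box]
  by_cases h : |y| ≤ Z
  · exact Or.inl ⟨h1.trans h, h⟩
  have h3 : 1 ≤ |x| := Int.one_le_abs h0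
  rw [← sq_abs y] at h2
  simp only [← Int.natCast_natAbs] at h h1 h2 h3
  refine Or.inr (mem_biUnion.2 ⟨y.natAbs, mem_Ioc.2 ⟨by omega, ?_⟩, ?_⟩)
  · have h4 : 1 ≤ x.natAbs := by omega
    have h5 : x.natAbs * y.natAbs ^ 2 ≤ Z ^ 3 := by exact_mod_cast h2
    by_contra h6
    have := Nat.pow_le_pow_left (not_le.1 h6).le 2
    have := Nat.mul_le_mul_right (y.natAbs ^ 2) h4
    have : Z < y.natAbs := by omega
    nlinarith
  · have : x.natAbs ≤ Z ^ 3 / y.natAbs ^ 2 :=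
      (Nat.le_div_iff_mul_le (pow_pos (by omega) 2)).2 (by exact_mod_cast h2)
    simp only [mem_filter, mem_product, mem_Icc, mem_insert, mem_singleton]
    omega

theorem card_Rg {Z : ℕ} (hZ : 1 ≤ Z) : #(Rg Z) ≤ 13 * Z ^ 2 := by
  have h1 : ∀ m : ℕ, ∀ s : Finset ℤ, #s ≤ 2 →
      #((Icc (-m : ℤ) m ×ˢ s).filter (·.1 ≠ 0)) ≤ 4 * m := fun m s hs => by
    rw [filter_product_left (fun x : ℤ => x ≠ 0), card_product, filter_ne', card_erase_of_mem (by simp),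
      Int.card_Icc]
    have : (m + 1 - -m : ℤ).toNat - 1 = 2 * m := by omega
    nlinarith
  have h2 : ((∑ y ∈ Ioc Z (Z ^ 2 + Z), 4 * (Z ^ 3 / y ^ 2) : ℕ) : ℝ) ≤ (4 * Z ^ 2 : ℕ) := by
    have := sum_Ioc_inv_sq_le_sub (α := ℝ) (k := Z) (n := Z ^ 2 + Z) (by omega) (by omega)
    have h0 : (0 : ℝ) < Z := by exact_mod_cast hZ
    have h3 : (0 : ℝ) ≤ ((Z ^ 2 + Z : ℕ) : ℝ)⁻¹ := by positivity
    calc _ ≤ ∑ y ∈ Ioc Z (Z ^ 2 + Z), 4 * (Z : ℝ) ^ 3 * ((y : ℝ) ^ 2)⁻¹ := by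
          rw [Nat.cast_sum]
          refine sum_le_sum fun y _ => ?_
          rw [Nat.cast_mul, mul_assoc]
          exact mul_le_mul_of_nonneg_left (Nat.cast_div_le.trans_eq (by push_cast; ring))
            (by positivity)
      _ ≤ 4 * (Z : ℝ) ^ 3 * (Z : ℝ)⁻¹ := by rw [← mul_sum]; gcongr; linarith
      _ = _ := by push_cast; field_simp
  refine (card_union_le _ _).trans ((add_le_add (card_Box Z Z).le (card_biUnion_le.trans
    ((sum_le_sum fun y _ => h1 _ _ card_le_two).trans (Nat.cast_le.1 h2)))).trans ?_)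
  nlinarith

theorem famD_le {X Z : ℕ} (hZ : 1 ≤ Z) (hX : 4 * (84 ^ 12 * X) ≤ Z ^ 6) :
    (famD X).Finite ∧ (famD X).ncard ≤ 39 * Z ^ 2 := by
  classical
  choose! x hc h0 h1 using fun c (h : c ∈ famD X) => famD_par h
  set T := Rg Z ∪ (Rg Z).image Prod.swap ∪ (Rg Z).image fun p => (p.2, p.2 - p.1) with hT
  have key : ∀ a b c : ℤ, a * b * c ≠ 0 → (a * b * c) ^ 2 ≤ 84 ^ 12 * X → |a| ≤ |b| → |a| ≤ |c| →
      |b| ≤ |a| + |c| → (a, b) ∈ Rg Z := fun a b c h0 h1 h2 h3 h4 => by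
    refine mem_Rg (by rintro rfl; simp at h0) h2 (le_of_pow_le_pow_left₀ two_ne_zero
      (by positivity) ?_)
    have h5 : (4 * (84 ^ 12 * X) : ℤ) ≤ Z ^ 6 := by exact_mod_cast hX
    have h6 : b ^ 2 ≤ 4 * c ^ 2 := by
      rw [← sq_abs b, ← sq_abs c]; nlinarith [abs_nonneg b]
    rw [mul_pow, sq_abs]
    nlinarith [mul_le_mul_of_nonneg_left h6 (sq_nonneg (a * b))]
  have hm : ∀ c ∈ famD X, x c ∈ (T : Set (ℤ × ℤ)) := fun c h => by
    have h0 := h0 c h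
    have h1 := h1 c h
    generalize x c = y at h0 h1 ⊢
    obtain ⟨s, t⟩ := y
    simp only [hT, coe_union, coe_image, Set.mem_union, Set.mem_image, mem_coe] at h0 h1 ⊢
    have := abs_sub s t
    have := abs_sub_abs_le_abs_sub s t
    have := abs_sub_abs_le_abs_sub t s
    rw [abs_sub_comm] at this
    by_cases a1 : |s| ≤ |t| ∧ |s| ≤ |s - t|
    · exact Or.inl (Or.inl (key s t _ h0 h1 a1.1 a1.2 (by linarith)))
    by_cases a2 : |t| ≤ |s| ∧ |t| ≤ |s - t|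
    · exact Or.inl (Or.inr ⟨(t, s), key t s (s - t) (by rwa [mul_comm t]) (by rwa [mul_comm t])
        a2.1 a2.2 (by linarith), rfl⟩)
    · exact Or.inr ⟨(s - t, s), key _ s t (by rwa [mul_assoc, mul_comm])
        (by rwa [mul_assoc, mul_comm (s - t)]) (by omega) (by omega) (by linarith), by simp⟩
  have hi : Set.InjOn x (famD X) := fun c h c' h' e => by
    obtain ⟨u, r, c1⟩ := hc c h
    obtain ⟨u', r', c2⟩ := hc c' h'
    obtain ⟨e1, e2⟩ := min_unique c1 (e ▸ c2) h.2.1 h'.2.1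
    exact Prod.ext e1 e2
  refine ⟨Set.Finite.of_injOn hm hi T.finite_toSet,
    (Set.ncard_le_ncard_of_injOn x hm hi).trans ?_⟩
  rw [Set.ncard_coe_finset]
  have := card_Rg hZ
  exact (card_union_le _ _).trans ((add_le_add ((card_union_le _ _).trans
    (add_le_add this (card_image_le.trans this))) (card_image_le.trans this)).trans (by omega))

theorem famD_finite (X : ℕ) : (famD X).Finite :=
  (famD_le (Z := 4 * (84 ^ 12 * X) + 1) (by omega)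
    ((Nat.le_succ _).trans (Nat.le_self_pow (by norm_num) _))).1

theorem famD_tendsto : Filter.Tendsto (fun X => (famD X).ncard) Filter.atTop Filter.atTop := by
  refine Filter.tendsto_atTop_mono (fun X => Set.ncard_le_ncard ((famS_sub (X / 32)).trans
    fun c h => ?_) (famD_finite X)) (P22.main.choose_spec.2.comp (Nat.tendsto_div_const_atTop
      (by norm_num)))
  obtain ⟨h1, h2, ⟨V, C, e, h3⟩, h4⟩ := h
  exact ⟨h1, h2, ⟨V, C, e, h3.trans (by omega)⟩, h4⟩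

theorem rank_zero_disc : ∃ c : ℝ, 0 < c ∧ ∃ X₀ : ℕ, ∀ X ≥ X₀,
    c * (famD X).ncard ≤ {c ∈ famD X | Finite (Pt 0 c.1 c.2)}.ncard := by
  obtain ⟨c, hc, N₀, h⟩ := many_good
  obtain ⟨n, hn⟩ := good_le
  obtain ⟨κ, hκ⟩ : ∃ κ : ℕ, κ = 39 * (2 * 84 ^ 2 * 216) ^ 2 := ⟨_, rfl⟩
  refine ⟨c / ((n + 1) * (κ + 1)), by positivity, (108 * (N₀ + 1)) ^ 6, fun X hX => ?_⟩
  have h1 := Nat.pow_nthRoot_le (n := 6) (a := X) (Or.inl (by norm_num))
  have h2 := Nat.lt_pow_nthRoot_add_one (n := 6) (by norm_num) X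
  set z := Nat.nthRoot 6 X
  have h3 := lt_of_pow_lt_pow_left₀ 6 (Nat.zero_le _) (hX.trans_lt h2)
  obtain ⟨N, hN⟩ : ∃ N, N = z / 108 := ⟨_, rfl⟩
  have h6 := (Nat.pow_le_pow_left (show 108 * N ≤ z by omega) 6).trans h1
  have h7 := h2.le.trans (Nat.pow_le_pow_left (show z + 1 ≤ 216 * N by omega) 6)
  have h4 := (h N (by omega)).trans (Nat.cast_le.2 ((hn _ N le_rfl).trans (Nat.mul_le_mul_left n
    (Set.ncard_le_ncard (t := {c ∈ famD X | Finite (Pt 0 c.1 c.2)}) (fun c h => by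
      obtain ⟨h1, h2, ⟨V, C, e, h3⟩, h4⟩ := famS_sub _ h.1
      exact ⟨⟨h1, h2, ⟨V, C, e, h3.trans (Nat.cast_le.2 (by linarith [Nat.zero_le (N ^ 6)]))⟩, h4⟩,
        h.2⟩)
      ((famD_finite X).subset (Set.sep_subset _ _))))))
  have h5 := (Nat.cast_le (α := ℝ)).2 ((famD_le (X := X) (Z := 2 * 84 ^ 2 * 216 * N) (by omega)
    (by linarith [Nat.zero_le (N ^ 6)])).2.trans_eq (show _ = κ * N ^ 2 by rw [hκ]; ring))
  push_cast at h4 h5
  rw [div_mul_eq_mul_div, div_le_iff₀ (by positivity)]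
  generalize ({c ∈ famD X | Finite (Pt 0 c.1 c.2)}.ncard) = m at h4 ⊢
  calc _ ≤ κ * (c * N ^ 2) := by nlinarith
    _ ≤ κ * (n * m) := by gcongr
    _ ≤ (κ + 1) * ((n + 1) * m) := by gcongr <;> linarith
    _ = _ := by ring

end Pool.Agent.Lib.RankZero
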