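import Pool.Agent.Lib.MP_6073f3_nt.Z.DispA

/-!
Dispersion, second part: the correlation of two data.
-/

namespace Pool.Agent.Lib.RankZero

open Finset

theorem dp_bil (Ψ : ℕ → ℕ → ℝ) (h : ℕ → ℝ) {Q : ℕ} (hQ : 0 < Q)
    (per : ∀ z z', Ψ z z' = Ψ (z % Q) (z' % Q)) (hb : ∀ z z', |Ψ z z'| ≤ 1) {n₁ n₂ μ : ℝ}
    (hμ : 0 < μ) (c₁ : ∀ k, (((range Q).filter fun k' => Ψ k k' ≠ 0).card : ℝ) ≤ n₁)
    (c₂ : ∀ k', (((range Q).filter fun k => Ψ k k' ≠ 0).card : ℝ) ≤ n₂) (lo hi lo' hi' : ℕ) :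
    |∑ z ∈ Ioc lo hi, ∑ z' ∈ Ioc lo' hi', Ψ z z' * (h z * h z')| ≤
      (μ * n₁ * ∑ k ∈ range Q, cls h Q k lo hi ^ 2 +
        n₂ / μ * ∑ k ∈ range Q, cls h Q k lo' hi' ^ 2) / 2 := by
  have e : ∑ z ∈ Ioc lo hi, ∑ z' ∈ Ioc lo' hi', Ψ z z' * (h z * h z') =
      ∑ k ∈ range Q, ∑ k' ∈ range Q, Ψ k k' * (cls h Q k lo hi * cls h Q k' lo' hi') := by
    rw [← sum_fiberwise_of_maps_to (g := (· % Q)) fun z _ => mem_range.2 (Nat.mod_lt z hQ)]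
    refine sum_congr rfl fun k _ => ?_
    simp only [cls, sum_mul_sum]
    simp only [mul_sum]
    rw [sum_comm (s := range Q)]
    refine sum_congr rfl fun z hz => ?_
    rw [← sum_fiberwise_of_maps_to (g := (· % Q)) fun z _ => mem_range.2 (Nat.mod_lt z hQ)]
    refine sum_congr rfl fun k' _ => sum_congr rfl fun z' hz' => ?_
    rw [per, (mem_filter.1 hz).2, (mem_filter.1 hz').2]
  rw [e]
  refine (abs_sum_le_sum_abs _ _).trans ((sum_le_sum fun k _ => (abs_sum_le_sum_abs _ _).trans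
    (sum_le_sum (g := fun k' => ((if Ψ k k' ≠ 0 then μ * cls h Q k lo hi ^ 2 else 0) +
      if Ψ k k' ≠ 0 then cls h Q k' lo' hi' ^ 2 / μ else 0) / 2) fun k' _ => ?_)).trans ?_)
  · split_ifs with h1
    · rw [abs_mul, abs_mul, ← sq_abs (cls h Q k lo hi), ← sq_abs (cls h Q k' lo' hi')]
      refine (mul_le_of_le_one_left (by positivity) (hb _ _)).trans ?_
      generalize |cls h Q k lo hi| = u
      generalize |cls h Q k' lo' hi'| = v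
      have : (μ * u ^ 2 + v ^ 2 / μ) / 2 - u * v = (μ * u - v) ^ 2 / (2 * μ) := by
        field_simp
        ring
      have h2 : 0 ≤ (μ * u - v) ^ 2 / (2 * μ) := by positivity
      linarith
    · simp [not_not.1 h1]
  · simp only [← sum_div, sum_add_distrib]
    rw [sum_comm (f := fun k k' => if Ψ k k' ≠ 0 then cls h Q k' lo' hi' ^ 2 / μ else 0),
      mul_sum, mul_sum]
    refine div_le_div_of_nonneg_right (add_le_add (sum_le_sum fun k _ => ?_)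
      (sum_le_sum fun k _ => ?_)) two_pos.le
    · rw [← sum_filter, sum_const, nsmul_eq_mul]
      exact (mul_le_mul_of_nonneg_right (c₁ k) (by positivity)).trans_eq (by ring)
    · rw [← sum_filter, sum_const, nsmul_eq_mul]
      exact (mul_le_mul_of_nonneg_right (c₂ k) (by positivity)).trans_eq (by ring)

/-- The pair of linear equations. -/
def dpSol (α α' β C C' : ℕ) (z z' : ℤ) (q : ℤ × ℤ) : Prop :=
  α * q.1 - β * q.2 = C * z ∧ α' * q.1 - β * q.2 = C' * z'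

open scoped Classical in
/-- The weight transported to the pair of third variables. -/
noncomputable def dpPsi (α α' β C C' : ℕ) (F : ℤ → ℤ → ℝ) (z z' : ℤ) : ℝ :=
  if h : ∃ q, dpSol α α' β C C' z z' q then F h.choose.1 h.choose.2 else 0

variable {α α' β C C' m Q : ℕ} {F : ℤ → ℤ → ℝ}

theorem dp_psi_eq (hα : α ≠ α') (hβ : 0 < β) {z z' : ℤ} {q : ℤ × ℤ}
    (h : dpSol α α' β C C' z z' q) : dpPsi α α' β C C' F z z' = F q.1 q.2 := by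
  have h1 : ∃ q, dpSol α α' β C C' z z' q := ⟨q, h⟩
  obtain ⟨h2, h3⟩ := h1.choose_spec
  have h4 : h1.choose.1 = q.1 := mul_left_cancel₀ (sub_ne_zero.2 (Nat.cast_injective.ne hα) :
    (α : ℤ) - α' ≠ 0) (by linear_combination h2 - h3 - h.1 + h.2)
  have h5 : h1.choose.2 = q.2 := mul_left_cancel₀ (Nat.cast_ne_zero.2 hβ.ne' : (β : ℤ) ≠ 0)
    (by linear_combination h.1 - h2 + α * h4)
  rw [dpPsi, dif_pos h1, h4, h5]

theorem dp_psi_ne {z z' : ℤ} (h : dpPsi α α' β C C' F z z' ≠ 0) :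
    ∃ q, dpSol α α' β C C' z z' q := by
  by_contra h1
  exact h (dif_neg h1)

theorem dp_shift (hQ : ((α : ℤ) - α') * β * m ∣ Q) {z z' w w' : ℤ} (h1 : (Q : ℤ) ∣ w - z)
    (h2 : (Q : ℤ) ∣ w' - z') {q : ℤ × ℤ} (h : dpSol α α' β C C' z z' q) :
    ∃ r, dpSol α α' β C C' w w' r ∧ (m : ℤ) ∣ r.1 - q.1 ∧ (m : ℤ) ∣ r.2 - q.2 := by
  obtain ⟨t, ht⟩ := hQ.trans h1
  obtain ⟨t', ht'⟩ := hQ.trans h2
  exact ⟨(q.1 + m * (β * (C * t - C' * t')), q.2 + m * (α' * C * t - α * C' * t')),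
    ⟨by linear_combination h.1 - C * ht, by linear_combination h.2 - C' * ht'⟩,
    by simp, by simp⟩

theorem dp_psi_per (hα : α ≠ α') (hβ : 0 < β) (hF : Per m F) (hQ : ((α : ℤ) - α') * β * m ∣ Q)
    {z z' w w' : ℤ} (h1 : (Q : ℤ) ∣ w - z) (h2 : (Q : ℤ) ∣ w' - z') :
    dpPsi α α' β C C' F z z' = dpPsi α α' β C C' F w w' := by
  by_cases h : ∃ q, dpSol α α' β C C' z z' q
  · obtain ⟨q, h⟩ := h
    obtain ⟨r, hr, h3, h4⟩ := dp_shift hQ h1 h2 h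
    rw [dp_psi_eq hα hβ h, dp_psi_eq hα hβ hr, hF _ _ _ _ h3 h4]
  · rw [dpPsi, dpPsi, dif_neg h, dif_neg]
    rintro ⟨q, hq⟩
    obtain ⟨r, hr, -⟩ := dp_shift hQ (dvd_sub_comm.1 h1) (dvd_sub_comm.1 h2) hq
    exact h ⟨r, hr⟩

theorem dp_compat (c : α.Coprime β) {x y x' y' : ℤ}
    (h : α * x - β * y = α * x' - β * y') :
    ∃ w : ℤ, α' * x - β * y - (α' * x' - β * y') = ((α' : ℤ) - α) * β * w := by
  obtain ⟨w, hw⟩ : (β : ℤ) ∣ x - x' := (Nat.isCoprime_iff_coprime.2 c).symm.dvd_of_dvd_mul_left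
    ⟨y - y', by linear_combination h⟩
  exact ⟨w, by linear_combination h + (α' - α) * hw⟩

/-- A cell inside the rectangle. -/
def dpGood (α α' β l x₀ x₁ y₀ y₁ : ℕ) (i : ℕ × ℕ) : Prop :=
  ∀ x y : ℤ, i.1 * l < α * x - β * y → α * x - β * y ≤ (i.1 + 1) * l →
    i.2 * l < α' * x - β * y → α' * x - β * y ≤ (i.2 + 1) * l →
    (x₀ < x ∧ x ≤ x₁) ∧ y₀ < y ∧ y ≤ y₁

theorem dp_idx {U l i : ℕ} (hl : 0 < l) (hU : 0 < U) :
    (U - 1) / l = i ↔ i * l < U ∧ U ≤ (i + 1) * l := by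
  rw [Nat.div_eq_iff hl, add_mul, one_mul]
  omega

theorem dp_Ioc {lo hi z : ℕ} (hC : 0 < C) :
    z ∈ Ioc (lo / C) (hi / C) ↔ lo < C * z ∧ C * z ≤ hi := by
  rw [mem_Ioc, Nat.div_lt_iff_lt_mul hC, Nat.le_div_iff_mul_le hC, mul_comm]

theorem dp_cell {R l x₀ x₁ y₀ y₁ : ℕ} (hα : α ≠ α') (hβ : 0 < β) (hC : 0 < C) (hC' : 0 < C')
    (hl : 0 < l) (hΩ : ∀ q ∈ Ioc x₀ x₁ ×ˢ Ioc y₀ y₁, β * q.2 < α * q.1 ∧ β * q.2 < α' * q.1)
    {i : ℕ × ℕ} (hi : dpGood α α' β l x₀ x₁ y₀ y₁ i) :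
    ∑ q ∈ Ioc x₀ x₁ ×ˢ Ioc y₀ y₁ with
      ((α * q.1 - β * q.2 - 1) / l, (α' * q.1 - β * q.2 - 1) / l) = i,
        F q.1 q.2 * (dpG R C (α * q.1 - β * q.2) * dpG R C' (α' * q.1 - β * q.2)) =
    ∑ z ∈ Ioc (i.1 * l / C) ((i.1 + 1) * l / C), ∑ z' ∈ Ioc (i.2 * l / C') ((i.2 + 1) * l / C'),
      dpPsi α α' β C C' F z z' * ((th z - Ls R z) * (th z' - Ls R z')) := by
  have key : ∀ q ∈ Ioc x₀ x₁ ×ˢ Ioc y₀ y₁, ∀ z z' : ℕ, dpSol α α' β C C' z z' (q.1, q.2) ↔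
      α * q.1 - β * q.2 = C * z ∧ α' * q.1 - β * q.2 = C' * z' := fun q hq z z' => by
    obtain ⟨h1, h2⟩ := hΩ q hq
    simp only [dpSol]
    zify [h1.le, h2.le]
  have val : ∀ q ∈ Ioc x₀ x₁ ×ˢ Ioc y₀ y₁, ∀ z z' : ℕ, α * q.1 - β * q.2 = C * z →
      α' * q.1 - β * q.2 = C' * z' →
      F q.1 q.2 * (dpG R C (α * q.1 - β * q.2) * dpG R C' (α' * q.1 - β * q.2)) =
      dpPsi α α' β C C' F z z' * ((th z - Ls R z) * (th z' - Ls R z')) := fun q hq z z' h h' => by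
    rw [dp_psi_eq hα hβ ((key q hq z z').2 ⟨h, h'⟩), h, h', dpG, dpG, if_pos (dvd_mul_right _ _),
      if_pos (dvd_mul_right _ _), Nat.mul_div_cancel_left _ hC, Nat.mul_div_cancel_left _ hC']
  have dv : ∀ q : ℕ × ℕ,
      F q.1 q.2 * (dpG R C (α * q.1 - β * q.2) * dpG R C' (α' * q.1 - β * q.2)) ≠ 0 →
      α * q.1 - β * q.2 = C * ((α * q.1 - β * q.2) / C) ∧
        α' * q.1 - β * q.2 = C' * ((α' * q.1 - β * q.2) / C') := fun q h => by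
    have h1 := mul_ne_zero_iff.1 (right_ne_zero_of_mul h)
    exact ⟨(Nat.mul_div_cancel' (by_contra fun h2 => h1.1 (if_neg h2))).symm,
      (Nat.mul_div_cancel' (by_contra fun h2 => h1.2 (if_neg h2))).symm⟩
  rw [← sum_product' (f := fun z z' : ℕ =>
    dpPsi α α' β C C' F z z' * ((th z - Ls R z) * (th z' - Ls R z')))]
  refine sum_bij_ne_zero (fun q _ _ => ((α * q.1 - β * q.2) / C, (α' * q.1 - β * q.2) / C'))
    (fun q hq h => ?_) (fun q hq h r hr h' e => ?_) (fun z hz h => ?_) fun q hq h => ?_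
  · obtain ⟨h1, h2⟩ := mem_filter.1 hq
    obtain ⟨h3, h4⟩ := Prod.ext_iff.1 h2
    rw [mem_product, dp_Ioc hC, dp_Ioc hC', ← (dv q h).1, ← (dv q h).2]
    exact ⟨(dp_idx hl (Nat.sub_pos_of_lt (hΩ q h1).1)).1 h3,
      (dp_idx hl (Nat.sub_pos_of_lt (hΩ q h1).2)).1 h4⟩
  · obtain ⟨e1, e2⟩ := Prod.mk.inj e
    obtain ⟨a1, a2⟩ := (key q (mem_filter.1 hq).1 _ _).2 (dv q h)
    obtain ⟨a3, a4⟩ := (key r (mem_filter.1 hr).1 _ _).2 (dv r h')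
    rw [e1] at a1
    rw [e2] at a2
    have h4 : (q.1 : ℤ) = r.1 := mul_left_cancel₀ (sub_ne_zero.2 (Nat.cast_injective.ne hα) :
      (α : ℤ) - α' ≠ 0) (by linear_combination a1 - a2 - a3 + a4)
    have h5 : (q.2 : ℤ) = r.2 := mul_left_cancel₀ (Nat.cast_ne_zero.2 hβ.ne' : (β : ℤ) ≠ 0)
      (by linear_combination a3 - a1 + α * h4)
    exact Prod.ext (Nat.cast_injective h4) (Nat.cast_injective h5)
  · obtain ⟨⟨x, y⟩, hq⟩ := dp_psi_ne (left_ne_zero_of_mul h)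
    rw [mem_product, dp_Ioc hC, dp_Ioc hC'] at hz
    obtain ⟨⟨a1, a2⟩, a3, a4⟩ := hi x y (hq.1 ▸ by exact_mod_cast hz.1.1)
      (hq.1 ▸ by exact_mod_cast hz.1.2) (hq.2 ▸ by exact_mod_cast hz.2.1)
      (hq.2 ▸ by exact_mod_cast hz.2.2)
    lift x to ℕ using by omega
    lift y to ℕ using by omega
    have hm : (x, y) ∈ Ioc x₀ x₁ ×ˢ Ioc y₀ y₁ :=
      mem_product.2 ⟨mem_Ioc.2 ⟨by omega, by omega⟩, mem_Ioc.2 ⟨by omega, by omega⟩⟩
    obtain ⟨b1, b2⟩ := (key _ hm _ _).1 hq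
    refine ⟨(x, y), mem_filter.2 ⟨hm, Prod.ext ?_ ?_⟩, val _ hm _ _ b1 b2 ▸ h, ?_⟩
    · exact (dp_idx hl (Nat.sub_pos_of_lt (hΩ _ hm).1)).2 (b1 ▸ hz.1)
    · exact (dp_idx hl (Nat.sub_pos_of_lt (hΩ _ hm).2)).2 (b2 ▸ hz.2)
    · rw [b1, b2, Nat.mul_div_cancel_left _ hC, Nat.mul_div_cancel_left _ hC']
  · exact val q (mem_filter.1 hq).1 _ _ (dv q h).1 (dv q h).2

/-- The strips along the sides of the rectangle. -/
def dpStrip (x₀ x₁ y₀ y₁ w₁ w₂ : ℕ) (q : ℕ × ℕ) : Prop :=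
  q.1 ≤ x₀ + w₁ ∨ x₁ ≤ q.1 + w₁ ∨ q.2 ≤ y₀ + w₂ ∨ y₁ ≤ q.2 + w₂

theorem dp_bad {l x₀ x₁ y₀ y₁ w₁ w₂ δ : ℕ} (hδ : δ = ((α : ℤ) - α').natAbs) (hα : α ≠ α')
    (hβ : 0 < β) (hl : 0 < l) (h1 : 2 * l ≤ δ * w₁) (h2 : (α + α') * l ≤ β * δ * w₂) {q : ℕ × ℕ}
    (hq : β * q.2 < α * q.1) (hq' : β * q.2 < α' * q.1) (h : ¬dpStrip x₀ x₁ y₀ y₁ w₁ w₂ q) :
    dpGood α α' β l x₀ x₁ y₀ y₁ ((α * q.1 - β * q.2 - 1) / l, (α' * q.1 - β * q.2 - 1) / l) := by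
  intro x y a1 a2 a3 a4
  have b1 := (dp_idx hl (Nat.sub_pos_of_lt hq)).1 rfl
  have b2 := (dp_idx hl (Nat.sub_pos_of_lt hq')).1 rfl
  generalize (α * q.1 - β * q.2 - 1) / l = i at *
  generalize (α' * q.1 - β * q.2 - 1) / l = i' at *
  zify [hq.le, hq'.le] at b1 b2 h1 h2 hδ
  simp only at a1 a2 a3 a4
  have d0 : (0 : ℤ) < δ := hδ ▸ abs_pos.2 (sub_ne_zero.2 (Nat.cast_injective.ne hα))
  have u1 : |α * q.1 - β * q.2 - (α * x - β * y)| ≤ l := abs_le.2 ⟨by linarith, by linarith⟩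
  have u2 : |α' * q.1 - β * q.2 - (α' * x - β * y)| ≤ l := abs_le.2 ⟨by linarith, by linarith⟩
  have c1 : |q.1 - x| ≤ w₁ := by
    refine le_of_mul_le_mul_left (le_trans ?_ h1) d0
    rw [hδ, ← abs_mul, show ((α : ℤ) - α') * (q.1 - x) = α * q.1 - β * q.2 - (α * x - β * y) -
      (α' * q.1 - β * q.2 - (α' * x - β * y)) by ring]
    exact (abs_sub _ _).trans (by linarith)
  have c2 : |q.2 - y| ≤ w₂ := by
    refine le_of_mul_le_mul_left (le_trans ?_ h2) (by positivity)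
    rw [hδ, ← abs_of_nonneg (Int.natCast_nonneg β), ← abs_mul, ← abs_mul,
      show (β : ℤ) * ((α : ℤ) - α') * (q.2 - y) = α' * (α * q.1 - β * q.2 - (α * x - β * y)) -
      α * (α' * q.1 - β * q.2 - (α' * x - β * y)) by ring]
    refine (abs_sub _ _).trans ?_
    rw [abs_mul, abs_mul, Nat.abs_cast, Nat.abs_cast, add_mul, add_comm]
    gcongr
  rw [abs_le] at c1 c2
  simp only [dpStrip, not_or, not_le] at h
  omega

theorem dp_count_cls {m₁ : ℕ} (h1 : 0 < m₁) (h2 : m₁ ≤ Q) {s : Finset ℕ} (hs : s ⊆ range Q)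
    (h : ∀ y ∈ s, ∀ y' ∈ s, (m₁ : ℤ) ∣ (y : ℤ) - y') : (s.card : ℝ) ≤ 2 * Q / m₁ := by
  have := dp_card (u := 0) (w := Q) (fun y hy => mem_Icc.2 ⟨zero_le, by
    have := mem_range.1 (hs hy)
    omega⟩) h
  have h3 : (1 : ℝ) ≤ Q / m₁ := (one_le_div (by exact_mod_cast h1)).2 (by exact_mod_cast h2)
  rw [mul_div_assoc]
  linarith

open scoped Classical in
theorem dp_pair {N R l x₀ x₁ y₀ y₁ w₁ w₂ δ m₁ m₂ : ℕ} {V : ℕ → ℝ} (hV : Var (Eh R) N V)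
    (V0 : 0 ≤ V Q) (hδ : δ = ((α : ℤ) - α').natAbs) (hα : α ≠ α') (hβ : 0 < β)
    (c : α.Coprime β) (c' : α'.Coprime β) (hC : 0 < C) (hC' : 0 < C') (hF : Per m F)
    (hF1 : ∀ x y, |F x y| ≤ 1) (hQ : ((α : ℤ) - α') * β * m ∣ Q) (Q0 : 0 < Q) (Q5 : Q ^ 5 ≤ N)
    (hX : N ≤ (4 * N / C) ^ 2) (hX' : N ≤ (4 * N / C') ^ 2) (hl : 0 < l) (hlN : l ≤ N)
    (m1 : 0 < m₁ ∧ m₁ ≤ Q) (m2 : 0 < m₂ ∧ m₂ ≤ Q)
    (k1 : ∀ w t : ℤ, C' * t = ((α' : ℤ) - α) * β * w → (m₁ : ℤ) ∣ t)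
    (k2 : ∀ w t : ℤ, C * t = ((α : ℤ) - α') * β * w → (m₂ : ℤ) ∣ t)
    (h1 : 2 * l ≤ δ * w₁) (h2 : (α + α') * l ≤ β * δ * w₂)
    (hΩ : ∀ q ∈ Ioc x₀ x₁ ×ˢ Ioc y₀ y₁, (β * q.2 < α * q.1 ∧ β * q.2 < α' * q.1) ∧
      α * q.1 ≤ 3 * N ∧ α' * q.1 ≤ 3 * N) :
    |∑ q ∈ Ioc x₀ x₁ ×ˢ Ioc y₀ y₁,
      F q.1 q.2 * (dpG R C (α * q.1 - β * q.2) * dpG R C' (α' * q.1 - β * q.2))| ≤
      (3 * N / l + 1) ^ 2 * (16 * N ^ 2 * V Q / (C * C') * ((m₁ : ℝ)⁻¹ + (m₂ : ℝ)⁻¹)) +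
      ∑ q ∈ Ioc x₀ x₁ ×ˢ Ioc y₀ y₁ with dpStrip x₀ x₁ y₀ y₁ w₁ w₂ q,
        |dpG R C (α * q.1 - β * q.2)| * |dpG R C' (α' * q.1 - β * q.2)| := by
  set ix : ℕ × ℕ → ℕ × ℕ := fun q =>
    ((α * q.1 - β * q.2 - 1) / l, (α' * q.1 - β * q.2 - 1) / l) with hix
  rw [← sum_filter_add_sum_filter_not _ fun q => dpGood α α' β l x₀ x₁ y₀ y₁ (ix q)]
  refine (abs_add_le _ _).trans (add_le_add ?_ ((abs_sum_le_sum_abs _ _).trans
    ((sum_le_sum fun q _ => ?_).trans (sum_le_sum_of_subset_of_nonneg (fun q hq => ?_)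
      fun _ _ _ => by positivity))))
  · rw [← sum_fiberwise_of_maps_to (g := ix) (t := (range (3 * N / l + 1) ×ˢ
      range (3 * N / l + 1)).filter (dpGood α α' β l x₀ x₁ y₀ y₁)) fun q hq => ?_]
    · refine (abs_sum_le_sum_abs _ _).trans ((sum_le_card_nsmul _ _
        (16 * N ^ 2 * V Q / (C * C') * ((m₁ : ℝ)⁻¹ + (m₂ : ℝ)⁻¹)) fun i hi => ?_).trans ?_)
      · obtain ⟨hi1, hi2⟩ := mem_filter.1 hi
        rw [filter_filter, filter_congr (q := fun q => ix q = i)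
          fun q _ => ⟨fun h => h.2, fun h => ⟨h ▸ hi2, h⟩⟩,
          dp_cell hα hβ hC hC' hl (fun q hq => (hΩ q hq).1) hi2]
        have e : ∀ z : ℕ, (Q : ℤ) ∣ (z % Q : ℕ) - z := fun z =>
          (Nat.modEq_iff_dvd.1 (Nat.mod_modEq z Q).symm)
        have hv : ∀ C j : ℕ, N ≤ (4 * N / C) ^ 2 → j ∈ range (3 * N / l + 1) →
            ∑ k ∈ range Q, cls (fun n => th n - Ls R n) Q k (j * l / C) ((j + 1) * l / C) ^ 2 ≤
              (4 * N / C) ^ 2 / Q * V Q := fun C j h3 hj => by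
          have h4 := (Nat.le_div_iff_mul_le hl).1 (Nat.le_of_lt_succ (mem_range.1 hj))
          refine (hV Q (4 * N / C) _ _ Q0 Q5 h3 (Nat.div_le_self _ _) (Nat.div_le_div_right
            (Nat.mul_le_mul_right _ j.le_succ)) (Nat.div_le_div_right (by
              rw [Nat.succ_mul]
              omega))).trans ?_
          have : ((4 * N / C : ℕ) : ℝ) ≤ 4 * N / C := by exact_mod_cast Nat.cast_div_le (α := ℝ)
          gcongr
        have p1 : (0 : ℝ) < C := by exact_mod_cast hC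
        have p2 : (0 : ℝ) < C' := by exact_mod_cast hC'
        have p3 : (0 : ℝ) < Q := by exact_mod_cast Q0
        refine (dp_bil (fun z z' => dpPsi α α' β C C' F z z') (fun n => th n - Ls R n) Q0
          (fun z z' => dp_psi_per hα hβ hF hQ (e z) (e z')) (fun z z' => ?_) (μ := C / C')
          (by positivity) (fun k => dp_count_cls m1.1 m1.2 (filter_subset _ _)
            fun y hy y' hy' => ?_) (fun k => dp_count_cls m2.1 m2.2 (filter_subset _ _)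
            fun y hy y' hy' => ?_) _ _ _ _).trans ?_
        · rw [dpPsi]
          split_ifs
          · exact hF1 _ _
          · simp
        · obtain ⟨r, hr⟩ := dp_psi_ne (mem_filter.1 hy).2
          obtain ⟨r', hr'⟩ := dp_psi_ne (mem_filter.1 hy').2
          obtain ⟨w, hw⟩ := dp_compat (α' := α') c (hr.1.trans hr'.1.symm)
          exact k1 w _ (by linear_combination hw - hr.2 + hr'.2)
        · obtain ⟨r, hr⟩ := dp_psi_ne (mem_filter.1 hy).2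
          obtain ⟨r', hr'⟩ := dp_psi_ne (mem_filter.1 hy').2
          obtain ⟨w, hw⟩ := dp_compat (α' := α) c' (hr.2.trans hr'.2.symm)
          exact k2 w _ (by linear_combination hw - hr.1 + hr'.1)
        · refine (div_le_div_of_nonneg_right (add_le_add
            (mul_le_mul_of_nonneg_left (hv C i.1 hX (mem_product.1 hi1).1) (by positivity))
            (mul_le_mul_of_nonneg_left (hv C' i.2 hX' (mem_product.1 hi1).2) (by positivity)))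
            two_pos.le).trans_eq ?_
          field_simp
          ring
      · have h3 : ((3 * N / l : ℕ) : ℝ) ≤ 3 * N / l := by exact_mod_cast Nat.cast_div_le (α := ℝ)
        have h4 := card_filter_le (range (3 * N / l + 1) ×ˢ range (3 * N / l + 1))
          (dpGood α α' β l x₀ x₁ y₀ y₁)
        rw [card_product, card_range, ← sq] at h4
        rw [nsmul_eq_mul]
        refine mul_le_mul_of_nonneg_right ((Nat.cast_le.2 h4).trans ?_) (by positivity)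
        push_cast
        gcongr
    · obtain ⟨h3, h4⟩ := mem_filter.1 hq
      have := (hΩ q h3).2
      exact mem_filter.2 ⟨mem_product.2 ⟨mem_range.2 (Nat.lt_succ_of_le (Nat.div_le_div_right
        (by omega))), mem_range.2 (Nat.lt_succ_of_le (Nat.div_le_div_right (by omega)))⟩, h4⟩
  · rw [abs_mul, abs_mul]
    exact mul_le_of_le_one_left (by positivity) (hF1 _ _)
  · obtain ⟨h3, h4⟩ := mem_filter.1 hq
    exact mem_filter.2 ⟨h3, by_contra fun h =>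
      h4 (dp_bad hδ hα hβ hl h1 h2 (hΩ q h3).1.1 (hΩ q h3).1.2 h)⟩

open scoped Classical in
theorem dp_strip {f : ℕ × ℕ → ℝ} {E Z : ℝ} (f0 : ∀ q, 0 ≤ f q) (hf : ∀ u w v w' : ℕ,
    ∑ q ∈ Ioc u (u + w) ×ˢ Ioc v (v + w'), f q ≤ (w + E) * (w' + E) * Z)
    (x₀ x₁ y₀ y₁ w₁ w₂ : ℕ) :
    ∑ q ∈ Ioc x₀ x₁ ×ˢ Ioc y₀ y₁ with dpStrip x₀ x₁ y₀ y₁ w₁ w₂ q, f q ≤
      2 * ((w₁ + 1 + E) * (y₁ + E) + (x₁ + E) * (w₂ + 1 + E)) * Z := by
  have hu : ∀ s t : Finset (ℕ × ℕ), ∑ q ∈ s ∪ t, f q ≤ ∑ q ∈ s, f q + ∑ q ∈ t, f q := fun s t => by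
    rw [← sum_union_inter]
    exact le_add_of_nonneg_right (sum_nonneg fun _ _ => f0 _)
  have a1 := hf x₀ (w₁ + 1) 0 y₁
  have a2 := hf (x₁ - (w₁ + 1)) (w₁ + 1) 0 y₁
  have a3 := hf 0 x₁ y₀ (w₂ + 1)
  have a4 := hf 0 x₁ (y₁ - (w₂ + 1)) (w₂ + 1)
  refine (sum_le_sum_of_subset_of_nonneg (fun q hq => ?_) fun _ _ _ => f0 _).trans
    (((hu _ _).trans (add_le_add ((hu _ _).trans (add_le_add a1 a2))
      ((hu _ _).trans (add_le_add a3 a4)))).trans_eq (by push_cast; ring))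
  simp only [mem_filter, mem_product, mem_Ioc, mem_union, dpStrip] at hq ⊢
  omega

end Pool.Agent.Lib.RankZero
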