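import Pool.Agent.Lib.MP_6073f3_nt.Z.DispB

/-!
Dispersion, third part: the bad sets and the bound for one pair of data.
-/

namespace Pool.Agent.Lib.RankZero

open Finset

/-- The dyadic size. -/
def dpY (p : ℕ) : ℕ := 2 ^ Nat.log 2 p

/-- The common rectangle of two data. -/
def dpOm (N a p B p' : ℕ) : Finset (ℕ × ℕ) :=
  Ioc (max (2 * N / (a * p)) (2 * N / (a * p'))) (min (3 * N / (a * p)) (3 * N / (a * p'))) ×ˢ
    Ioc (N / (32 * B)) (N / (16 * B))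

open scoped Classical in
/-- The part of the rectangle which is estimated trivially. -/
noncomputable def dpBad (N : ℕ) (H : ℝ) (a p B p' : ℕ) : Finset (ℕ × ℕ) :=
  (dpOm N a p B p').filter fun q => ((p : ℤ) - p').natAbs * H ≤ dpY p ∨
    dpStrip (max (2 * N / (a * p)) (2 * N / (a * p'))) (min (3 * N / (a * p)) (3 * N / (a * p')))
      (N / (32 * B)) (N / (16 * B)) ⌈4 * N / (a * dpY p * H)⌉₊ ⌈N / (B * H)⌉₊ q

theorem dpY_pos (p : ℕ) : 0 < dpY p := by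
  unfold dpY
  positivity

theorem dpY_le {p : ℕ} (h : 0 < p) : dpY p ≤ p := Nat.pow_log_le_self 2 h.ne'

theorem dpY_lt (p : ℕ) : p < 2 * dpY p := by
  rw [dpY, ← pow_succ']
  exact Nat.lt_pow_succ_log_self one_lt_two p

theorem dp_om {N a p B p' : ℕ} (h : 0 < a * p) (h' : 0 < a * p') (hB : 0 < B) {q : ℕ × ℕ}
    (hq : q ∈ dpOm N a p B p') : (16 * B * q.2 < a * p * q.1 ∧ 16 * B * q.2 < a * p' * q.1) ∧
      a * p * q.1 ≤ 3 * N ∧ a * p' * q.1 ≤ 3 * N := by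
  simp only [dpOm, mem_product, mem_Ioc, max_lt_iff, le_min_iff, Nat.div_lt_iff_lt_mul h,
    Nat.div_lt_iff_lt_mul h', Nat.le_div_iff_mul_le h, Nat.le_div_iff_mul_le h',
    Nat.le_div_iff_mul_le (show 0 < 16 * B by omega), mul_comm q.1, mul_comm q.2] at hq
  omega

open scoped Classical in
theorem dp_badsum {N D R a p B p' : ℕ} {H : ℝ} (hN : 3 ≤ N) (hD : D ^ 200 ≤ N) (hR : R ≤ D)
    (hL : 1 + Real.log (D ^ 4 : ℕ) ≤ Real.log N) (h2 : 2 ≤ Real.log N) (H1 : 1 ≤ H) (HD : H ≤ D)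
    (h : 0 < a * p) (h' : 0 < a * p') (hB : 0 < B) (hA : a * p ≤ D) (hBD : B ≤ D)
    (c : (a * p).Coprime (16 * B)) (c' : (a * p').Coprime (16 * B)) :
    ∑ C ∈ Icc 1 D, ∑ C' ∈ Icc 1 D, ∑ q ∈ dpBad N H a p B p',
      |dpG R C (a * p * q.1 - 16 * B * q.2)| * |dpG R C' (a * p' * q.1 - 16 * B * q.2)| ≤
      4 * Real.log N ^ 20 * N ^ 2 / (a * dpY p * B) *
        ((if ((p : ℤ) - p').natAbs * H ≤ dpY p then 8 else 0) + 60 / H) := by
  set L := Real.log N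
  set f : ℕ × ℕ → ℝ := fun q => (dpT D ((a * p : ℕ) * q.1 - (16 * B : ℕ) * q.2) : ℝ) ^ 4 +
    (dpT D ((a * p' : ℕ) * q.1 - (16 * B : ℕ) * q.2) : ℝ) ^ 4 with hf
  have D1 : (1 : ℝ) ≤ D := H1.trans HD
  have hL' : 1 + Real.log D ≤ L := by
    refine le_trans (add_le_add_right (Real.log_le_log (by linarith) ?_) 1) hL
    exact_mod_cast Nat.le_self_pow four_ne_zero D
  have f1 : ∀ u w v w' : ℕ, ∑ q ∈ Ioc u (u + w) ×ˢ Ioc v (v + w'), f q ≤
      (w + D ^ 4) * (w' + D ^ 4) * (2 * L ^ 16) := fun u w v w' => by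
    have : (1 + Real.log (D ^ 4 : ℕ)) ^ 16 ≤ L ^ 16 := pow_le_pow_left₀ (by positivity) hL _
    rw [sum_add_distrib]
    refine (add_le_add (dp_rect c D u w v w') (dp_rect c' D u w v w')).trans ?_
    rw [← mul_add, two_mul]
    gcongr
  have a1 : ∑ C ∈ Icc 1 D, ∑ C' ∈ Icc 1 D, ∑ q ∈ dpBad N H a p B p',
      |dpG R C (a * p * q.1 - 16 * B * q.2)| * |dpG R C' (a * p' * q.1 - 16 * B * q.2)| ≤
      2 * L ^ 4 * ∑ q ∈ dpBad N H a p B p', f q := by
    rw [sum_congr rfl fun C _ => sum_comm, sum_comm, mul_sum]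
    refine sum_le_sum fun q hq => ?_
    obtain ⟨⟨b1, b2⟩, b3, b4⟩ := dp_om h h' hB (mem_filter.1 hq).1
    rw [← sum_mul_sum]
    refine (mul_le_mul (dp_G hR hN hL' h2 ((Nat.sub_le _ _).trans b3))
      (dp_G hR hN hL' h2 ((Nat.sub_le _ _).trans b4)) (by positivity) (by positivity)).trans ?_
    simp only [hf, Nat.cast_sub b1.le, Nat.cast_sub b2.le, Nat.cast_mul (a * p),
      Nat.cast_mul (a * p'), Nat.cast_mul (16 * B)]
    generalize (dpT D ((a * p : ℕ) * q.1 - (16 * B : ℕ) * q.2) : ℝ) = s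
    generalize (dpT D ((a * p' : ℕ) * q.1 - (16 * B : ℕ) * q.2) : ℝ) = t
    nlinarith [mul_nonneg (pow_nonneg (by linarith : 0 ≤ L) 4) (sq_nonneg (s ^ 2 - t ^ 2))]
  refine a1.trans ?_
  have a0 : 0 < a := Nat.pos_of_mul_pos_right h
  have p0 : 0 < p := Nat.pos_of_mul_pos_left h
  have y0 : (0 : ℝ) < dpY p := by exact_mod_cast dpY_pos p
  have y1 : (a : ℝ) * dpY p ≤ (a * p : ℕ) := by exact_mod_cast Nat.mul_le_mul_left a (dpY_le p0)
  have a0' : (0 : ℝ) < a := by exact_mod_cast a0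
  have hB' : (0 : ℝ) < B := by exact_mod_cast hB
  have N0 : (0 : ℝ) < N := by exact_mod_cast (by omega : 0 < N)
  have e1 : ∀ t : ℝ, 0 < t → t ≤ D → (D : ℝ) ^ 4 ≤ N / (t * H) ∧ N / (t * H) ≤ N / t :=
    fun t t0 t1 => ⟨by
      rw [le_div_iff₀ (by positivity)]
      calc (D : ℝ) ^ 4 * (t * H) ≤ (D : ℝ) ^ 4 * (D * D) := by gcongr
        _ = (D : ℝ) ^ 6 := by ring
        _ ≤ (D : ℝ) ^ 200 := pow_le_pow_right₀ D1 (by norm_num)
        _ ≤ N := by exact_mod_cast hD,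
      div_le_div_of_nonneg_left N0.le t0 (le_mul_of_one_le_right t0.le H1)⟩
  have e2 := e1 (a * dpY p) (by positivity) (y1.trans (by exact_mod_cast hA))
  have e3 := e1 B hB' (by exact_mod_cast hBD)
  have e4 : (1 : ℝ) ≤ D ^ 4 := one_le_pow₀ D1
  have x1 : ((min (3 * N / (a * p)) (3 * N / (a * p')) : ℕ) : ℝ) + D ^ 4 ≤
      4 * (N / (a * dpY p)) := by
    have b1 : ((min (3 * N / (a * p)) (3 * N / (a * p')) : ℕ) : ℝ) ≤ 3 * (N / (a * dpY p)) := by
      refine (Nat.cast_le.2 (min_le_left _ _)).trans (Nat.cast_div_le.trans ?_)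
      rw [Nat.cast_mul, mul_div_assoc, Nat.cast_ofNat]
      gcongr
    linarith [e2.1, e2.2]
  have x2 : ((N / (16 * B) : ℕ) : ℝ) + D ^ 4 ≤ 2 * (N / B) := by
    have b1 : ((N / (16 * B) : ℕ) : ℝ) ≤ N / B := by
      refine Nat.cast_div_le.trans ?_
      gcongr
      omega
    linarith [e3.1, e3.2]
  have f0 : ∀ q, 0 ≤ f q := fun q => by positivity
  have H0 : 0 < H := by linarith
  split_ifs with hn
  · have b1 := f1 0 (min (3 * N / (a * p)) (3 * N / (a * p'))) 0 (N / (16 * B))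
    calc _ ≤ 2 * L ^ 4 * (4 * (N / (a * dpY p)) * (2 * (N / B)) * (2 * L ^ 16)) := by
          refine mul_le_mul_of_nonneg_left ((sum_le_sum_of_subset_of_nonneg (fun q hq => ?_)
            fun _ _ _ => f0 _).trans (b1.trans (by gcongr))) (by positivity)
          have := (mem_filter.1 hq).1
          simp only [dpOm, mem_product, mem_Ioc, zero_add] at this ⊢
          exact ⟨⟨zero_le.trans_lt this.1.1, this.1.2⟩, zero_le.trans_lt this.2.1, this.2.2⟩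
      _ = 4 * L ^ 20 * N ^ 2 / (a * dpY p * B) * 8 := by
          field_simp
          ring
      _ ≤ _ := by
          gcongr
          exact le_add_of_nonneg_right (by positivity)
  · have x3 : (⌈4 * N / (a * dpY p * H)⌉₊ : ℝ) + 1 + D ^ 4 ≤ 7 * (N / (a * dpY p * H)) := by
      have := Nat.ceil_lt_add_one (show 0 ≤ 4 * N / (a * dpY p * H) by positivity)
      rw [mul_div_assoc] at this ⊢
      linarith [e2.1]
    have x4 : (⌈N / (B * H)⌉₊ : ℝ) + 1 + D ^ 4 ≤ 4 * (N / (B * H)) := by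
      have := Nat.ceil_lt_add_one (show 0 ≤ N / (B * H) by positivity)
      linarith [e3.1]
    refine (mul_le_mul_of_nonneg_left ((sum_le_sum_of_subset_of_nonneg (fun q hq => mem_filter.2
      ⟨(mem_filter.1 hq).1, (mem_filter.1 hq).2.resolve_left hn⟩) fun _ _ _ => f0 _).trans
      (dp_strip f0 f1 _ _ _ _ _ _)) (by positivity)).trans ?_
    calc _ ≤ 2 * L ^ 4 * (2 * (7 * (N / (a * dpY p * H)) * (2 * (N / B)) +
          4 * (N / (a * dpY p)) * (4 * (N / (B * H)))) * (2 * L ^ 16)) := by gcongr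
      _ = _ := by
          field_simp
          ring

/-- The contribution of one datum at a point. -/
noncomputable def dpTrm (N R : ℕ) (Φ : Dat → ℤ → ℤ → ℝ) (d : Dat) (q : ℕ × ℕ) : ℝ :=
  if q.1 ∈ Ioc (2 * N / d.A) (3 * N / d.A) then
    Φ d q.1 q.2 * dpG R d.C (d.A * q.1 - 16 * d.B * q.2) else 0

/-- The group of a datum. -/
def dpKey (d : Dat) : ℕ × ℕ × ℕ := (d.1, d.B, Nat.log 2 d.2.1)

/-- The box of a group. -/
def dpBox (N : ℕ) (k : ℕ × ℕ × ℕ) : Finset (ℕ × ℕ) :=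
  Ioc 0 (3 * N / (k.1 * 2 ^ k.2.2)) ×ˢ Ioc (N / (32 * k.2.1)) (N / (16 * k.2.1))

/-- The distance of the primes. -/
def dpD (d d' : Dat) : ℕ := ((d.2.1 : ℤ) - d'.2.1).natAbs

/-- The modulus of a pair. -/
def dpQ (d d' : Dat) : ℕ := 64 * d.A * d'.A * d.B * d'.B * d.C * d'.C * dpD d d'

/-- The weight of a pair. -/
noncomputable def dpW (d d' : Dat) : ℝ :=
  ((dpY d.2.1 : ℝ) * d.1 * d.B * d.C * d'.C * (dpD d d' / d'.C.gcd (dpD d d') : ℕ))⁻¹

theorem dp_k {C b δ : ℕ} (h : C.Coprime b) (hC : 0 < C) {t : ℤ} (ht : (b * δ : ℤ) ∣ C * t) :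
    ((b * (δ / C.gcd δ) : ℕ) : ℤ) ∣ t := by
  obtain ⟨g, c, e, hg, hc, rfl, rfl⟩ := Nat.exists_coprime' (m := C) (n := δ)
    (Nat.gcd_pos_of_pos_left _ hC)
  rw [Nat.gcd_mul_right, hc.gcd_eq_one, one_mul, Nat.mul_div_cancel _ hg]
  refine (Nat.isCoprime_iff_coprime.2 (Nat.Coprime.mul_right h.coprime_mul_right
    hc).symm).dvd_of_dvd_mul_left (Int.dvd_of_mul_dvd_mul_right (a := g)
    (by exact_mod_cast hg.ne') ?_)
  convert ht using 1 <;> push_cast <;> ring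

theorem dp_X {N D C : ℕ} (hC : 0 < C) (h : C ≤ D) (hD : D ^ 2 ≤ N) : N ≤ (4 * N / C) ^ 2 := by
  have h1 := Nat.lt_mul_div_succ (4 * N) hC
  have h2 : 1 ≤ 4 * N / C := Nat.div_pos (by nlinarith) hC
  generalize 4 * N / C = s at *
  have h3 : 2 * N ≤ s * D := by nlinarith
  have h4 : (2 * N) ^ 2 ≤ s ^ 2 * N := (Nat.pow_le_pow_left h3 2).trans (by
    rw [mul_pow]
    exact Nat.mul_le_mul_left _ hD)
  have h5 : 0 < N := by nlinarith
  nlinarith

open scoped Classical in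
theorem dp_T {N D R : ℕ} {H : ℝ} {V : ℕ → ℝ} {Φ : Dat → ℤ → ℤ → ℝ} (D2 : 2 ≤ D)
    (hD : D ^ 200 ≤ N) (H2 : 2 ≤ H) (HD : H ^ 2 ≤ D) (hV : Var (Eh R) N V) (V0 : ∀ Q, 0 ≤ V Q)
    {d d' : Dat} (hk : dpKey d = dpKey d') (o : d.Ok D) (o' : d'.Ok D) (P : Per d.M (Φ d))
    (P' : Per d'.M (Φ d')) (b : ∀ x y, |Φ d x y| ≤ 1) (b' : ∀ x y, |Φ d' x y| ≤ 1) :
    (∑ q ∈ dpBox N (dpKey d), dpTrm N R Φ d q * dpTrm N R Φ d' q) / dpY d.2.1 ≤
      (if d.2.1 ≠ d'.2.1 then 16 * H ^ 4 * N ^ 2 * ((dpW d d' + dpW d' d) * V (dpQ d d')) else 0) +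
      (∑ q ∈ dpBad N H d.1 d.2.1 d.B d'.2.1, |dpG R d.C (d.1 * d.2.1 * q.1 - 16 * d.B * q.2)| *
        |dpG R d'.C (d.1 * d'.2.1 * q.1 - 16 * d.B * q.2)|) / dpY d.2.1 := by
  obtain ⟨a, p, B, C⟩ := d
  obtain ⟨a', p', B', C'⟩ := d'
  obtain ⟨rfl, rfl, hj⟩ : a = a' ∧ B = B' ∧ Nat.log 2 p = Nat.log 2 p' := by
    simpa [dpKey, Dat.B] using hk
  obtain ⟨⟨A0, A1⟩, ⟨B0, B1⟩, ⟨C0, C1⟩, hp, cA, cC⟩ := o
  obtain ⟨⟨A0', A1'⟩, -, ⟨C0', C1'⟩, hp', cA', cC'⟩ := o'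
  simp only [Dat.A, Dat.B, Dat.C, Dat.M] at *
  have hY : dpY p' = dpY p := by rw [dpY, dpY, hj]
  have a0 : 0 < a := Nat.pos_of_mul_pos_right A0
  have y0 : (0 : ℝ) < dpY p := by exact_mod_cast dpY_pos p
  have hF1 : ∀ x y, |Φ (a, p, B, C) x y * Φ (a, p', B, C') x y| ≤ 1 := fun x y => by
    rw [abs_mul]
    exact mul_le_one₀ (b x y) (abs_nonneg _) (b' x y)
  have e : ∑ q ∈ dpBox N (dpKey (a, p, B, C)), dpTrm N R Φ (a, p, B, C) q *
      dpTrm N R Φ (a, p', B, C') q = ∑ q ∈ dpOm N a p B p',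
      Φ (a, p, B, C) q.1 q.2 * Φ (a, p', B, C') q.1 q.2 * (dpG R C (a * p * q.1 - 16 * B * q.2) *
        dpG R C' (a * p' * q.1 - 16 * B * q.2)) := by
    rw [← sum_subset (s₁ := dpOm N a p B p') (fun q hq => ?_) fun q hq h => ?_]
    · refine sum_congr rfl fun q hq => ?_
      simp only [dpOm, mem_product, mem_Ioc, max_lt_iff, le_min_iff] at hq
      simp only [dpTrm, Dat.A, Dat.B, Dat.C, mem_Ioc, hq.1.1.1, hq.1.1.2, hq.1.2.1, hq.1.2.2,
        and_self, if_true]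
      ring
    · simp only [dpOm, mem_product, mem_Ioc, max_lt_iff, le_min_iff] at hq
      exact mem_product.2 ⟨mem_Ioc.2 ⟨zero_le.trans_lt hq.1.1.1, hq.1.2.1.trans
        (Nat.div_le_div_left (Nat.mul_le_mul_left a (dpY_le hp.pos))
          (Nat.mul_pos a0 (dpY_pos p)))⟩, mem_Ioc.2 hq.2⟩
    · simp only [dpTrm, Dat.A, mem_Ioc]
      split_ifs with h1 h2
      · exact absurd (mem_product.2 ⟨mem_Ioc.2 ⟨max_lt h1.1 h2.1, le_min h1.2 h2.2⟩,
          (mem_product.1 hq).2⟩) h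
      all_goals simp
  have w0 : ∀ d d', 0 ≤ dpW d d' := fun d d' => by
    unfold dpW
    positivity
  rw [e]
  by_cases hn : ((p : ℤ) - p').natAbs * H ≤ dpY p
  · refine le_add_of_nonneg_of_le ?_ (div_le_div_of_nonneg_right ?_ y0.le)
    · have := w0 (a, p, B, C) (a, p', B, C')
      have := w0 (a, p', B, C') (a, p, B, C)
      have := V0 (dpQ (a, p, B, C) (a, p', B, C'))
      split_ifs
      · positivity
      · rfl
    · rw [dpBad, filter_true_of_mem fun _ _ => Or.inl hn]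
      refine sum_le_sum fun q _ => (le_abs_self _).trans ?_
      rw [abs_mul, abs_mul (dpG _ _ _)]
      exact mul_le_of_le_one_left (by positivity) (hF1 _ _)
  have hpp : p ≠ p' := by
    rintro rfl
    simp at hn
  have hd : dpD (a, p', B, C') (a, p, B, C) = ((p : ℤ) - p').natAbs := by
    simp only [dpD]
    omega
  simp only [dpBad, hn, false_or, dpW, dpQ, hd, Dat.A, Dat.B, Dat.C, hY, if_pos hpp]
  simp only [dpD]
  obtain ⟨u, hu⟩ : (p : ℤ) - p' ∣ ((p : ℤ) - p').natAbs := Int.dvd_natAbs.2 dvd_rfl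
  obtain ⟨v, hv⟩ : (((p : ℤ) - p').natAbs : ℤ) ∣ (p : ℤ) - p' := Int.natAbs_dvd.2 dvd_rfl
  have p1 : p ≤ D := (Nat.le_mul_of_pos_left p a0).trans A1
  have p2 : p' ≤ D := (Nat.le_mul_of_pos_left p' a0).trans A1'
  have d0 : 0 < ((p : ℤ) - p').natAbs := by omega
  have d1 : ((p : ℤ) - p').natAbs ≤ D := by omega
  have d2 : a * ((p : ℤ) - p').natAbs = (((a * p : ℕ) : ℤ) - (a * p' : ℕ)).natAbs := by
    rw [Nat.cast_mul, Nat.cast_mul, ← mul_sub, Int.natAbs_mul, Int.natAbs_natCast]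
  generalize ((p : ℤ) - p').natAbs = δ at *
  have Q0 : 0 < 64 * (a * p) * (a * p') * B * B * C * C' * δ := by positivity
  have m1 : ∀ c : ℕ, 0 < a * (16 * B) * (δ / c.gcd δ) ∧ a * (16 * B) * (δ / c.gcd δ) ≤
      64 * (a * p) * (a * p') * B * B * C * C' * δ := fun c =>
    ⟨Nat.mul_pos (by positivity) (Nat.div_pos (Nat.gcd_le_right _ d0)
      (Nat.gcd_pos_of_pos_right _ d0)), (Nat.mul_le_mul_left _ (Nat.div_le_self _ _)).trans
      (Nat.le_of_dvd Q0 ⟨4 * p * a * p' * B * C * C', by ring⟩)⟩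
  have DN : ∀ k ≤ 200, D ^ k ≤ N := fun k hk => (Nat.pow_le_pow_right (by omega) hk).trans hD
  have N1 : H ^ 2 ≤ N := HD.trans (by exact_mod_cast pow_one D ▸ DN 1 (by norm_num))
  have H0 : 0 < H := by linarith
  have H4 : 4 ≤ H ^ 2 := by nlinarith
  have N0 : (0 : ℝ) < N := by linarith
  have l1 : (N : ℝ) / H ^ 2 ≤ ⌈N / H ^ 2⌉₊ := Nat.le_ceil _
  have l2 : (⌈N / H ^ 2⌉₊ : ℝ) ≤ 2 * (N / H ^ 2) := by
    have h1 := Nat.ceil_lt_add_one (show 0 ≤ (N : ℝ) / H ^ 2 by positivity)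
    have h2 : 1 ≤ (N : ℝ) / H ^ 2 := (one_le_div (by positivity)).2 N1
    linarith
  have l0 : 0 < ⌈N / H ^ 2⌉₊ := Nat.ceil_pos.2 (by positivity)
  generalize ⌈N / H ^ 2⌉₊ = l at *
  have l3 : (l : ℝ) * H ^ 2 ≤ 2 * N := by rwa [← mul_div_assoc, le_div_iff₀ (by positivity)] at l2
  have l4 : (0 : ℝ) < l := by exact_mod_cast l0
  have a0' : (0 : ℝ) < a := by exact_mod_cast a0
  have B0' : (0 : ℝ) < B := by exact_mod_cast B0
  have hn' := (not_le.1 hn).le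
  have key := dp_pair (F := fun x y => Φ (a, p, B, C) x y * Φ (a, p', B, C') x y)
    (m := 4 * a * p * p' * B * C * C') (l := l) (w₁ := ⌈4 * N / (a * dpY p * H)⌉₊)
    (w₂ := ⌈N / (B * H)⌉₊) hV (V0 _) d2
    (fun h => hpp (Nat.eq_of_mul_eq_mul_left a0 h)) (show 0 < 16 * B by omega)
    (Nat.Coprime.coprime_dvd_right ⟨B ^ 3, by ring⟩ (cA.pow_right 4))
    (Nat.Coprime.coprime_dvd_right ⟨B ^ 3, by ring⟩ (cA'.pow_right 4)) C0 C0'
    (fun x y x' y' h1 h2 => by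
      have e1 : ((4 * (a * p) * B * C : ℕ) : ℤ) ∣ (4 * a * p * p' * B * C * C' : ℕ) :=
        Int.natCast_dvd_natCast.2 ⟨p' * C', by ring⟩
      have e2 : ((4 * (a * p') * B * C' : ℕ) : ℤ) ∣ (4 * a * p * p' * B * C * C' : ℕ) :=
        Int.natCast_dvd_natCast.2 ⟨p * C, by ring⟩
      simp only [P x y x' y' (e1.trans h1) (e1.trans h2), P' x y x' y' (e2.trans h1) (e2.trans h2)])
    hF1 ⟨u, by push_cast; rw [hu]; ring⟩ Q0 (by
      refine le_trans (Nat.pow_le_pow_left (show _ ≤ D ^ 6 * D * D * D * D * D * D * D by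
        gcongr
        exact Nat.pow_le_pow_left D2 6) 5) (le_of_eq_of_le (by ring) (DN 65 (by norm_num))))
    (dp_X C0 C1 (DN 2 (by norm_num))) (dp_X C0' C1' (DN 2 (by norm_num))) l0
    (by exact_mod_cast (by nlinarith : (l : ℝ) ≤ N)) (m1 C') (m1 C)
    (fun w t h => dp_k (Nat.Coprime.coprime_dvd_right ⟨a ^ 3 * p' ^ 4 * B ^ 3, by ring⟩
      (cC'.pow_right 4)) C0' ⟨-v * w, by push_cast at h ⊢; linear_combination h - a * 16 * B * w * hv⟩)
    (fun w t h => dp_k (Nat.Coprime.coprime_dvd_right ⟨a ^ 3 * p ^ 4 * B ^ 3, by ring⟩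
      (cC.pow_right 4)) C0 ⟨v * w, by push_cast at h ⊢; linear_combination h + a * 16 * B * w * hv⟩)
    (by
      have h1 := Nat.le_ceil (4 * N / (a * dpY p * H))
      generalize ⌈4 * N / (a * dpY p * H)⌉₊ = w at *
      rw [div_le_iff₀ (by positivity)] at h1
      have h2 : 2 * (l : ℝ) * H ^ 2 ≤ a * δ * w * H ^ 2 :=
        calc _ ≤ w * (a * dpY p * H) := by linarith
          _ ≤ w * (a * (δ * H) * H) := by gcongr
          _ = _ := by ring
      exact_mod_cast le_of_mul_le_mul_right h2 (by positivity))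
    (by
      have h1 := Nat.le_ceil (N / (B * H))
      generalize ⌈N / (B * H)⌉₊ = w at *
      rw [div_le_iff₀ (by positivity)] at h1
      have h3 : (p : ℝ) + p' ≤ 4 * dpY p := by
        have := dpY_lt p
        have := hY ▸ dpY_lt p'
        exact_mod_cast (by omega : p + p' ≤ 4 * dpY p)
      have h2 : (a * p + a * p') * (l : ℝ) * H ^ 2 ≤ 16 * B * (a * δ) * w * H ^ 2 :=
        calc _ = a * (p + p') * (l * H ^ 2) := by ring
          _ ≤ a * (4 * (δ * H)) * (2 * (w * (B * H))) := by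
            gcongr a * ?_ * ?_
            · linarith
            · linarith
          _ = 8 * (B * (a * δ) * w * H ^ 2) := by ring
          _ ≤ 16 * (B * (a * δ) * w * H ^ 2) := by gcongr; norm_num
          _ = _ := by ring
      exact_mod_cast le_of_mul_le_mul_right h2 (by positivity))
    fun q hq => dp_om A0 A0' B0 hq
  refine (div_le_div_of_nonneg_right ((le_abs_self _).trans key) y0.le).trans ?_
  rw [add_div]
  refine add_le_add ?_ le_rfl
  have c1 : 3 * (N : ℝ) / l + 1 ≤ 4 * H ^ 2 := by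
    rw [div_le_iff₀ (by positivity)] at l1
    have : 3 * (N : ℝ) / l ≤ 3 * H ^ 2 := (div_le_iff₀ l4).2 (by linarith)
    linarith
  have := V0 (64 * (a * p) * (a * p') * B * B * C * C' * δ)
  calc _ ≤ (4 * H ^ 2) ^ 2 * (16 * N ^ 2 * V (64 * (a * p) * (a * p') * B * B * C * C' * δ) /
        (C * C') * (((a * (16 * B) * (δ / C'.gcd δ) : ℕ) : ℝ)⁻¹ +
        ((a * (16 * B) * (δ / C.gcd δ) : ℕ) : ℝ)⁻¹)) / dpY p := by gcongr
    _ = _ := by
      generalize δ / C'.gcd δ = s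
      generalize δ / C.gcd δ = t
      push_cast
      ring

end Pool.Agent.Lib.RankZero
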