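import Pool.Agent.Lib.MP_6073f3_nt.Selmer

/-!
The parity of the corank of a symmetric matrix over the field with two elements.
-/

namespace Pool.Agent.Lib.RankZero

open Finset Matrix Pool.Agent.Lib.TorsRank

variable {κ : Type} [Fintype κ] [DecidableEq κ]

theorem z2 (x : ZMod 2) : x = 0 ∨ x = 1 := by revert x; decide

omit [Fintype κ] [DecidableEq κ] in
theorem vv (v : κ → ZMod 2) : v + v = 0 := funext fun i => CharTwo.add_self_eq_zero (v i)

omit [Fintype κ] [DecidableEq κ] in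
theorem vww (v w : κ → ZMod 2) : v + w + w = v := by rw [add_assoc, vv, add_zero]

omit [Fintype κ] [DecidableEq κ] in
theorem sum_sg_zero {s : Finset (κ → ZMod 2)} (f : (κ → ZMod 2) → ZMod 2) (w : κ → ZMod 2)
    (hs : ∀ v ∈ s, v + w ∈ s) (hf : ∀ v ∈ s, f (v + w) = f v + 1) : ∑ v ∈ s, sg2 (f v) = 0 := by
  have : ∑ v ∈ s, sg2 (f v) = ∑ v ∈ s, -sg2 (f v) :=
    sum_nbij' (· + w) (· + w) hs hs (fun v _ => vww v w) (fun v _ => vww v w) fun v hv => by
      rw [hf v hv, sg2_add]; simp [sg2]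
  rw [sum_neg_distrib] at this
  omega

theorem sum_sg_dot (w : κ → ZMod 2) :
    ∑ v : κ → ZMod 2, sg2 (v ⬝ᵥ w) = if w = 0 then 2 ^ Fintype.card κ else 0 := by
  split_ifs with h
  · simp [h, sg2]
  · obtain ⟨i, hi⟩ := Function.ne_iff.1 h
    exact sum_sg_zero _ (Pi.single i 1) (fun _ _ => mem_univ _) fun v _ => by
      rw [add_dotProduct, single_dotProduct, one_mul, (z2 (w i)).resolve_left hi]

theorem alt_sq (B : Matrix κ κ (ZMod 2)) (hs : ∀ i j, B i j = B j i) (hd : ∀ i, B i i = 0) :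
    IsSquare (2 ^ Fintype.card κ * #{v : κ → ZMod 2 | B *ᵥ v = 0}) := by
  let f := Fintype.equivFin κ
  let U : Matrix κ κ (ZMod 2) := Matrix.of fun i j => if f i < f j then B i j else 0
  have hU : B = U + Uᵀ := by
    ext i j
    rcases lt_trichotomy (f i) (f j) with h | h | h
    · simp [U, h, h.not_gt]
    · obtain rfl := f.injective h
      simp [U, hd]
    · simp [U, h, h.not_gt, hs i j]
  let Q : (κ → ZMod 2) → (κ → ZMod 2) → ZMod 2 := fun l v => v ⬝ᵥ U *ᵥ v + l ⬝ᵥ v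
  have hQ : ∀ l v w, Q l (v + w) = Q l v + Q l w + v ⬝ᵥ B *ᵥ w := fun l v w => by
    simp only [Q, hU, mulVec_add, add_mulVec, add_dotProduct, dotProduct_add, mulVec_transpose]
    rw [dotProduct_mulVec w U v, dotProduct_comm v (w ᵥ* U)]
    ring
  obtain ⟨l, hl⟩ : ∃ l, ∑ v, sg2 (Q l v) ≠ 0 := by
    by_contra h
    push Not at h
    have h1 : ∑ l, ∑ v, sg2 (Q l v) = 2 ^ Fintype.card κ := by
      rw [sum_comm]
      simp only [Q, sg2_add, ← mul_sum, sum_sg_dot]
      simp [sg2]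
    simp only [h, sum_const_zero] at h1
    exact absurd h1 (by positivity)
  have h1 : (∑ v, sg2 (Q l v)) * ∑ v, sg2 (Q l v) =
      2 ^ Fintype.card κ * ∑ w with B *ᵥ w = 0, sg2 (Q l w) := by
    rw [sum_mul_sum]
    have : ∀ v, ∑ w, sg2 (Q l v) * sg2 (Q l w) = ∑ w, sg2 (Q l w) * sg2 (v ⬝ᵥ B *ᵥ w) := fun v => by
      rw [← Equiv.sum_comp (Equiv.addLeft v)]
      refine sum_congr rfl fun w _ => ?_
      rw [Equiv.coe_addLeft, hQ, ← sg2_add, ← sg2_add, ← add_assoc, ← add_assoc,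
        CharTwo.add_self_eq_zero, zero_add]
    simp only [this]
    rw [sum_comm]
    simp only [← mul_sum, sum_sg_dot]
    rw [sum_filter, mul_sum]
    exact sum_congr rfl fun w _ => by split_ifs <;> ring
  by_cases h : ∀ w, B *ᵥ w = 0 → Q l w = 0
  · rw [sum_congr (s₁ := filter _ _) rfl (g := fun _ => 1) fun w hw => by
      rw [h w (mem_filter.1 hw).2]; rfl] at h1
    rw [← Int.isSquare_natCast_iff]
    exact ⟨_, by simpa using h1.symm⟩
  · push Not at h
    obtain ⟨w, h2, h3⟩ := h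
    rw [sum_sg_zero (s := filter _ _) (Q l) w (fun v hv => by simpa [mulVec_add, h2] using hv) (fun v _ => by
      rw [hQ, h2, (z2 _).resolve_left h3]; simp)] at h1
    simp [hl] at h1

theorem sq_of_four {m k : ℕ} (h : IsSquare (2 ^ (2 * m) * k)) : IsSquare k := by
  obtain ⟨r, hr⟩ := h
  obtain ⟨s, rfl⟩ : 2 ^ m ∣ r := by
    rw [← Nat.pow_dvd_pow_iff two_ne_zero, ← pow_mul, mul_comm, sq, ← hr]
    exact Dvd.intro _ rfl
  exact ⟨s, Nat.eq_of_mul_eq_mul_left (show 0 < 2 ^ (2 * m) by positivity) (by rw [hr]; ring)⟩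

theorem sym_sq (M : Matrix κ κ (ZMod 2)) (hs : ∀ i j, M i j = M j i) (c : κ → ZMod 2)
    (hc : ∀ i, M i i = (M *ᵥ c) i) (hW : (Fintype.card κ : ZMod 2) = c ⬝ᵥ M *ᵥ c) :
    IsSquare #{v : κ → ZMod 2 | M *ᵥ v = 0} := by
  set l := M *ᵥ c with hl
  have h1 : ∀ v, c ⬝ᵥ M *ᵥ v = l ⬝ᵥ v := fun v => by
    rw [dotProduct_mulVec, ← mulVec_transpose, show Mᵀ = M from Matrix.ext fun i j => hs j i]
  have h2 : ∀ v, (M + vecMulVec l l) *ᵥ v = M *ᵥ v + (l ⬝ᵥ v) • l := fun v => by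
    rw [add_mulVec, vecMulVec_mulVec]; simp
  have h3 := alt_sq (M + vecMulVec l l) (fun i j => by simp [vecMulVec_apply, hs i j, mul_comm])
    fun i => by
      rw [Matrix.add_apply, vecMulVec_apply, hc]
      rcases z2 (l i) with h | h <;> rw [h] <;> rfl
  have h4 : ∀ v, M *ᵥ v = 0 → l ⬝ᵥ v = 0 := fun v h => by rw [← h1, h, dotProduct_zero]
  simp only [h2] at h3
  rcases z2 (c ⬝ᵥ l) with h | h <;> rw [h] at hW
  · obtain ⟨m, hm⟩ := (ZMod.natCast_eq_zero_iff_even.1 hW).two_dvd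
    rw [hm, filter_congr (q := fun v => M *ᵥ v = 0) fun v _ => ⟨fun h5 => by
      have := congrArg (c ⬝ᵥ ·) h5
      simp only [dotProduct_add, h1, dotProduct_smul, h, smul_zero, add_zero,
        dotProduct_zero] at this
      simpa [this] using h5, fun h5 => by simp [h5, h4 v h5]⟩] at h3
    exact sq_of_four h3
  · obtain ⟨m, hm⟩ := ZMod.natCast_eq_one_iff_odd.1 hW
    have h5 : l ⬝ᵥ c = 1 := by rw [dotProduct_comm, h]
    have h6 : #{v : κ → ZMod 2 | M *ᵥ v + (l ⬝ᵥ v) • l = 0} = 2 * #{v : κ → ZMod 2 | M *ᵥ v = 0} := by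
      rw [← card_filter_add_card_filter_not (fun v => l ⬝ᵥ v = 0), two_mul, filter_filter,
        filter_filter]
      congr 1
      · exact congrArg card (filter_congr fun v _ =>
          ⟨fun h => by simpa [h.2] using h.1, fun h => by simp [h, h4 v h]⟩)
      · refine card_nbij' (· + c) (· + c) (fun v hv => ?_) (fun v hv => ?_) (fun v _ => vww v c)
          fun v _ => vww v c
        · simp only [coe_filter, mem_univ, true_and, Set.mem_ofPred_eq] at hv ⊢
          rw [mulVec_add]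
          simpa [(z2 _).resolve_left hv.2] using hv.1
        · simp only [coe_filter, mem_univ, true_and, Set.mem_ofPred_eq] at hv ⊢
          simp [mulVec_add, hv, h4 v hv, h5, ← hl, vv]
    rw [h6, hm, ← mul_assoc, ← pow_succ] at h3
    exact sq_of_four (m := m + 1) h3

end Pool.Agent.Lib.RankZero
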