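import Pool.Agent.Lib.MP_6073f3_nt.Z.Defs

/-!
A Cesaro form of the Perron formula.
-/

namespace Pool.Agent.Lib.RankZero

open Finset Complex MeasureTheory
open scoped Real

/-- The Cesaro weight. -/
noncomputable def sw_f (u : ℝ) : ℂ := ((max 0 (1 - u) : ℝ) : ℂ)

/-- Its Mellin transform. -/
noncomputable def sw_K (s : ℂ) : ℂ := 1 / s - 1 / (s + 1)

/-- The majorant. -/
noncomputable def sw_w (t : ℝ) : ℝ := (|t| + 3) ^ (1 / 2 : ℝ) / (1 + t ^ 2)

theorem sw_hasMellin {s : ℂ} (hs : 0 < s.re) : HasMellin sw_f s (sw_K s) := by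
  have h1 := hasMellin_one_Ioc hs
  have h2 := hasMellin_cpow_Ioc 1 (s := s) (by simp; linarith)
  have h3 := hasMellin_sub h1.1 h2.1
  rw [h1.2, h2.2] at h3
  have key : Set.EqOn (fun t : ℝ => (t : ℂ) ^ (s - 1) • sw_f t)
      (fun t : ℝ => (t : ℂ) ^ (s - 1) • ((Set.Ioc (0 : ℝ) 1).indicator (fun _ => (1 : ℂ)) t -
        (Set.Ioc (0 : ℝ) 1).indicator (fun t : ℝ => (t : ℂ) ^ (1 : ℂ)) t)) (Set.Ioi 0) := by
    intro t ht
    have ht0 : 0 < t := ht
    simp only
    congr 1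
    by_cases h : t ≤ 1
    · have hm : t ∈ Set.Ioc (0 : ℝ) 1 := ⟨ht0, h⟩
      rw [Set.indicator_of_mem hm, Set.indicator_of_mem hm, sw_f, max_eq_right (by linarith)]
      simp
    · have hm : t ∉ Set.Ioc (0 : ℝ) 1 := fun hh => h hh.2
      rw [Set.indicator_of_notMem hm, Set.indicator_of_notMem hm, sw_f,
        max_eq_left (by linarith [not_le.mp h])]
      simp
  refine ⟨(integrableOn_congr_fun key measurableSet_Ioi).2 h3.1, ?_⟩
  rw [sw_K, ← h3.2]
  exact setIntegral_congr_fun measurableSet_Ioi key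

theorem sw_K_norm {σ : ℝ} (hσ : 1 ≤ σ) (t : ℝ) : ‖sw_K (σ + t * I)‖ ≤ (1 + t ^ 2)⁻¹ := by
  have h0 : ∀ a : ℝ, 1 ≤ a → √(1 + t ^ 2) ≤ ‖(a : ℂ) + t * I‖ := by
    intro a ha
    rw [Complex.norm_add_mul_I]
    exact Real.sqrt_le_sqrt (by nlinarith)
  have hp : 0 < √(1 + t ^ 2) := Real.sqrt_pos.2 (by positivity)
  have h1 := h0 σ hσ
  have h2 := h0 (σ + 1) (by linarith)
  have e2 : ((σ + 1 : ℝ) : ℂ) + t * I = σ + t * I + 1 := by push_cast; ring
  rw [e2] at h2
  have n1 : (σ : ℂ) + t * I ≠ 0 := norm_pos_iff.1 (hp.trans_le h1)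
  have n2 : (σ : ℂ) + t * I + 1 ≠ 0 := norm_pos_iff.1 (hp.trans_le h2)
  have e : sw_K (σ + t * I) = ((σ + t * I) * (σ + t * I + 1))⁻¹ := by
    unfold sw_K
    field_simp
    ring
  rw [e, norm_inv, norm_mul]
  refine inv_anti₀ (by positivity) ?_
  calc 1 + t ^ 2 = √(1 + t ^ 2) * √(1 + t ^ 2) := (Real.mul_self_sqrt (by positivity)).symm
    _ ≤ _ := mul_le_mul h1 h2 hp.le (norm_nonneg _)

theorem sw_K_cont {σ : ℝ} (hσ : 1 ≤ σ) : Continuous fun t : ℝ => sw_K (σ + t * I) := by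
  unfold sw_K
  refine Continuous.sub (Continuous.div continuous_const (by fun_prop) fun t h => ?_)
    (Continuous.div continuous_const (by fun_prop) fun t h => ?_)
  · have := congrArg Complex.re h
    simp at this
    linarith
  · have := congrArg Complex.re h
    simp at this
    linarith

theorem sw_K_int {σ : ℝ} (hσ : 1 ≤ σ) : Integrable fun t : ℝ => sw_K (σ + t * I) :=
  Integrable.mono' integrable_inv_one_add_sq (sw_K_cont hσ).aestronglyMeasurable
    (Filter.Eventually.of_forall (sw_K_norm hσ))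

theorem sw_w_int : Integrable sw_w := by
  have h := (integrable_one_add_norm (E := ℝ) (μ := volume) (r := 3 / 2)
    (by simp; norm_num)).const_mul 4
  refine Integrable.mono' h ?_ (Filter.Eventually.of_forall fun t => ?_)
  · refine Continuous.aestronglyMeasurable ?_
    unfold sw_w
    refine Continuous.div (Continuous.rpow_const (by fun_prop) fun t => Or.inr (by norm_num))
      (by fun_prop) fun t => by positivity
  · have ha : 0 ≤ |t| := abs_nonneg t
    have hpos : 0 < 1 + |t| := by positivity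
    rw [Real.norm_eq_abs t, Real.norm_of_nonneg (by unfold sw_w; positivity), sw_w,
      div_le_iff₀ (by positivity)]
    have h1 : (|t| + 3) ^ (1 / 2 : ℝ) ≤ 2 * (1 + |t|) ^ (1 / 2 : ℝ) := by
      have h4 : (4 : ℝ) ^ (1 / 2 : ℝ) = 2 := by
        rw [show (4 : ℝ) = 2 ^ (2 : ℝ) by norm_num, ← Real.rpow_mul (by norm_num)]
        norm_num
      calc (|t| + 3) ^ (1 / 2 : ℝ) ≤ (4 * (1 + |t|)) ^ (1 / 2 : ℝ) :=
            Real.rpow_le_rpow (by positivity) (by linarith) (by norm_num)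
        _ = _ := by rw [Real.mul_rpow (by norm_num) hpos.le, h4]
    have h2 : (1 + |t|) ^ (1 / 2 : ℝ) = (1 + |t|) ^ (-(3 / 2) : ℝ) * (1 + |t|) ^ 2 := by
      rw [← Real.rpow_natCast, ← Real.rpow_add hpos]
      norm_num
    have h3 : (1 + |t|) ^ 2 ≤ 2 * (1 + t ^ 2) := by
      nlinarith [sq_abs t, sq_nonneg (|t| - 1)]
    have h4 : 0 ≤ (1 + |t|) ^ (-(3 / 2) : ℝ) := by positivity
    rw [h2] at h1
    nlinarith [mul_le_mul_of_nonneg_left h3 h4]

theorem sw_inv {σ : ℝ} (hσ : 1 ≤ σ) {u : ℝ} (hu : 0 < u) :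
    ∫ t : ℝ, (u : ℂ) ^ (-(σ + t * I)) * sw_K (σ + t * I) = 2 * π * sw_f u := by
  have hm : ∀ t : ℝ, mellin sw_f (σ + t * I) = sw_K (σ + t * I) := fun t =>
    (sw_hasMellin (by simp; linarith)).2
  have h := mellinInv_mellin_eq σ sw_f hu (sw_hasMellin (by simp; linarith)).1
    (by unfold Complex.VerticalIntegrable; simp_rw [hm]; exact sw_K_int hσ)
    (by unfold sw_f; fun_prop)
  rw [mellinInv] at h
  simp_rw [hm, smul_eq_mul] at h
  rw [← h, Complex.real_smul]
  have : (π : ℂ) ≠ 0 := by exact_mod_cast Real.pi_ne_zero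
  generalize (∫ t : ℝ, (u : ℂ) ^ (-(σ + t * I)) * sw_K (σ + t * I)) = J
  push_cast
  field_simp

theorem sw_cpow {n m : ℕ} (hn : n ≠ 0) (hm : m ≠ 0) (s : ℂ) :
    (((n : ℝ) / m : ℝ) : ℂ) ^ (-s) = (m : ℂ) ^ s / (n : ℂ) ^ s := by
  have hn' : (0 : ℝ) < n := by positivity
  have hm' : (0 : ℝ) < m := by positivity
  rw [cpow_def_of_ne_zero (by exact_mod_cast (div_pos hn' hm').ne'),
    cpow_def_of_ne_zero (by exact_mod_cast hm), cpow_def_of_ne_zero (by exact_mod_cast hn),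
    ← Complex.ofReal_log (div_pos hn' hm').le, Real.log_div hn'.ne' hm'.ne', ← Complex.exp_sub,
    ← Complex.natCast_log, ← Complex.natCast_log]
  congr 1
  push_cast
  ring

/-- The Cesaro sums are bounded by the size of the Dirichlet series on a vertical line. -/
theorem sw_perron : ∃ K : ℝ, 0 ≤ K ∧ ∀ (b : ℕ → ℂ) (σ B : ℝ) (m : ℕ), 1 ≤ σ → 0 ≤ B →
    LSeriesSummable b σ →
    (∀ t : ℝ, ‖LSeries b (σ + t * I)‖ ≤ B * (|t| + 3) ^ (1 / 2 : ℝ)) →
    ‖∑ n ∈ Ioc 0 m, b n * ((m : ℂ) - n)‖ ≤ K * B * (m * (m : ℝ) ^ σ) := by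
  refine ⟨∫ t, sw_w t, integral_nonneg fun t => by unfold sw_w; positivity, ?_⟩
  intro b σ B m hσ hB hs hb
  rcases Nat.eq_zero_or_pos m with rfl | hm
  · simp
  have hm' : (0 : ℝ) < m := by exact_mod_cast hm
  set F : ℕ → ℝ → ℂ := fun n t =>
    LSeries.term b (σ + t * I) n * ((m : ℂ) ^ (σ + t * I) * sw_K (σ + t * I)) with hF
  have hF1 : ∀ n : ℕ, n ≠ 0 → ∀ t : ℝ, F n t =
      b n * ((((n : ℝ) / m : ℝ) : ℂ) ^ (-(σ + t * I)) * sw_K (σ + t * I)) := by
    intro n hn t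
    simp only [hF]
    rw [sw_cpow hn hm.ne', LSeries.term_of_ne_zero hn]
    ring
  have hmn : ∀ t : ℝ, ‖(m : ℂ) ^ (σ + t * I)‖ = (m : ℝ) ^ σ := by
    intro t
    rw [Complex.norm_natCast_cpow_of_pos hm]
    simp
  have hF2 : ∀ n t, ‖F n t‖ = ‖LSeries.term b σ n‖ * ((m : ℝ) ^ σ * ‖sw_K (σ + t * I)‖) := by
    intro n t
    simp only [hF]
    rw [norm_mul, norm_mul, hmn, LSeries.norm_term_eq, LSeries.norm_term_eq]
    simp
  have hcont : ∀ n, Continuous (F n) := by
    intro n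
    rcases eq_or_ne n 0 with rfl | hn
    · simp only [hF, LSeries.term_zero, zero_mul]
      exact continuous_const
    · rw [show F n = _ from funext (hF1 n hn)]
      refine continuous_const.mul (Continuous.mul ?_ (sw_K_cont hσ))
      refine Continuous.const_cpow (by fun_prop) (Or.inl ?_)
      have : (0 : ℝ) < n := by positivity
      exact_mod_cast (div_pos this hm').ne'
  have hint : ∀ n, Integrable (F n) := by
    intro n
    refine Integrable.mono' ((((sw_K_int hσ).norm).const_mul ((m : ℝ) ^ σ)).const_mul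
      ‖LSeries.term b σ n‖) (hcont n).aestronglyMeasurable
      (Filter.Eventually.of_forall fun t => (hF2 n t).le)
  have hsum : Summable fun n => ∫ t, ‖F n t‖ := by
    simp_rw [hF2, integral_const_mul]
    exact (summable_norm_iff.2 hs).mul_right _
  have H := hasSum_integral_of_summable_integral_norm hint hsum
  have hval : ∀ n, n ≠ 0 → ∫ t, F n t = b n * (2 * π * sw_f ((n : ℝ) / m)) := by
    intro n hn
    simp_rw [hF1 n hn]
    have : (0 : ℝ) < n := by positivity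
    rw [integral_const_mul, sw_inv hσ (div_pos this hm')]
  have H2 : HasSum (fun n => ∫ t, F n t) (∑ n ∈ Ioc 0 m, ∫ t, F n t) := by
    refine hasSum_sum_of_ne_finset_zero fun n hn => ?_
    rcases eq_or_ne n 0 with rfl | hn0
    · simp [hF]
    · rw [hval n hn0]
      have h1 : m < n := by
        rw [mem_Ioc] at hn
        omega
      have h2 : (1 : ℝ) - n / m ≤ 0 := by
        rw [sub_nonpos, le_div_iff₀ hm', one_mul]
        exact_mod_cast h1.le
      simp [sw_f, max_eq_left h2]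
  have E := H2.unique H
  have E1 : ∑ n ∈ Ioc 0 m, ∫ t, F n t =
      (2 * π / m : ℝ) * ∑ n ∈ Ioc 0 m, b n * ((m : ℂ) - n) := by
    rw [mul_sum]
    refine sum_congr rfl fun n hn => ?_
    rw [mem_Ioc] at hn
    rw [hval n hn.1.ne']
    have h2 : (0 : ℝ) ≤ 1 - n / m := by
      rw [sub_nonneg, div_le_iff₀ hm', one_mul]
      exact_mod_cast hn.2
    have : (m : ℂ) ≠ 0 := by exact_mod_cast hm.ne'
    rw [sw_f, max_eq_right h2]
    push_cast
    field_simp
  have E2 : ‖∫ t, ∑' n, F n t‖ ≤ ∫ t, B * (m : ℝ) ^ σ * sw_w t := by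
    refine norm_integral_le_of_norm_le (sw_w_int.const_mul _)
      (Filter.Eventually.of_forall fun t => ?_)
    simp only [hF]
    rw [tsum_mul_right, norm_mul, norm_mul, hmn]
    calc _ ≤ B * (|t| + 3) ^ (1 / 2 : ℝ) * ((m : ℝ) ^ σ * (1 + t ^ 2)⁻¹) :=
          mul_le_mul (hb t) (mul_le_mul_of_nonneg_left (sw_K_norm hσ t) (by positivity))
            (by positivity) (by positivity)
      _ = _ := by unfold sw_w; ring
  rw [← E, E1, norm_mul, integral_const_mul, Complex.norm_real,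
    Real.norm_of_nonneg (by positivity)] at E2
  have hw : 0 ≤ ∫ t, sw_w t := integral_nonneg fun t => by unfold sw_w; positivity
  have h2 : 1 / (m : ℝ) ≤ 2 * π / m := by
    gcongr
    linarith [Real.pi_gt_three]
  have h3 := (mul_le_mul_of_nonneg_right h2 (norm_nonneg _)).trans E2
  rw [div_mul_eq_mul_div, one_mul, div_le_iff₀ hm'] at h3
  linarith

end Pool.Agent.Lib.RankZero
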