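import Pool.Agent.Lib.MP_6073f3_nt.Z.SW0

/-!
From bounds for Dirichlet series to bounds for partial sums.
-/

namespace Pool.Agent.Lib.RankZero

open Finset Complex
open scoped Real ArithmeticFunction.vonMangoldt

theorem sw_diff (b : ℕ → ℂ) (m h : ℕ) {G E : ℝ} (hh : 1 ≤ h)
    (hG : ∀ n, n ≤ m + h → ‖b n‖ ≤ G)
    (h1 : ‖∑ n ∈ Ioc 0 m, b n * ((m : ℂ) - n)‖ ≤ E)
    (h2 : ‖∑ n ∈ Ioc 0 (m + h), b n * (((m + h : ℕ) : ℂ) - n)‖ ≤ E) :
    ‖∑ n ∈ Ioc 0 m, b n‖ ≤ 2 * E / h + h * G := by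
  have hh' : (0 : ℝ) < h := by exact_mod_cast hh
  have e : (h : ℂ) * ∑ n ∈ Ioc 0 m, b n =
      ∑ n ∈ Ioc 0 (m + h), b n * (((m + h : ℕ) : ℂ) - n) - ∑ n ∈ Ioc 0 m, b n * ((m : ℂ) - n) -
        ∑ n ∈ Ioc m (m + h), b n * (((m + h : ℕ) : ℂ) - n) := by
    rw [← sum_Ioc_consecutive _ (Nat.zero_le m) (Nat.le_add_right m h), mul_sum,
      add_sub_right_comm, add_sub_cancel_right, ← sum_sub_distrib]
    refine sum_congr rfl fun n _ => ?_
    push_cast
    ring
  have h3 : ‖∑ n ∈ Ioc m (m + h), b n * (((m + h : ℕ) : ℂ) - n)‖ ≤ h * (G * h) := by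
    refine (norm_sum_le _ _).trans ?_
    refine (sum_le_card_nsmul _ _ (G * h) fun n hn => ?_).trans (by simp)
    rw [mem_Ioc] at hn
    rw [norm_mul]
    refine mul_le_mul (hG n hn.2) ?_ (norm_nonneg _) ((norm_nonneg _).trans (hG n hn.2))
    rw [← Nat.cast_sub hn.2, Complex.norm_natCast]
    exact_mod_cast (by omega : m + h - n ≤ h)
  have h4 : h * ‖∑ n ∈ Ioc 0 m, b n‖ ≤ E + E + h * (G * h) := by
    rw [← Complex.norm_natCast h, ← norm_mul, e, Complex.norm_natCast]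
    exact (norm_sub_le _ _).trans (add_le_add ((norm_sub_le _ _).trans (add_le_add h2 h1)) h3)
  rw [div_add' _ _ _ hh'.ne', le_div_iff₀ hh']
  linarith

theorem sw_abel (b : ℕ → ℂ) (w : ℕ → ℝ) (y N : ℕ) {E : ℝ} (hw0 : ∀ n, y < n → 0 ≤ w n)
    (hw : ∀ n, y < n → w (n + 1) ≤ w n) (hE : ∀ m, y ≤ m → m ≤ N → ‖∑ n ∈ Ioc y m, b n‖ ≤ E)
    (M : ℕ) (hy : y ≤ M) (hM : M ≤ N) : ‖∑ n ∈ Ioc y M, b n * w n‖ ≤ E * w (y + 1) := by
  have key : ∀ M, y ≤ M → M ≤ N →
      ‖∑ n ∈ Ioc y M, b n * w n - (∑ n ∈ Ioc y M, b n) * w (M + 1)‖ ≤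
        E * (w (y + 1) - w (M + 1)) := by
    intro M hy
    induction M, hy using Nat.le_induction with
    | base => intro _; simp
    | succ M hy ih =>
      intro hM
      have e : ∑ n ∈ Ioc y (M + 1), b n * w n - (∑ n ∈ Ioc y (M + 1), b n) * w (M + 1 + 1) =
          (∑ n ∈ Ioc y M, b n * w n - (∑ n ∈ Ioc y M, b n) * w (M + 1)) +
            (∑ n ∈ Ioc y (M + 1), b n) * ((w (M + 1) - w (M + 1 + 1) : ℝ) : ℂ) := by
        rw [sum_Ioc_succ_top hy, sum_Ioc_succ_top hy]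
        push_cast
        ring
      have hd : 0 ≤ w (M + 1) - w (M + 1 + 1) := sub_nonneg.2 (hw _ (by omega))
      rw [e]
      refine (norm_add_le _ _).trans ?_
      rw [norm_mul, Complex.norm_real, Real.norm_of_nonneg hd]
      have := mul_le_mul_of_nonneg_right (hE (M + 1) (by omega) hM) hd
      have := ih (by omega)
      linarith
  have h1 := key M hy hM
  have h2 : ‖(∑ n ∈ Ioc y M, b n) * w (M + 1)‖ ≤ E * w (M + 1) := by
    rw [norm_mul, Complex.norm_real, Real.norm_of_nonneg (hw0 _ (by omega))]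
    exact mul_le_mul_of_nonneg_right (hE M hy hM) (hw0 _ (by omega))
  have h3 := norm_add_le (∑ n ∈ Ioc y M, b n * w n - (∑ n ∈ Ioc y M, b n) * w (M + 1))
    ((∑ n ∈ Ioc y M, b n) * w (M + 1))
  rw [sub_add_cancel] at h3
  linarith

theorem sw_log_pow (A : ℕ) : ∃ C : ℝ, 1 ≤ C ∧ ∀ x : ℝ, 1 ≤ x → Real.log x ^ A ≤ C * √x := by
  refine ⟨(2 * (A + 1)) ^ A, one_le_pow₀ (by linarith [Nat.cast_nonneg (α := ℝ) A]), fun x hx => ?_⟩
  have hA : (0 : ℝ) < 2 * (A + 1) := by positivity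
  have h1 := Real.log_le_rpow_div (x := x) (ε := 1 / (2 * (A + 1))) (by linarith) (by positivity)
  rw [div_div_eq_mul_div, div_one, mul_comm] at h1
  refine (pow_le_pow_left₀ (Real.log_nonneg hx) h1 A).trans ?_
  rw [mul_pow, ← Real.rpow_natCast (x ^ _), ← Real.rpow_mul (by linarith), Real.sqrt_eq_rpow]
  refine mul_le_mul_of_nonneg_left (Real.rpow_le_rpow_of_exponent_le hx ?_) (by positivity)
  rw [div_mul_eq_mul_div, div_le_div_iff₀ hA (by norm_num)]
  linarith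

theorem sw_summable (a : ℕ → ℂ) (ha : ∀ n, ‖a n‖ ≤ Real.log n + 1) (k : ℕ) {σ : ℝ}
    (hσ : 1 < σ) : LSeriesSummable (fun n : ℕ => a n * (Real.log n : ℂ) ^ k) σ := by
  set δ : ℝ := (σ - 1) / 2 / (k + 1) with hδ
  have hδ0 : 0 < δ := by have := sub_pos.2 hσ; positivity
  refine LSeriesSummable_of_le_const_mul_rpow (x := 1 + (σ - 1) / 2) (by simp; linarith)
    ⟨(1 / δ + 1) ^ (k + 1), fun n hn => ?_⟩
  have hn1 : (1 : ℝ) ≤ n := by exact_mod_cast Nat.one_le_iff_ne_zero.2 hn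
  have hl : 0 ≤ Real.log n := Real.log_nonneg hn1
  have h1 := Real.log_le_rpow_div (x := n) (ε := δ) (by linarith) hδ0
  have h2 : 1 ≤ (n : ℝ) ^ δ := Real.one_le_rpow hn1 hδ0.le
  have h3 : Real.log n + 1 ≤ (1 / δ + 1) * (n : ℝ) ^ δ := by
    rw [add_mul, one_mul, one_div_mul_eq_div]
    linarith
  rw [norm_mul, norm_pow, Complex.norm_real, Real.norm_of_nonneg hl]
  calc ‖a n‖ * Real.log n ^ k ≤ (Real.log n + 1) * (Real.log n + 1) ^ k :=
        mul_le_mul (ha n) (pow_le_pow_left₀ hl (by linarith) k) (by positivity) (by linarith)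
    _ = (Real.log n + 1) ^ (k + 1) := by ring
    _ ≤ ((1 / δ + 1) * (n : ℝ) ^ δ) ^ (k + 1) := pow_le_pow_left₀ (by linarith) h3 _
    _ = _ := by
        rw [mul_pow, ← Real.rpow_natCast ((n : ℝ) ^ δ), ← Real.rpow_mul (by linarith)]
        congr 2
        rw [hδ]
        push_cast
        field_simp
        ring

/-- Partial sums of the coefficients weighted by a power of the logarithm. -/
theorem sw_T : ∃ K : ℝ, 0 ≤ K ∧ ∀ (a : ℕ → ℂ) (k N h : ℕ) (B : ℝ), 3 ≤ N → 1 ≤ h → h ≤ N →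
    0 ≤ B → (∀ n, ‖a n‖ ≤ Real.log n + 1) →
    (∀ s : ℂ, 1 < s.re → s.re ≤ 2 → ‖LSeries (fun n : ℕ => a n * (Real.log n : ℂ) ^ k) s‖ ≤
      B * (|s.im| + 3) ^ (1 / 2 : ℝ)) → ∀ m ≤ N,
    ‖∑ n ∈ Ioc 0 m, a n * (Real.log n : ℂ) ^ k‖ ≤
      K * B * (N : ℝ) ^ 2 / h + h * (3 * Real.log N) ^ (k + 1) := by
  obtain ⟨K, hK, H⟩ := sw_perron
  refine ⟨2 * (K * 12), by positivity, fun a k N h B hN h1 hh hB ha hb m hm => ?_⟩
  have hN' : (3 : ℝ) ≤ N := by exact_mod_cast hN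
  have hL : 1 ≤ Real.log N := by
    rw [Real.le_log_iff_exp_le (by linarith)]
    linarith [Real.exp_one_lt_d9]
  have hL2 : Real.log N ≤ Real.log (2 * N) := Real.log_le_log (by linarith) (by linarith)
  have hL3 : Real.log (2 * N) ≤ 2 * Real.log N := by
    rw [Real.log_mul (by norm_num) (by linarith)]
    linarith [Real.log_two_lt_d9]
  set σ : ℝ := 1 + 1 / Real.log (2 * N) with hσ
  have hσ1 : 1 < σ := by
    have : 0 < 1 / Real.log (2 * N) := div_pos one_pos (by linarith)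
    linarith
  have hσ2 : σ ≤ 2 := by
    have : 1 / Real.log (2 * N) ≤ 1 := by rw [div_le_one (by linarith)]; linarith
    linarith
  have key : ∀ j : ℕ, j ≤ 2 * N →
      ‖∑ n ∈ Ioc 0 j, a n * (Real.log n : ℂ) ^ k * ((j : ℂ) - n)‖ ≤
        K * 12 * B * (N : ℝ) ^ 2 := by
    intro j hj
    have hj' : (j : ℝ) ≤ 2 * N := by exact_mod_cast hj
    refine (H _ σ B j hσ1.le hB (sw_summable a ha k hσ1) fun t => ?_).trans ?_
    · simpa using hb (σ + t * I) (by simpa using hσ1) (by simpa using hσ2)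
    · have e1 : (j : ℝ) ^ σ ≤ (2 * N) ^ σ := Real.rpow_le_rpow (by positivity) hj' (by linarith)
      have e2 : (2 * N : ℝ) ^ σ = 2 * N * Real.exp 1 := by
        rw [hσ, Real.rpow_add (by linarith), Real.rpow_one, Real.rpow_def_of_pos (by linarith),
          mul_one_div_cancel (by linarith)]
      have e3 : (j : ℝ) ^ σ ≤ 2 * N * 3 := by
        rw [e2] at e1
        refine e1.trans (mul_le_mul_of_nonneg_left ?_ (by positivity))
        linarith [Real.exp_one_lt_d9]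
      have e4 : (j : ℝ) * (j : ℝ) ^ σ ≤ 2 * N * (2 * N * 3) :=
        mul_le_mul hj' e3 (by positivity) (by positivity)
      calc _ ≤ K * B * (2 * N * (2 * N * 3)) := mul_le_mul_of_nonneg_left e4 (by positivity)
        _ = _ := by ring
  refine (sw_diff _ m h (G := (3 * Real.log N) ^ (k + 1)) h1 (fun n hn => ?_) (key m (by omega))
    (key (m + h) (by omega))).trans (le_of_eq (by ring))
  have hl : 0 ≤ Real.log n := Real.log_natCast_nonneg n
  have hn' : (n : ℝ) ≤ 2 * N := by exact_mod_cast (by omega : n ≤ 2 * N)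
  have hl2 : Real.log n ≤ 2 * Real.log N := by
    rcases Nat.eq_zero_or_pos n with rfl | h0
    · simp; linarith
    · exact (Real.log_le_log (by exact_mod_cast h0) hn').trans hL3
  rw [norm_mul, norm_pow, Complex.norm_real, Real.norm_of_nonneg hl, pow_succ']
  exact mul_le_mul ((ha n).trans (by linarith)) (pow_le_pow_left₀ hl (by linarith) k)
    (by positivity) (by linarith)

/-- Partial sums of the coefficients. -/
theorem sw_main (A : ℕ) (C₀ : ℝ) (hC₀ : 0 ≤ C₀) : ∃ C : ℝ, 0 ≤ C ∧ ∀ (a : ℕ → ℂ) (N : ℕ), 3 ≤ N →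
    (∀ n, ‖a n‖ ≤ Real.log n + 1) →
    (∀ s : ℂ, 1 < s.re → s.re ≤ 2 →
      ‖LSeries (fun n : ℕ => a n * (Real.log n : ℂ) ^ (2 * A + 2)) s‖ ≤
        C₀ * Real.log N * (|s.im| + 3) ^ (1 / 2 : ℝ)) → ∀ M ≤ N,
    ‖∑ n ∈ Ioc 0 M, a n‖ ≤ C * (N / Real.log N ^ A) := by
  obtain ⟨K, hK, H⟩ := sw_T
  obtain ⟨D, hD1, hD⟩ := sw_log_pow (A + 1)
  set k := 2 * A + 2 with hk
  refine ⟨2 * D + 2 * 2 ^ k * (K * C₀ + 3 ^ (k + 1) * (1 + D)), by positivity,
    fun a N hN ha hb M hM => ?_⟩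
  have hN' : (3 : ℝ) ≤ N := by exact_mod_cast hN
  have hL : 1 ≤ Real.log N := by
    rw [Real.le_log_iff_exp_le (by linarith)]
    linarith [Real.exp_one_lt_d9]
  set L := Real.log N with hLd
  have hL0 : 0 < L := by linarith
  set X : ℝ := N / L ^ A with hX
  have hX0 : 0 < X := by positivity
  have hsq : √(N : ℝ) * √(N : ℝ) = N := Real.mul_self_sqrt (by linarith)
  have hsq1 : 1 ≤ √(N : ℝ) := Real.one_le_sqrt.2 (by linarith)
  have hLX : √(N : ℝ) * L ≤ D * X := by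
    rw [hX, ← mul_div_assoc, le_div_iff₀ (by positivity)]
    have := mul_le_mul_of_nonneg_left (hD N (by linarith)) (by linarith : 0 ≤ √(N : ℝ))
    calc _ = √(N : ℝ) * L ^ (A + 1) := by ring
      _ ≤ √(N : ℝ) * (D * √(N : ℝ)) := this
      _ = D * (√(N : ℝ) * √(N : ℝ)) := by ring
      _ = _ := by rw [hsq]
  set h := ⌈(N : ℝ) / L ^ (A + 1)⌉₊ with hh
  have hq : 0 < (N : ℝ) / L ^ (A + 1) := by positivity
  have hh1 : 1 ≤ h := Nat.ceil_pos.2 hq
  have hh2 : h ≤ N := Nat.ceil_le.2 (div_le_self (by linarith) (one_le_pow₀ hL))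
  have hh3 : (N : ℝ) / L ^ (A + 1) ≤ h := Nat.le_ceil _
  have hh4 : (h : ℝ) ≤ N / L ^ (A + 1) + 1 := (Nat.ceil_lt_add_one hq.le).le
  have hT := H a k N h (C₀ * L) hN hh1 hh2 (by positivity) ha hb
  set E : ℝ := (K * C₀ + 3 ^ (k + 1) * (1 + D)) * X * L ^ k with hE
  have hTE : K * (C₀ * L) * (N : ℝ) ^ 2 / h + h * (3 * L) ^ (k + 1) ≤ E := by
    have e1 : K * (C₀ * L) * (N : ℝ) ^ 2 / h ≤ K * C₀ * X * L ^ k := by
      calc _ ≤ K * (C₀ * L) * (N : ℝ) ^ 2 / (N / L ^ (A + 1)) :=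
            div_le_div_of_nonneg_left (by positivity) hq hh3
        _ = _ := by
            rw [hX, hk]
            field_simp
            ring
    have e2 : h * L ≤ (1 + D) * X := by
      have : (N : ℝ) / L ^ (A + 1) * L = X := by
        rw [hX]
        field_simp
        ring
      nlinarith [mul_le_mul_of_nonneg_right hh4 hL0.le]
    have e3 : h * (3 * L) ^ (k + 1) ≤ 3 ^ (k + 1) * (1 + D) * X * L ^ k := by
      calc _ = 3 ^ (k + 1) * L ^ k * (h * L) := by ring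
        _ ≤ 3 ^ (k + 1) * L ^ k * ((1 + D) * X) := mul_le_mul_of_nonneg_left e2 (by positivity)
        _ = _ := by ring
    rw [hE]
    linarith
  have hE0 : 0 ≤ E := by positivity
  set y := Nat.sqrt N with hy
  have hy1 : (y : ℝ) ≤ √(N : ℝ) := Real.nat_sqrt_le_real_sqrt
  have hy0 : 1 ≤ y := Nat.le_sqrt.2 (by omega)
  have hyN : y ≤ N := Nat.sqrt_le_self N
  have hy2 : L / 2 ≤ Real.log ((y + 1 : ℕ) : ℝ) := by
    have h1 : (N : ℝ) ≤ ((y + 1 : ℕ) : ℝ) ^ 2 := by exact_mod_cast (Nat.lt_succ_sqrt' N).le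
    have h2 := Real.log_le_log (by linarith) h1
    rw [Real.log_pow] at h2
    push_cast at h2 ⊢
    linarith
  have head : ∀ m ≤ y, ‖∑ n ∈ Ioc 0 m, a n‖ ≤ 2 * D * X := by
    intro m hm
    refine (norm_sum_le _ _).trans ((sum_le_card_nsmul _ _ (2 * L) fun n hn => ?_).trans ?_)
    · rw [mem_Ioc] at hn
      have : Real.log n ≤ L := Real.log_le_log (by exact_mod_cast hn.1)
        (by exact_mod_cast (by omega : n ≤ N))
      linarith [ha n]
    · have hm' : (m : ℝ) ≤ y := by exact_mod_cast hm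
      simp only [Nat.card_Ioc, tsub_zero, nsmul_eq_mul]
      nlinarith [mul_le_mul_of_nonneg_right (hm'.trans hy1) hL0.le]
  have hpos : 0 ≤ 2 * 2 ^ k * (K * C₀ + 3 ^ (k + 1) * (1 + D)) * X := by positivity
  rcases le_total M y with hMy | hMy
  · have := head M hMy
    linarith
  · have hlog : ∀ n : ℕ, y < n → 0 < Real.log n := fun n hn =>
      Real.log_pos (by exact_mod_cast (by omega : 1 < n))
    have tail := sw_abel (fun n => a n * (Real.log n : ℂ) ^ k) (fun n => (Real.log n ^ k)⁻¹) y N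
      (E := 2 * E) (fun n hn => by have := hlog n hn; positivity)
      (fun n hn => inv_anti₀ (pow_pos (hlog n hn) k) (pow_le_pow_left₀ (hlog n hn).le
        (Real.log_le_log (by exact_mod_cast (by omega : 0 < n)) (by push_cast; linarith)) k))
      (fun m h1 h2 => by
        rw [eq_sub_of_add_eq' (sum_Ioc_consecutive
          (fun n : ℕ => a n * (Real.log n : ℂ) ^ k) (Nat.zero_le y) h1)]
        refine (norm_sub_le _ _).trans ?_
        linarith [hT m h2, hT y hyN]) M hMy hM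
    have e : ∑ n ∈ Ioc y M, a n * (Real.log n : ℂ) ^ k * (((Real.log n ^ k)⁻¹ : ℝ) : ℂ) =
        ∑ n ∈ Ioc y M, a n := by
      refine sum_congr rfl fun n hn => ?_
      rw [mem_Ioc] at hn
      have : (Real.log n : ℂ) ≠ 0 := by exact_mod_cast (hlog n hn.1).ne'
      rw [Complex.ofReal_inv, Complex.ofReal_pow]
      field_simp
    rw [e] at tail
    have t2 : 2 * E * (Real.log ((y + 1 : ℕ) : ℝ) ^ k)⁻¹ ≤
        2 * 2 ^ k * (K * C₀ + 3 ^ (k + 1) * (1 + D)) * X := by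
      calc _ ≤ 2 * E * ((L / 2) ^ k)⁻¹ := mul_le_mul_of_nonneg_left
            (inv_anti₀ (by positivity) (pow_le_pow_left₀ (by positivity) hy2 k)) (by positivity)
        _ = _ := by
            rw [hE, div_pow]
            field_simp
    rw [← sum_Ioc_consecutive _ (Nat.zero_le y) hMy]
    refine (norm_add_le _ _).trans ?_
    linarith [head y le_rfl]

end Pool.Agent.Lib.RankZero
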