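import Pool.Agent.Lib.MP_6073f3_nt.Z.Step3a

/-!
The singular series of the approximant along the ternary equation.
-/

namespace Pool.Agent.Lib.RankZero

open Finset

/-- The periodic weight attached to a set of primes. -/
noncomputable def s3_Psi (A B C : ℕ) (Φ : ℤ → ℤ → ℝ) (T : Finset ℕ) (x y : ℤ) : ℝ :=
  (if (C : ℤ) ∣ A * x - 16 * B * y then Φ x y else 0) * ∏ q ∈ T, s3_g q ((A * x - 16 * B * y) / C)

theorem s3_per {A B C r : ℕ} (hC : 1 ≤ C) {Φ : ℤ → ℤ → ℝ} (hΦ : Per (4 * A * B * C) Φ)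
    {T : Finset ℕ} (hT : ∀ q ∈ T, q ∣ r) : Per (4 * A * B * C * r) (s3_Psi A B C Φ T) := by
  rintro x y x' y' ⟨a, ha⟩ ⟨b, hb⟩
  have hC0 : (C : ℤ) ≠ 0 := by exact_mod_cast (by omega : C ≠ 0)
  have e : A * x' - 16 * B * y' = A * x - 16 * B * y + C * (r * (4 * A * B * (A * a - 16 * B * b))) := by
    push_cast at ha hb
    linear_combination A * ha - 16 * B * hb
  have h1 : Φ x y = Φ x' y' :=
    hΦ x y x' y' ⟨r * a, by rw [ha]; push_cast; ring⟩ ⟨r * b, by rw [hb]; push_cast; ring⟩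
  rw [s3_Psi, s3_Psi, e, Int.add_mul_ediv_left _ _ hC0, h1]
  congr 1
  · exact if_congr (dvd_add_left (dvd_mul_right _ _)).symm rfl rfl
  · refine prod_congr rfl fun q hq => if_congr (dvd_add_left ?_).symm rfl rfl
    exact (Int.natCast_dvd_natCast.2 (hT q hq)).mul_right _

theorem s3_mean_step {A B C M q r : ℕ} (hq : q.Prime) (hA : 1 ≤ A) (hB : 1 ≤ B) (hC : 1 ≤ C)
    (cA : A.Coprime (2 * B)) (cC : C.Coprime (2 * A * B)) (hr0 : 1 ≤ r)
    (hM : M = 4 * A * B * C * r) (hr : ¬ q ∣ r) {G : ℤ → ℤ → ℝ} (hG : Per M G)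
    (hs : ∀ x y, G x y ≠ 0 → (C : ℤ) ∣ A * x - 16 * B * y) :
    mean (M * q) (fun x y => G x y * s3_g q ((A * x - 16 * B * y) / C))
      = s3_gam A B C q * mean M G := by
  have hM0 : 0 < M := by rw [hM]; positivity
  have h1 : (0 : ℝ) < M.totient := by exact_mod_cast Nat.totient_pos.2 hM0
  have h2 : (0 : ℝ) < (M * q).totient := by
    exact_mod_cast Nat.totient_pos.2 (Nat.mul_pos hM0 hq.pos)
  rw [mean, mean, ← mul_div_assoc, div_eq_div_iff (by positivity) (by positivity),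
    s3_sum_range_mul, sum_mul, mul_sum, sum_mul]
  refine sum_congr rfl fun x _ => ?_
  simp only [s3_sum_range_mul M q]
  rw [sum_comm, sum_mul, mul_sum, sum_mul]
  refine sum_congr rfl fun y _ => ?_
  have hc : ∀ x i : ℕ, (M * i + x).Coprime (M * q) ↔ x.Coprime M ∧ ¬ q ∣ M * i + x := by
    intro x i
    rw [Nat.coprime_mul_iff_right, Nat.coprime_mul_left_add_left, Nat.coprime_comm (m := q),
      hq.coprime_iff_not_dvd]
  have hG' : ∀ i j : ℕ, G ((M * i + x : ℕ) : ℤ) ((M * j + y : ℕ) : ℤ) = G x y := fun i j =>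
    (hG x y _ _ ⟨i, by push_cast; ring⟩ ⟨j, by push_cast; ring⟩).symm
  simp only [hc, hG']
  by_cases h : x.Coprime M ∧ y.Coprime M
  · by_cases h0 : G x y = 0
    · simp [h0]
    have key := s3_local hq hC cA cC hM hr h.1 h.2 (hs x y h0)
    rw [if_pos h, mul_right_comm (s3_gam A B C q), ← key, mul_right_comm]
    congr 1
    rw [sum_mul]
    refine sum_congr rfl fun i _ => ?_
    rw [sum_mul]
    refine sum_congr rfl fun j _ => ?_
    by_cases h' : ¬ q ∣ M * i + x ∧ ¬ q ∣ M * j + y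
    · rw [if_pos h', if_pos ⟨⟨h.1, h'.1⟩, h.2, h'.2⟩, mul_comm]
    · rw [if_neg h', if_neg (by tauto), zero_mul]
  · rw [if_neg h, sum_eq_zero fun i _ => sum_eq_zero fun j _ => if_neg (by tauto)]
    ring

theorem s3_mean {A B C : ℕ} (hA : 1 ≤ A) (hB : 1 ≤ B) (hC : 1 ≤ C)
    (cA : A.Coprime (2 * B)) (cC : C.Coprime (2 * A * B)) {Φ : ℤ → ℤ → ℝ}
    (hΦ : Per (4 * A * B * C) Φ) (T : Finset ℕ) (hT : ∀ q ∈ T, q.Prime) :
    mean (4 * A * B * C * ∏ q ∈ T, q) (s3_Psi A B C Φ T)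
      = (∏ q ∈ T, s3_gam A B C q) *
        mean (4 * A * B * C) fun x y => if (C : ℤ) ∣ A * x - 16 * B * y then Φ x y else 0 := by
  induction T using Finset.induction_on with
  | empty =>
    rw [prod_empty, prod_empty, mul_one, one_mul]
    congr 1
    funext x y
    rw [s3_Psi, prod_empty, mul_one]
  | insert q T hqT ih =>
    have hq := hT q (mem_insert_self _ _)
    have hT' : ∀ p ∈ T, p.Prime := fun p hp => hT p (mem_insert_of_mem hp)
    have hr : ¬ q ∣ ∏ p ∈ T, p := by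
      intro h
      obtain ⟨p, hp, h'⟩ := (Prime.dvd_finsetProd_iff hq.prime _).1 h
      exact hqT (((Nat.prime_dvd_prime_iff_eq hq (hT' p hp)).1 h') ▸ hp)
    have key := s3_mean_step hq hA hB hC cA cC (prod_pos fun p hp => (hT' p hp).pos) rfl hr
      (s3_per hC hΦ (T := T) fun p hp => dvd_prod_of_mem _ hp)
      (fun x y h => by
        by_contra h'
        exact h (by rw [s3_Psi, if_neg h', zero_mul]))
    rw [prod_insert hqT, prod_insert hqT, mul_assoc (s3_gam A B C q), ← ih hT', ← key, mul_comm q,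
      ← mul_assoc]
    congr 1
    funext x y
    rw [s3_Psi, s3_Psi, prod_insert hqT]
    ring

theorem s3_family (F : Finset (Finset ℕ)) (hd : ∀ T ∈ F, ∀ T' ⊆ T, T' ∈ F) (h0 : ∅ ∈ F)
    (p : ℕ → Prop) (γ : ℕ → ℝ) (hp : ∀ q, p q → 0 ≤ γ q) (P : Finset ℕ)
    (hP : ∀ T ∈ F, ∀ q ∈ T, ¬ p q → q ∈ P) (hb : ∏ q ∈ P, (1 + |γ q|) ≤ 5 / 3) :
    1 / 3 ≤ ∑ T ∈ F, ∏ q ∈ T, γ q := by
  classical
  set F' := F.filter fun T => ∀ q ∈ T, p q with hF'
  have hpos : ∀ T ∈ F', 0 ≤ ∏ q ∈ T, γ q := fun T hT =>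
    prod_nonneg fun q hq => hp q ((mem_filter.1 hT).2 q hq)
  have h1 : 1 ≤ ∑ T ∈ F', ∏ q ∈ T, γ q := by
    have := single_le_sum hpos (mem_filter.2 ⟨h0, by simp⟩)
    rwa [prod_empty] at this
  have h2 : 2 * ∑ T ∈ F', ∏ q ∈ T, γ q - ∑ T ∈ F, |∏ q ∈ T, γ q| ≤ ∑ T ∈ F, ∏ q ∈ T, γ q := by
    rw [hF', sum_filter, mul_sum, ← sum_sub_distrib]
    refine sum_le_sum fun T hT => ?_
    split_ifs with h
    · rw [abs_of_nonneg (hpos T (mem_filter.2 ⟨hT, h⟩))]
      linarith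
    · linarith [neg_abs_le (∏ q ∈ T, γ q)]
  let g : Finset ℕ × Finset ℕ → ℝ := fun t => (∏ q ∈ t.1, γ q) * ∏ q ∈ t.2, |γ q|
  let m : Finset ℕ → Finset ℕ × Finset ℕ := fun T => (T.filter p, T.filter fun q => ¬ p q)
  have hm : Set.InjOn m F := by
    intro T _ T' _ h
    rw [← filter_union_filter_not_eq p T, ← filter_union_filter_not_eq p T']
    exact congrArg₂ (· ∪ ·) (congrArg Prod.fst h) (congrArg Prod.snd h)
  have h3 : ∑ T ∈ F, |∏ q ∈ T, γ q| = ∑ t ∈ F.image m, g t := by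
    rw [sum_image hm]
    refine sum_congr rfl fun T _ => ?_
    rw [← prod_filter_mul_prod_filter_not T p, abs_mul, abs_prod (T.filter fun q => ¬ p q),
      abs_of_nonneg (prod_nonneg fun q hq => hp q (mem_filter.1 hq).2)]
  have h4 : ∑ t ∈ F.image m, g t ≤ ∑ t ∈ F' ×ˢ P.powerset, g t := by
    refine sum_le_sum_of_subset_of_nonneg (fun t ht => ?_) fun t ht _ => ?_
    · obtain ⟨T, hT, rfl⟩ := mem_image.1 ht
      refine mem_product.2 ⟨mem_filter.2 ⟨hd T hT _ (filter_subset _ _), fun q hq =>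
        (mem_filter.1 hq).2⟩, mem_powerset.2 fun q hq => ?_⟩
      exact hP T hT q (mem_filter.1 hq).1 (mem_filter.1 hq).2
    · exact mul_nonneg (hpos _ (mem_product.1 ht).1) (prod_nonneg fun _ _ => abs_nonneg _)
  have h5 : ∑ t ∈ F' ×ˢ P.powerset, g t = (∑ T ∈ F', ∏ q ∈ T, γ q) * ∏ q ∈ P, (1 + |γ q|) := by
    rw [prod_one_add, sum_mul_sum, sum_product]
  nlinarith

theorem s3_odd_sum (K : ℕ) :
    ∑ k ∈ range K, 1 / (((2 * k + 3 : ℕ) : ℝ) - 1) ^ 2 
      ≤ 1 / 2 - 1 / (2 * (2 * (K : ℝ) + 1)) := by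
  induction K with
  | zero => norm_num
  | succ K ih =>
    rw [sum_range_succ]
    have hK : (0 : ℝ) ≤ K := Nat.cast_nonneg K
    have : 1 / (((2 * K + 3 : ℕ) : ℝ) - 1) ^ 2
        ≤ 1 / (2 * (2 * (K : ℝ) + 1)) - 1 / (2 * (2 * ((K + 1 : ℕ) : ℝ) + 1)) := by
      push_cast
      rw [div_sub_div _ _ (by positivity) (by positivity),
        div_le_div_iff₀ (by nlinarith) (by positivity)]
      nlinarith
    linarith

theorem s3_series (A B C : ℕ) {R : ℕ} (hR : 1 ≤ R) :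
    1 / 3 ≤ ∑ r ∈ (Icc 1 R).filter Squarefree, ∏ q ∈ r.primeFactors, s3_gam A B C q := by
  classical
  have hinj : Set.InjOn Nat.primeFactors ((Icc 1 R).filter Squarefree : Finset ℕ) := by
    intro r hr r' hr' h
    rw [← Nat.prod_primeFactors_of_squarefree (mem_filter.1 hr).2,
      ← Nat.prod_primeFactors_of_squarefree (mem_filter.1 hr').2, h]
  rw [← sum_image (f := fun T => ∏ q ∈ T, s3_gam A B C q) hinj]
  refine s3_family _ ?_ ?_ (fun q => 1 ≤ q ∧ q ∣ 2 * A * B ∨ q = 2) _ ?_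
    (((range R).image fun k => 2 * k + 3).filter fun q => ¬ q ∣ 2 * A * B) ?_ ?_
  · intro T hT T' hT'
    obtain ⟨r, hr, rfl⟩ := mem_image.1 hT
    obtain ⟨hr1, hr2⟩ := mem_filter.1 hr
    have hd : ∏ q ∈ T', q ∣ r :=
      (prod_dvd_prod_of_subset _ _ _ hT').trans (Nat.prod_primeFactors_dvd r)
    have hp : ∀ q ∈ T', q.Prime := fun q hq => Nat.prime_of_mem_primeFactors (hT' hq)
    refine mem_image.2 ⟨∏ q ∈ T', q, mem_filter.2 ⟨mem_Icc.2 ⟨prod_pos fun q hq => (hp q hq).pos,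
      (Nat.le_of_dvd (mem_Icc.1 hr1).1 hd).trans (mem_Icc.1 hr1).2⟩,
      hr2.squarefree_of_dvd hd⟩, Nat.primeFactors_prod hp⟩
  · exact mem_image.2 ⟨1, mem_filter.2 ⟨mem_Icc.2 ⟨le_rfl, hR⟩, squarefree_one⟩, by simp⟩
  · intro q hq
    have h : 1 ≤ q ∧ q ∣ 2 * A * B := by
      rcases hq with h | rfl
      · exact h
      · exact ⟨one_le_two, ⟨A * B, by ring⟩⟩
    have : (1 : ℝ) ≤ q := by exact_mod_cast h.1
    rw [s3_gam, if_pos h.2]
    exact div_nonneg zero_le_one (by linarith)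
  · intro T hT q hq h
    obtain ⟨r, hr, rfl⟩ := mem_image.1 hT
    have hp := Nat.prime_of_mem_primeFactors hq
    have h1 := (Nat.le_of_mem_primeFactors hq).trans (mem_Icc.1 (mem_filter.1 hr).1).2
    have h2 := hp.two_le
    have h3 := hp.eq_two_or_odd
    refine mem_filter.2 ⟨mem_image.2 ⟨(q - 3) / 2, mem_range.2 (by omega), by omega⟩,
      fun h' => h (Or.inl ⟨hp.one_le, h'⟩)⟩
  · have h1 : ∑ q ∈ ((range R).image fun k => 2 * k + 3).filter fun q => ¬ q ∣ 2 * A * B,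
        |s3_gam A B C q| ≤ 1 / 2 := by
      have h2 : ∑ q ∈ ((range R).image fun k => 2 * k + 3).filter fun q => ¬ q ∣ 2 * A * B,
          |s3_gam A B C q|
          ≤ ∑ q ∈ (range R).image fun k : ℕ => 2 * k + 3, 1 / (((q : ℕ) : ℝ) - 1) ^ 2 := by
        rw [sum_filter]
        refine sum_le_sum fun q _ => ?_
        split_ifs with h
        · positivity
        · rw [s3_gam, if_neg h]
          split_ifs
          · rw [abs_zero]; positivity
          · rw [abs_div, abs_neg, abs_one, abs_of_nonneg (by positivity)]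
      rw [sum_image (fun a _ b _ h => by simpa using h)] at h2
      have h3 := s3_odd_sum R
      have h4 : (0 : ℝ) ≤ 1 / (2 * (2 * R + 1)) := by positivity
      linarith
    refine (prod_le_prod (g := fun q => Real.exp |s3_gam A B C q|) (fun _ _ => by positivity)
      fun q _ => by linarith [Real.add_one_le_exp |s3_gam A B C q|]).trans ?_
    rw [← Real.exp_sum]
    refine (Real.exp_le_exp.2 h1).trans ?_
    have h5 : Real.exp (1 / 2) * Real.exp (1 / 2) = Real.exp 1 := by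
      rw [← Real.exp_add]; norm_num
    have h6 := Real.exp_one_lt_d9
    nlinarith [Real.exp_pos (1 / 2)]

end Pool.Agent.Lib.RankZero
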